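import Mathlib

/-!
# Parameter integrals are holomorphic; analytic continuation in the rows
-/

set_option autoImplicit false

noncomputable section

open Complex MeasureTheory Metric Filter Topology

namespace NURow

/-- **A dominated parameter integral is holomorphic.** -/
theorem differentiableAt_integral {Ω : Type*} [MeasurableSpace Ω] {μ : Measure Ω} {z₀ : ℂ}
    {R : ℝ} (hR : 0 < R) {F : ℂ → Ω → ℂ} {b : Ω → ℝ}
    (hm : ∀ z ∈ ball z₀ R, AEStronglyMeasurable (F z) μ)
    (hd : ∀ᵐ ω ∂μ, DifferentiableOn ℂ (fun z => F z ω) (ball z₀ R))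
    (hb : ∀ᵐ ω ∂μ, ∀ z ∈ ball z₀ R, ‖F z ω‖ ≤ b ω) (hi : Integrable b μ) :
    DifferentiableAt ℂ (fun z => ∫ ω, F z ω ∂μ) z₀ := by
  have hz0 : z₀ ∈ ball z₀ R := mem_ball_self hR
  have hR4 : 0 < R / 4 := by positivity
  have hsub : ∀ z ∈ ball z₀ (R / 4), closedBall z (R / 4) ⊆ ball z₀ R := by
    intro z hz w hw
    rw [mem_ball] at hz ⊢
    rw [mem_closedBall] at hw
    have := dist_triangle w z z₀
    linarith
  -- the derivative
  set F' : ℂ → Ω → ℂ := fun z ω => deriv (fun z => F z ω) z with hF'
  have hmeas : AEStronglyMeasurable (F' z₀) μ := by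
    -- difference quotients along `z₀ + R / (2 (n + 1))`
    set h : ℕ → ℂ := fun n => ((R / 2 / (n + 1) : ℝ) : ℂ) with hh
    have hhpos : ∀ n : ℕ, (0 : ℝ) < R / 2 / (n + 1) := fun n => by positivity
    have hmem : ∀ n, z₀ + h n ∈ ball z₀ R := by
      intro n
      rw [mem_ball, dist_eq_norm, add_sub_cancel_left, hh, Complex.norm_real, Real.norm_eq_abs,
        abs_of_pos (hhpos n)]
      have h1 : (1 : ℝ) ≤ n + 1 := by
        have := Nat.cast_nonneg (α := ℝ) n
        linarith
      have h2 : R / 2 / (n + 1) ≤ R / 2 := div_le_self (by positivity) h1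
      linarith
    have hlim : Tendsto h atTop (𝓝[≠] 0) := by
      refine tendsto_nhdsWithin_iff.2 ⟨?_, Filter.Eventually.of_forall fun n => ?_⟩
      · have h1 : Tendsto (fun n : ℕ => (R / 2 / (n + 1) : ℝ)) atTop (𝓝 0) :=
          tendsto_const_div_atTop_nhds_zero_nat (R / 2) |>.comp (tendsto_add_atTop_nat 1) |>.congr
            fun n => by simp
        have h2 := (continuous_ofReal.tendsto 0).comp h1
        rw [ofReal_zero] at h2
        exact h2
      · have := (hhpos n).ne'
        simp only [Set.mem_compl_iff, Set.mem_singleton_iff, hh]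
        exact_mod_cast this
    refine aestronglyMeasurable_of_tendsto_ae (u := atTop)
      (f := fun (n : ℕ) ω => (h n)⁻¹ * (F (z₀ + h n) ω - F z₀ ω))
      (fun n => ((hm _ (hmem n)).sub (hm _ hz0)).const_mul _) ?_
    filter_upwards [hd] with ω hω
    have h1 : HasDerivAt (fun z => F z ω) (F' z₀ ω) z₀ :=
      ((hω z₀ hz0).differentiableAt (isOpen_ball.mem_nhds hz0)).hasDerivAt
    have h2 := (hasDerivAt_iff_tendsto_slope_zero.1 h1).comp hlim
    simpa [Function.comp_def, smul_eq_mul] using h2
  have key := hasDerivAt_integral_of_dominated_loc_of_deriv_le (μ := μ) (𝕜 := ℂ)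
    (F := F) (F' := F') (x₀ := z₀) (s := ball z₀ (R / 4)) (bound := fun ω => b ω / (R / 4))
    (ball_mem_nhds z₀ hR4)
    (by
      filter_upwards [ball_mem_nhds z₀ hR] with z hz
      exact hm z hz)
    (hi.mono' (hm _ hz0) (by
      filter_upwards [hb] with ω hω
      exact hω _ hz0))
    hmeas
    (by
      filter_upwards [hd, hb] with ω hω hbω z hz
      refine Complex.norm_deriv_le_of_forall_mem_sphere_norm_le hR4 ?_ ?_
      · refine DifferentiableOn.diffContOnCl ?_
        rw [closure_ball _ hR4.ne']
        exact hω.mono (hsub z hz)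
      · intro w hw
        exact hbω w (hsub z hz (sphere_subset_closedBall hw)))
    (hi.div_const _)
    (by
      filter_upwards [hd] with ω hω z hz
      have hz' : z ∈ ball z₀ R := hsub z hz (mem_closedBall_self hR4.le)
      exact ((hω z hz').differentiableAt (isOpen_ball.mem_nhds hz')).hasDerivAt)
  exact key.2.differentiableAt

/-- **Analytic continuation in the rows.**  A function of finitely many rows which is separately
holomorphic for rows of small real part and pairwise distinct imaginary parts, and vanishes at
imaginary rows, vanishes. -/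
theorem ac_rows {ι : Type*} [Fintype ι] [DecidableEq ι] {r : ℝ} (hr : 0 < r)
    {Φ : (ι → ℂ) → ℂ}
    (hΦ : ∀ x : ι → ℂ, (∀ i, |(x i).re| < r) → (∀ i j, i ≠ j → (x i).im ≠ (x j).im) → ∀ i,
      DifferentiableAt ℂ (fun z => Φ (Function.update x i z)) (x i))
    (h0 : ∀ x : ι → ℂ, (∀ i, (x i).re = 0) → (∀ i j, i ≠ j → (x i).im ≠ (x j).im) → Φ x = 0)
    {x : ι → ℂ} (hx : ∀ i, |(x i).re| < r) (hi : ∀ i j, i ≠ j → (x i).im ≠ (x j).im) :
    Φ x = 0 := by
  -- the rows outside `s` are imaginary
  suffices H : ∀ s : Finset ι, ∀ x : ι → ℂ, (∀ i, |(x i).re| < r) → (∀ i, i ∉ s → (x i).re = 0) →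
      (∀ i j, i ≠ j → (x i).im ≠ (x j).im) → Φ x = 0 from
    H Finset.univ x hx (fun i hi => absurd (Finset.mem_univ i) hi) hi
  clear hx hi x
  intro s
  induction s using Finset.induction_on with
  | empty =>
    intro x _ hx hi
    exact h0 x (fun i => hx i (Finset.notMem_empty i)) hi
  | insert a s ha ih =>
    intro x hx1 hx2 hi
    -- distance of the heights
    obtain ⟨δ, hδ, hδ'⟩ : ∃ δ : ℝ, 0 < δ ∧ ∀ j, j ≠ a → δ ≤ |(x j).im - (x a).im| := by
      by_cases hne : (Finset.univ.erase a).Nonempty
      · obtain ⟨j, hj, hj'⟩ := Finset.exists_min_image (Finset.univ.erase a)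
          (fun j => |(x j).im - (x a).im|) hne
        refine ⟨|(x j).im - (x a).im|, abs_pos.2 (sub_ne_zero.2 (hi _ _ (Finset.ne_of_mem_erase hj))),
          fun k hk => hj' k (Finset.mem_erase.2 ⟨hk, Finset.mem_univ k⟩)⟩
      · refine ⟨1, one_pos, fun j hj => ?_⟩
        exact absurd ⟨j, Finset.mem_erase.2 ⟨hj, Finset.mem_univ j⟩⟩ hne
    set U : Set ℂ := {z | |z.re| < r ∧ |z.im - (x a).im| < δ} with hU
    have hUo : IsOpen U := by
      exact IsOpen.inter (isOpen_lt continuous_re.abs continuous_const)
        (isOpen_lt (continuous_im.sub continuous_const).abs continuous_const)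
    have hUc : IsPreconnected U := by
      have h1 : Convex ℝ {z : ℂ | |z.re| < r} := by
        have : {z : ℂ | |z.re| < r} = {z : ℂ | -r < z.re} ∩ {z : ℂ | z.re < r} := by
          ext z
          simp [abs_lt]
        rw [this]
        exact (convex_halfSpace_re_gt _).inter (convex_halfSpace_re_lt _)
      have h2 : Convex ℝ {z : ℂ | |z.im - (x a).im| < δ} := by
        have : {z : ℂ | |z.im - (x a).im| < δ} =
            {z : ℂ | (x a).im - δ < z.im} ∩ {z : ℂ | z.im < (x a).im + δ} := by
          ext z
          simp only [Set.mem_ofPred_eq, Set.mem_inter_iff, abs_lt]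
          constructor
          · rintro ⟨h, h'⟩
            constructor <;> linarith
          · rintro ⟨h, h'⟩
            constructor <;> linarith
        rw [this]
        exact (convex_halfSpace_im_gt _).inter (convex_halfSpace_im_lt _)
      exact (h1.inter h2).isPreconnected
    -- an updated family is admissible
    have hre : ∀ z ∈ U, ∀ i, |(Function.update x a z i).re| < r := by
      intro z hz i
      by_cases h : i = a
      · subst h
        rw [Function.update_self]
        exact hz.1
      · rw [Function.update_of_ne h]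
        exact hx1 i
    have him : ∀ z ∈ U, ∀ i j, i ≠ j →
        (Function.update x a z i).im ≠ (Function.update x a z j).im := by
      intro z hz i j hij
      have hz2 := hz.2
      by_cases h : i = a
      · subst h
        rw [Function.update_self, Function.update_of_ne hij.symm]
        intro h1
        have := hδ' j hij.symm
        rw [← h1] at this
        linarith
      · by_cases h' : j = a
        · subst h'
          rw [Function.update_self, Function.update_of_ne h]
          intro h1
          have := hδ' i h
          rw [h1] at this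
          linarith
        · rw [Function.update_of_ne h, Function.update_of_ne h']
          exact hi i j hij
    have hdiff : DifferentiableOn ℂ (fun z => Φ (Function.update x a z)) U := by
      intro z hz
      have h1 := hΦ (Function.update x a z) (hre z hz) (him z hz) a
      simp only [Function.update_idem, Function.update_self] at h1
      exact h1.differentiableWithinAt
    have hana := hdiff.analyticOnNhd hUo
    -- the point of the imaginary axis
    set z₁ : ℂ := ((x a).im : ℂ) * I with hz₁
    have hz1re : z₁.re = 0 := by simp [hz₁]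
    have hz1im : z₁.im = (x a).im := by simp [hz₁]
    have hz1U : z₁ ∈ U := by
      refine ⟨?_, ?_⟩
      · rw [hz1re, abs_zero]; exact hr
      · rw [hz1im, sub_self, abs_zero]; exact hδ
    have hzero : ∀ z ∈ U, z.re = 0 → Φ (Function.update x a z) = 0 := by
      intro z hz hz0
      refine ih _ (hre z hz) (fun i hi => ?_) (him z hz)
      by_cases h : i = a
      · subst h
        rw [Function.update_self]
        exact hz0
      · rw [Function.update_of_ne h]
        exact hx2 i (by simp [h, hi])
    have hfreq : ∃ᶠ z in 𝓝[≠] z₁, Φ (Function.update x a z) = 0 := by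
      -- points `z₁ + i t`
      have hlim : Tendsto (fun t : ℝ => z₁ + (t : ℂ) * I) (𝓝[≠] 0) (𝓝[≠] z₁) := by
        refine tendsto_nhdsWithin_iff.2 ⟨?_, ?_⟩
        · have hc : Continuous fun t : ℝ => z₁ + (t : ℂ) * I := by fun_prop
          have h1 := hc.tendsto 0
          simp only [ofReal_zero, zero_mul, add_zero] at h1
          exact h1.mono_left nhdsWithin_le_nhds
        · filter_upwards [self_mem_nhdsWithin] with t ht
          simp only [Set.mem_compl_iff, Set.mem_singleton_iff, add_eq_left, mul_eq_zero, I_ne_zero,
            or_false]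
          exact_mod_cast ht
      have hev : ∀ᶠ t : ℝ in 𝓝[≠] 0, Φ (Function.update x a (z₁ + (t : ℂ) * I)) = 0 := by
        have h1 : ∀ᶠ t : ℝ in 𝓝[≠] (0 : ℝ), |t| < δ := by
          have : ∀ᶠ t : ℝ in 𝓝 (0 : ℝ), |t| < δ := by
            have h2 := (continuous_abs (G := ℝ)).tendsto 0
            rw [abs_zero] at h2
            exact h2.eventually (gt_mem_nhds hδ)
          exact this.filter_mono nhdsWithin_le_nhds
        filter_upwards [h1] with t ht
        refine hzero _ ⟨?_, ?_⟩ ?_
        · simp [hz1re, hr]
        · simp [hz1im, ht]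
        · simp [hz1re]
      exact hlim.frequently hev.frequently
    have hres := hana.eqOn_zero_of_preconnected_of_frequently_eq_zero hUc hz1U hfreq
    have hxa : x a ∈ U := ⟨hx1 a, by rw [sub_self, abs_zero]; exact hδ⟩
    have h1 := hres hxa
    simpa using h1

end NURow

end
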