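import Pool.Agent.NURow.GenQ
import Pool.Agent.NUP1L.Two3

/-!
# Stage 2 with different numbers of quanta of the two species

`n` quanta X, `n'` quanta Y; the one body functions of an object of signed charge `c` decay like
`exp (-(κ + 2 (n - n') c) |im|)`.
-/

set_option autoImplicit false
set_option linter.unusedSectionVars false

noncomputable section

open Complex MeasureTheory

/-! ## Two species with different numbers -/

namespace NUP1.Grand2

open Grand (f P)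

variable {κ E : Type*} [Fintype κ] [DecidableEq κ] [MeasurableSpace E] (μ : Measure E)
  [SigmaFinite μ] (chg : κ → ℕ) (wt : κ → ℂ) (pw cw : κ → κ → E → E → ℂ)

/-- grand canonical joint sum, different numbers -/
def Z3 (n n' : ℕ) (hX hY : κ → E → ℂ) : ℂ :=
  ∑ r' ∈ Finset.range (n' + 1), ((r'.factorial : ℕ) : ℂ)⁻¹ * ∑ k' : Fin r' → κ,
    if ∑ i, chg (k' i) = n' then (∏ i, wt (k' i)) *
      ∑ r ∈ Finset.range (n + 1), ((r.factorial : ℕ) : ℂ)⁻¹ * ∑ k : Fin r → κ,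
        if ∑ i, chg (k i) = n then (∏ i, wt (k i)) * J μ pw cw hX hY k k' else 0
    else 0

variable {κ' : Type*} [Fintype κ'] [DecidableEq κ']

/-- **Splitting of kinds.** -/
theorem Z3_split (π : κ' → κ) {hX hY : κ → E → ℂ} {hX' hY' : κ' → E → ℂ}
    (hhX : ∀ k t, hX k t = ∑ a ∈ Finset.univ.filter (fun a => π a = k), hX' a t)
    (hhY : ∀ k t, hY k t = ∑ a ∈ Finset.univ.filter (fun a => π a = k), hY' a t) (n n' : ℕ)
    (hI : ∀ (r r' : ℕ) (c : Fin r → κ') (c' : Fin r' → κ'), ∑ i, chg (π (c i)) = n →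
      ∑ i, chg (π (c' i)) = n' →
      Integrable (F (fun a b => pw (π a) (π b)) (fun a b => cw (π a) (π b)) hX' hY' c c')
        ((Measure.pi fun _ => μ).prod (Measure.pi fun _ => μ))) :
    Z3 μ chg wt pw cw n n' hX hY =
      Z3 μ (fun a => chg (π a)) (fun a => wt (π a)) (fun a b => pw (π a) (π b))
        (fun a b => cw (π a) (π b)) n n' hX' hY' := by
  unfold Z3
  refine Finset.sum_congr rfl fun r' _ => ?_
  congr 1
  rw [← sum_fiber π (fun k' c' => if ∑ i, chg (k' i) = n' then (∏ i, wt (k' i)) *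
      ∑ r ∈ Finset.range (n + 1), ((r.factorial : ℕ) : ℂ)⁻¹ * ∑ c : Fin r → κ',
        if ∑ i, chg (π (c i)) = n then (∏ i, wt (π (c i))) *
          J μ (fun a b => pw (π a) (π b)) (fun a b => cw (π a) (π b)) hX' hY' c c' else 0
    else 0)]
  refine Finset.sum_congr rfl fun k' _ => ?_
  split_ifs with hk'
  · rw [← Finset.mul_sum, Finset.sum_comm]
    congr 1
    refine Finset.sum_congr rfl fun r _ => ?_
    rw [← Finset.mul_sum, Finset.sum_comm]
    congr 1
    rw [← sum_fiber π (fun k c => ∑ c' ∈ Finset.univ.filter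
      (fun c' : Fin r' → κ' => ∀ i, π (c' i) = k' i), if ∑ i, chg (k i) = n then
        (∏ i, wt (k i)) *
          J μ (fun a b => pw (π a) (π b)) (fun a b => cw (π a) (π b)) hX' hY' c c' else 0)]
    refine Finset.sum_congr rfl fun k _ => ?_
    by_cases hk : ∑ i, chg (k i) = n
    · simp only [if_pos hk]
      rw [J_split μ pw cw π hhX hhY k k', Finset.mul_sum]
      · refine Finset.sum_congr rfl fun c _ => ?_
        rw [Finset.mul_sum]
      · intro c c' h1 h2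
        refine hI r r' c c' ?_ ?_
        · rw [← hk]
          exact Finset.sum_congr rfl fun i _ => by rw [h1 i]
        · rw [← hk']
          exact Finset.sum_congr rfl fun i _ => by rw [h2 i]
    · simp only [if_neg hk]
      simp
  · simp

end NUP1.Grand2

namespace NURow

open NUP1 NUP1S NUP1.Bd
open NUP1.N (Z3)

variable {ι ι' : Type*} [Fintype ι] [Fintype ι']

/-! ## the pair weights of quanta and strings as abstract pair functions -/

theorem PB_gz {o o' : CO} {a b : ℝ} (h : ∀ d ∈ Set.Icc a b, Ok o o' d) :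
    PB (2 * (sc o * sc o')) (Set.Icc a b) (gz o o') :=
  ⟨bdd_gz isCompact_Icc o o' h, fun z hz => differentiableAt_gz o o' (h z.re hz)⟩

/-- integrability on lines, total charge `Q` -/
theorem integrable_FgQ {o : ι → CO} {Q : ℝ} (hn : ∑ i, sc (o i) = Q) {h : ι → ℂ → ℂ} {x : ι → ℝ}
    {κ : ℝ} (hκ : 0 < κ) (hm : ∀ i, Measurable (h i))
    (hh : ∀ i, DecOn (κ + 2 * Q * sc (o i)) {x i} (h i))
    (hg : ∀ a b, a ≠ b → Ok (o a) (o b) (x a - x b)) :
    Integrable (fun t : ι → ℝ => Fg o h (pos x t)) (Measure.pi fun _ => volume) := by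
  simp only [Fg_eq_FA]
  refine integrable_FA hn hκ (fun a b => measurable_gz _ _) hm hh fun a b hab => ?_
  refine bdd_gz isCompact_singleton _ _ fun d hd => ?_
  rw [Set.mem_singleton_iff] at hd
  rw [hd]
  exact hg a b hab

/-- moving all lines, total charge `Q` -/
theorem shift_allQ {o : ι → CO} {Q : ℝ} (hn : ∑ i, sc (o i) = Q) {h : ι → ℂ → ℂ}
    {lo hi x x' : ι → ℝ} {κ : ℝ} (hκ : 0 < κ) (hm : ∀ i, Measurable (h i))
    (hx : ∀ i, x i ∈ Set.Icc (lo i) (hi i)) (hx' : ∀ i, x' i ∈ Set.Icc (lo i) (hi i))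
    (hh : ∀ i, DecOn (κ + 2 * Q * sc (o i)) (Set.Icc (lo i) (hi i)) (h i))
    (hc : ∀ i, lo i < hi i → ContinuousOn (h i) (CS (lo i) (hi i)))
    (hd : ∀ i, lo i < hi i → DifferentiableOn ℂ (h i) (OS (lo i) (hi i)))
    (hg : ∀ a b, a ≠ b → ∀ u ∈ Set.Icc (lo a) (hi a), ∀ v ∈ Set.Icc (lo b) (hi b),
      Ok (o a) (o b) (u - v)) :
    Ig o h x = Ig o h x' := by
  refine shiftA_all (g := fun a b => gz (o a) (o b)) hn (fun a b z => gz_symm _ _ _)
    (fun a b => measurable_gz _ _) hκ hm hx hx' hh hc hd fun a b hab => ?_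
  refine PB_gz fun d hd => ?_
  have la : lo a ≤ hi a := (hx a).1.trans (hx a).2
  have lb : lo b ≤ hi b := (hx b).1.trans (hx b).2
  -- `d` is a difference of points of the two intervals
  rcases le_total d (hi a - hi b) with h1 | h1
  · have := hg a b hab (d + hi b) ⟨by linarith [hd.1], by linarith⟩ (hi b) ⟨lb, le_rfl⟩
    simpa using this
  · have := hg a b hab (hi a) ⟨la, le_rfl⟩ (hi a - d) ⟨by linarith [hd.2], by linarith⟩
    simpa using this

/-! ## the contour side in the four kinds -/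

theorem Z3_eq_Grand2 (α β : ℝ) (n n' : ℕ) (GX GY : ℂ → ℂ) :
    Z3 α β n n' GX GY =
      Grand2.Z3 volume chg wt (pw α β) (cw0 α β) n n' (oneL α β GX) (oneL α β GY) := rfl

theorem sum_scQ {k : ι → Ob} {k' : ι' → Ob} {n n' : ℕ} (h : ∑ i, chg (k i) = n)
    (h' : ∑ i, chg (k' i) = n') : ∑ i, sc (oo k k' i) = (n : ℝ) - n' := by
  rw [Fintype.sum_sum_type, ← h, ← h']
  simp [oo, sc]
  ring

/-- signed charge of a kind of species X (`c = true`) or Y -/
abbrev sc4 (c : Bool) (k : Option O3) : ℝ := sc (c, ob4 k)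

theorem integrable_x0Q {α β : ℝ} (h1 : l < α - β) (h2 : α - β < 3 * l) {κ : ℝ} (hκ : 0 < κ)
    {X Y : Option O3 → ℂ → ℂ} (hmX : ∀ k, Measurable (X k)) (hmY : ∀ k, Measurable (Y k))
    {n n' : ℕ}
    (hX : ∀ k, DecOn (κ + 2 * ((n : ℝ) - n') * sc4 true k) {rl α β (ob4 k)} (X k))
    (hY : ∀ k, DecOn (κ + 2 * ((n : ℝ) - n') * sc4 false k) {rl α β (ob4 k)} (Y k))
    (k : ι → Option O3) (k' : ι' → Option O3) (hk : ∑ i, chg (ob4 (k i)) = n)
    (hk' : ∑ i, chg (ob4 (k' i)) = n') :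
    Integrable (fun t : ι ⊕ ι' → ℝ => Fg (oo (fun i => ob4 (k i)) (fun i => ob4 (k' i)))
      (Sum.elim (fun i => X (k i)) (fun i => Y (k' i)))
      (pos (Sum.elim (fun i => rl α β (ob4 (k i))) (fun i => rl α β (ob4 (k' i)))) t))
      (Measure.pi fun _ => volume) := by
  refine integrable_FgQ (sum_scQ hk hk') hκ ?_ ?_ fun a b _ => Ok_x0 h1 h2 _ _ a b
  · rintro (i | i)
    · exact hmX _
    · exact hmY _
  · rintro (i | i)
    · exact hX _
    · exact hY _

/-- **The contour side in the four kinds A, L, S, T.** -/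
theorem Z3_eq4 {α β : ℝ} (h1 : l < α - β) (h2 : α - β < 3 * l) {κ : ℝ} (hκ : 0 < κ) (n n' : ℕ)
    {GX GY : ℂ → ℂ} {X Y : Option O3 → ℂ → ℂ}
    (hmX : ∀ k, Measurable (X k)) (hmY : ∀ k, Measurable (Y k))
    (hX : ∀ k, DecOn (κ + 2 * ((n : ℝ) - n') * sc4 true k) {rl α β (ob4 k)} (X k))
    (hY : ∀ k, DecOn (κ + 2 * ((n : ℝ) - n') * sc4 false k) {rl α β (ob4 k)} (Y k))
    (hsX : ∀ k t, oneL α β GX k t =
      ∑ a ∈ Finset.univ.filter (fun a => ob4 a = k), one4L α β X a t)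
    (hsY : ∀ k t, oneL α β GY k t =
      ∑ a ∈ Finset.univ.filter (fun a => ob4 a = k), one4L α β Y a t) :
    Z3 α β n n' GX GY =
      ∑ r' ∈ Finset.range (n' + 1), ((r'.factorial : ℕ) : ℂ)⁻¹ * ∑ k' : Fin r' → Option O3,
        if ∑ i, (k' i).elim 1 c3 = n' then (∏ i, wt (ob4 (k' i))) *
          ∑ r ∈ Finset.range (n + 1), ((r.factorial : ℕ) : ℂ)⁻¹ * ∑ k : Fin r → Option O3,
            if ∑ i, (k i).elim 1 c3 = n then (∏ i, wt (ob4 (k i))) * Psi2 α β X Y k k' else 0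
        else 0 := by
  rw [Z3_eq_Grand2]
  have := Grand2.Z3_split volume chg wt (pw α β) (cw0 α β) ob4 hsX hsY n n'
    (fun r r' c c' hc hc' => by
    have h3 := integrable_sum (integrable_x0Q h1 h2 hκ hmX hmY hX hY c c' hc hc')
    refine h3.congr (Filter.Eventually.of_forall fun p => ?_)
    simp only []
    rw [F_eq, pos_elim, Fg_sum])
  rw [this]
  unfold Grand2.Z3
  simp_rw [J_eq, chg_ob4]

/-- **Canonical form**: the quanta on A and the other objects. -/
theorem Z3_canon {α β : ℝ} (h1 : l < α - β) (h2 : α - β < 3 * l) {κ : ℝ} (hκ : 0 < κ) (n n' : ℕ)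
    {GX GY : ℂ → ℂ} {X Y : Option O3 → ℂ → ℂ}
    (hmX : ∀ k, Measurable (X k)) (hmY : ∀ k, Measurable (Y k))
    (hX : ∀ k, DecOn (κ + 2 * ((n : ℝ) - n') * sc4 true k) {rl α β (ob4 k)} (X k))
    (hY : ∀ k, DecOn (κ + 2 * ((n : ℝ) - n') * sc4 false k) {rl α β (ob4 k)} (Y k))
    (hsX : ∀ k t, oneL α β GX k t =
      ∑ a ∈ Finset.univ.filter (fun a => ob4 a = k), one4L α β X a t)
    (hsY : ∀ k t, oneL α β GY k t =
      ∑ a ∈ Finset.univ.filter (fun a => ob4 a = k), one4L α β Y a t) :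
    Z3 α β n n' GX GY =
      ∑ p' ∈ Finset.range (n' + 1), ((p'.factorial : ℕ) : ℂ)⁻¹ * ∑ k' : Fin p' → O3,
        if ∑ i, c3 (k' i) ≤ n' then (((nA n' k').factorial : ℕ) : ℂ)⁻¹ *
          ((∏ i, wt (ob4 (kA (nA n' k') k' i))) *
          ∑ p ∈ Finset.range (n + 1), ((p.factorial : ℕ) : ℂ)⁻¹ * ∑ k : Fin p → O3,
            if ∑ i, c3 (k i) ≤ n then (((nA n k).factorial : ℕ) : ℂ)⁻¹ *
              ((∏ i, wt (ob4 (kA (nA n k) k i))) *
              Psi2 α β X Y (kA (nA n k) k) (kA (nA n' k') k')) else 0)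
        else 0 := by
  rw [Z3_eq4 h1 h2 hκ n n' hmX hmY hX hY hsX hsY]
  have e1 : ∀ (r' : ℕ) (k' : Fin r' → Option O3),
      ∑ r ∈ Finset.range (n + 1), ((r.factorial : ℕ) : ℂ)⁻¹ * ∑ k : Fin r → Option O3,
        (if ∑ i, (k i).elim 1 c3 = n then (∏ i, wt (ob4 (k i))) * Psi2 α β X Y k k' else 0) =
      ∑ p ∈ Finset.range (n + 1), ((p.factorial : ℕ) : ℂ)⁻¹ * ∑ k : Fin p → O3,
            if ∑ i, c3 (k i) ≤ n then (((nA n k).factorial : ℕ) : ℂ)⁻¹ *
              ((∏ i, wt (ob4 (kA (nA n k) k i))) * Psi2 α β X Y (kA (nA n k) k) k')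
            else 0 := by
    intro r' k'
    exact peel c3 c3_pos (fun i _ k => (∏ i, wt (ob4 (k i))) * Psi2 α β X Y k k')
      (fun i i' _ _ e k => by
        rw [Psi2_equiv]
        congr 1
        exact e.prod_comp (fun i => wt (ob4 (k i)))) n
  simp_rw [e1]
  exact peel c3 c3_pos (fun i _ k' => (∏ i, wt (ob4 (k' i))) *
      ∑ p ∈ Finset.range (n + 1), ((p.factorial : ℕ) : ℂ)⁻¹ * ∑ k : Fin p → O3,
            if ∑ i, c3 (k i) ≤ n then (((nA n k).factorial : ℕ) : ℂ)⁻¹ *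
              ((∏ i, wt (ob4 (kA (nA n k) k i))) * Psi2 α β X Y (kA (nA n k) k) k')
            else 0)
      (fun i i' _ _ e k => by
        simp only [Psi2_equiv']
        congr 1
        exact e.prod_comp (fun i => wt (ob4 (k i)))) n'

/-! ## moving the lines -/

/-- the strips: quanta on A stay on `Re = α`, quanta on L move in `[bl, bh]`, strings of kind S
in `[sl, sh]`, strings of kind T in `[tl, th]`; `[gl, gh]` contains both strips of the strings -/
structure StripsQ (α bl bh sl sh tl th gl gh : ℝ) : Prop where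
  s1 : gl ≤ sl
  s2 : sh ≤ gh
  t1 : gl ≤ tl
  t2 : th ≤ gh
  h1 : bh + l < α
  h2 : α - bl < 3 * l
  h3 : bh - bl < l
  h4 : α - gl < 2 * l
  h5 : gh - α < 3 * l
  h6 : bh - gl < 2 * l
  h7 : gh - bl < 3 * l
  h8 : gh - gl < 2 * l

theorem StripsQ.of_strips {α bl bh sl sh tl th : ℝ} (h : Strips α bl bh sl sh tl th) :
    StripsQ α bl bh sl sh tl th sl sh :=
  ⟨le_rfl, le_rfl, h.ht1, h.ht2, h.h1, h.h2, h.h3, h.h4, h.h5, h.h6, h.h7, h.h8⟩

theorem RO_stripsQ {α bl bh sl sh tl th gl gh : ℝ} (hs : StripsQ α bl bh sl sh tl th gl gh)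
    (c c' : Bool) (k k' : Option O3) {u v : ℝ}
    (hu : u ∈ Set.Icc (lo4 α bl sl tl k) (lo4 α bh sh th k))
    (hv : v ∈ Set.Icc (lo4 α bl sl tl k') (lo4 α bh sh th k')) :
    RO (c, ob4 k) (c', ob4 k') (u - v) := by
  have hl := l_pos
  obtain ⟨s1, s2, t1, t2, h1, h2, h3, h4, h5, h6, h7, h8⟩ := hs
  obtain ⟨hu1, hu2⟩ := hu
  obtain ⟨hv1, hv2⟩ := hv
  have e0 : ∀ {u v : ℝ}, α ≤ u → u ≤ α → α ≤ v → v ≤ α → |u - v| < l := by
    intro u v a b c d
    rw [abs_lt]
    constructor <;> linarith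
  have e1 : ∀ {u v : ℝ}, α ≤ u → u ≤ α → bl ≤ v → v ≤ bh → l < |u - v| ∧ |u - v| < 7 * l := by
    intro u v a b c d
    rw [abs_of_pos (by linarith)]
    constructor <;> linarith
  have e2 : ∀ {u v : ℝ}, bl ≤ u → u ≤ bh → α ≤ v → v ≤ α → l < |u - v| ∧ |u - v| < 7 * l := by
    intro u v a b c d
    rw [abs_of_neg (by linarith)]
    constructor <;> linarith
  have e3 : ∀ {u v : ℝ}, bl ≤ u → u ≤ bh → bl ≤ v → v ≤ bh → |u - v| < l := by
    intro u v a b c d
    rw [abs_lt]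
    constructor <;> linarith
  have hcc : c = c' ∨ c ≠ c' := em _
  unfold RO
  rcases hcc with rfl | hc
  · simp only [if_true]
    rcases k with _ | k
    · rcases k' with _ | k'
      · exact Or.inl (e0 hu1 hu2 hv1 hv2)
      · cases k'
        · exact Or.inr (e1 hu1 hu2 hv1 hv2)
        · trivial
        · trivial
    · rcases k' with _ | k'
      · cases k
        · exact Or.inr (e2 hu1 hu2 hv1 hv2)
        · trivial
        · trivial
      · cases k <;> cases k' <;> first | trivial | exact Or.inl (e3 hu1 hu2 hv1 hv2)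
  · simp only [hc, if_false]
    rcases k with _ | k <;> rcases k' with _ | k' <;> (try cases k) <;> (try cases k') <;>
      simp only [lo4] at hu1 hu2 hv1 hv2 <;> simp only [ob4, ob3, Option.elim] <;>
      constructor <;> linarith

theorem rl_memQ {α β bl bh sl sh tl th : ℝ} (hβ : β ∈ Set.Icc bl bh)
    (hS : β + l ∈ Set.Icc sl sh) (hT : β + l ∈ Set.Icc tl th)
    (k : Option O3) : rl α β (ob4 k) ∈ Set.Icc (lo4 α bl sl tl k) (lo4 α bh sh th k) := by
  rcases k with _ | k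
  · exact ⟨le_rfl, le_rfl⟩
  · cases k
    · exact hβ
    · exact hS
    · exact hT

/-- a family of one body functions of a species, total charge `Q` -/
structure Fam (c : Bool) (α bl bh sl sh tl th κ Q : ℝ) (X : Option O3 → ℂ → ℂ) : Prop where
  meas : ∀ k, Measurable (X k)
  dec : ∀ k, DecOn (κ + 2 * Q * sc4 c k) (Set.Icc (lo4 α bl sl tl k) (lo4 α bh sh th k)) (X k)
  cont : ∀ k : O3, ContinuousOn (X (some k)) (CS (lo4 α bl sl tl k) (lo4 α bh sh th k))
  diff : ∀ k : O3, DifferentiableOn ℂ (X (some k)) (OS (lo4 α bl sl tl k) (lo4 α bh sh th k))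

/-- **Moving the lines** of a joint integral. -/
theorem Psi2_shiftQ {α β bl bh sl sh tl th gl gh : ℝ} (hs : StripsQ α bl bh sl sh tl th gl gh)
    (hβ : β ∈ Set.Icc bl bh) (hS : β + l ∈ Set.Icc sl sh) (hT : β + l ∈ Set.Icc tl th) {κ : ℝ} (hκ : 0 < κ) {n n' : ℕ}
    {X Y : Option O3 → ℂ → ℂ} (hX : Fam true α bl bh sl sh tl th κ ((n : ℝ) - n') X)
    (hY : Fam false α bl bh sl sh tl th κ ((n : ℝ) - n') Y)
    (k : ι → Option O3) (k' : ι' → Option O3) (hk : ∑ i, chg (ob4 (k i)) = n)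
    (hk' : ∑ i, chg (ob4 (k' i)) = n') (x : ι → ℝ) (x' : ι' → ℝ)
    (hx : ∀ i, x i ∈ Set.Icc (lo4 α bl sl tl (k i)) (lo4 α bh sh th (k i)))
    (hx' : ∀ i, x' i ∈ Set.Icc (lo4 α bl sl tl (k' i)) (lo4 α bh sh th (k' i))) :
    Psi2 α β X Y k k' = Ig (oo (fun i => ob4 (k i)) (fun i => ob4 (k' i)))
      (Sum.elim (fun i => X (k i)) (fun i => Y (k' i))) (Sum.elim x x') := by
  have hrl : ∀ k, rl α β (ob4 k) ∈ Set.Icc (lo4 α bl sl tl k) (lo4 α bh sh th k) :=
    rl_memQ hβ hS hT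
  unfold Psi2
  refine shift_allQ (sum_scQ hk hk')
    (lo := Sum.elim (fun i => lo4 α bl sl tl (k i)) (fun i => lo4 α bl sl tl (k' i)))
    (hi := Sum.elim (fun i => lo4 α bh sh th (k i)) (fun i => lo4 α bh sh th (k' i)))
    hκ ?_ ?_ ?_ ?_ ?_ ?_ ?_
  · rintro (i | i)
    · exact hX.meas _
    · exact hY.meas _
  · rintro (i | i)
    · exact hrl _
    · exact hrl _
  · rintro (i | i)
    · exact hx i
    · exact hx' i
  · rintro (i | i)
    · exact hX.dec _
    · exact hY.dec _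
  · rintro (i | i) h
    · simp only [Sum.elim_inl] at h ⊢
      rcases hki : k i with _ | k0
      · rw [hki] at h
        exact absurd h (lt_irrefl _)
      · exact hX.cont k0
    · simp only [Sum.elim_inr] at h ⊢
      rcases hki : k' i with _ | k0
      · rw [hki] at h
        exact absurd h (lt_irrefl _)
      · exact hY.cont k0
  · rintro (i | i) h
    · simp only [Sum.elim_inl] at h ⊢
      rcases hki : k i with _ | k0
      · rw [hki] at h
        exact absurd h (lt_irrefl _)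
      · exact hX.diff k0
    · simp only [Sum.elim_inr] at h ⊢
      rcases hki : k' i with _ | k0
      · rw [hki] at h
        exact absurd h (lt_irrefl _)
      · exact hY.diff k0
  · rintro (a | a) (b | b) _ u hu v hv <;> exact Ok_of_RO (RO_stripsQ hs _ _ _ _ hu hv)

/-- integrability on all systems of lines in the strips -/
theorem integrable_stripsQ {α bl bh sl sh tl th gl gh : ℝ} (hs : StripsQ α bl bh sl sh tl th gl gh) {κ : ℝ}
    (hκ : 0 < κ) {n n' : ℕ} {X Y : Option O3 → ℂ → ℂ}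
    (hX : Fam true α bl bh sl sh tl th κ ((n : ℝ) - n') X)
    (hY : Fam false α bl bh sl sh tl th κ ((n : ℝ) - n') Y)
    (k : ι → Option O3) (k' : ι' → Option O3)
    (hk : ∑ i, chg (ob4 (k i)) = n) (hk' : ∑ i, chg (ob4 (k' i)) = n') (x : ι → ℝ) (x' : ι' → ℝ)
    (hx : ∀ i, x i ∈ Set.Icc (lo4 α bl sl tl (k i)) (lo4 α bh sh th (k i)))
    (hx' : ∀ i, x' i ∈ Set.Icc (lo4 α bl sl tl (k' i)) (lo4 α bh sh th (k' i))) :
    Integrable (fun t => Fg (oo (fun i => ob4 (k i)) (fun i => ob4 (k' i)))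
      (Sum.elim (fun i => X (k i)) (fun i => Y (k' i))) (pos (Sum.elim x x') t))
      (Measure.pi fun _ => volume) := by
  refine integrable_FgQ (sum_scQ hk hk') hκ ?_ ?_ ?_
  · rintro (i | i)
    · exact hX.meas _
    · exact hY.meas _
  · rintro (i | i)
    · refine (hX.dec (k i)).mono fun y hy => ?_
      rw [Set.mem_singleton_iff] at hy
      rw [hy]
      exact hx i
    · refine (hY.dec (k' i)).mono fun y hy => ?_
      rw [Set.mem_singleton_iff] at hy
      rw [hy]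
      exact hx' i
  · have hin : ∀ a : ι ⊕ ι', ∃ (c : Bool) (k0 : Option O3), oo (fun i => ob4 (k i))
        (fun i => ob4 (k' i)) a = (c, ob4 k0) ∧
        Sum.elim x x' a ∈ Set.Icc (lo4 α bl sl tl k0) (lo4 α bh sh th k0) := by
      rintro (a | a)
      · exact ⟨true, k a, rfl, hx a⟩
      · exact ⟨false, k' a, rfl, hx' a⟩
    intro a b _
    obtain ⟨c, k0, e0, h0⟩ := hin a
    obtain ⟨c', k1, e1, h1⟩ := hin b
    rw [e0, e1]
    exact Ok_of_RO (RO_stripsQ hs _ _ _ _ h0 h1)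

/-- one body functions of a species: `G` = the function of the quanta of the contour identity,
`X` = the functions of the four kinds -/
structure DataQ (c : Bool) (α β bl bh sl sh tl th κ Q : ℝ) (G : ℂ → ℂ) (X : Option O3 → ℂ → ℂ) :
    Prop extends Fam c α bl bh sl sh tl th κ Q X where
  split : ∀ k t, oneL α β G k t =
    ∑ a ∈ Finset.univ.filter (fun a => ob4 a = k), one4L α β X a t

/-- the contribution of given objects which are not quanta on A: `x`, `x'` = their lines -/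
def termQ (X Y : Option O3 → ℂ → ℂ) (α : ℝ) (n n' : ℕ) {p p' : ℕ} (k : Fin p → O3)
    (k' : Fin p' → O3) (x : Fin p → ℝ) (x' : Fin p' → ℝ) : ℂ :=
  (∏ i, wt (ob3 (k i))) * (∏ i, wt (ob3 (k' i))) *
    ∫ t, Fg (o3 k k') (h3 X Y k k') (pos (Sum.elim x x') t) *
      gas (nA n k) (nA n' k') α (fld (o3 k k') (pos (Sum.elim x x') t) (true, .A) (X none))
        (fld (o3 k k') (pos (Sum.elim x x') t) (false, .A) (Y none))
        ∂(Measure.pi fun _ => volume)

theorem termQ_self (X Y : Option O3 → ℂ → ℂ) (α : ℝ) (n : ℕ) {p p' : ℕ} (k : Fin p → O3)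
    (k' : Fin p' → O3) (x : Fin p → ℝ) (x' : Fin p' → ℝ) :
    termQ X Y α n n k k' x x' = term X Y α n k k' x x' := rfl

/-- **Stage 2 with different numbers of quanta.** -/
theorem stage2Q {α β bl bh sl sh tl th gl gh : ℝ} (hs : StripsQ α bl bh sl sh tl th gl gh)
    (hβ : β ∈ Set.Icc bl bh) (hS : β + l ∈ Set.Icc sl sh) (hT : β + l ∈ Set.Icc tl th) {κ : ℝ} (hκ : 0 < κ) (n n' : ℕ)
    {GX GY : ℂ → ℂ} {X Y : Option O3 → ℂ → ℂ}
    (hX : DataQ true α β bl bh sl sh tl th κ ((n : ℝ) - n') GX X)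
    (hY : DataQ false α β bl bh sl sh tl th κ ((n : ℝ) - n') GY Y)
    (lnX : ∀ p p' : ℕ, (Fin p → O3) → (Fin p' → O3) → Fin p → ℝ)
    (lnY : ∀ p p' : ℕ, (Fin p → O3) → (Fin p' → O3) → Fin p' → ℝ)
    (hlX : ∀ p p' k k' i,
      lnX p p' k k' i ∈ Set.Icc (lo4 α bl sl tl (some (k i))) (lo4 α bh sh th (some (k i))))
    (hlY : ∀ p p' k k' i,
      lnY p p' k k' i ∈ Set.Icc (lo4 α bl sl tl (some (k' i))) (lo4 α bh sh th (some (k' i)))) :
    Z3 α β n n' GX GY =
      ∑ p' ∈ Finset.range (n' + 1), ∑ p ∈ Finset.range (n + 1),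
        ((p'.factorial : ℕ) : ℂ)⁻¹ * ((p.factorial : ℕ) : ℂ)⁻¹ *
        ∑ k' : Fin p' → O3, ∑ k : Fin p → O3,
          if ∑ i, c3 (k' i) ≤ n' ∧ ∑ i, c3 (k i) ≤ n then
            termQ X Y α n n' k k' (lnX p p' k k') (lnY p p' k k') else 0 := by
  have h1 : l < α - β := by linarith [hs.h1, hβ.2]
  have h2 : α - β < 3 * l := by linarith [hs.h2, hβ.1]
  have hdX : ∀ k, DecOn (κ + 2 * ((n : ℝ) - n') * sc4 true k) {rl α β (ob4 k)} (X k) := fun k =>
    (hX.dec k).mono (Set.singleton_subset_iff.2 (rl_memQ hβ hS hT k))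
  have hdY : ∀ k, DecOn (κ + 2 * ((n : ℝ) - n') * sc4 false k) {rl α β (ob4 k)} (Y k) := fun k =>
    (hY.dec k).mono (Set.singleton_subset_iff.2 (rl_memQ hβ hS hT k))
  rw [Z3_canon h1 h2 hκ n n' hX.meas hY.meas hdX hdY hX.split hY.split]
  -- one term
  have key : ∀ {p p' : ℕ} (k : Fin p → O3) (k' : Fin p' → O3), ∑ i, c3 (k i) ≤ n →
      ∑ i, c3 (k' i) ≤ n' →
      (((nA n' k').factorial : ℕ) : ℂ)⁻¹ * ((∏ i, wt (ob4 (kA (nA n' k') k' i))) *
        ((((nA n k).factorial : ℕ) : ℂ)⁻¹ * ((∏ i, wt (ob4 (kA (nA n k) k i))) *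
          Psi2 α β X Y (kA (nA n k) k) (kA (nA n' k') k')))) =
      termQ X Y α n n' k k' (lnX p p' k k') (lnY p p' k k') := by
    intro p p' k k' hk hk'
    have hch := sum_chg_kA n k hk
    have hch' := sum_chg_kA n' k' hk'
    have hx1 : ∀ i, Sum.elim (fun _ => α) (lnX p p' k k') i ∈
        Set.Icc (lo4 α bl sl tl (kA (nA n k) k i)) (lo4 α bh sh th (kA (nA n k) k i)) := by
      rintro (i | i)
      · exact ⟨le_rfl, le_rfl⟩
      · exact hlX p p' k k' i
    have hx2 : ∀ i, Sum.elim (fun _ => α) (lnY p p' k k') i ∈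
        Set.Icc (lo4 α bl sl tl (kA (nA n' k') k' i)) (lo4 α bh sh th (kA (nA n' k') k' i)) := by
      rintro (i | i)
      · exact ⟨le_rfl, le_rfl⟩
      · exact hlY p p' k k' i
    rw [Psi2_shiftQ hs hβ hS hT hκ hX.toFam hY.toFam
      (kA (nA n k) k) (kA (nA n' k') k') hch hch' _ _ hx1 hx2,
      Ig_canon X Y α _ _ k k' _ _ (integrable_stripsQ hs hκ hX.toFam hY.toFam
        (kA (nA n k) k) (kA (nA n' k') k') hch hch' _ _ hx1 hx2),
      prod_wt_kA, prod_wt_kA]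
    unfold termQ gas
    rw [← integral_const_mul, ← integral_const_mul, ← integral_const_mul, ← integral_const_mul,
      ← integral_const_mul]
    refine integral_congr_ae (Filter.Eventually.of_forall fun t => ?_)
    simp only [wt]
    ring
  refine Finset.sum_congr rfl fun p' _ => ?_
  simp_rw [Finset.mul_sum]
  rw [Finset.sum_comm]
  refine Finset.sum_congr rfl fun k' _ => ?_
  by_cases hk' : ∑ i, c3 (k' i) ≤ n'
  · simp only [hk', true_and, if_true]
    simp only [Finset.mul_sum]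
    refine Finset.sum_congr rfl fun p _ => Finset.sum_congr rfl fun k _ => ?_
    by_cases hk : ∑ i, c3 (k i) ≤ n
    · simp only [if_pos hk]
      rw [← key k k' hk hk']
      ring
    · simp only [if_neg hk, mul_zero]
  · simp [hk']

/-- the sum over the objects L, S, T on the lines `lnX`, `lnY` -/
def ZobjQ (X Y : Option O3 → ℂ → ℂ) (α : ℝ) (n n' : ℕ)
    (lnX : ∀ p p' : ℕ, (Fin p → O3) → (Fin p' → O3) → Fin p → ℝ)
    (lnY : ∀ p p' : ℕ, (Fin p → O3) → (Fin p' → O3) → Fin p' → ℝ) : ℂ :=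
  ∑ p' ∈ Finset.range (n' + 1), ∑ p ∈ Finset.range (n + 1),
    ((p'.factorial : ℕ) : ℂ)⁻¹ * ((p.factorial : ℕ) : ℂ)⁻¹ *
    ∑ k' : Fin p' → O3, ∑ k : Fin p → O3,
      if ∑ i, c3 (k' i) ≤ n' ∧ ∑ i, c3 (k i) ≤ n then
        termQ X Y α n n' k k' (lnX p p' k k') (lnY p p' k k') else 0

/-- **Stage 2**, `ZobjQ` form. -/
theorem stage2Z {α β bl bh sl sh tl th gl gh : ℝ} (hs : StripsQ α bl bh sl sh tl th gl gh)
    (hβ : β ∈ Set.Icc bl bh) (hS : β + l ∈ Set.Icc sl sh) (hT : β + l ∈ Set.Icc tl th) {κ : ℝ}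
    (hκ : 0 < κ) (n n' : ℕ) {GX GY : ℂ → ℂ} {X Y : Option O3 → ℂ → ℂ}
    (hX : DataQ true α β bl bh sl sh tl th κ ((n : ℝ) - n') GX X)
    (hY : DataQ false α β bl bh sl sh tl th κ ((n : ℝ) - n') GY Y)
    (lnX : ∀ p p' : ℕ, (Fin p → O3) → (Fin p' → O3) → Fin p → ℝ)
    (lnY : ∀ p p' : ℕ, (Fin p → O3) → (Fin p' → O3) → Fin p' → ℝ)
    (hlX : ∀ p p' k k' i,
      lnX p p' k k' i ∈ Set.Icc (lo4 α bl sl tl (some (k i))) (lo4 α bh sh th (some (k i))))
    (hlY : ∀ p p' k k' i,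
      lnY p p' k k' i ∈ Set.Icc (lo4 α bl sl tl (some (k' i))) (lo4 α bh sh th (some (k' i)))) :
    Z3 α β n n' GX GY = ZobjQ X Y α n n' lnX lnY :=
  stage2Q hs hβ hS hT hκ n n' hX hY lnX lnY hlX hlY

end NURow

end
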