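import Pool.Agent.NURow.Data2

/-!
# Stage 2 for the rows at `± l / 2` with spectators

Lines: E `3 l / 5`, L `- 17 l / 10 .. - 5 l / 4`, strings start at `- 7 l / 10`, S down to
`- 13 l / 10`, T up to `- l / 2`.
-/

set_option autoImplicit false
set_option linter.unusedSectionVars false

noncomputable section

open Complex MeasureTheory

namespace NURow

open NUP1 NUP1S NUP1.Bd
open NUP1.N (Z3)

/-- real parts of the quanta: from E to A', and the strip of L -/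
def K1 : Set ℝ := Set.Icc (3 / 5 * l) l ∪ Set.Icc (-(17 / 10 * l)) (-(5 / 4 * l))

/-- real parts of the strings -/
def K2 : Set ℝ := Set.Icc (-(13 / 10 * l)) (-(l / 2))

/-- spectators of a species: `s1` for quanta, `s2` for strings, charge `-Q` -/
structure SpecQ (c : Bool) (Q : ℝ) (s1 s2 : ℂ → ℂ) : Prop where
  m1 : Measurable s1
  m2 : Measurable s2
  b1 : Bdd K1 (-(2 * Q * sc (c, .A))) s1
  b2 : Bdd K2 (-(2 * Q * sc (c, .S))) s2
  d1 : ∀ z : ℂ, z.re ∈ K1 → DifferentiableAt ℂ s1 z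
  d2 : ∀ z : ℂ, z.re ∈ K2 → DifferentiableAt ℂ s2 z
  mul : ∀ z : ℂ, z.re = -(7 / 10 * l) → s2 z = s1 z * s1 (z - l)

/-- one body functions of the four kinds -/
def XH (c : ℂ) (β : ℝ) (M N : ℕ) (s1 s2 : ℂ → ℂ) : Option O3 → ℂ → ℂ
  | none, u => R1 c M u * phN β N u * s1 u
  | some .L, u => R1 c M u * phN β N u * s1 u
  | some .S, w => R1 c M w * R1 c M (w - l) * phN (4 / 3) N w * s2 w
  | some .T, w => Th c β (4 / 3) M N w * s2 w

/-- one body function of the contour identity -/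
def GH (c : ℂ) (β : ℝ) (M N : ℕ) (s1 : ℂ → ℂ) (u : ℂ) : ℂ := R1 c M u * phN β N u * s1 u

theorem isCompact_K1 : IsCompact K1 := isCompact_Icc.union isCompact_Icc

theorem isCompact_K2 : IsCompact K2 := isCompact_Icc

theorem sin_ne_pos {x : ℝ} (h0 : 0 < x) (h1 : x < 8 * l) : Real.sin x ≠ 0 :=
  (sin_pos_of h0 h1).ne'

theorem sin_ne_neg {x : ℝ} (h0 : x < 0) (h1 : -(8 * l) < x) : Real.sin x ≠ 0 := by
  have := sin_pos_of (x := -x) (by linarith) (by linarith)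
  rw [Real.sin_neg] at this
  exact (by linarith : Real.sin x < 0).ne

theorem NH_K1 {x : ℝ} (h : x ∈ K1) : NH x ∧ Real.sin (x + l / 2) ≠ 0 := by
  have hl := Bd.l_pos
  rcases h with ⟨h1, h2⟩ | ⟨h1, h2⟩
  · exact ⟨⟨sin_ne_pos (by linarith) (by linarith), sin_ne_neg (by linarith) (by linarith),
      sin_ne_neg (by linarith) (by linarith)⟩, sin_ne_pos (by linarith) (by linarith)⟩
  · exact ⟨⟨sin_ne_neg (by linarith) (by linarith), sin_ne_neg (by linarith) (by linarith),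
      sin_ne_neg (by linarith) (by linarith)⟩, sin_ne_neg (by linarith) (by linarith)⟩

theorem NH_K2 {x : ℝ} (h : x ∈ K2) : NH x := by
  have hl := Bd.l_pos
  obtain ⟨h1, h2⟩ := h
  exact ⟨sin_ne_neg (by linarith) (by linarith), sin_ne_neg (by linarith) (by linarith),
      sin_ne_neg (by linarith) (by linarith)⟩

theorem NH_K2' {x : ℝ} (h : x ∈ K2) : NH (x - l) ∧ Real.sin (x - l + l / 2) ≠ 0 := by
  have hl := Bd.l_pos
  obtain ⟨h1, h2⟩ := h
  exact ⟨⟨sin_ne_neg (by linarith) (by linarith), sin_ne_neg (by linarith) (by linarith),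
      sin_ne_neg (by linarith) (by linarith)⟩, sin_ne_neg (by linarith) (by linarith)⟩

section num

variable {β : ℝ} (hβ : 0 < β) (hβ' : β ≤ 4 / 3)
include hβ hβ'

theorem NC_K1 {x : ℝ} (h : x ∈ K1) : NC β x := by
  have hl := Bd.l_pos
  rcases h with ⟨h1, h2⟩ | ⟨h1, h2⟩ <;> exact NC_strip hβ hβ' (by linarith) (by linarith)

theorem NC_K2 {x : ℝ} (h : x ∈ K2) : NC β x := by
  have hl := Bd.l_pos
  obtain ⟨h1, h2⟩ := h
  exact NC_strip hβ hβ' (by linarith) (by linarith)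

theorem NC_K2' {x : ℝ} (h : x ∈ K2) : NC β (x - l) := by
  have hl := Bd.l_pos
  obtain ⟨h1, h2⟩ := h
  exact NC_strip hβ hβ' (by linarith) (by linarith)

theorem NT_K2 {x : ℝ} (h : x ∈ K2) : NT β (4 / 3) x := by
  have hl := Bd.l_pos
  have hpi := Bd.pi_eq
  have a1 := NH_K2 h
  have a2 := NH_K2' h
  obtain ⟨h1, h2⟩ := h
  refine ⟨a1, a2.1, a2.2, by linarith, by linarith, ?_, ?_, ?_, ?_, ?_, ?_⟩
  · exact NQ_strip hβ hβ' (by linarith) (by linarith)
  · exact NQ_strip hβ hβ' (by linarith) (by linarith)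
  · exact NQ_strip hβ hβ' (by linarith) (by linarith)
  · exact NQ_strip hβ hβ' (by linarith) (by linarith)
  · exact NQ_strip (by norm_num) le_rfl (by linarith) (by linarith)
  · exact NQ_strip (by norm_num) le_rfl (by linarith) (by linarith)

end num

theorem DecOn_of {κ s : ℝ} {K : Set ℝ} {g : ℂ → ℂ} (h : Bdd K s g) (hs : s ≤ -κ) : DecOn κ K g :=
  DecOn_of_Bdd h hs

theorem Bdd.mono_set {K K' : Set ℝ} {s : ℝ} {g : ℂ → ℂ} (h : Bdd K' s g) (hK : K ⊆ K') :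
    Bdd K s g := by
  obtain ⟨C, hC, h⟩ := h
  exact ⟨C, hC, fun z hz => h z (hK hz)⟩

variable {c : ℂ} {β : ℝ} {M N : ℕ} {s1 s2 : ℂ → ℂ} {b : Bool} {Q : ℝ}

theorem bdd_GH (hβ : 0 < β) (hβ' : β ≤ 4 / 3) (h : SpecQ b Q s1 s2) :
    Bdd K1 (-(2 * β) + -(2 * Q * sc (b, .A))) (GH c β M N s1) := by
  have h1 := bdd_R1 c M isCompact_K1 fun x hx => NH_K1 hx
  have h2 := bdd_phN hβ N isCompact_K1 fun x hx => NC_K1 hβ hβ' hx
  exact ((h1.mul h2).mul h.b1).rate (by ring)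

theorem diffAt_GH (hβ : 0 < β) (hβ' : β ≤ 4 / 3) (h : SpecQ b Q s1 s2) {z : ℂ}
    (hz : z.re ∈ K1) : DifferentiableAt ℂ (GH c β M N s1) z := by
  have h1 := diffAt_R1 c M (NH_K1 hz).1 (NH_K1 hz).2
  have h2 := diffAt_phN N (NC_K1 hβ hβ' hz)
  exact (h1.mul h2).mul (h.d1 z hz)

theorem K2_sub {x : ℝ} (h : x ∈ Set.Icc (-(13 / 10 * l)) (-(7 / 10 * l))) : x ∈ K2 :=
  ⟨h.1, by linarith [h.2, Bd.l_pos]⟩

theorem K2_subT {x : ℝ} (h : x ∈ Set.Icc (-(7 / 10 * l)) (-(l / 2))) : x ∈ K2 :=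
  ⟨by linarith [h.1, Bd.l_pos], h.2⟩

theorem sin_K2 {x : ℝ} (h : x ∈ Set.Icc (-(13 / 10 * l)) (-(7 / 10 * l))) :
    Real.sin (x + l / 2) ≠ 0 := by
  have hl := Bd.l_pos
  exact sin_ne_neg (by linarith [h.2]) (by linarith [h.1])

theorem bdd_S (h : SpecQ b Q s1 s2) :
    Bdd (Set.Icc (-(13 / 10 * l)) (-(7 / 10 * l))) (-(2 * (4 / 3)) + -(2 * Q * sc (b, .S)))
      (fun w => R1 c M w * R1 c M (w - l) * phN (4 / 3) N w * s2 w) := by
  have hK : IsCompact (Set.Icc (-(13 / 10 * l)) (-(7 / 10 * l))) := isCompact_Icc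
  have h1 := bdd_R1 c M hK fun x hx => ⟨NH_K2 (K2_sub hx), sin_K2 hx⟩
  have h2 : Bdd (Set.Icc (-(13 / 10 * l)) (-(7 / 10 * l))) 0 (fun w => R1 c M (w - l)) := by
    have := bdd_R1 c M (K := (fun x => x + -l) '' Set.Icc (-(13 / 10 * l)) (-(7 / 10 * l)))
      (hK.image (by fun_prop)) (by
        rintro _ ⟨x, hx, rfl⟩
        have := NH_K2' (K2_sub hx)
        simpa [← sub_eq_add_neg] using this)
    exact bdd_shift_l this
  have h3 := bdd_phN (β := 4 / 3) (by norm_num) N hK fun x hx =>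
    NC_K2 (by norm_num) le_rfl (K2_sub hx)
  exact (((h1.mul h2).mul h3).mul (Bdd.mono_set h.b2 fun x hx => K2_sub hx)).rate (by ring)

theorem diffAt_S (h : SpecQ b Q s1 s2) {z : ℂ}
    (hz : z.re ∈ Set.Icc (-(13 / 10 * l)) (-(7 / 10 * l))) :
    DifferentiableAt ℂ (fun w => R1 c M w * R1 c M (w - l) * phN (4 / 3) N w * s2 w) z := by
  have h1 := diffAt_R1 c M (NH_K2 (K2_sub hz)) (sin_K2 hz)
  have h2 : DifferentiableAt ℂ (fun w : ℂ => R1 c M (w - l)) z :=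
    (diffAt_R1 c M (z := z - l) (by simpa using (NH_K2' (K2_sub hz)).1)
      (by simpa using (NH_K2' (K2_sub hz)).2)).comp z (differentiableAt_id.sub_const _)
  have h3 := diffAt_phN N (β := 4 / 3) (NC_K2 (by norm_num) le_rfl (K2_sub hz))
  exact ((h1.mul h2).mul h3).mul (h.d2 z (K2_sub hz))

theorem bdd_T (hβ : 0 < β) (hβ' : β ≤ 4 / 3) (hMN : M ≤ N) (h : SpecQ b Q s1 s2) :
    Bdd K2 (-(2 * β) + -(2 * Q * sc (b, .S))) (fun w => Th c β (4 / 3) M N w * s2 w) :=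
  (bdd_Th c hβ hβ' hMN isCompact_K2 (fun x hx => NT_K2 hβ hβ' hx)
    fun x hx => NC_K2' hβ hβ' hx).mul h.b2

theorem diffAt_T (hβ : 0 < β) (hβ' : β ≤ 4 / 3) (h : SpecQ b Q s1 s2) {z : ℂ} (hz : z.re ∈ K2) :
    DifferentiableAt ℂ (fun w => Th c β (4 / 3) M N w * s2 w) z :=
  (diffAt_Th c M N (NT_K2 hβ hβ' hz)).mul (h.d2 z hz)

theorem measurable_XH (hm1 : Measurable s1) (hm2 : Measurable s2) (k : Option O3) :
    Measurable (XH c β M N s1 s2 k) := by
  have h1 := measurable_R1 c M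
  have h2 := measurable_phN β N
  have h3 := measurable_phN (4 / 3) N
  have h4 := measurable_Th c β (4 / 3) M N
  rcases k with _ | k
  · exact (h1.mul h2).mul hm1
  · cases k
    · exact (h1.mul h2).mul hm1
    · exact ((h1.mul (h1.comp (measurable_id.sub_const _))).mul h3).mul hm2
    · exact h4.mul hm2

theorem GH_mul (hβ : 0 < β) (hβ' : β ≤ 4 / 3) (hMN : M ≤ N) (h : SpecQ b Q s1 s2) {w : ℂ}
    (hw : w.re = -(7 / 10 * l)) : GH c β M N s1 w * GH c β M N s1 (w - l) =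
      XH c β M N s1 s2 (some .S) w + XH c β M N s1 s2 (some .T) w := by
  have hl := Bd.l_pos
  have hK : w.re ∈ K2 := by
    rw [hw]
    exact ⟨by linarith, by linarith⟩
  have hT := NT_K2 hβ hβ' hK
  have hs : sin (w + l / 2) ≠ 0 := by
    have := sin_ne_of_re (z := w) (a := l / 2) (by
      rw [hw]
      exact sin_ne_neg (by linarith) (by linarith))
    push_cast at this
    exact this
  show _ = R1 c M w * R1 c M (w - l) * phN (4 / 3) N w * s2 w + Th c β (4 / 3) M N w * s2 w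
  rw [Th_eq c hMN hT.c2 hT.d2 hT.c4 hs, h.mul w hw]
  unfold GH
  ring

/-- **The data of stage 2.** -/
theorem dataH (hβ : 0 < β) (hβ' : β ≤ 4 / 3) (hMN : M ≤ N) (h : SpecQ b Q s1 s2) :
    DataQ b (3 / 5 * l) (-(17 / 10 * l)) (-(17 / 10 * l)) (-(5 / 4 * l)) (-(13 / 10 * l))
      (-(7 / 10 * l)) (-(7 / 10 * l)) (-(l / 2)) (2 * β) Q (GH c β M N s1)
      (XH c β M N s1 s2) where
  meas := measurable_XH h.m1 h.m2
  dec k := by
    have hl := Bd.l_pos
    rcases k with _ | k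
    · refine DecOn_of (Bdd.mono_set (bdd_GH hβ hβ' h) ?_) (by simp only [sc4, ob4, Option.elim]; linarith)
      rintro x ⟨h1, h2⟩
      have h1 : 3 / 5 * l ≤ x := h1
      have h2 : x ≤ 3 / 5 * l := h2
      exact Or.inl ⟨h1, by linarith⟩
    · cases k
      · refine DecOn_of (Bdd.mono_set (bdd_GH hβ hβ' h) ?_)
          (by simp only [sc4, ob4, ob3, Option.elim]; exact le_of_eq (by cases b <;> simp [sc, chg] <;> ring))
        rintro x ⟨h1, h2⟩
        exact Or.inr ⟨h1, h2⟩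
      · exact DecOn_of (bdd_S h) (by simp only [sc4, ob4, ob3, Option.elim]; linarith)
      · refine DecOn_of (Bdd.mono_set (bdd_T hβ hβ' hMN h) ?_)
          (by simp only [sc4, ob4, ob3, Option.elim]; linarith)
        rintro x ⟨h1, h2⟩
        exact K2_subT ⟨h1, h2⟩
  cont k := by
    intro z hz
    refine ContinuousAt.continuousWithinAt ?_
    cases k
    · exact (diffAt_GH hβ hβ' h (Or.inr ⟨hz.1, hz.2⟩)).continuousAt
    · exact (diffAt_S h ⟨hz.1, hz.2⟩).continuousAt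
    · exact (diffAt_T hβ hβ' h (K2_subT ⟨hz.1, hz.2⟩)).continuousAt
  diff k := by
    intro z hz
    refine DifferentiableAt.differentiableWithinAt ?_
    cases k
    · exact diffAt_GH hβ hβ' h (Or.inr ⟨hz.1.le, hz.2.le⟩)
    · exact diffAt_S h ⟨hz.1.le, hz.2.le⟩
    · exact diffAt_T hβ hβ' h (K2_subT ⟨hz.1.le, hz.2.le⟩)
  split k t := by
    have e : ∀ a, one4L (3 / 5 * l) (-(17 / 10 * l)) (XH c β M N s1 s2) a t =
        XH c β M N s1 s2 a (pt (3 / 5 * l) (-(17 / 10 * l)) (ob4 a) t) := fun _ => rfl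
    unfold oneL
    cases k
    · have : (Finset.univ.filter fun a => ob4 a = Ob.A) = {none} := by decide
      rw [this, Finset.sum_singleton, e]
      rfl
    · have : (Finset.univ.filter fun a => ob4 a = Ob.L) = {some .L} := by decide
      rw [this, Finset.sum_singleton, e]
      rfl
    · have : (Finset.univ.filter fun a => ob4 a = Ob.S) = {some .S, some .T} := by decide
      rw [this, Finset.sum_pair (by decide), e, e]
      have hw : (pt (3 / 5 * l) (-(17 / 10 * l)) .S t).re = -(7 / 10 * l) := by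
        show (vl (-(17 / 10 * l) + l) t).re = _
        rw [re_vl]
        ring
      exact GH_mul hβ hβ' hMN h hw

theorem stripsH : StripsQ (3 / 5 * l) (-(17 / 10 * l)) (-(5 / 4 * l)) (-(13 / 10 * l))
    (-(7 / 10 * l)) (-(7 / 10 * l)) (-(l / 2)) (-(13 / 10 * l)) (-(l / 2)) := by
  have hl := Bd.l_pos
  constructor <;> linarith

/-- **Stage 2 for the rows `± l / 2`**: the gas of quanta and strings on the start lines as the sum
over the objects on their final lines. -/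
theorem stageH (hβ : 0 < β) (hβ' : β ≤ 4 / 3) (hMN : M ≤ N) (c' : ℂ) {M' N' : ℕ} (hMN' : M' ≤ N')
    (n n' : ℕ) {t1 t2 : ℂ → ℂ} (hX : SpecQ true ((n : ℝ) - n') s1 s2)
    (hY : SpecQ false ((n : ℝ) - n') t1 t2)
    (lnX : ∀ p p' : ℕ, (Fin p → O3) → (Fin p' → O3) → Fin p → ℝ)
    (lnY : ∀ p p' : ℕ, (Fin p → O3) → (Fin p' → O3) → Fin p' → ℝ)
    (hlX : ∀ p p' k k' i, lnX p p' k k' i ∈ Set.Icc
      (lo4 (3 / 5 * l) (-(17 / 10 * l)) (-(13 / 10 * l)) (-(7 / 10 * l)) (some (k i)))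
      (lo4 (3 / 5 * l) (-(5 / 4 * l)) (-(7 / 10 * l)) (-(l / 2)) (some (k i))))
    (hlY : ∀ p p' k k' i, lnY p p' k k' i ∈ Set.Icc
      (lo4 (3 / 5 * l) (-(17 / 10 * l)) (-(13 / 10 * l)) (-(7 / 10 * l)) (some (k' i)))
      (lo4 (3 / 5 * l) (-(5 / 4 * l)) (-(7 / 10 * l)) (-(l / 2)) (some (k' i)))) :
    Z3 (3 / 5 * l) (-(17 / 10 * l)) n n' (GH c β M N s1) (GH c' β M' N' t1) =
      ZobjQ (XH c β M N s1 s2) (XH c' β M' N' t1 t2) (3 / 5 * l) n n' lnX lnY := by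
  have hl := Bd.l_pos
  refine stage2Z stripsH ⟨le_rfl, by linarith⟩ ⟨by linarith, by linarith⟩
    ⟨by linarith, by linarith⟩ (κ := 2 * β) (by linarith) n n' (dataH hβ hβ' hMN hX)
    (dataH hβ hβ' hMN' hY) lnX lnY hlX hlY

end NURow

end
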