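import Pool.Agent.NUP1.Cutoff

/-!
# The cutoff of a pair of rows at `± l / 2`

`Psi β u = psi β (u - l / 2) psi β (u + l / 2) = (C - 1) (C - c₂) / ((C + 1) (C + c₂))` with
`C = cos (2 β u + β l)`, `c₂ = cos (2 β l)`.  On the strip `|re u + l / 2| ≤ s` (`2 β s < π / 2`):
`‖Psi‖ ≤ exp (-c exp (-2 β |im u|))` and `‖1 - Psi‖ ≤ C exp (-2 β |im u|)`.
-/

set_option autoImplicit false

open Complex

noncomputable section

namespace NURow

open NUP1

/-- the cutoff of a pair of rows at `± l / 2` -/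
def Psi (β : ℝ) (u : ℂ) : ℂ := psi β (u - l / 2) * psi β (u + l / 2)

/-- `cos (2 β u + β l)` -/
def ca (β : ℝ) (u : ℂ) : ℂ := cos (2 * β * u + β * l)

/-- `cos (2 β l)` -/
def c2 (β : ℝ) : ℝ := Real.cos (2 * β * l)

lemma c2_le_one (β : ℝ) : c2 β ≤ 1 := Real.cos_le_one _

theorem Psi_eq (β : ℝ) (u : ℂ) :
    Psi β u = ((ca β u - 1) / (ca β u + 1)) * ((ca β u - c2 β) / (ca β u + c2 β)) := by
  obtain ⟨a, ha⟩ : ∃ a : ℂ, a = 2 * β * u + β * l := ⟨_, rfl⟩
  obtain ⟨b, hb⟩ : ∃ b : ℂ, b = β * l := ⟨_, rfl⟩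
  have e0 : ca β u = cos a := by rw [ha]; rfl
  have e3 : ((c2 β : ℝ) : ℂ) = cos (2 * b) := by unfold c2; rw [hb]; push_cast; ring_nf
  have e1 : psi β (u - l / 2) = (cos (a - b) - cos b) / (cos (a - b) + cos b) := by
    unfold psi
    rw [ha, hb, show (2 * β * (u - l / 2) + β * l : ℂ) = 2 * β * u + β * l - β * l by ring]
  have e2 : psi β (u + l / 2) = (cos (a + b) - cos b) / (cos (a + b) + cos b) := by
    unfold psi
    rw [ha, hb, show (2 * β * (u + l / 2) + β * l : ℂ) = 2 * β * u + β * l + β * l by ring]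
  have h1 := Complex.sin_sq_add_cos_sq a
  have h2 := Complex.sin_sq_add_cos_sq b
  unfold Psi
  rw [e1, e2, e0, e3, div_mul_div_comm, div_mul_div_comm, Complex.cos_sub, Complex.cos_add,
    Complex.cos_two_mul]
  congr 1
  · linear_combination (-(sin b ^ 2)) * h1 + (cos a ^ 2 - 1) * h2
  · linear_combination (-(sin b ^ 2)) * h1 + (cos a ^ 2 - 1) * h2

section
variable {β s : ℝ} {u : ℂ}

/-- one factor: `‖(C - c) / (C + c)‖ ≤ exp (-(c κ / 2) exp (-2 β |t|))` -/
lemma norm_mob (h : Adm β s) (hu : |u.re + l / 2| ≤ s) {c : ℝ} (hc : 0 < c) (hc1 : c ≤ 1) :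
    ‖(ca β u - c) / (ca β u + c)‖ ≤ Real.exp (-(c * kap β s / 2 * Real.exp (-(2 * β) * |u.im|))) := by
  have hk := h.kap_pos
  have hre : kap β s * Real.cosh (2 * β * u.im) ≤ (ca β u).re := re_cos_ge h hu
  have hch := Real.one_le_cosh (2 * β * u.im)
  have hch0 := Real.cosh_pos (2 * β * u.im)
  have hCn : ‖ca β u‖ ≤ Real.cosh (2 * β * u.im) := by
    have := norm_cos_le (2 * β * u + β * l)
    rwa [im_arg] at this
  have hre0 : 0 < (ca β u).re := lt_of_lt_of_le (mul_pos hk hch0) hre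
  generalize ca β u = C at *
  have hid : ‖C - (c : ℝ)‖ ^ 2 = ‖C + (c : ℝ)‖ ^ 2 - 4 * c * C.re := by
    rw [← Complex.normSq_eq_norm_sq, ← Complex.normSq_eq_norm_sq, Complex.normSq_apply, Complex.normSq_apply]
    simp only [sub_re, add_re, sub_im, add_im, ofReal_re, ofReal_im]
    ring
  have hden0 : 0 < ‖C + (c : ℝ)‖ := by
    refine lt_of_lt_of_le ?_ (re_le_norm _)
    rw [add_re, ofReal_re]; linarith
  have hden2 : ‖C + (c : ℝ)‖ ≤ 2 * Real.cosh (2 * β * u.im) := by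
    refine (norm_add_le _ _).trans ?_
    rw [Complex.norm_real, Real.norm_of_nonneg hc.le]
    linarith
  have hpsi : ‖(C - (c : ℝ)) / (C + (c : ℝ))‖ ^ 2 = 1 - 4 * c * C.re / ‖C + (c : ℝ)‖ ^ 2 := by
    rw [norm_div, div_pow, hid, sub_div, div_self (by positivity)]
  have hge : c * kap β s * Real.exp (-(2 * β) * |u.im|) ≤ 4 * c * C.re / ‖C + (c : ℝ)‖ ^ 2 := by
    rw [le_div_iff₀ (by positivity)]
    have h1 : ‖C + (c : ℝ)‖ ^ 2 ≤ 4 * Real.cosh (2 * β * u.im) ^ 2 := by nlinarith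
    have h2 : Real.exp (-(2 * β) * |u.im|) * Real.cosh (2 * β * u.im) ≤ 1 := by
      have := cosh_le_exp (2 * β * u.im)
      rw [abs_arg h] at this
      calc _ ≤ Real.exp (-(2 * β) * |u.im|) * Real.exp (2 * β * |u.im|) :=
            mul_le_mul_of_nonneg_left this (Real.exp_pos _).le
        _ = 1 := by rw [← Real.exp_add]; simp
    have he := Real.exp_pos (-(2 * β) * |u.im|)
    calc _ ≤ c * kap β s * Real.exp (-(2 * β) * |u.im|) * (4 * Real.cosh (2 * β * u.im) ^ 2) :=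
          mul_le_mul_of_nonneg_left h1 (by positivity)
      _ = 4 * c * (kap β s * Real.cosh (2 * β * u.im)) *
          (Real.exp (-(2 * β) * |u.im|) * Real.cosh (2 * β * u.im)) := by ring
      _ ≤ 4 * c * (kap β s * Real.cosh (2 * β * u.im)) * 1 :=
          mul_le_mul_of_nonneg_left h2 (by positivity)
      _ ≤ 4 * c * C.re := by
          rw [mul_one]; exact mul_le_mul_of_nonneg_left hre (by positivity)
  have hsq : ‖(C - (c : ℝ)) / (C + (c : ℝ))‖ ^ 2 ≤
      Real.exp (-(c * kap β s / 2 * Real.exp (-(2 * β) * |u.im|))) ^ 2 := by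
    rw [hpsi, ← Real.exp_nat_mul]
    have h1 := Real.one_sub_le_exp_neg (c * kap β s * Real.exp (-(2 * β) * |u.im|))
    have h2 : ((2 : ℕ) : ℝ) * -(c * kap β s / 2 * Real.exp (-(2 * β) * |u.im|)) =
        -(c * kap β s * Real.exp (-(2 * β) * |u.im|)) := by push_cast; ring
    rw [h2]
    linarith
  exact le_of_sq_le_sq hsq (Real.exp_pos _).le

/-- one factor: `‖1 - (C - c) / (C + c)‖ ≤ (4 / κ) exp (-2 β |t|)` -/
lemma norm_one_sub_mob (h : Adm β s) (hu : |u.re + l / 2| ≤ s) {c : ℝ} (hc : 0 < c) (hc1 : c ≤ 1) :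
    ‖1 - (ca β u - c) / (ca β u + c)‖ ≤ 4 / kap β s * Real.exp (-(2 * β) * |u.im|) := by
  have hk := h.kap_pos
  have hre : kap β s * Real.cosh (2 * β * u.im) ≤ (ca β u).re := re_cos_ge h hu
  have hch0 := Real.cosh_pos (2 * β * u.im)
  have hre1 : kap β s * Real.cosh (2 * β * u.im) ≤ (ca β u + c).re := by
    rw [add_re, ofReal_re]; linarith
  have hd : ca β u + c ≠ 0 := by
    intro h0
    rw [h0, zero_re] at hre1
    have := mul_pos hk hch0
    linarith
  have e : 1 - (ca β u - c) / (ca β u + c) = 2 * c / (ca β u + c) := by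
    rw [eq_div_iff hd, sub_mul, div_mul_cancel₀ _ hd]
    ring
  have hn : ‖(2 : ℂ) * c‖ ≤ 2 := by
    rw [norm_mul, Complex.norm_real, Complex.norm_two, Real.norm_of_nonneg hc.le]
    linarith
  have hden : kap β s * (Real.exp (2 * β * |u.im|) / 2) ≤ ‖ca β u + c‖ := by
    refine le_trans ?_ (hre1.trans (re_le_norm _))
    have := cosh_ge (2 * β * u.im)
    rw [abs_arg h] at this
    exact mul_le_mul_of_nonneg_left this hk.le
  have hpos : 0 < kap β s * (Real.exp (2 * β * |u.im|) / 2) := by positivity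
  rw [e, norm_div]
  refine (div_le_div₀ (by norm_num) hn hpos hden).trans (le_of_eq ?_)
  rw [neg_mul, Real.exp_neg]
  field_simp
  ring

variable (h2 : 2 * β * l < Real.pi / 2)
include h2

lemma c2_pos (h : Adm β s) : 0 < c2 β :=
  Real.cos_pos_of_mem_Ioo ⟨by
    have := mul_nonneg h.pos.le l_pos.le
    linarith [Real.pi_pos], h2⟩

/-- `‖Psi‖ ≤ exp (-((1 + c₂) κ / 2) exp (-2 β |t|))` -/
theorem norm_Psi (h : Adm β s) (hu : |u.re + l / 2| ≤ s) :
    ‖Psi β u‖ ≤ Real.exp (-((1 + c2 β) * kap β s / 2 * Real.exp (-(2 * β) * |u.im|))) := by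
  have k1 := norm_mob h hu (c := 1) one_pos le_rfl
  have k2 := norm_mob h hu (c2_pos h2 h) (c2_le_one β)
  rw [ofReal_one] at k1
  rw [Psi_eq, norm_mul]
  refine (mul_le_mul k1 k2 (norm_nonneg _) (Real.exp_pos _).le).trans (le_of_eq ?_)
  rw [← Real.exp_add]
  congr 1
  ring

theorem norm_Psi_le_one (h : Adm β s) (hu : |u.re + l / 2| ≤ s) : ‖Psi β u‖ ≤ 1 := by
  refine (norm_Psi h2 h hu).trans (Real.exp_le_one_iff.2 ?_)
  have := h.kap_pos
  have := c2_pos h2 h
  have : 0 ≤ (1 + c2 β) * kap β s / 2 * Real.exp (-(2 * β) * |u.im|) := by positivity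
  linarith

/-- `‖1 - Psi‖ ≤ (8 / κ) exp (-2 β |t|)` -/
theorem norm_one_sub_Psi (h : Adm β s) (hu : |u.re + l / 2| ≤ s) :
    ‖1 - Psi β u‖ ≤ 8 / kap β s * Real.exp (-(2 * β) * |u.im|) := by
  have k1 := norm_one_sub_mob h hu (c := 1) one_pos le_rfl
  have k2 := norm_one_sub_mob h hu (c2_pos h2 h) (c2_le_one β)
  have k3 : ‖(ca β u - 1) / (ca β u + 1)‖ ≤ 1 := by
    have := norm_mob h hu (c := 1) one_pos le_rfl
    rw [ofReal_one] at this
    refine this.trans (Real.exp_le_one_iff.2 ?_)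
    have := h.kap_pos
    have : 0 ≤ 1 * kap β s / 2 * Real.exp (-(2 * β) * |u.im|) := by positivity
    linarith
  rw [ofReal_one] at k1
  have e : 1 - Psi β u = (1 - (ca β u - 1) / (ca β u + 1)) +
      (ca β u - 1) / (ca β u + 1) * (1 - (ca β u - c2 β) / (ca β u + c2 β)) := by
    rw [Psi_eq]; ring
  rw [e]
  refine (norm_add_le _ _).trans ?_
  rw [norm_mul]
  have k4 := mul_le_mul k3 k2 (norm_nonneg _) zero_le_one
  rw [one_mul] at k4
  have e2 : 8 / kap β s * Real.exp (-(2 * β) * |u.im|) =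
      4 / kap β s * Real.exp (-(2 * β) * |u.im|) + 4 / kap β s * Real.exp (-(2 * β) * |u.im|) := by ring
  rw [e2]
  exact add_le_add k1 k4

theorem norm_Psi_pow (h : Adm β s) (hu : |u.re + l / 2| ≤ s) (M : ℕ) :
    ‖Psi β u ^ M‖ ≤ Real.exp (-((1 + c2 β) * kap β s / 2 * (M * Real.exp (-(2 * β) * |u.im|)))) := by
  rw [norm_pow]
  refine (pow_le_pow_left₀ (norm_nonneg _) (norm_Psi h2 h hu) M).trans (le_of_eq ?_)
  rw [← Real.exp_nat_mul]
  congr 1
  ring

theorem norm_one_sub_Psi_pow (h : Adm β s) (hu : |u.re + l / 2| ≤ s) (M : ℕ) :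
    ‖1 - Psi β u ^ M‖ ≤ min 2 (8 / kap β s * (M * Real.exp (-(2 * β) * |u.im|))) := by
  have k := norm_Psi_le_one h2 h hu
  refine le_min ?_ ?_
  · refine (norm_sub_le _ _).trans ?_
    rw [norm_one, norm_pow]
    have := pow_le_one₀ (n := M) (norm_nonneg _) k
    linarith
  · have e : 1 - Psi β u ^ M = (1 - Psi β u) * ∑ i ∈ Finset.range M, Psi β u ^ i := by
      rw [mul_comm, ← geom_sum_mul_neg]
    rw [e, norm_mul]
    have k1 := norm_one_sub_Psi h2 h hu
    have k2 : ‖∑ i ∈ Finset.range M, Psi β u ^ i‖ ≤ M := by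
      refine (norm_sum_le _ _).trans ?_
      have h5 : ∑ i ∈ Finset.range M, ‖Psi β u ^ i‖ ≤ ∑ _i ∈ Finset.range M, (1 : ℝ) :=
        Finset.sum_le_sum fun i _ => by rw [norm_pow]; exact pow_le_one₀ (norm_nonneg _) k
      refine h5.trans (le_of_eq ?_)
      simp
    refine (mul_le_mul k1 k2 (norm_nonneg _) ?_).trans (le_of_eq (by ring))
    have := h.kap_pos
    positivity

omit h2 in
theorem differentiableAt_Psi (h : Adm β s) {u : ℂ} (hu : |u.re + l / 2| + l / 2 ≤ s) :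
    DifferentiableAt ℂ (Psi β) u := by
  have hl := l_pos
  have k1 := abs_le.1 (le_refl |u.re + l / 2|)
  refine DifferentiableAt.mul ?_ ?_
  · have k2 : |(u - (l : ℂ) / 2).re + l / 2| ≤ s := by
      have : (u - (l : ℂ) / 2).re = u.re - l / 2 := by simp
      rw [this, abs_le]
      constructor <;> linarith [k1.1, k1.2]
    exact DifferentiableAt.comp (f := fun u : ℂ => u - (l : ℂ) / 2) u (differentiableAt_psi h k2)
      (by fun_prop)
  · have k2 : |(u + (l : ℂ) / 2).re + l / 2| ≤ s := by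
      have : (u + (l : ℂ) / 2).re = u.re + l / 2 := by simp
      rw [this, abs_le]
      constructor <;> linarith [k1.1, k1.2]
    exact DifferentiableAt.comp (f := fun u : ℂ => u + (l : ℂ) / 2) u (differentiableAt_psi h k2)
      (by fun_prop)

end

/-- the cutoff of `M` rows at `l / 2` and `M` rows at `- l / 2` -/
theorem phi_pair (β : ℝ) (M : ℕ) (u : ℂ) :
    phi β (List.replicate M ((l : ℂ) / 2) ++ List.replicate M (-((l : ℂ) / 2))) u = 1 - Psi β u ^ M := by
  unfold phi Psi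
  rw [List.map_append, List.prod_append, List.map_replicate, List.map_replicate, List.prod_replicate,
    List.prod_replicate, mul_pow, sub_neg_eq_add]

end NURow
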