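import Pool.Agent.NURow.Spec

/-!
# Spectators of strings are products of spectators of quanta at almost all heights (helper30)
-/

set_option autoImplicit false

noncomputable section

open Complex MeasureTheory

namespace NURow

open NUP1 NUP1S NUP1.Bd NUP1.Leg

theorem sin_ne_imR {z : ℂ} (h : z.im ≠ 0) : sin z ≠ 0 := by
  intro h0
  rw [Complex.sin_eq_zero_iff] at h0
  obtain ⟨k, rfl⟩ := h0
  apply h
  simp

theorem cos_ne_imR {z : ℂ} (h : z.im ≠ 0) : cos z ≠ 0 := by
  rw [← sin_4l]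
  refine sin_ne_imR ?_
  simpa using h

theorem SF_im (c : Bool) {x : ℂ} (h : x.im ≠ 0) :
    SF c (some .S) x = SF c none x * SF c none (x + l) :=
  SF_mul c (sin_ne_imR (by simpa using h)) (sin_ne_imR (by simpa using h)) (cos_ne_imR h)
    (sin_ne_imR (by simpa using h))

theorem SP_im (c : Bool) {x : ℂ} (h : x.im ≠ 0) :
    SP c (some .S) x = SP c none x * SP c none (x + l) :=
  SP_mul c (sin_ne_imR (by simpa using h)) (sin_ne_imR (by simpa using h))
    (sin_ne_imR (by simpa using h)) (sin_ne_imR h) (sin_ne_imR (by simpa using h))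

theorem SD_im (c : Bool) {x : ℂ} (h : x.im ≠ 0) :
    SD c (some .S) x = SD c none x * SD c none (x + l) :=
  SD_mul c (sin_ne_imR (by simpa using h)) (sin_ne_imR (by simpa using h))

/-- outside the heights of `E` a string is seen as a pair of quanta -/
def Mul2 (E : Set ℝ) (s1 s2 : ℂ → ℂ) : Prop := ∀ u : ℂ, u.im ∉ E → s2 u = s1 u * s1 (u - l)

/-- the product law for functions of `x = w - u` -/
def MulI (F : Bool → Option O3 → ℂ → ℂ) : Prop :=
  ∀ (c : Bool) (x : ℂ), x.im ≠ 0 → F c (some .S) x = F c none x * F c none (x + l)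

theorem mulI_SF : MulI SF := fun c _ h => SF_im c h

theorem mulI_SP : MulI SP := fun c _ h => SP_im c h

theorem mulI_SD : MulI SD := fun c _ h => SD_im c h

theorem mulI_one : MulI fun _ _ _ => 1 := fun _ _ _ => (one_mul 1).symm

variable {F G : Bool → Option O3 → ℂ → ℂ} {w w' : ℂ}

theorem mul2_of (hF : MulI F) (hG : MulI G) (c : Bool) (w w' : ℂ) : Mul2 {w.im, w'.im}
    (fun u => F c none (w - u) * G (!c) none (w' - u))
    (fun u => F c (some .S) (w - u) * G (!c) (some .S) (w' - u)) := by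
  intro u hu
  have h1 : (w - u).im ≠ 0 := by
    rw [sub_im]
    intro h
    exact hu (Or.inl (by linarith))
  have h2 : (w' - u).im ≠ 0 := by
    rw [sub_im]
    intro h
    exact hu (Or.inr (by
      show u.im = w'.im
      linarith))
  simp only []
  rw [hF c _ h1, hG (!c) _ h2, show w - (u - l) = w - u + l by ring,
    show w' - (u - l) = w' - u + l by ring]
  ring

theorem Mul2.congr {E : Set ℝ} {s1 s2 t1 t2 : ℂ → ℂ} (h : Mul2 E s1 s2) (e1 : ∀ u, t1 u = s1 u)
    (e2 : ∀ u, t2 u = s2 u) : Mul2 E t1 t2 := by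
  rw [show t1 = s1 from funext e1, show t2 = s2 from funext e2]
  exact h

theorem mul2X_WW (w w' : ℂ) : Mul2 {w.im, w'.im} (fun u => Ck (w - u) * Dk (w' - u))
    (fun u => CC (w - u) * DD (w' - u)) :=
  mul2_of mulI_SF mulI_SF true w w'

theorem mul2Y_WW (w w' : ℂ) : Mul2 {w.im, w'.im} (fun v => Dk (w - v) * Ck (w' - v))
    (fun v => DD (w - v) * CC (w' - v)) :=
  mul2_of mulI_SF mulI_SF false w w'

theorem mul2X_P (w w' : ℂ) : Mul2 {w.im, w'.im}
    (fun u => Ck (w - u) * Dk (w' - u) * qg (u - (w + 3 * l)))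
    (fun u => CC (w - u) * DD (w' - u) * QQ (u - (w + 3 * l))) := by
  refine (mul2_of mulI_SP mulI_SF true w w').congr (fun u => ?_) fun u => ?_
  · rw [qg_c]
    show _ = Ck (w - u) * qg (w - u + 3 * l) * Dk (w' - u)
    ring
  · rw [QQ_c]
    show _ = CC (w - u) * QQ (-(w - u) - 3 * l) * DD (w' - u)
    ring

theorem mul2Y_P (w w' : ℂ) : Mul2 {w.im, w'.im}
    (fun v => Ck (w' - v) * Ck (v - (w + 3 * l))) (fun v => CC (w' - v) * C2 (v - (w + 3 * l))) := by
  refine (mul2_of mulI_SP mulI_SF false w w').congr (fun u => ?_) fun u => ?_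
  · rw [Ck_c]
    show _ = Ck (-(w - u) - 3 * l) * Ck (w' - u)
    ring
  · rw [C2_c]
    show _ = C2 (-(w - u) - 3 * l) * CC (w' - u)
    ring

theorem mul2X_P' (w w' : ℂ) : Mul2 {w.im, w'.im}
    (fun u => Ck (w - u) * Ck (u - (w' + 3 * l))) (fun u => CC (w - u) * C2 (u - (w' + 3 * l))) := by
  refine (mul2_of mulI_SF mulI_SP true w w').congr (fun u => ?_) fun u => ?_
  · rw [Ck_c]
    rfl
  · rw [C2_c]
    rfl

theorem mul2Y_P' (w w' : ℂ) : Mul2 {w.im, w'.im}
    (fun v => Dk (w - v) * Ck (w' - v) * qg (v - (w' + 3 * l)))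
    (fun v => DD (w - v) * CC (w' - v) * QQ (v - (w' + 3 * l))) := by
  refine (mul2_of mulI_SF mulI_SP false w w').congr (fun u => ?_) fun u => ?_
  · rw [qg_c]
    show _ = Dk (w - u) * (Ck (w' - u) * qg (w' - u + 3 * l))
    ring
  · rw [QQ_c]
    show _ = DD (w - u) * (CC (w' - u) * QQ (-(w' - u) - 3 * l))
    ring

theorem mul2X_PP (w w' : ℂ) : Mul2 {w.im, w'.im}
    (fun u => Ck (w - u) * qg (u - (w + 3 * l)) * Ck (u - (w' + 3 * l)))
    (fun u => CC (w - u) * QQ (u - (w + 3 * l)) * C2 (u - (w' + 3 * l))) := by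
  refine (mul2_of mulI_SP mulI_SP true w w').congr (fun u => ?_) fun u => ?_
  · rw [qg_c, Ck_c]
    rfl
  · rw [QQ_c, C2_c]
    rfl

theorem mul2Y_PP (w w' : ℂ) : Mul2 {w.im, w'.im}
    (fun v => Ck (w' - v) * Ck (v - (w + 3 * l)) * qg (v - (w' + 3 * l)))
    (fun v => CC (w' - v) * C2 (v - (w + 3 * l)) * QQ (v - (w' + 3 * l))) := by
  refine (mul2_of mulI_SP mulI_SP false w w').congr (fun u => ?_) fun u => ?_
  · rw [qg_c, Ck_c]
    show _ = Ck (-(w - u) - 3 * l) * (Ck (w' - u) * qg (w' - u + 3 * l))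
    ring
  · rw [QQ_c, C2_c]
    show _ = C2 (-(w - u) - 3 * l) * (CC (w' - u) * QQ (-(w' - u) - 3 * l))
    ring

theorem mul2_D (w : ℂ) : Mul2 {w.im} (fun v => Tk (w - v)) (fun v => TTk (w - v)) := by
  intro u hu
  have h1 : (w - u).im ≠ 0 := by
    rw [sub_im]
    intro h
    exact hu (by
      show u.im = w.im
      linarith)
  have := SD_im false h1
  rw [show w - u + l = w - (u - l) by ring] at this
  exact this

theorem mul2_one (E : Set ℝ) : Mul2 E (fun _ => 1) (fun _ => 1) := fun _ _ => (one_mul 1).symm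

/-! ## the quanta on `A'`, up to `21/20 l` -/

/-- bound and analyticity on `[3/5 l, 21/20 l]` -/
theorem specA_of {a b p q : ℝ} (c : Bool) {Q : ℝ} (hF : HQ a p F) (hG : HQ b q G) (hw : w.re = p)
    (hw' : w'.re = q) (hQ : b - a = Q) : PB (-(2 * Q * sc (c, .A)))
      (Set.Icc (3 / 5 * l) (21 / 20 * l)) fun u => F c none (w - u) * G (!c) none (w' - u) :=
  (((hF.one1 hw c).mul (hG.one1 hw' (!c))).mono Set.subset_union_left).rate (by
    subst hQ
    cases c <;> simp [sc, chg] <;> ring)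

end NURow

end
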