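import Pool.Agent.NURow.Bk3
import Pool.Agent.NURow.Spec2

/-!
# The classes of the two half quanta

`CD` = data of a class: kernels `K`, `K'`, pair function `gw`, spectators `S`, `S'` of the half
quanta `w`, `w'`, numbers `dX`, `dY` of quanta which belong to them, their lines `a`, `b`;
`CD.val` = the double integral of the class.  `CD.hX`, `CD.hY`: the class in which `w` (`w'`) is
bound to a string of the other species (pinned at distance `2 l`, half quantum on `5/8 l`).
The start classes `cS t t'`, `t, t' ∈ {W, F, P}`, `cD`, `cD'` and the final classes `cF t t'`,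
`t, t' ∈ {W, F, P, H}`.
-/

set_option autoImplicit false
set_option linter.unusedSectionVars false

noncomputable section

open Complex MeasureTheory
open scoped Classical

namespace NURow

open NUP1 NUP1S NUP1.Bd NUP1.Leg

/-- spectators of a half quantum with its host string of species `b` at distance `2 l` -/
def hostS (b : Bool) (S : Sp) : Sp := fun c k x => gz (b, .S) (c, ob4 k) (x - 2 * l) * S c k x

/-- data of a class -/
structure CD where
  K : ℂ → ℂ
  K' : ℂ → ℂ
  gw : ℂ → ℂ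
  S : Sp
  S' : Sp
  dX : ℕ
  dY : ℕ
  a : ℝ
  b : ℝ

/-- the integrand of a class at given half quanta: `n`, `n'` = numbers of the whole class -/
def CD.Z (c : CD) (X Y : Option O3 → ℂ → ℂ) (α : ℝ) (n n' : ℕ)
    (lnX : ∀ p p' : ℕ, (Fin p → O3) → (Fin p' → O3) → Fin p → ℝ)
    (lnY : ∀ p p' : ℕ, (Fin p → O3) → (Fin p' → O3) → Fin p' → ℝ) (w w' : ℂ) : ℂ :=
  if c.dX ≤ n ∧ c.dY ≤ n' then
    ZobjQ (XS true X c.S c.S' w w') (XS false Y c.S c.S' w w') α (n - c.dX) (n' - c.dY) lnX lnY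
  else 0

/-- prefactor of a class -/
def CD.pre (c : CD) (w w' : ℂ) : ℂ := Pre c.gw c.K c.K' w w'

/-- **the double integral of a class** -/
def CD.val (c : CD) (X Y : Option O3 → ℂ → ℂ) (α : ℝ) (n n' : ℕ)
    (lnX : ∀ p p' : ℕ, (Fin p → O3) → (Fin p' → O3) → Fin p → ℝ)
    (lnY : ∀ p p' : ℕ, (Fin p → O3) → (Fin p' → O3) → Fin p' → ℝ) : ℂ :=
  ∫ y : ℝ × ℝ, c.pre (vl c.a y.1) (vl c.b y.2) *
    c.Z X Y α n n' lnX lnY (vl c.a y.1) (vl c.b y.2) ∂(volume.prod volume)

theorem CD.val_JJ (c : CD) (X Y : Option O3 → ℂ → ℂ) (α : ℝ) (n n' : ℕ)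
    (lnX : ∀ p p' : ℕ, (Fin p → O3) → (Fin p' → O3) → Fin p → ℝ)
    (lnY : ∀ p p' : ℕ, (Fin p → O3) → (Fin p' → O3) → Fin p' → ℝ) :
    c.val X Y α n n' lnX lnY = if c.dX ≤ n ∧ c.dY ≤ n' then
      ∫ y, JJ X Y c.S c.S' c.gw c.K c.K' α (n - c.dX) (n' - c.dY) lnX lnY c.a c.b y
        ∂(volume.prod volume) else 0 := by
  unfold CD.val CD.Z CD.pre JJ
  split_ifs
  · rfl
  · simp

/-- **bound of a class** by the modulus -/
theorem CD.val_le (c : CD) (X Y : Option O3 → ℂ → ℂ) (α : ℝ) (n n' : ℕ)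
    (lnX : ∀ p p' : ℕ, (Fin p → O3) → (Fin p' → O3) → Fin p → ℝ)
    (lnY : ∀ p p' : ℕ, (Fin p → O3) → (Fin p' → O3) → Fin p' → ℝ) :
    ‖c.val X Y α n n' lnX lnY‖ₑ ≤ ∫⁻ y : ℝ × ℝ, ‖c.pre (vl c.a y.1) (vl c.b y.2)‖ₑ *
      ‖c.Z X Y α n n' lnX lnY (vl c.a y.1) (vl c.b y.2)‖ₑ ∂(volume.prod volume) := by
  refine (enorm_integral_le_lintegral_enorm _).trans (le_of_eq ?_)
  exact lintegral_congr fun y => enorm_mul _ _

/-- `w` bound to a Y string -/
def CD.hX (c : CD) (Y : Option O3 → ℂ → ℂ) : CD where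
  K w := -(2 * Real.pi * rD (2 * l) * wt .S * Y (some .S) (w - 2 * l)) * c.K w
  K' := c.K'
  gw x := c.gw x * c.S' false (some .S) (2 * l - x)
  S := hostS false c.S
  S' := c.S'
  dX := c.dX
  dY := c.dY + 2
  a := 5 / 8 * l
  b := c.b

/-- `w'` bound to an X string -/
def CD.hY (c : CD) (X : Option O3 → ℂ → ℂ) : CD where
  K := c.K
  K' w := -(2 * Real.pi * rD (2 * l) * wt .S * X (some .S) (w - 2 * l)) * c.K' w
  gw x := c.gw x * c.S true (some .S) (x + 2 * l)
  S := c.S
  S' := hostS true c.S'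
  dX := c.dX + 2
  dY := c.dY
  a := c.a
  b := 5 / 8 * l

/-- `w` on its final line -/
def CD.mX (c : CD) : CD := { c with a := 5 / 4 * l }

/-- `w'` on its final line -/
def CD.mY (c : CD) : CD := { c with b := 5 / 4 * l }

/-- the left (own) orientation of the spectators of `w'` -/
def fl (S : Bool → Option O3 → ℂ → ℂ) : Sp := fun c k => S (!c) k

/-- types of a half quantum: `W` = alone, right line; `F` = alone, left line; `P` = left line with a
captured quantum of the other species; `H` = bound to a string of the other species -/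
inductive HT
  | W | F | P | H
  deriving DecidableEq

instance : Fintype HT := ⟨{.W, .F, .P, .H}, fun x => by cases x <;> simp⟩

/-- start line -/
def HT.l0 : HT → ℝ
  | .W => 31 / 50 * l
  | .F => -(11 / 4) * l
  | .P => -(11 / 4) * l
  | .H => 31 / 50 * l

/-- spectators, own orientation, without host -/
def HT.sp : HT → Sp
  | .W => SF
  | .F => SF
  | .P => SP
  | .H => SF

/-- numbers of captured quanta -/
def HT.nq : HT → ℕ
  | .P => 1
  | _ => 0

/-- pair function of the half quanta, `x = w - w'` -/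
def gT : HT → HT → ℂ → ℂ
  | .P, .P => fun x => Dk x * Ck (-x - 3 * l) * Ck (x - 3 * l) * qg x
  | .P, _ => fun x => Dk x * Ck (-x - 3 * l)
  | _, .P => fun x => Dk x * Ck (x - 3 * l)
  | _, _ => Dk

/-- kernel of a half quantum: `kF` alone, `kP` with the captured quantum -/
def HT.ker (kF kP : ℂ → ℂ) : HT → ℂ → ℂ
  | .P => kP
  | _ => kF

/-- **the start classes** `t, t' ∈ {W, F, P}` -/
def cS (kF kP kF' kP' : ℂ → ℂ) (t t' : HT) : CD where
  K := t.ker kF kP
  K' := t'.ker kF' kP'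
  gw := gT t t'
  S := t.sp
  S' := fl t'.sp
  dX := t'.nq
  dY := t.nq
  a := t.l0
  b := t'.l0

/-- final form of `w` -/
def CD.fX (Y : Option O3 → ℂ → ℂ) : HT → CD → CD
  | .W, c => c.mX
  | .H, c => c.hX Y
  | _, c => c

/-- final form of `w'` -/
def CD.fY (X : Option O3 → ℂ → ℂ) : HT → CD → CD
  | .W, c => c.mY
  | .H, c => c.hY X
  | _, c => c

/-- **the final classes** `t, t' ∈ {W, F, P, H}` -/
def cF (X Y : Option O3 → ℂ → ℂ) (kF kP kF' kP' : ℂ → ℂ) (t t' : HT) : CD :=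
  CD.fY X t' (CD.fX Y t (cS kF kP kF' kP' t t'))

/-- sign of a half quantum: left line minus -/
def HT.sg : HT → ℂ
  | .W => 1
  | .H => 1
  | .F => -1
  | .P => -1

/-! ## classes with one line -/

/-- data of a class with one line (both half quanta at distance `3 l`) -/
structure CD1 where
  K : ℂ → ℂ
  S : Sp
  a : ℝ

/-- the integrand of a class with one line -/
def CD1.Z (c : CD1) (X Y : Option O3 → ℂ → ℂ) (α : ℝ) (n n' : ℕ)
    (lnX : ∀ p p' : ℕ, (Fin p → O3) → (Fin p' → O3) → Fin p → ℝ)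
    (lnY : ∀ p p' : ℕ, (Fin p → O3) → (Fin p' → O3) → Fin p' → ℝ) (w : ℂ) : ℂ :=
  ZobjQ (XS true X c.S (fun _ _ _ => 1) w 0) (XS false Y c.S (fun _ _ _ => 1) w 0) α n n' lnX lnY

/-- the integral of a class with one line -/
def CD1.val (c : CD1) (X Y : Option O3 → ℂ → ℂ) (α : ℝ) (n n' : ℕ)
    (lnX : ∀ p p' : ℕ, (Fin p → O3) → (Fin p' → O3) → Fin p → ℝ)
    (lnY : ∀ p p' : ℕ, (Fin p → O3) → (Fin p' → O3) → Fin p' → ℝ) : ℂ :=
  ∫ y : ℝ, c.K (vl c.a y) * c.Z X Y α n n' lnX lnY (vl c.a y)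

/-- **bound of a class with one line** by the modulus -/
theorem CD1.val_le (c : CD1) (X Y : Option O3 → ℂ → ℂ) (α : ℝ) (n n' : ℕ)
    (lnX : ∀ p p' : ℕ, (Fin p → O3) → (Fin p' → O3) → Fin p → ℝ)
    (lnY : ∀ p p' : ℕ, (Fin p → O3) → (Fin p' → O3) → Fin p' → ℝ) :
    ‖c.val X Y α n n' lnX lnY‖ₑ ≤
      ∫⁻ y : ℝ, ‖c.K (vl c.a y)‖ₑ * ‖c.Z X Y α n n' lnX lnY (vl c.a y)‖ₑ := by
  refine (enorm_integral_le_lintegral_enorm _).trans (le_of_eq ?_)
  exact lintegral_congr fun y => enorm_mul _ _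

/-- class D1 with kernel `k` -/
def cD (k : ℂ → ℂ) : CD1 := ⟨k, SD, -(11 / 4) * l⟩

/-- class D1' with kernel `k` -/
def cD' (k : ℂ → ℂ) : CD1 := ⟨k, fl SD, -(11 / 4) * l⟩

/-! ## the functions with spectators -/

/-- `XH` with spectators as `XS` of `XH` without spectators -/
theorem XH_XS (b : Bool) (c : ℂ) (β : ℝ) (M N : ℕ) {S S' : Sp}
    (hL : S b (some .L) = S b none) (hT : S b (some .T) = S b (some .S))
    (hL' : S' b (some .L) = S' b none) (hT' : S' b (some .T) = S' b (some .S)) (w w' : ℂ) :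
    XH c β M N (fun u => S b none (w - u) * S' b none (w' - u))
      (fun u => S b (some .S) (w - u) * S' b (some .S) (w' - u)) =
    XS b (XH c β M N (fun _ => 1) fun _ => 1) S S' w w' := by
  funext k z
  unfold XS
  rcases k with _ | (_ | _ | _)
  · simp only [XH]
    ring
  · simp only [XH, hL, hL']
    ring
  · simp only [XH]
    ring
  · simp only [XH, hT, hT']
    ring

/-- the same with one half quantum -/
theorem XH_XS1 (b : Bool) (c : ℂ) (β : ℝ) (M N : ℕ) {S : Sp}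
    (hL : S b (some .L) = S b none) (hT : S b (some .T) = S b (some .S)) (w : ℂ) :
    XH c β M N (fun u => S b none (w - u)) (fun u => S b (some .S) (w - u)) =
    XS b (XH c β M N (fun _ => 1) fun _ => 1) S (fun _ _ _ => 1) w 0 := by
  funext k z
  unfold XS
  rcases k with _ | (_ | _ | _)
  · simp only [XH]
    ring
  · simp only [XH, hL]
    ring
  · simp only [XH]
    ring
  · simp only [XH, hT]
    ring

end NURow

end
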