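import Pool.Agent.NURow.Spec
import Pool.Agent.NUP1L.Final
import Pool.Agent.NUP1L.Link4

/-!
# The one body functions at the rows `± l / 2`

At the limit rows (`M` pairs of rows at `± l / 2` in each group, ends `p = h = - l / 2`,
`q = g = l / 2`) the one body function of the contour identity is `GH`; the classes of
`NUP1L/Final` are `ZobjQ`.
-/

set_option autoImplicit false
set_option linter.unusedSectionVars false

noncomputable section

open Complex MeasureTheory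

namespace NURow

open NUP1 NUP1S NUP1.Bd
open NUP1.N (Z3 Gr0 GXs GYs ZP ZP' ZPP)
open NUP1.Leg (hE hr thE cc Ck Dk)

/-- the rows at the limit: `M` at `l / 2`, `M` at `- l / 2` -/
def x0 (M : ℕ) (i : Fin (2 * M)) : ℂ := if (i : ℕ) < M then (l : ℂ) / 2 else -((l : ℂ) / 2)

theorem prod_x0 (M : ℕ) (f : ℂ → ℂ) :
    ∏ i, f (x0 M i) = f ((l : ℂ) / 2) ^ M * f (-((l : ℂ) / 2)) ^ M := by
  have h1 := Fin.prod_univ_eq_prod_range
    (fun i : ℕ => if i < M then f ((l : ℂ) / 2) else f (-((l : ℂ) / 2))) (2 * M)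
  have h2 : ∏ i, f (x0 M i) = ∏ i : Fin (2 * M),
      (if (i : ℕ) < M then f ((l : ℂ) / 2) else f (-((l : ℂ) / 2))) := by
    refine Finset.prod_congr rfl fun i _ => ?_
    unfold x0
    split_ifs <;> rfl
  rw [h2, h1, two_mul, Finset.prod_range_add]
  congr 1
  · rw [Finset.prod_congr rfl fun i hi => if_pos (Finset.mem_range.1 hi), Finset.prod_const,
      Finset.card_range]
  · rw [Finset.prod_congr rfl fun i _ => if_neg (by omega), Finset.prod_const, Finset.card_range]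

/-- the factor of the rows and the ends at the limit, any cutoff -/
theorem Gr0_hE (c : ℂ) (M : ℕ) {r o r' o' : ℂ}
    (h : (r = -((l : ℂ) / 2) ∧ o = -((l : ℂ) / 2) ∧ r' = (l : ℂ) / 2 ∧ o' = (l : ℂ) / 2) ∨
      (r = (l : ℂ) / 2 ∧ o = (l : ℂ) / 2 ∧ r' = -((l : ℂ) / 2) ∧ o' = -((l : ℂ) / 2))) (u : ℂ) :
    Gr0 (hE c r o r' o' (x0 M) (x0 M)) (x0 M) u = R1 c M u := by
  have e1 : ∏ i, 1 / sin (u - x0 M i) =
      (1 / sin (u - l / 2)) ^ M * (1 / sin (u + l / 2)) ^ M := by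
    rw [prod_x0 M fun x => 1 / sin (u - x), sub_neg_eq_add]
  have e2 : ∏ i, 1 / sin (u - x0 M i - 2 * l) =
      (1 / sin (u - 5 * l / 2)) ^ M * (1 / sin (u - 3 * l / 2)) ^ M := by
    rw [prod_x0 M fun x => 1 / sin (u - x - 2 * l)]
    congr 4 <;> ring
  have e3 : ∏ i, sin (u - x0 M i + 3 * l) ^ 2 =
      (sin (u + 5 * l / 2) ^ 2) ^ M * (sin (u + 7 * l / 2) ^ 2) ^ M := by
    rw [prod_x0 M fun x => sin (u - x + 3 * l) ^ 2]
    congr 4 <;> ring
  have e4 : thE r o r' o' u = sin (u + 7 * l / 2) * sin (u + 5 * l / 2) /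
      (sin (u - 3 * l / 2) * sin (u - 5 * l / 2)) := by
    unfold thE
    rcases h with ⟨rfl, rfl, rfl, rfl⟩ | ⟨rfl, rfl, rfl, rfl⟩
    · rw [show u - -((l : ℂ) / 2) + 3 * l = u + 7 * l / 2 by ring,
        show u - (l : ℂ) / 2 + 3 * l = u + 5 * l / 2 by ring,
        show -((l : ℂ) / 2) - u + 2 * l = -(u - 3 * l / 2) by ring,
        show (l : ℂ) / 2 - u + 2 * l = -(u - 5 * l / 2) by ring, Complex.sin_neg, Complex.sin_neg,
        neg_mul_neg]
    · rw [show u - -((l : ℂ) / 2) + 3 * l = u + 7 * l / 2 by ring,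
        show u - (l : ℂ) / 2 + 3 * l = u + 5 * l / 2 by ring,
        show -((l : ℂ) / 2) - u + 2 * l = -(u - 3 * l / 2) by ring,
        show (l : ℂ) / 2 - u + 2 * l = -(u - 5 * l / 2) by ring, Complex.sin_neg, Complex.sin_neg,
        neg_mul_neg, mul_comm (sin (u + 5 * l / 2)), mul_comm (sin (u - 5 * l / 2))]
  unfold Gr0 hE hr R1 Rh
  rw [e1, e2, e3, e4]
  generalize sin (u - l / 2) = a1
  generalize sin (u + l / 2) = a2
  generalize sin (u - 5 * l / 2) = a3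
  generalize sin (u - 3 * l / 2) = a4
  generalize sin (u + 5 * l / 2) = a5
  generalize sin (u + 7 * l / 2) = a6
  rw [← pow_mul, ← pow_mul, pow_succ a5, pow_succ a6, pow_succ (1 / a3), pow_succ (1 / a4)]
  field_simp

/-- the cutoff at the limit -/
theorem prod_psi_x0 (β : ℝ) (M : ℕ) (u : ℂ) : ∏ i, psi β (u - x0 M i) = Psi β u ^ M := by
  rw [prod_x0 M fun x => psi β (u - x), sub_neg_eq_add, ← mul_pow]
  rfl

/-- the one body function with the cutoff at the limit -/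
def h0 (β : ℝ) (M : ℕ) (r o r' o' u : ℂ) : ℂ :=
  hE (cc (2 * M)) r o r' o' (x0 M) (x0 M) u * (1 - ∏ i, psi β (u - x0 M i))

/-- **The one body function of the contour identity at the rows `± l / 2`.** -/
theorem Gr0_h0 (β : ℝ) (M : ℕ) {r o r' o' : ℂ}
    (h : (r = -((l : ℂ) / 2) ∧ o = -((l : ℂ) / 2) ∧ r' = (l : ℂ) / 2 ∧ o' = (l : ℂ) / 2) ∨
      (r = (l : ℂ) / 2 ∧ o = (l : ℂ) / 2 ∧ r' = -((l : ℂ) / 2) ∧ o' = -((l : ℂ) / 2))) (u : ℂ) :
    Gr0 (h0 β M r o r' o') (x0 M) u = R1 (cc (2 * M)) M u * phN β M u := by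
  rw [← Gr0_hE (cc (2 * M)) M h u]
  have e := prod_psi_x0 β M u
  show (hE (cc (2 * M)) r o r' o' (x0 M) (x0 M) u * (1 - ∏ i, psi β (u - x0 M i))) *
    ∏ i, 1 / sin (u - x0 M i) = (hE (cc (2 * M)) r o r' o' (x0 M) (x0 M) u *
      ∏ i, 1 / sin (u - x0 M i)) * (1 - Psi β u ^ M)
  rw [e]
  ring

/-- one body function of `X` at the limit -/
def hX0 (β : ℝ) (M : ℕ) : ℂ → ℂ :=
  h0 β M (-((l : ℂ) / 2)) (-((l : ℂ) / 2)) ((l : ℂ) / 2) ((l : ℂ) / 2)

/-- one body function of `Y` at the limit -/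
def hY0 (β : ℝ) (M : ℕ) : ℂ → ℂ :=
  h0 β M ((l : ℂ) / 2) ((l : ℂ) / 2) (-((l : ℂ) / 2)) (-((l : ℂ) / 2))

theorem Gr0_hX0 (β : ℝ) (M : ℕ) (u : ℂ) :
    Gr0 (hX0 β M) (x0 M) u = R1 (cc (2 * M)) M u * phN β M u :=
  Gr0_h0 β M (Or.inl ⟨rfl, rfl, rfl, rfl⟩) u

theorem Gr0_hY0 (β : ℝ) (M : ℕ) (u : ℂ) :
    Gr0 (hY0 β M) (x0 M) u = R1 (cc (2 * M)) M u * phN β M u :=
  Gr0_h0 β M (Or.inr ⟨rfl, rfl, rfl, rfl⟩) u

/-- the activity constant -/
theorem cc_even (M : ℕ) : cc (2 * M) = sin (2 * l) / sin l := by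
  unfold NUP1.Leg.cc
  rw [pow_mul]
  simp

/-- admissible final lines of the objects -/
structure LnH (lnX : ∀ p p' : ℕ, (Fin p → O3) → (Fin p' → O3) → Fin p → ℝ)
    (lnY : ∀ p p' : ℕ, (Fin p → O3) → (Fin p' → O3) → Fin p' → ℝ) : Prop where
  hX : ∀ p p' k k' i, lnX p p' k k' i ∈ Set.Icc
    (lo4 (3 / 5 * l) (-(17 / 10 * l)) (-(13 / 10 * l)) (-(7 / 10 * l)) (some (k i)))
    (lo4 (3 / 5 * l) (-(5 / 4 * l)) (-(7 / 10 * l)) (-(l / 2)) (some (k i)))
  hY : ∀ p p' k k' i, lnY p p' k k' i ∈ Set.Icc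
    (lo4 (3 / 5 * l) (-(17 / 10 * l)) (-(13 / 10 * l)) (-(7 / 10 * l)) (some (k' i)))
    (lo4 (3 / 5 * l) (-(5 / 4 * l)) (-(7 / 10 * l)) (-(l / 2)) (some (k' i)))

section conv

variable {β : ℝ} (hβ : 0 < β) (hβ' : β ≤ 4 / 3) (M : ℕ)
  {lnX : ∀ p p' : ℕ, (Fin p → O3) → (Fin p' → O3) → Fin p → ℝ}
  {lnY : ∀ p p' : ℕ, (Fin p → O3) → (Fin p' → O3) → Fin p' → ℝ} (L : LnH lnX lnY)
  {w w' : ℂ} {s1 s2 t1 t2 : ℂ → ℂ}
include hβ hβ' L

/-- **Stage 2 for one class at the rows `± l / 2`** -/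
theorem stH (n n' : ℕ) (hX : SpecQ true ((n : ℝ) - n') s1 s2)
    (hY : SpecQ false ((n : ℝ) - n') t1 t2) {f g : ℂ → ℂ}
    (hf : ∀ u, f u = Gr0 (hX0 β M) (x0 M) u * s1 u)
    (hg : ∀ v, g v = Gr0 (hY0 β M) (x0 M) v * t1 v) :
    Z3 (3 / 5 * l) (-(17 / 10) * l) n n' f g =
      ZobjQ (XH (cc (2 * M)) β M M s1 s2) (XH (cc (2 * M)) β M M t1 t2) (3 / 5 * l) n n'
        lnX lnY := by
  have ef : f = GH (cc (2 * M)) β M M s1 := by
    funext u
    rw [hf, Gr0_hX0]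
    rfl
  have eg : g = GH (cc (2 * M)) β M M t1 := by
    funext u
    rw [hg, Gr0_hY0]
    rfl
  rw [ef, eg, neg_mul]
  exact stageH hβ hβ' le_rfl _ le_rfl n n' hX hY lnX lnY L.hX L.hY

/-- no captured quantum -/
theorem st_WW (h : Pos w) (h' : Pos w') (n : ℕ) :
    Z3 (3 / 5 * l) (-(17 / 10) * l) n n (GXs (hX0 β M) (x0 M) w w') (GYs (hY0 β M) (x0 M) w w') =
      ZobjQ (XH (cc (2 * M)) β M M (fun u => Ck (w - u) * Dk (w' - u))
          (fun u => CC (w - u) * DD (w' - u)))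
        (XH (cc (2 * M)) β M M (fun v => Dk (w - v) * Ck (w' - v))
          (fun v => DD (w - v) * CC (w' - v))) (3 / 5 * l) n n lnX lnY := by
  refine stH hβ hβ' M L n n ?_ ?_ (fun u => rfl) fun v => rfl
  · rw [sub_self]
    exact specX_WW h h'
  · rw [sub_self]
    exact specY_WW h h'

/-- a captured quantum of `Y` -/
theorem st_P (h : w.re = -(11 / 4) * l) (h' : Pos w') (n : ℕ) :
    ZP (3 / 5 * l) (-(17 / 10) * l) (x0 M) (x0 M) (hX0 β M) (hY0 β M) n n w w' =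
      if 1 ≤ n then
        ZobjQ (XH (cc (2 * M)) β M M (fun u => Ck (w - u) * Dk (w' - u) * qg (u - (w + 3 * l)))
          (fun u => CC (w - u) * DD (w' - u) * QQ (u - (w + 3 * l))))
        (XH (cc (2 * M)) β M M (fun v => Ck (w' - v) * Ck (v - (w + 3 * l)))
          (fun v => CC (w' - v) * C2 (v - (w + 3 * l)))) (3 / 5 * l) n (n - 1) lnX lnY
      else 0 := by
  unfold ZP
  by_cases hn : 1 ≤ n
  · rw [if_pos hn, if_pos hn]
    have e : (n : ℝ) - ((n - 1 : ℕ) : ℝ) = 1 := by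
      rw [Nat.cast_sub hn]
      push_cast
      ring
    refine stH hβ hβ' M L n (n - 1) ?_ ?_ (fun u => ?_) fun v => ?_
    · rw [e]
      exact specX_P h h'
    · rw [e]
      exact specY_P h h'
    · ring
    · ring
  · rw [if_neg hn, if_neg hn]

/-- a captured quantum of `X` -/
theorem st_P' (h : Pos w) (h' : w'.re = -(11 / 4) * l) (n : ℕ) :
    ZP' (3 / 5 * l) (-(17 / 10) * l) (x0 M) (x0 M) (hX0 β M) (hY0 β M) n n w w' =
      if 1 ≤ n then
        ZobjQ (XH (cc (2 * M)) β M M (fun u => Ck (w - u) * Ck (u - (w' + 3 * l)))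
          (fun u => CC (w - u) * C2 (u - (w' + 3 * l))))
        (XH (cc (2 * M)) β M M (fun v => Dk (w - v) * Ck (w' - v) * qg (v - (w' + 3 * l)))
          (fun v => DD (w - v) * CC (w' - v) * QQ (v - (w' + 3 * l)))) (3 / 5 * l) (n - 1) n
          lnX lnY
      else 0 := by
  unfold ZP'
  by_cases hn : 1 ≤ n
  · rw [if_pos hn, if_pos hn]
    have e : ((n - 1 : ℕ) : ℝ) - (n : ℝ) = -1 := by
      rw [Nat.cast_sub hn]
      push_cast
      ring
    refine stH hβ hβ' M L (n - 1) n ?_ ?_ (fun u => ?_) fun v => ?_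
    · rw [e]
      exact specX_P' h h'
    · rw [e]
      exact specY_P' h h'
    · ring
    · ring
  · rw [if_neg hn, if_neg hn]

/-- both captured quanta -/
theorem st_PP (h : w.re = -(11 / 4) * l) (h' : w'.re = -(11 / 4) * l) (n : ℕ) :
    ZPP (3 / 5 * l) (-(17 / 10) * l) (x0 M) (x0 M) (hX0 β M) (hY0 β M) n n w w' =
      if 1 ≤ n then
        ZobjQ (XH (cc (2 * M)) β M M
          (fun u => Ck (w - u) * qg (u - (w + 3 * l)) * Ck (u - (w' + 3 * l)))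
          (fun u => CC (w - u) * QQ (u - (w + 3 * l)) * C2 (u - (w' + 3 * l))))
        (XH (cc (2 * M)) β M M
          (fun v => Ck (w' - v) * Ck (v - (w + 3 * l)) * qg (v - (w' + 3 * l)))
          (fun v => CC (w' - v) * C2 (v - (w + 3 * l)) * QQ (v - (w' + 3 * l)))) (3 / 5 * l)
          (n - 1) (n - 1) lnX lnY
      else 0 := by
  unfold ZPP
  by_cases hn : 1 ≤ n
  · rw [if_pos ⟨hn, hn⟩, if_pos hn]
    refine stH hβ hβ' M L (n - 1) (n - 1) ?_ ?_ (fun u => ?_) fun v => ?_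
    · rw [sub_self]
      exact specX_PP h h'
    · rw [sub_self]
      exact specY_PP h h'
    · ring
    · ring
  · rw [if_neg fun h => hn h.1, if_neg hn]

/-- captured pair seen by `Y` -/
theorem st_D (h : w.re = -(11 / 4) * l) (n : ℕ) :
    Z3 (3 / 5 * l) (-(17 / 10) * l) n n (Gr0 (hX0 β M) (x0 M))
      (fun v => Gr0 (hY0 β M) (x0 M) v * Tk (w - v)) =
      ZobjQ (XH (cc (2 * M)) β M M (fun _ => 1) (fun _ => 1))
        (XH (cc (2 * M)) β M M (fun v => Tk (w - v)) (fun v => TTk (w - v))) (3 / 5 * l) n n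
          lnX lnY := by
  refine stH hβ hβ' M L n n ?_ ?_ (fun u => (mul_one _).symm) fun v => rfl
  · rw [sub_self]
    exact spec_one true
  · rw [sub_self]
    exact spec_D false h

/-- captured pair seen by `X` -/
theorem st_D' (h : w.re = -(11 / 4) * l) (n : ℕ) :
    Z3 (3 / 5 * l) (-(17 / 10) * l) n n (fun u => Gr0 (hX0 β M) (x0 M) u * Tk (w - u))
      (Gr0 (hY0 β M) (x0 M)) =
      ZobjQ (XH (cc (2 * M)) β M M (fun u => Tk (w - u)) (fun u => TTk (w - u)))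
        (XH (cc (2 * M)) β M M (fun _ => 1) (fun _ => 1)) (3 / 5 * l) n n lnX lnY := by
  refine stH hβ hβ' M L n n ?_ ?_ (fun u => rfl) fun v => (mul_one _).symm
  · rw [sub_self]
    exact spec_D true h
  · rw [sub_self]
    exact spec_one false

end conv

end NURow

end
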