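import Pool.Agent.NURow.Spec
import Pool.Agent.NUP1L.FinalC

/-!
# The prefactors of the two half quanta for the rows at `± l / 2` (helper30, board/GAM U4 (R))

Ends `p = - l / 2` (species X), `q = l / 2` (species Y); rows: `M` at `l / 2` and `M` at `- l / 2` in
each group (`Rows2`).  `KF`, `KF'` = prefactors of the half quanta alone, `KP`, `KP'` with a captured
quantum, `gFF`, `gPF`, `gFP`, `gPP` pair functions of `x = w - w'`; `XD`, `XD'` class D1.
-/

set_option autoImplicit false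
set_option linter.unusedSectionVars false

noncomputable section

open Complex MeasureTheory

namespace NURow

open NUP1 NUP1S NUP1.Bd NUP1.Leg
open NUP1.N (Z3 Gr0 pr1 prc rA rB I0 IP IP' IPP ID ID' ZP ZP' ZPP GXs GYs)

/-- rows: `M` at `l / 2` and `M` at `- l / 2` -/
def Rows2 (M : ℕ) {m : ℕ} (x : Fin m → ℂ) : Prop :=
  ∀ f : ℂ → ℂ, ∏ i, f (x i) = f (l / 2) ^ M * f (-(l / 2)) ^ M

/-- rows of both groups seen by a half quantum -/
def Kr (M : ℕ) (w : ℂ) : ℂ :=
  (1 / sin (w - l / 2)) ^ M * (1 / sin (w + l / 2)) ^ M *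
    (sin (w + 5 * l / 2) ^ M * sin (w + 7 * l / 2) ^ M)

/-- **prefactor of the half quantum of species X** -/
def KF (M : ℕ) (w : ℂ) : ℂ := Leg.kap (w + l / 2) * sin (w + 5 * l / 2) * Kr M w

/-- **prefactor of the half quantum of species Y** -/
def KF' (M : ℕ) (w : ℂ) : ℂ := Leg.kap (w - l / 2) * sin (w + 7 * l / 2) * Kr M w

/-- the half quantum X with a captured quantum Y; `c`, `β`, `N` those of species Y -/
def KP (c : ℂ) (β : ℝ) (M N : ℕ) (w : ℂ) : ℂ :=
  sin l / sin (2 * l) * (KF M w * GH c β M N (fun _ => 1) (w + 3 * l))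

/-- the half quantum Y with a captured quantum X; `c`, `β`, `N` those of species X -/
def KP' (c : ℂ) (β : ℝ) (M N : ℕ) (w : ℂ) : ℂ :=
  sin l / sin (2 * l) * (KF' M w * GH c β M N (fun _ => 1) (w + 3 * l))

/-- both alone, `x = w - w'` -/
def gFF (x : ℂ) : ℂ := Dk x

/-- `w` with a captured quantum -/
def gPF (x : ℂ) : ℂ := Dk x * Ck (-x - 3 * l)

/-- `w'` with a captured quantum -/
def gFP (x : ℂ) : ℂ := Dk x * Ck (x - 3 * l)

/-- both with a captured quantum -/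
def gPP (x : ℂ) : ℂ := Dk x * Ck (-x - 3 * l) * Ck (x - 3 * l) * qg x

/-- class D1, `w = w' + 3 l` -/
def XD (M : ℕ) (w : ℂ) : ℂ := -sin (2 * l) ^ 2 / (sin (w + 3 * l / 2) * sin (w - l / 2)) *
  ((-sin (w - 5 * l / 2) / sin (w - l / 2)) ^ M * (-sin (w - 3 * l / 2) / sin (w + l / 2)) ^ M)

/-- class D1, `w' = w + 3 l` -/
def XD' (M : ℕ) (w : ℂ) : ℂ := -sin (2 * l) ^ 2 / (sin (w + l / 2) * sin (w + l / 2)) *
  ((-sin (w - 5 * l / 2) / sin (w - l / 2)) ^ M * (-sin (w - 3 * l / 2) / sin (w + l / 2)) ^ M)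

/-! ## the integrands of `NUP1L/FinalC` -/

section forms

variable {m : ℕ} {M : ℕ} {x y : Fin m → ℂ} {p q : ℂ}

theorem rA_rows (h : Rows2 M x) (w : ℂ) :
    rA x w = (1 / sin (w - l / 2)) ^ M * (1 / sin (w + l / 2)) ^ M := by
  have := h fun u => 1 / sin (w - u)
  unfold NUP1.N.rA
  rw [this, sub_neg_eq_add]

theorem rB_rows (h : Rows2 M x) (w : ℂ) :
    rB x w = sin (w + 5 * l / 2) ^ M * sin (w + 7 * l / 2) ^ M := by
  have := h fun u => sin (w - u + 3 * l)
  unfold NUP1.N.rB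
  rw [this, show w - l / 2 + 3 * l = w + 5 * l / 2 by ring,
    show w - -(l / 2 : ℂ) + 3 * l = w + 7 * l / 2 by ring]

theorem pr1_X (hx : Rows2 M x) (hy : Rows2 M y) (hp : p = -(l / 2)) (hq : q = l / 2) (w : ℂ) :
    pr1 p q x y w = KF M w := by
  unfold NUP1.N.pr1 NUP1.N.prc KF Kr
  rw [rA_rows hx, rB_rows hy, hp, hq, sub_neg_eq_add, show w - l / 2 + 3 * l = w + 5 * l / 2 by ring]
  ring

theorem pr1_Y (hx : Rows2 M x) (hy : Rows2 M y) (hp : p = -(l / 2)) (hq : q = l / 2) (w : ℂ) :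
    pr1 q p y x w = KF' M w := by
  unfold NUP1.N.pr1 NUP1.N.prc KF' Kr
  rw [rA_rows hy, rB_rows hx, hp, hq, show w - -(l / 2 : ℂ) + 3 * l = w + 7 * l / 2 by ring]
  ring

/-- places of the half quanta where the rows of the other group do not vanish -/
theorem rows_ne {w : ℂ} (hw : w.re = -(11 / 4) * l) :
    sin (w + 5 * l / 2) ≠ 0 ∧ sin (w + 7 * l / 2) ≠ 0 := by
  have hl := Bd.l_pos
  constructor
  · refine Bd.sin_ne_zero_of_re ?_
    have : (w + 5 * l / 2).re = w.re + 5 * l / 2 := by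
      rw [show (w + 5 * l / 2 : ℂ) = w + ((5 * l / 2 : ℝ) : ℂ) by push_cast; ring, add_re, ofReal_re]
    rw [this, hw]
    (first
      | exact sin_ne_mul (Or.inl ⟨by linarith, by linarith⟩)
      | exact sin_ne_mul (Or.inr ⟨by linarith, by linarith⟩)
      | exact sin_ne_pos (by linarith) (by linarith)
      | exact sin_ne_neg (by linarith) (by linarith))
  · refine Bd.sin_ne_zero_of_re ?_
    have : (w + 7 * l / 2).re = w.re + 7 * l / 2 := by
      rw [show (w + 7 * l / 2 : ℂ) = w + ((7 * l / 2 : ℝ) : ℂ) by push_cast; ring, add_re, ofReal_re]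
    rw [this, hw]
    (first
      | exact sin_ne_mul (Or.inl ⟨by linarith, by linarith⟩)
      | exact sin_ne_mul (Or.inr ⟨by linarith, by linarith⟩)
      | exact sin_ne_pos (by linarith) (by linarith)
      | exact sin_ne_neg (by linarith) (by linarith))

/-- the rows of the other group are cancelled by the captured quantum -/
theorem cap_rows (h : Rows2 M y) {hY : ℂ → ℂ} {w : ℂ} (hw : w.re = -(11 / 4) * l) :
    rB y w * Gr0 hY y (w + 3 * l) = hY (w + 3 * l) := by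
  obtain ⟨h1, h2⟩ := rows_ne hw
  have e := h fun u => 1 / sin (w + 3 * l - u)
  unfold NUP1.N.Gr0
  rw [rB_rows h, e, show w + 3 * l - l / 2 = w + 5 * l / 2 by ring,
    show w + 3 * l - -(l / 2 : ℂ) = w + 7 * l / 2 by ring, one_div_pow, one_div_pow]
  have h3 := pow_ne_zero M h1
  have h4 := pow_ne_zero M h2
  generalize sin (w + 5 * l / 2) ^ M = A at h3 ⊢
  generalize sin (w + 7 * l / 2) ^ M = B at h4 ⊢
  generalize hY (w + 3 * l) = C
  field_simp

theorem KP_eq (hx : Rows2 M x) (hy : Rows2 M y) (hp : p = -(l / 2)) (hq : q = l / 2) {hY : ℂ → ℂ}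
    {c : ℂ} {β : ℝ} {N : ℕ} {w : ℂ} (hw : w.re = -(11 / 4) * l)
    (hG : Gr0 hY y (w + 3 * l) = GH c β M N (fun _ => 1) (w + 3 * l)) :
    sin l / sin (2 * l) * (prc p q x w * hY (w + 3 * l)) = KP c β M N w := by
  unfold KP
  rw [← pr1_X hx hy hp hq, ← hG, ← cap_rows (hY := hY) hy hw]
  unfold NUP1.N.pr1
  ring

theorem KP'_eq (hx : Rows2 M x) (hy : Rows2 M y) (hp : p = -(l / 2)) (hq : q = l / 2) {hX : ℂ → ℂ}
    {c : ℂ} {β : ℝ} {N : ℕ} {w : ℂ} (hw : w.re = -(11 / 4) * l)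
    (hG : Gr0 hX x (w + 3 * l) = GH c β M N (fun _ => 1) (w + 3 * l)) :
    sin l / sin (2 * l) * (prc q p y w * hX (w + 3 * l)) = KP' c β M N w := by
  unfold KP'
  rw [← pr1_Y hx hy hp hq, ← hG, ← cap_rows (hY := hX) hx hw]
  unfold NUP1.N.pr1
  ring

variable {α β₀ : ℝ} {hX hY : ℂ → ℂ} {n n' : ℕ} {cX cY : ℂ} {β : ℝ} {N : ℕ}

/-- **both alone** -/
theorem I0_pre (hx : Rows2 M x) (hy : Rows2 M y) (hp : p = -(l / 2)) (hq : q = l / 2) (w w' : ℂ) :
    I0 α β₀ p q x y hX hY n n' w w' = KF M w * KF' M w' * gFF (w - w') *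
      Z3 α β₀ n n' (GXs hX x w w') (GYs hY y w w') := by
  unfold NUP1.N.I0 gFF
  rw [pr1_X hx hy hp hq, pr1_Y hx hy hp hq]
  ring

/-- **`w` with a captured quantum** -/
theorem IP_pre (hx : Rows2 M x) (hy : Rows2 M y) (hp : p = -(l / 2)) (hq : q = l / 2) {w : ℂ}
    (hw : w.re = -(11 / 4) * l)
    (hG : Gr0 hY y (w + 3 * l) = GH cY β M N (fun _ => 1) (w + 3 * l)) (w' : ℂ) :
    IP α β₀ p q x y hX hY n n' w w' = KP cY β M N w * KF' M w' * gPF (w - w') *
      ZP α β₀ x y hX hY n n' w w' := by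
  rw [← KP_eq hx hy hp hq hw hG]
  unfold NUP1.N.IP gPF
  rw [pr1_Y hx hy hp hq, show w' - (w + 3 * l) = -(w - w') - 3 * l by ring]
  ring

/-- **`w'` with a captured quantum** -/
theorem IP'_pre (hx : Rows2 M x) (hy : Rows2 M y) (hp : p = -(l / 2)) (hq : q = l / 2) (w : ℂ)
    {w' : ℂ} (hw' : w'.re = -(11 / 4) * l)
    (hG : Gr0 hX x (w' + 3 * l) = GH cX β M N (fun _ => 1) (w' + 3 * l)) :
    IP' α β₀ p q x y hX hY n n' w w' = KF M w * KP' cX β M N w' * gFP (w - w') *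
      ZP' α β₀ x y hX hY n n' w w' := by
  rw [← KP'_eq hx hy hp hq hw' hG]
  unfold NUP1.N.IP' gFP
  rw [pr1_X hx hy hp hq, show w - (w' + 3 * l) = w - w' - 3 * l by ring]
  ring

/-- **both with a captured quantum** -/
theorem IPP_pre (hx : Rows2 M x) (hy : Rows2 M y) (hp : p = -(l / 2)) (hq : q = l / 2) {w w' : ℂ}
    (hw : w.re = -(11 / 4) * l) (hw' : w'.re = -(11 / 4) * l)
    (hG : Gr0 hY y (w + 3 * l) = GH cY β M N (fun _ => 1) (w + 3 * l))
    (hG' : Gr0 hX x (w' + 3 * l) = GH cX β M N (fun _ => 1) (w' + 3 * l)) :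
    IPP α β₀ p q x y hX hY n n' w w' = KP cY β M N w * KP' cX β M N w' * gPP (w - w') *
      ZPP α β₀ x y hX hY n n' w w' := by
  rw [← KP_eq hx hy hp hq hw hG, ← KP'_eq hx hy hp hq hw' hG']
  unfold NUP1.N.IPP gPP
  rw [show w' - (w + 3 * l) = -(w - w') - 3 * l by ring,
    show w - (w' + 3 * l) = w - w' - 3 * l by ring]
  ring

theorem X0_X (hy : Rows2 M y) (hp : p = -(l / 2)) (hq : q = l / 2) (w : ℂ) :
    NUP1.N.XD p q y w = XD M w := by
  have e := hy fun u => -sin (w - u - 2 * l) / sin (w - u)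
  unfold NUP1.N.XD XD
  rw [e, hp, hq, show w - -(l / 2 : ℂ) + l = w + 3 * l / 2 by ring,
    show w - l / 2 - 2 * l = w - 5 * l / 2 by ring,
    show w - -(l / 2 : ℂ) - 2 * l = w - 3 * l / 2 by ring, sub_neg_eq_add]

theorem X0_Y (hx : Rows2 M x) (hp : p = -(l / 2)) (hq : q = l / 2) (w : ℂ) :
    NUP1.N.XD q p x w = XD' M w := by
  have e := hx fun u => -sin (w - u - 2 * l) / sin (w - u)
  unfold NUP1.N.XD XD'
  rw [e, hp, hq, show w - l / 2 + l = w + l / 2 by ring,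
    show w - l / 2 - 2 * l = w - 5 * l / 2 by ring,
    show w - -(l / 2 : ℂ) - 2 * l = w - 3 * l / 2 by ring, sub_neg_eq_add]

/-- **captured pair `w = w' + 3 l`** -/
theorem ID_pre (hy : Rows2 M y) (hp : p = -(l / 2)) (hq : q = l / 2) (w' : ℂ) :
    ID α β₀ p q x y hX hY n n' w' = XD M w' *
      Z3 α β₀ n n' (Gr0 hX x) (fun v => Gr0 hY y v * Tk (w' - v)) := by
  unfold NUP1.N.ID
  rw [X0_X hy hp hq]
  rfl

/-- **captured pair `w' = w + 3 l`** -/
theorem ID'_pre (hx : Rows2 M x) (hp : p = -(l / 2)) (hq : q = l / 2) (w : ℂ) :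
    ID' α β₀ p q x y hX hY n n' w = XD' M w *
      Z3 α β₀ n n' (fun u => Gr0 hX x u * Tk (w - u)) (Gr0 hY y) := by
  unfold NUP1.N.ID'
  rw [X0_Y hx hp hq]
  rfl

end forms

/-! ## facts -/

section facts

theorem measurable_Kr (M : ℕ) : Measurable (Kr M) := by unfold Kr; fun_prop

theorem measurable_KF (M : ℕ) : Measurable (KF M) := by
  have := measurable_Kr M
  unfold KF Leg.kap
  fun_prop

theorem measurable_KF' (M : ℕ) : Measurable (KF' M) := by
  have := measurable_Kr M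
  unfold KF' Leg.kap
  fun_prop

theorem measurable_GH1 (c : ℂ) (β : ℝ) (M N : ℕ) : Measurable (GH c β M N fun _ => 1) := by
  have h1 := measurable_R1 c M
  have h2 := measurable_phN β N
  unfold GH
  fun_prop

theorem measurable_KP (c : ℂ) (β : ℝ) (M N : ℕ) : Measurable (KP c β M N) := by
  have h1 := measurable_KF M
  have h2 := (measurable_GH1 c β M N).comp (measurable_id.add_const (3 * l : ℂ))
  exact (h1.mul h2).const_mul _

theorem measurable_KP' (c : ℂ) (β : ℝ) (M N : ℕ) : Measurable (KP' c β M N) := by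
  have h1 := measurable_KF' M
  have h2 := (measurable_GH1 c β M N).comp (measurable_id.add_const (3 * l : ℂ))
  exact (h1.mul h2).const_mul _

theorem measurable_gFF : Measurable gFF := measurable_Dk

theorem measurable_gPF : Measurable gPF :=
  measurable_Dk.mul (measurable_Ck.comp (measurable_neg.sub_const _))

theorem measurable_gFP : Measurable gFP :=
  measurable_Dk.mul (measurable_Ck.comp (measurable_id.sub_const _))

theorem measurable_gPP : Measurable gPP :=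
  (measurable_gPF.mul (measurable_Ck.comp (measurable_id.sub_const _))).mul measurable_qg

theorem measurable_XD (M : ℕ) : Measurable (XD M) := by unfold XD; fun_prop

theorem measurable_XD' (M : ℕ) : Measurable (XD' M) := by unfold XD'; fun_prop

/-- real parts without poles of the rows -/
def NK (x : ℝ) : Prop := Real.sin (x - l / 2) ≠ 0 ∧ Real.sin (x + l / 2) ≠ 0

theorem PB.pow {s : ℝ} {K : Set ℝ} {g : ℂ → ℂ} (h : PB s K g) (n : ℕ) :
    PB (n * s) K fun z => g z ^ n :=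
  ⟨h.1.pow n, fun z hz => (h.2 z hz).pow n⟩

theorem PB.mono_rate {s s' : ℝ} {K : Set ℝ} {g : ℂ → ℂ} (h : PB s K g) (hs : s ≤ s') :
    PB s' K g := ⟨h.1.mono_rate hs, h.2⟩

theorem PB.cmul {s : ℝ} {K : Set ℝ} {g : ℂ → ℂ} (h : PB s K g) (c : ℂ) :
    PB s K fun z => c * g z := ((PB.const K c).mul h).rate (zero_add s)

theorem PB.contOn {s a b : ℝ} {g : ℂ → ℂ} (h : PB s (Set.Icc a b) g) : ContinuousOn g (CS a b) :=
  fun z hz => (h.2 z ⟨hz.1, hz.2⟩).continuousAt.continuousWithinAt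

theorem PB.diffOn {s a b : ℝ} {g : ℂ → ℂ} (h : PB s (Set.Icc a b) g) :
    DifferentiableOn ℂ g (OS a b) :=
  fun z hz => (h.2 z ⟨hz.1.le, hz.2.le⟩).differentiableWithinAt

theorem PB.decOn {s κ : ℝ} {K : Set ℝ} {g : ℂ → ℂ} (h : PB s K g) (hs : s ≤ -κ) : DecOn κ K g :=
  DecOn_of h.1 hs

theorem PB_Kr (M : ℕ) {K : Set ℝ} (hK : IsCompact K) (h : ∀ d ∈ K, NK d) : PB 0 K (Kr M) := by
  have h1 := (PB_inv_sin hK (-(l / 2)) fun d hd => by
    rw [← sub_eq_add_neg]; exact (h d hd).1).pow M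
  have h2 := (PB_inv_sin hK (l / 2) fun d hd => (h d hd).2).pow M
  have h3 := (PB_sin K (5 * l / 2)).pow M
  have h4 := (PB_sin K (7 * l / 2)).pow M
  refine (((h1.mul h2).mul (h3.mul h4)).rate (by ring)).congr' fun z => ?_
  unfold Kr
  push_cast
  simp only [← sub_eq_add_neg]

theorem PB_kap {K : Set ℝ} (hK : IsCompact K) (a : ℝ) (h : ∀ d ∈ K, Real.sin (d + a) ≠ 0)
    (h' : ∀ d ∈ K, Real.sin (d + (a - 2 * l)) ≠ 0) : PB (-2) K fun z => Leg.kap (z + a) := by
  refine ((((PB_inv_sin hK a h).mul (PB_inv_sin hK (a - 2 * l) h')).cmul (sin (2 * l))).rate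
    (by norm_num)).congr' fun z => ?_
  unfold Leg.kap
  rw [one_div, one_div, div_eq_mul_inv, mul_inv]
  push_cast
  rw [show z + (a - 2 * l) = z + a - 2 * l by ring]

theorem PB_KF (M : ℕ) {K : Set ℝ} (hK : IsCompact K) (h : ∀ d ∈ K, NK d)
    (h' : ∀ d ∈ K, Real.sin (d - 3 * l / 2) ≠ 0) : PB (-1) K (KF M) := by
  have h1 := PB_kap hK (l / 2) (fun d hd => (h d hd).2) fun d hd => by
    rw [show d + (l / 2 - 2 * l) = d - 3 * l / 2 by ring]; exact h' d hd
  refine (((h1.mul (PB_sin K (5 * l / 2))).mul (PB_Kr M hK h)).rate (by norm_num)).congr'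
    fun z => ?_
  unfold KF
  push_cast
  rfl

theorem PB_KF' (M : ℕ) {K : Set ℝ} (hK : IsCompact K) (h : ∀ d ∈ K, NK d)
    (h' : ∀ d ∈ K, Real.sin (d - 5 * l / 2) ≠ 0) : PB (-1) K (KF' M) := by
  have h1 := PB_kap hK (-(l / 2)) (fun d hd => by rw [← sub_eq_add_neg]; exact (h d hd).1)
    fun d hd => by
      rw [show d + (-(l / 2) - 2 * l) = d - 5 * l / 2 by ring]; exact h' d hd
  refine (((h1.mul (PB_sin K (7 * l / 2))).mul (PB_Kr M hK h)).rate (by norm_num)).congr'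
    fun z => ?_
  unfold KF'
  push_cast
  rw [← sub_eq_add_neg]

/-- **between `31/50 l` and `5/4 l`** -/
theorem PB_KF_A (M : ℕ) : PB (-1) (Set.Icc (31 / 50 * l) (5 / 4 * l)) (KF M) := by
  have hl := Bd.l_pos
  refine PB_KF M isCompact_Icc (fun d hd => ⟨?_, ?_⟩) fun d hd => ?_ <;>
    obtain ⟨h1, h2⟩ := hd <;> (first
      | exact sin_ne_mul (Or.inl ⟨by linarith, by linarith⟩)
      | exact sin_ne_mul (Or.inr ⟨by linarith, by linarith⟩)
      | exact sin_ne_pos (by linarith) (by linarith)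
      | exact sin_ne_neg (by linarith) (by linarith))

theorem PB_KF'_A (M : ℕ) : PB (-1) (Set.Icc (31 / 50 * l) (5 / 4 * l)) (KF' M) := by
  have hl := Bd.l_pos
  refine PB_KF' M isCompact_Icc (fun d hd => ⟨?_, ?_⟩) fun d hd => ?_ <;>
    obtain ⟨h1, h2⟩ := hd <;> (first
      | exact sin_ne_mul (Or.inl ⟨by linarith, by linarith⟩)
      | exact sin_ne_mul (Or.inr ⟨by linarith, by linarith⟩)
      | exact sin_ne_pos (by linarith) (by linarith)
      | exact sin_ne_neg (by linarith) (by linarith))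

/-- **on `-11/4 l`** -/
theorem PB_KF_B (M : ℕ) : PB (-1) (Set.Icc (-(11 / 4) * l) (-(11 / 4) * l)) (KF M) := by
  have hl := Bd.l_pos
  refine PB_KF M isCompact_Icc (fun d hd => ⟨?_, ?_⟩) fun d hd => ?_ <;>
    obtain ⟨h1, h2⟩ := hd <;> (first
      | exact sin_ne_mul (Or.inl ⟨by linarith, by linarith⟩)
      | exact sin_ne_mul (Or.inr ⟨by linarith, by linarith⟩)
      | exact sin_ne_pos (by linarith) (by linarith)
      | exact sin_ne_neg (by linarith) (by linarith))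

theorem PB_KF'_B (M : ℕ) : PB (-1) (Set.Icc (-(11 / 4) * l) (-(11 / 4) * l)) (KF' M) := by
  have hl := Bd.l_pos
  refine PB_KF' M isCompact_Icc (fun d hd => ⟨?_, ?_⟩) fun d hd => ?_ <;>
    obtain ⟨h1, h2⟩ := hd <;> (first
      | exact sin_ne_mul (Or.inl ⟨by linarith, by linarith⟩)
      | exact sin_ne_mul (Or.inr ⟨by linarith, by linarith⟩)
      | exact sin_ne_pos (by linarith) (by linarith)
      | exact sin_ne_neg (by linarith) (by linarith))

theorem PB_GH1 {β : ℝ} (hβ : 0 < β) (hβ' : β ≤ 4 / 3) (c : ℂ) (M N : ℕ) :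
    PB (-(2 * β)) (Set.Icc (l / 4) (l / 4)) (GH c β M N fun _ => 1) := by
  have hl := Bd.l_pos
  have hN : ∀ x ∈ Set.Icc (l / 4) (l / 4), NH x ∧ Real.sin (x + l / 2) ≠ 0 := by
    rintro x ⟨h1, h2⟩
    refine ⟨⟨?_, ?_, ?_⟩, ?_⟩ <;> (first
      | exact sin_ne_mul (Or.inl ⟨by linarith, by linarith⟩)
      | exact sin_ne_mul (Or.inr ⟨by linarith, by linarith⟩)
      | exact sin_ne_pos (by linarith) (by linarith)
      | exact sin_ne_neg (by linarith) (by linarith))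
  have hC : ∀ x ∈ Set.Icc (l / 4) (l / 4), NC β x := by
    rintro x ⟨h1, h2⟩
    exact NC_strip hβ hβ' (by linarith) (by linarith)
  have h1 : PB 0 (Set.Icc (l / 4) (l / 4)) (R1 c M) :=
    ⟨bdd_R1 c M isCompact_Icc hN, fun z hz => diffAt_R1 c M (hN _ hz).1 (hN _ hz).2⟩
  have h2 : PB (-(2 * β)) (Set.Icc (l / 4) (l / 4)) (phN β N) :=
    ⟨bdd_phN hβ N isCompact_Icc hC, fun z hz => diffAt_phN N (hC _ hz)⟩
  refine ((h1.mul h2).rate (zero_add _)).congr' fun z => ?_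
  unfold GH
  rw [mul_one]

theorem PB_KP_B {β : ℝ} (hβ : 0 < β) (hβ' : β ≤ 4 / 3) (c : ℂ) (M N : ℕ) :
    PB (-1 - 2 * β) (Set.Icc (-(11 / 4) * l) (-(11 / 4) * l)) (KP c β M N) := by
  have h1 := (PB_GH1 hβ hβ' c M N).shift (K := Set.Icc (-(11 / 4) * l) (-(11 / 4) * l)) (3 * l)
    fun x hx => ⟨by linarith [hx.1], by linarith [hx.2]⟩
  refine ((((PB_KF_B M).mul h1).cmul (sin l / sin (2 * l))).rate (by ring)).congr' fun z => ?_
  unfold KP
  push_cast
  rfl

theorem PB_KP'_B {β : ℝ} (hβ : 0 < β) (hβ' : β ≤ 4 / 3) (c : ℂ) (M N : ℕ) :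
    PB (-1 - 2 * β) (Set.Icc (-(11 / 4) * l) (-(11 / 4) * l)) (KP' c β M N) := by
  have h1 := (PB_GH1 hβ hβ' c M N).shift (K := Set.Icc (-(11 / 4) * l) (-(11 / 4) * l)) (3 * l)
    fun x hx => ⟨by linarith [hx.1], by linarith [hx.2]⟩
  refine ((((PB_KF'_B M).mul h1).cmul (sin l / sin (2 * l))).rate (by ring)).congr' fun z => ?_
  unfold KP'
  push_cast
  rfl

/-- the prefactors of class D1 -/
theorem PB_XD_B (M : ℕ) : PB (-2) (Set.Icc (-(11 / 4) * l) (-(11 / 4) * l)) (XD M) ∧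
    PB (-2) (Set.Icc (-(11 / 4) * l) (-(11 / 4) * l)) (XD' M) := by
  have hl := Bd.l_pos
  have a1 : ∀ a : ℝ, (∀ d ∈ Set.Icc (-(11 / 4) * l) (-(11 / 4) * l), Real.sin (d + a) ≠ 0) →
      PB (-1) (Set.Icc (-(11 / 4) * l) (-(11 / 4) * l)) fun z => 1 / sin (z + a) :=
    fun a => PB_inv_sin isCompact_Icc a
  have b1 := a1 (3 * l / 2) fun d hd => by obtain ⟨h1, h2⟩ := hd; (first
      | exact sin_ne_mul (Or.inl ⟨by linarith, by linarith⟩)
      | exact sin_ne_mul (Or.inr ⟨by linarith, by linarith⟩)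
      | exact sin_ne_pos (by linarith) (by linarith)
      | exact sin_ne_neg (by linarith) (by linarith))
  have b2 := a1 (-(l / 2)) fun d hd => by obtain ⟨h1, h2⟩ := hd; (first
      | exact sin_ne_mul (Or.inl ⟨by linarith, by linarith⟩)
      | exact sin_ne_mul (Or.inr ⟨by linarith, by linarith⟩)
      | exact sin_ne_pos (by linarith) (by linarith)
      | exact sin_ne_neg (by linarith) (by linarith))
  have b3 := a1 (l / 2) fun d hd => by obtain ⟨h1, h2⟩ := hd; (first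
      | exact sin_ne_mul (Or.inl ⟨by linarith, by linarith⟩)
      | exact sin_ne_mul (Or.inr ⟨by linarith, by linarith⟩)
      | exact sin_ne_pos (by linarith) (by linarith)
      | exact sin_ne_neg (by linarith) (by linarith))
  have c1 := ((((PB_sin (Set.Icc (-(11 / 4) * l) (-(11 / 4) * l)) (-(5 * l / 2))).mul b2).fneg).rate
    (show (1 : ℝ) + -1 = 0 by norm_num)).pow M
  have c2 := ((((PB_sin (Set.Icc (-(11 / 4) * l) (-(11 / 4) * l)) (-(3 * l / 2))).mul b3).fneg).rate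
    (show (1 : ℝ) + -1 = 0 by norm_num)).pow M
  constructor
  · refine ((((b1.mul b2).cmul (-sin (2 * l) ^ 2)).mul (c1.mul c2)).rate (by ring)).congr'
      fun z => ?_
    unfold XD
    push_cast
    simp only [← sub_eq_add_neg, mul_one_div, neg_div]
    congr 1
    ring
  · refine ((((b3.mul b3).cmul (-sin (2 * l) ^ 2)).mul (c1.mul c2)).rate (by ring)).congr'
      fun z => ?_
    unfold XD'
    push_cast
    simp only [← sub_eq_add_neg, mul_one_div, neg_div]
    congr 1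
    ring

/-! ### pair functions -/

/-- real parts `x = w.re - w'.re` without poles of the four pair functions: `|x| < 3 l` or
`3 l < |x| < 5 l` -/
theorem PB_gFF {K : Set ℝ} (hK : IsCompact K) (h1 : ∀ d ∈ K, Real.sin (d + 3 * l) ≠ 0)
    (h2 : ∀ d ∈ K, Real.sin (d - 3 * l) ≠ 0) : PB (-1) K gFF := PB_Dk hK h1 h2

theorem PB_CkR {K : Set ℝ} (hK : IsCompact K) (h : ∀ d ∈ K, Real.sin (d + 2 * l) ≠ 0) :
    PB 1 K fun z => Ck (-z - 3 * l) := by
  have hK' : IsCompact ((fun x : ℝ => -x - 3 * l) '' K) := hK.image (by fun_prop)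
  have h1 : PB 1 ((fun x : ℝ => -x - 3 * l) '' K) Ck := by
    refine PB_Ck hK' ?_
    rintro _ ⟨d, hd, rfl⟩
    rw [show -d - 3 * l + l = -(d + 2 * l) by ring, Real.sin_neg, neg_ne_zero]
    exact h d hd
  refine (h1.refl (3 * l) fun x hx => ⟨x, hx, rfl⟩).congr' fun z => ?_
  push_cast
  rfl

theorem PB_CkL {K : Set ℝ} (hK : IsCompact K) (h : ∀ d ∈ K, Real.sin (d - 2 * l) ≠ 0) :
    PB 1 K fun z => Ck (z - 3 * l) := by
  have hK' : IsCompact ((fun x : ℝ => x + -(3 * l)) '' K) := hK.image (by fun_prop)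
  have h1 : PB 1 ((fun x : ℝ => x + -(3 * l)) '' K) Ck := by
    refine PB_Ck hK' ?_
    rintro _ ⟨d, hd, rfl⟩
    rw [show d + -(3 * l) + l = d - 2 * l by ring]
    exact h d hd
  refine (h1.shift (-(3 * l)) fun x hx => ⟨x, hx, rfl⟩).congr' fun z => ?_
  push_cast
  rw [← sub_eq_add_neg]

theorem PB_gPF {K : Set ℝ} (hK : IsCompact K) (h1 : ∀ d ∈ K, Real.sin (d + 3 * l) ≠ 0)
    (h2 : ∀ d ∈ K, Real.sin (d - 3 * l) ≠ 0) (h3 : ∀ d ∈ K, Real.sin (d + 2 * l) ≠ 0) :
    PB 0 K gPF :=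
  ((PB_gFF hK h1 h2).mul (PB_CkR hK h3)).rate (by norm_num)

theorem PB_gFP {K : Set ℝ} (hK : IsCompact K) (h1 : ∀ d ∈ K, Real.sin (d + 3 * l) ≠ 0)
    (h2 : ∀ d ∈ K, Real.sin (d - 3 * l) ≠ 0) (h3 : ∀ d ∈ K, Real.sin (d - 2 * l) ≠ 0) :
    PB 0 K gFP :=
  ((PB_gFF hK h1 h2).mul (PB_CkL hK h3)).rate (by norm_num)

theorem PB_gPP {K : Set ℝ} (hK : IsCompact K) (h1 : ∀ d ∈ K, Real.sin (d + 3 * l) ≠ 0)
    (h2 : ∀ d ∈ K, Real.sin (d - 3 * l) ≠ 0) (h3 : ∀ d ∈ K, Real.sin (d + 2 * l) ≠ 0)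
    (h4 : ∀ d ∈ K, Real.sin (d - 2 * l) ≠ 0) : PB (-1) K gPP :=
  ((((PB_gPF hK h1 h2 h3).mul (PB_CkL hK h4)).mul (PB_qg hK (fun d hd => h1 d hd)
    fun d hd => h2 d hd))).rate (by norm_num)

/-- both lines moved -/
theorem gFF_AA : PB (-1) (Set.Icc (31 / 50 * l - 5 / 4 * l) (5 / 4 * l - 31 / 50 * l)) gFF := by
  have hl := Bd.l_pos
  refine PB_gFF isCompact_Icc (fun d hd => ?_) fun d hd => ?_ <;> obtain ⟨h1, h2⟩ := hd <;> (first
      | exact sin_ne_mul (Or.inl ⟨by linarith, by linarith⟩)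
      | exact sin_ne_mul (Or.inr ⟨by linarith, by linarith⟩)
      | exact sin_ne_pos (by linarith) (by linarith)
      | exact sin_ne_neg (by linarith) (by linarith))

/-- `w` moved, `w'` on `-11/4 l` -/
theorem g_AB : PB (-1) (Set.Icc (31 / 50 * l - -(11 / 4) * l) (5 / 4 * l - -(11 / 4) * l)) gFF ∧
    PB 0 (Set.Icc (31 / 50 * l - -(11 / 4) * l) (5 / 4 * l - -(11 / 4) * l)) gFP := by
  have hl := Bd.l_pos
  constructor
  · refine PB_gFF isCompact_Icc (fun d hd => ?_) fun d hd => ?_ <;> obtain ⟨h1, h2⟩ := hd <;> (first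
      | exact sin_ne_mul (Or.inl ⟨by linarith, by linarith⟩)
      | exact sin_ne_mul (Or.inr ⟨by linarith, by linarith⟩)
      | exact sin_ne_pos (by linarith) (by linarith)
      | exact sin_ne_neg (by linarith) (by linarith))
  · refine PB_gFP isCompact_Icc (fun d hd => ?_) (fun d hd => ?_) fun d hd => ?_ <;>
      obtain ⟨h1, h2⟩ := hd <;> (first
      | exact sin_ne_mul (Or.inl ⟨by linarith, by linarith⟩)
      | exact sin_ne_mul (Or.inr ⟨by linarith, by linarith⟩)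
      | exact sin_ne_pos (by linarith) (by linarith)
      | exact sin_ne_neg (by linarith) (by linarith))

/-- `w` on `-11/4 l`, `w'` moved -/
theorem g_BA : PB (-1) (Set.Icc (-(11 / 4) * l - 5 / 4 * l) (-(11 / 4) * l - 31 / 50 * l)) gFF ∧
    PB 0 (Set.Icc (-(11 / 4) * l - 5 / 4 * l) (-(11 / 4) * l - 31 / 50 * l)) gPF := by
  have hl := Bd.l_pos
  constructor
  · refine PB_gFF isCompact_Icc (fun d hd => ?_) fun d hd => ?_ <;> obtain ⟨h1, h2⟩ := hd <;> (first
      | exact sin_ne_mul (Or.inl ⟨by linarith, by linarith⟩)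
      | exact sin_ne_mul (Or.inr ⟨by linarith, by linarith⟩)
      | exact sin_ne_pos (by linarith) (by linarith)
      | exact sin_ne_neg (by linarith) (by linarith))
  · refine PB_gPF isCompact_Icc (fun d hd => ?_) (fun d hd => ?_) fun d hd => ?_ <;>
      obtain ⟨h1, h2⟩ := hd <;> (first
      | exact sin_ne_mul (Or.inl ⟨by linarith, by linarith⟩)
      | exact sin_ne_mul (Or.inr ⟨by linarith, by linarith⟩)
      | exact sin_ne_pos (by linarith) (by linarith)
      | exact sin_ne_neg (by linarith) (by linarith))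

/-- both on `-11/4 l` -/
theorem g_BB : PB (-1) (Set.Icc (-(11 / 4) * l - -(11 / 4) * l) (-(11 / 4) * l - -(11 / 4) * l)) gFF ∧
    PB 0 (Set.Icc (-(11 / 4) * l - -(11 / 4) * l) (-(11 / 4) * l - -(11 / 4) * l)) gPF ∧
    PB 0 (Set.Icc (-(11 / 4) * l - -(11 / 4) * l) (-(11 / 4) * l - -(11 / 4) * l)) gFP ∧
    PB (-1) (Set.Icc (-(11 / 4) * l - -(11 / 4) * l) (-(11 / 4) * l - -(11 / 4) * l)) gPP := by
  have hl := Bd.l_pos
  refine ⟨?_, ?_, ?_, ?_⟩
  · refine PB_gFF isCompact_Icc (fun d hd => ?_) fun d hd => ?_ <;> obtain ⟨h1, h2⟩ := hd <;> (first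
      | exact sin_ne_mul (Or.inl ⟨by linarith, by linarith⟩)
      | exact sin_ne_mul (Or.inr ⟨by linarith, by linarith⟩)
      | exact sin_ne_pos (by linarith) (by linarith)
      | exact sin_ne_neg (by linarith) (by linarith))
  · refine PB_gPF isCompact_Icc (fun d hd => ?_) (fun d hd => ?_) fun d hd => ?_ <;>
      obtain ⟨h1, h2⟩ := hd <;> (first
      | exact sin_ne_mul (Or.inl ⟨by linarith, by linarith⟩)
      | exact sin_ne_mul (Or.inr ⟨by linarith, by linarith⟩)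
      | exact sin_ne_pos (by linarith) (by linarith)
      | exact sin_ne_neg (by linarith) (by linarith))
  · refine PB_gFP isCompact_Icc (fun d hd => ?_) (fun d hd => ?_) fun d hd => ?_ <;>
      obtain ⟨h1, h2⟩ := hd <;> (first
      | exact sin_ne_mul (Or.inl ⟨by linarith, by linarith⟩)
      | exact sin_ne_mul (Or.inr ⟨by linarith, by linarith⟩)
      | exact sin_ne_pos (by linarith) (by linarith)
      | exact sin_ne_neg (by linarith) (by linarith))
  · refine PB_gPP isCompact_Icc (fun d hd => ?_) (fun d hd => ?_) (fun d hd => ?_) fun d hd => ?_ <;>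
      obtain ⟨h1, h2⟩ := hd <;> (first
      | exact sin_ne_mul (Or.inl ⟨by linarith, by linarith⟩)
      | exact sin_ne_mul (Or.inr ⟨by linarith, by linarith⟩)
      | exact sin_ne_pos (by linarith) (by linarith)
      | exact sin_ne_neg (by linarith) (by linarith))

end facts

end NURow

end
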