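import Pool.Agent.NUP1L.FinalF
import Pool.Agent.NURow.Cls
import Pool.Agent.NURow.Conv
import Pool.Agent.NURow.Pref
import Pool.Agent.NUP1S.HostO

/-!
# The eleven integrals as the start classes (helper91)

`LL_joint`: a double line integral is an integral over the plane.
`E11_val`: the eleven integrals of `NUP1L/FinalC` at the rows `± l / 2` are the nine start classes
`cS t t'`, `t, t' ∈ {W, F, P}` (pairs `I0`, `IP`, `IP'`, `IPP` on their lines) and the two classes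
`cD`, `cD'` of a captured pair.
-/

set_option autoImplicit false
set_option linter.unusedSectionVars false

noncomputable section

open Complex MeasureTheory

namespace NURow

open NUP1 NUP1S NUP1.Bd NUP1.Leg
open NUP1.N (Z3 Gr0 I0 IP IP' IPP ID ID' ZP ZP' ZPP GXs GYs UD E11 Ln Ln_start)

/-! ## double line integrals -/

section joint
variable {σ τ : ℝ}

/-- a double line integral is an integral over the plane -/
theorem LL_joint {f : ℂ → ℂ → ℂ}
    (h : Integrable (fun y : ℝ × ℝ => f (vl σ y.1) (vl τ y.2)) (volume.prod volume)) :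
    LL σ τ f = ((2 * Real.pi : ℂ)⁻¹) ^ 2 *
      ∫ y : ℝ × ℝ, f (vl σ y.1) (vl τ y.2) ∂(volume.prod volume) := by
  rw [integral_prod _ h]
  unfold LL LI
  rw [integral_const_mul]
  ring

theorem LL_joint_congr {f : ℂ → ℂ → ℂ} {F : ℝ × ℝ → ℂ} (h : G2 σ τ f)
    (e : ∀ y : ℝ × ℝ, f (vl σ y.1) (vl τ y.2) = F y) :
    LL σ τ f = ((2 * Real.pi : ℂ)⁻¹) ^ 2 * ∫ y : ℝ × ℝ, F y ∂(volume.prod volume) := by
  rw [LL_joint h.joint]
  congr 1
  exact integral_congr_ae (Filter.Eventually.of_forall e)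

end joint

/-! ## the limit rows -/

theorem rows2_x0 (M : ℕ) : Rows2 M (x0 M) := fun f => prod_x0 M f

/-- lines of the quanta and of the captured quantum -/
def K4 : Set ℝ := {3 / 5 * l, -(17 / 10) * l, -(17 / 10) * l + l, -(11 / 4) * l + 3 * l}

theorem K4_of {x : ℝ} (h : NUP1.N.OnL (3 / 5 * l) (-(17 / 10) * l) x ∨ x = -(11 / 4) * l + 3 * l) :
    x ∈ K4 := by
  unfold K4
  simp only [Set.mem_insert_iff, Set.mem_singleton_iff]
  rcases h with (h | h | h) | h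
  · exact Or.inl h
  · exact Or.inr (Or.inl h)
  · exact Or.inr (Or.inr (Or.inl h))
  · exact Or.inr (Or.inr (Or.inr h))

theorem K4_compact : IsCompact K4 := by
  unfold K4
  exact (Set.toFinite _).isCompact

theorem K4_ok {x : ℝ} (h : x ∈ K4) : NH x ∧ Real.sin (x + l / 2) ≠ 0 ∧ -(5 * l / 2) < x ∧
    x < 3 * l / 2 := by
  have hl := Bd.l_pos
  unfold K4 at h
  simp only [Set.mem_insert_iff, Set.mem_singleton_iff] at h
  rcases h with h | h | h | h <;> subst h <;>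
    refine ⟨⟨?_, ?_, ?_⟩, ?_, by linarith, by linarith⟩ <;> (first
      | exact sin_ne_mul (Or.inl ⟨by linarith, by linarith⟩)
      | exact sin_ne_mul (Or.inr ⟨by linarith, by linarith⟩))

/-- a function with the rows of `Gr0` taken out -/
theorem bdd_h {β : ℝ} (hβ : 0 < β) (hβ' : β ≤ 4 / 3) (M : ℕ) {h : ℂ → ℂ}
    (e : ∀ u, Gr0 h (x0 M) u = R1 (cc (2 * M)) M u * phN β M u) :
    Bdd K4 (2 * M - 2 * β) h := by
  have h1 := bdd_R1 (cc (2 * M)) M K4_compact fun x hx => ⟨(K4_ok hx).1, (K4_ok hx).2.1⟩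
  have h2 := bdd_phN hβ M K4_compact fun x hx => NC_strip hβ hβ' (K4_ok hx).2.2.1 (K4_ok hx).2.2.2
  have h3 := (bdd_sin K4 (-(l / 2))).pow M
  have h4 := (bdd_sin K4 (l / 2)).pow M
  have h5 := ((h1.mul h2).mul (h3.mul h4)).rate (s' := 2 * M - 2 * β) (by ring)
  refine NURow.Bdd.cg h5 fun z hz => ?_
  have n1 : sin (z - l / 2) ≠ 0 := by
    have := sin_ne_sub (z := z) (a := l / 2) (K4_ok hz).1.1
    push_cast at this
    exact this
  have n2 : sin (z + l / 2) ≠ 0 := by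
    have := sin_ne_of_re (z := z) (a := l / 2) (K4_ok hz).2.1
    push_cast at this
    exact this
  rw [← e z]
  have e2 := prod_x0 M fun x => 1 / sin (z - x)
  unfold NUP1.N.Gr0
  rw [e2, sub_neg_eq_add, one_div_pow, one_div_pow]
  push_cast
  rw [← sub_eq_add_neg]
  have n3 := pow_ne_zero M n1
  have n4 := pow_ne_zero M n2
  generalize sin (z - l / 2) ^ M = A at n3 ⊢
  generalize sin (z + l / 2) ^ M = B at n4 ⊢
  field_simp

theorem measurable_of_Gr0 {β : ℝ} {M : ℕ} {r o r' o' : ℂ} : Measurable (h0 β M r o r' o') := by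
  unfold h0 hE hr thE
  have h1 : Measurable fun u => ∏ i, psi β (u - x0 M i) :=
    Finset.measurable_prod _ fun i _ => measurable_psi β (x0 M i)
  have h2 : ∀ (f : Fin (2 * M) → ℂ → ℂ), (∀ i, Measurable (f i)) → Measurable fun u => ∏ i, f i u :=
    fun f hf => Finset.measurable_prod _ fun i _ => hf i
  fun_prop (disch := skip)

/-- **the uniform data at the limit rows** -/
theorem UD_lim {β : ℝ} (hβ : 0 < β) (hβ' : β ≤ 4 / 3) (M : ℕ) : ∃ D : ℝ,
    UD (3 / 5 * l) (-(17 / 10) * l) (-(11 / 4) * l) D (2 * β - 2 * M) 1 (-(l / 2)) (l / 2) (x0 M)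
      (x0 M) (hX0 β M) (hY0 β M) := by
  have hl := Bd.l_pos
  obtain ⟨C, hC, h1⟩ := bdd_h hβ hβ' M (h := hX0 β M) (Gr0_hX0 β M)
  obtain ⟨C', hC', h2⟩ := bdd_h hβ hβ' M (h := hY0 β M) (Gr0_hY0 β M)
  have b1 : NUP1.N.Bx 1 (l / 2 : ℂ) := by
    rw [← half_l]
    refine ⟨?_, ?_⟩
    · rw [ofReal_re, abs_of_pos (by positivity)]
    · rw [ofReal_im]
      simp
  have b2 : NUP1.N.Bx 1 (-(l / 2) : ℂ) := by
    rw [← half_l, ← ofReal_neg]
    refine ⟨?_, ?_⟩
    · rw [ofReal_re, abs_neg, abs_of_pos (by positivity)]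
    · rw [ofReal_im]
      simp
  have b3 : ∀ i, NUP1.N.Bx 1 (x0 M i) := by
    intro i
    unfold x0
    split_ifs
    · exact b1
    · exact b2
  refine ⟨C + C', b2, b1, b3, b3, measurable_of_Gr0, measurable_of_Gr0, fun z hz => ?_,
    fun z hz => ?_⟩
  · refine (h1 z (K4_of hz)).trans ?_
    rw [show (2 * M - 2 * β) * |z.im| = -((2 * β - 2 * M) * |z.im|) by ring]
    exact mul_le_mul_of_nonneg_right (by linarith) (Real.exp_pos _).le
  · refine (h2 z (K4_of hz)).trans ?_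
    rw [show (2 * M - 2 * β) * |z.im| = -((2 * β - 2 * M) * |z.im|) by ring]
    exact mul_le_mul_of_nonneg_right (by linarith) (Real.exp_pos _).le

/-! ## the spectators -/

section specs
variable (c : ℂ) (β : ℝ) (M N : ℕ) (w w' : ℂ)

/-- one body functions without spectators -/
abbrev XN : Option O3 → ℂ → ℂ := XH c β M N (fun _ => 1) fun _ => 1

theorem xWW : XH c β M N (fun u => Ck (w - u) * Dk (w' - u)) (fun u => CC (w - u) * DD (w' - u)) =
    XS true (XN c β M N) SF (fl SF) w w' :=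
  XH_XS true c β M N (S := SF) (S' := fl SF) rfl rfl rfl rfl w w'

theorem yWW : XH c β M N (fun u => Dk (w - u) * Ck (w' - u)) (fun u => DD (w - u) * CC (w' - u)) =
    XS false (XN c β M N) SF (fl SF) w w' :=
  XH_XS false c β M N (S := SF) (S' := fl SF) rfl rfl rfl rfl w w'

theorem xP : XH c β M N (fun u => Ck (w - u) * Dk (w' - u) * qg (u - (w + 3 * l)))
    (fun u => CC (w - u) * DD (w' - u) * QQ (u - (w + 3 * l))) =
    XS true (XN c β M N) SP (fl SF) w w' := by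
  refine Eq.trans ?_ (XH_XS true c β M N (S := SP) (S' := fl SF) rfl rfl rfl rfl w w')
  congr 1 <;> funext u
  · show _ = Ck (w - u) * qg (w - u + 3 * l) * Dk (w' - u)
    rw [qg_c]
    ring
  · show _ = CC (w - u) * QQ (-(w - u) - 3 * l) * DD (w' - u)
    rw [QQ_c]
    ring

theorem yP : XH c β M N (fun v => Ck (w' - v) * Ck (v - (w + 3 * l)))
    (fun v => CC (w' - v) * C2 (v - (w + 3 * l))) =
    XS false (XN c β M N) SP (fl SF) w w' := by
  refine Eq.trans ?_ (XH_XS false c β M N (S := SP) (S' := fl SF) rfl rfl rfl rfl w w')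
  congr 1 <;> funext u
  · show _ = Ck (-(w - u) - 3 * l) * Ck (w' - u)
    rw [Ck_c]
    ring
  · show _ = C2 (-(w - u) - 3 * l) * CC (w' - u)
    rw [C2_c]
    ring

theorem xP' : XH c β M N (fun u => Ck (w - u) * Ck (u - (w' + 3 * l)))
    (fun u => CC (w - u) * C2 (u - (w' + 3 * l))) =
    XS true (XN c β M N) SF (fl SP) w w' := by
  refine Eq.trans ?_ (XH_XS true c β M N (S := SF) (S' := fl SP) rfl rfl rfl rfl w w')
  congr 1 <;> funext u
  · show _ = Ck (w - u) * Ck (-(w' - u) - 3 * l)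
    rw [Ck_c]
  · show _ = CC (w - u) * C2 (-(w' - u) - 3 * l)
    rw [C2_c]

theorem yP' : XH c β M N (fun v => Dk (w - v) * Ck (w' - v) * qg (v - (w' + 3 * l)))
    (fun v => DD (w - v) * CC (w' - v) * QQ (v - (w' + 3 * l))) =
    XS false (XN c β M N) SF (fl SP) w w' := by
  refine Eq.trans ?_ (XH_XS false c β M N (S := SF) (S' := fl SP) rfl rfl rfl rfl w w')
  congr 1 <;> funext u
  · show _ = Dk (w - u) * (Ck (w' - u) * qg (w' - u + 3 * l))
    rw [qg_c]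
    ring
  · show _ = DD (w - u) * (CC (w' - u) * QQ (-(w' - u) - 3 * l))
    rw [QQ_c]
    ring

theorem xPP : XH c β M N
    (fun u => Ck (w - u) * qg (u - (w + 3 * l)) * Ck (u - (w' + 3 * l)))
    (fun u => CC (w - u) * QQ (u - (w + 3 * l)) * C2 (u - (w' + 3 * l))) =
    XS true (XN c β M N) SP (fl SP) w w' := by
  refine Eq.trans ?_ (XH_XS true c β M N (S := SP) (S' := fl SP) rfl rfl rfl rfl w w')
  congr 1 <;> funext u
  · show _ = Ck (w - u) * qg (w - u + 3 * l) * Ck (-(w' - u) - 3 * l)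
    rw [qg_c, Ck_c]
  · show _ = CC (w - u) * QQ (-(w - u) - 3 * l) * C2 (-(w' - u) - 3 * l)
    rw [QQ_c, C2_c]

theorem yPP : XH c β M N
    (fun v => Ck (w' - v) * Ck (v - (w + 3 * l)) * qg (v - (w' + 3 * l)))
    (fun v => CC (w' - v) * C2 (v - (w + 3 * l)) * QQ (v - (w' + 3 * l))) =
    XS false (XN c β M N) SP (fl SP) w w' := by
  refine Eq.trans ?_ (XH_XS false c β M N (S := SP) (S' := fl SP) rfl rfl rfl rfl w w')
  congr 1 <;> funext u
  · show _ = Ck (-(w - u) - 3 * l) * (Ck (w' - u) * qg (w' - u + 3 * l))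
    rw [qg_c, Ck_c]
    ring
  · show _ = C2 (-(w - u) - 3 * l) * (CC (w' - u) * QQ (-(w' - u) - 3 * l))
    rw [QQ_c, C2_c]
    ring

theorem xD : XH c β M N (fun _ => 1) (fun _ => 1) =
    XS true (XN c β M N) SD (fun _ _ _ => 1) w 0 :=
  XH_XS1 true c β M N (S := SD) rfl rfl w

theorem yD : XH c β M N (fun v => Tk (w - v)) (fun v => TTk (w - v)) =
    XS false (XN c β M N) SD (fun _ _ _ => 1) w 0 :=
  XH_XS1 false c β M N (S := SD) rfl rfl w

theorem xD' : XH c β M N (fun v => Tk (w - v)) (fun v => TTk (w - v)) =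
    XS true (XN c β M N) (fl SD) (fun _ _ _ => 1) w 0 :=
  XH_XS1 true c β M N (S := fl SD) rfl rfl w

theorem yD' : XH c β M N (fun _ => 1) (fun _ => 1) =
    XS false (XN c β M N) (fl SD) (fun _ _ _ => 1) w 0 :=
  XH_XS1 false c β M N (S := fl SD) rfl rfl w

end specs

/-! ## the classes -/

/-- one body functions at the limit rows, without spectators -/
abbrev XL (β : ℝ) (M : ℕ) : Option O3 → ℂ → ℂ := XN (cc (2 * M)) β M M

/-- the start classes at the limit rows -/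
abbrev cL (β : ℝ) (M : ℕ) (t t' : HT) : CD :=
  cS (KF M) (KP (cc (2 * M)) β M M) (KF' M) (KP' (cc (2 * M)) β M M) t t'

section main
variable {β : ℝ} (hβ : 0 < β) (hβ' : β ≤ 4 / 3) (M n : ℕ)
  {lnX : ∀ p p' : ℕ, (Fin p → O3) → (Fin p' → O3) → Fin p → ℝ}
  {lnY : ∀ p p' : ℕ, (Fin p → O3) → (Fin p' → O3) → Fin p' → ℝ} (L : LnH lnX lnY)
  {w w' : ℂ} {t t' : HT}

theorem GY_cap (z : ℂ) : Gr0 (hY0 β M) (x0 M) z = GH (cc (2 * M)) β M M (fun _ => 1) z := by
  rw [Gr0_hY0]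
  unfold GH
  rw [mul_one]

theorem GX_cap (z : ℂ) : Gr0 (hX0 β M) (x0 M) z = GH (cc (2 * M)) β M M (fun _ => 1) z := by
  rw [Gr0_hX0]
  unfold GH
  rw [mul_one]

include hβ hβ' L

theorem pt_I0 (ht : t = .W ∨ t = .F) (ht' : t' = .W ∨ t' = .F) (hw : w.re = t.l0)
    (hw' : w'.re = t'.l0) :
    I0 (3 / 5 * l) (-(17 / 10) * l) (-(l / 2)) (l / 2) (x0 M) (x0 M) (hX0 β M) (hY0 β M) n n w w' =
      (cL β M t t').pre w w' *
        (cL β M t t').Z (XL β M) (XL β M) (3 / 5 * l) n n lnX lnY w w' := by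
  have p1 : Pos w := by
    rcases ht with rfl | rfl
    · exact Or.inl hw
    · exact Or.inr hw
  have p2 : Pos w' := by
    rcases ht' with rfl | rfl
    · exact Or.inl hw'
    · exact Or.inr hw'
  rw [I0_pre (rows2_x0 M) (rows2_x0 M) rfl rfl, st_WW hβ hβ' M L p1 p2, xWW, yWW]
  have e : (cL β M t t').pre w w' *
        (cL β M t t').Z (XL β M) (XL β M) (3 / 5 * l) n n lnX lnY w w' =
      Pre gFF (KF M) (KF' M) w w' * (if 0 ≤ n ∧ 0 ≤ n then
        ZobjQ (XS true (XL β M) SF (fl SF) w w') (XS false (XL β M) SF (fl SF) w w')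
          (3 / 5 * l) n n lnX lnY else 0) := by
    rcases ht with rfl | rfl <;> rcases ht' with rfl | rfl <;> rfl
  rw [e, if_pos ⟨Nat.zero_le _, Nat.zero_le _⟩]
  rfl

theorem pt_IP (ht' : t' = .W ∨ t' = .F) (hw : w.re = -(11 / 4) * l) (hw' : w'.re = t'.l0) :
    IP (3 / 5 * l) (-(17 / 10) * l) (-(l / 2)) (l / 2) (x0 M) (x0 M) (hX0 β M) (hY0 β M) n n w w' =
      (cL β M .P t').pre w w' *
        (cL β M .P t').Z (XL β M) (XL β M) (3 / 5 * l) n n lnX lnY w w' := by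
  have p2 : Pos w' := by
    rcases ht' with rfl | rfl
    · exact Or.inl hw'
    · exact Or.inr hw'
  rw [IP_pre (rows2_x0 M) (rows2_x0 M) rfl rfl hw (GY_cap M _), st_P hβ hβ' M L hw p2, xP, yP]
  have e : (cL β M .P t').pre w w' *
        (cL β M .P t').Z (XL β M) (XL β M) (3 / 5 * l) n n lnX lnY w w' =
      Pre gPF (KP (cc (2 * M)) β M M) (KF' M) w w' * (if 0 ≤ n ∧ 1 ≤ n then
        ZobjQ (XS true (XL β M) SP (fl SF) w w') (XS false (XL β M) SP (fl SF) w w')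
          (3 / 5 * l) n (n - 1) lnX lnY else 0) := by
    rcases ht' with rfl | rfl <;> rfl
  rw [e]
  simp only [Nat.zero_le, true_and]
  rfl

theorem pt_IP' (ht : t = .W ∨ t = .F) (hw : w.re = t.l0) (hw' : w'.re = -(11 / 4) * l) :
    IP' (3 / 5 * l) (-(17 / 10) * l) (-(l / 2)) (l / 2) (x0 M) (x0 M) (hX0 β M) (hY0 β M) n n
      w w' = (cL β M t .P).pre w w' *
        (cL β M t .P).Z (XL β M) (XL β M) (3 / 5 * l) n n lnX lnY w w' := by
  have p1 : Pos w := by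
    rcases ht with rfl | rfl
    · exact Or.inl hw
    · exact Or.inr hw
  rw [IP'_pre (rows2_x0 M) (rows2_x0 M) rfl rfl w hw' (GX_cap M _), st_P' hβ hβ' M L p1 hw',
    xP', yP']
  have e : (cL β M t .P).pre w w' *
        (cL β M t .P).Z (XL β M) (XL β M) (3 / 5 * l) n n lnX lnY w w' =
      Pre gFP (KF M) (KP' (cc (2 * M)) β M M) w w' * (if 1 ≤ n ∧ 0 ≤ n then
        ZobjQ (XS true (XL β M) SF (fl SP) w w') (XS false (XL β M) SF (fl SP) w w')
          (3 / 5 * l) (n - 1) n lnX lnY else 0) := by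
    rcases ht with rfl | rfl <;> rfl
  rw [e]
  simp only [Nat.zero_le, and_true]
  rfl

theorem pt_IPP (hw : w.re = -(11 / 4) * l) (hw' : w'.re = -(11 / 4) * l) :
    IPP (3 / 5 * l) (-(17 / 10) * l) (-(l / 2)) (l / 2) (x0 M) (x0 M) (hX0 β M) (hY0 β M) n n
      w w' = (cL β M .P .P).pre w w' *
        (cL β M .P .P).Z (XL β M) (XL β M) (3 / 5 * l) n n lnX lnY w w' := by
  rw [IPP_pre (rows2_x0 M) (rows2_x0 M) rfl rfl hw hw' (GY_cap M _) (GX_cap M _),
    st_PP hβ hβ' M L hw hw', xPP, yPP]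
  have e : (cL β M .P .P).pre w w' *
        (cL β M .P .P).Z (XL β M) (XL β M) (3 / 5 * l) n n lnX lnY w w' =
      Pre gPP (KP (cc (2 * M)) β M M) (KP' (cc (2 * M)) β M M) w w' * (if 1 ≤ n ∧ 1 ≤ n then
        ZobjQ (XS true (XL β M) SP (fl SP) w w') (XS false (XL β M) SP (fl SP) w w')
          (3 / 5 * l) (n - 1) (n - 1) lnX lnY else 0) := rfl
  rw [e]
  simp only [and_self]
  rfl

theorem pt_ID (hw : w.re = -(11 / 4) * l) :
    ID (3 / 5 * l) (-(17 / 10) * l) (-(l / 2)) (l / 2) (x0 M) (x0 M) (hX0 β M) (hY0 β M) n n w =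
      XD M w * (cD (XD M)).Z (XL β M) (XL β M) (3 / 5 * l) n n lnX lnY w := by
  rw [ID_pre (rows2_x0 M) rfl rfl, st_D hβ hβ' M L hw, xD (cc (2 * M)) β M M w, yD]
  rfl

theorem pt_ID' (hw : w.re = -(11 / 4) * l) :
    ID' (3 / 5 * l) (-(17 / 10) * l) (-(l / 2)) (l / 2) (x0 M) (x0 M) (hX0 β M) (hY0 β M) n n w =
      XD' M w * (cD' (XD' M)).Z (XL β M) (XL β M) (3 / 5 * l) n n lnX lnY w := by
  rw [ID'_pre (rows2_x0 M) rfl rfl, st_D' hβ hβ' M L hw, xD', yD' (cc (2 * M)) β M M w]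
  rfl

end main

section final
variable {β : ℝ} {M n : ℕ}
  {lnX : ∀ p p' : ℕ, (Fin p → O3) → (Fin p' → O3) → Fin p → ℝ}
  {lnY : ∀ p p' : ℕ, (Fin p → O3) → (Fin p' → O3) → Fin p' → ℝ}

theorem LL_cls {t t' : HT} {f : ℂ → ℂ → ℂ} (h : G2 t.l0 t'.l0 f)
    (e : ∀ w w' : ℂ, w.re = t.l0 → w'.re = t'.l0 → f w w' = (cL β M t t').pre w w' *
      (cL β M t t').Z (XL β M) (XL β M) (3 / 5 * l) n n lnX lnY w w') :
    LL t.l0 t'.l0 f = ((2 * Real.pi : ℂ)⁻¹) ^ 2 *
      (cL β M t t').val (XL β M) (XL β M) (3 / 5 * l) n n lnX lnY :=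
  LL_joint_congr h fun _ => e _ _ (vlre _ _) (vlre _ _)

/-- the sum over the types of a half quantum at the start -/
theorem sum_st (f : HT → ℂ) : ∑ t ∈ ({HT.W, HT.F, HT.P} : Finset HT), f t =
    f HT.W + f HT.F + f HT.P := by
  rw [Finset.sum_insert (by decide), Finset.sum_insert (by decide), Finset.sum_singleton]
  ring

/-- **The eleven integrals at the rows `± l / 2` are the start classes.** -/
theorem E11_val (hβ : 1 < β) (hβ' : β ≤ 4 / 3) (M n : ℕ) (L : LnH lnX lnY) :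
    E11 (3 / 5 * l) (-(17 / 10) * l) (-(l / 2)) (l / 2) (x0 M) (x0 M) (hX0 β M) (hY0 β M) n n
      (31 / 50 * l) (-(11 / 4) * l) =
    ((2 * Real.pi : ℂ)⁻¹) ^ 2 * ∑ t ∈ ({HT.W, HT.F, HT.P} : Finset HT),
      ∑ t' ∈ ({HT.W, HT.F, HT.P} : Finset HT), t.sg * t'.sg *
        (cL β M t t').val (XL β M) (XL β M) (3 / 5 * l) n n lnX lnY -
    sin l / sin (2 * l) * ((2 * Real.pi : ℂ)⁻¹ *
      ((cD (XD M)).val (XL β M) (XL β M) (3 / 5 * l) n n lnX lnY +
        (cD' (XD' M)).val (XL β M) (XL β M) (3 / 5 * l) n n lnX lnY)) := by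
  have hβ0 : 0 < β := by linarith
  obtain ⟨D, U⟩ := UD_lim hβ0 hβ' M
  have Ls : Ln (3 / 5 * l) (-(17 / 10) * l) (31 / 50 * l) (-(11 / 4) * l) :=
    Ln_start (Or.inl rfl)
  have hK : 2 < (2 * β - 2 * M) + ((2 * M : ℕ) : ℝ) := by
    push_cast
    linarith
  have hA : NUP1.N.LnAB (31 / 50 * l) (-(11 / 4) * l) (31 / 50 * l) := Or.inl rfl
  have hB : NUP1.N.LnAB (31 / 50 * l) (-(11 / 4) * l) (-(11 / 4) * l) := Or.inr rfl
  have eWW := LL_cls (t := .W) (t' := .W) (NUP1.N.G2_I0 (n := n) Ls U hK hA hA)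
    fun w w' h h' => pt_I0 hβ0 hβ' M n L (Or.inl rfl) (Or.inl rfl) h h'
  have eWF := LL_cls (t := .W) (t' := .F) (NUP1.N.G2_I0 (n := n) Ls U hK hA hB)
    fun w w' h h' => pt_I0 hβ0 hβ' M n L (Or.inl rfl) (Or.inr rfl) h h'
  have eFW := LL_cls (t := .F) (t' := .W) (NUP1.N.G2_I0 (n := n) Ls U hK hB hA)
    fun w w' h h' => pt_I0 hβ0 hβ' M n L (Or.inr rfl) (Or.inl rfl) h h'
  have eFF := LL_cls (t := .F) (t' := .F) (NUP1.N.G2_I0 (n := n) Ls U hK hB hB)
    fun w w' h h' => pt_I0 hβ0 hβ' M n L (Or.inr rfl) (Or.inr rfl) h h'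
  have eWP := LL_cls (t := .W) (t' := .P) (NUP1.N.G2_IP' (n := n) Ls U hK hA)
    fun w w' h h' => pt_IP' hβ0 hβ' M n L (Or.inl rfl) h h'
  have eFP := LL_cls (t := .F) (t' := .P) (NUP1.N.G2_IP' (n := n) Ls U hK hB)
    fun w w' h h' => pt_IP' hβ0 hβ' M n L (Or.inr rfl) h h'
  have ePW := LL_cls (t := .P) (t' := .W) (NUP1.N.G2_IP (n := n) Ls U hK hA)
    fun w w' h h' => pt_IP hβ0 hβ' M n L (Or.inl rfl) h h'
  have ePF := LL_cls (t := .P) (t' := .F) (NUP1.N.G2_IP (n := n) Ls U hK hB)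
    fun w w' h h' => pt_IP hβ0 hβ' M n L (Or.inr rfl) h h'
  have ePP := LL_cls (t := .P) (t' := .P) (NUP1.N.G2_IPP (n := n) Ls U hK)
    fun w w' h h' => pt_IPP hβ0 hβ' M n L h h'
  have eD : LI (-(11 / 4) * l) (ID (3 / 5 * l) (-(17 / 10) * l) (-(l / 2)) (l / 2) (x0 M) (x0 M)
      (hX0 β M) (hY0 β M) n n) = (2 * Real.pi : ℂ)⁻¹ *
      (cD (XD M)).val (XL β M) (XL β M) (3 / 5 * l) n n lnX lnY := by
    unfold LI CD1.val
    congr 1
    exact integral_congr_ae (Filter.Eventually.of_forall fun t =>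
      pt_ID hβ0 hβ' M n L (vlre _ _))
  have eD' : LI (-(11 / 4) * l) (ID' (3 / 5 * l) (-(17 / 10) * l) (-(l / 2)) (l / 2) (x0 M) (x0 M)
      (hX0 β M) (hY0 β M) n n) = (2 * Real.pi : ℂ)⁻¹ *
      (cD' (XD' M)).val (XL β M) (XL β M) (3 / 5 * l) n n lnX lnY := by
    unfold LI CD1.val
    congr 1
    exact integral_congr_ae (Filter.Eventually.of_forall fun t =>
      pt_ID' hβ0 hβ' M n L (vlre _ _))
  simp only [HT.l0] at eWW eWF eFW eFF eWP eFP ePW ePF ePP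
  unfold NUP1.N.E11
  rw [eWW, eWF, eFW, eFF, eWP, eFP, ePW, ePF, ePP, eD, eD']
  simp only [sum_st, HT.sg]
  ring

end final

/-! ## the lines of the objects -/

theorem lnO_memL {P : NUO.Par} (h : GoodP P) (h1 : 9 / 4 ≤ P.jL) (h2 : P.jL ≤ 27 / 10)
    {r i : ℕ} (h3 : P.e + P.d r ≤ 3 / 10) (hi : i < r) (k : O3) : lnO P r i k ∈ Set.Icc
      (lo4 (3 / 5 * l) (-(17 / 10 * l)) (-(13 / 10 * l)) (-(7 / 10 * l)) (some k))
      (lo4 (3 / 5 * l) (-(5 / 4 * l)) (-(7 / 10 * l)) (-(l / 2)) (some k)) := by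
  have hl := Bd.l_pos
  have hr : (0 : ℝ) < r := by exact_mod_cast (Nat.zero_le i).trans_lt hi
  have g1 : (i : ℝ) / r ≤ 1 := (div_le_one hr).2 (by exact_mod_cast hi.le)
  have g2 : 0 ≤ (i : ℝ) / r := by positivity
  have g3 := mul_le_mul_of_nonneg_left g1 (h.d0 r).le
  have g4 := mul_nonneg (h.d0 r).le g2
  have g5 := h.e1
  cases k
  · constructor
    · show -(17 / 10 * l) ≤ (1 - P.jL) * l
      nlinarith
    · show (1 - P.jL) * l ≤ -(5 / 4 * l)
      nlinarith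
  · constructor
    · show -(13 / 10 * l) ≤ -((1 + (P.e + P.d r * ((i : ℝ) / r))) * l)
      nlinarith
    · show -((1 + (P.e + P.d r * ((i : ℝ) / r))) * l) ≤ -(7 / 10 * l)
      nlinarith
  · constructor
    · show -(7 / 10 * l) ≤ -(1 / 2 * l)
      linarith
    · show -(1 / 2 * l) ≤ -(l / 2)
      linarith

/-- the lines `lX P`, `lY P` are admissible -/
theorem LnH_P {P : NUO.Par} (h : GoodP P) (h1 : 9 / 4 ≤ P.jL) (h2 : P.jL ≤ 27 / 10)
    (h3 : ∀ r, P.e + P.d r ≤ 3 / 10) : LnH (lX P) (lY P) where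
  hX _ _ _ _ i := lnO_memL h h1 h2 (h3 _) (i.2.trans_le (Nat.le_add_right _ _)) _
  hY _ _ _ _ i := lnO_memL h h1 h2 (h3 _) (i.2.trans_le (Nat.le_add_left _ _)) _

end NURow

end
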