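import Pool.Agent.NURow.PinL

/-!
# The base families of the final stage: `XH` without spectators
-/

set_option autoImplicit false
set_option linter.unusedSectionVars false

noncomputable section

open Complex MeasureTheory
open scoped Classical

namespace NURow

open NUP1 NUP1S NUP1.Bd

/-- no spectators -/
theorem specQ_one (b : Bool) : SpecQ b 0 (fun _ => 1) (fun _ => 1) where
  m1 := measurable_const
  m2 := measurable_const
  b1 := (Bdd.const K1 1).rate (by ring)
  b2 := (Bdd.const K2 1).rate (by ring)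
  d1 _ _ := differentiableAt_const _
  d2 _ _ := differentiableAt_const _
  mul _ _ := by ring

variable {c : ℂ} {β κ : ℝ} {M N : ℕ}

/-- the function of the strings S on the strip down to `- 11 l / 8` -/
def XSS (c : ℂ) (M N : ℕ) (w : ℂ) : ℂ := R1 c M w * R1 c M (w - l) * phN (4 / 3) N w

theorem XH_S (c : ℂ) (β : ℝ) (M N : ℕ) :
    XH c β M N (fun _ => 1) (fun _ => 1) (some .S) = XSS c M N := by
  funext w
  show R1 c M w * R1 c M (w - l) * phN (4 / 3) N w * 1 = _
  rw [mul_one]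
  rfl

theorem NH_P {x : ℝ} (h : x ∈ Set.Icc (-(11 / 8) * l) (-(5 / 4) * l)) :
    (NH x ∧ Real.sin (x + l / 2) ≠ 0) ∧ NH (x - l) ∧ Real.sin (x - l + l / 2) ≠ 0 := by
  have hl := Bd.l_pos
  obtain ⟨h1, h2⟩ := h
  exact ⟨⟨⟨sin_ne_neg (by linarith) (by linarith), sin_ne_neg (by linarith) (by linarith),
      sin_ne_neg (by linarith) (by linarith)⟩, sin_ne_neg (by linarith) (by linarith)⟩,
    ⟨sin_ne_neg (by linarith) (by linarith), sin_ne_neg (by linarith) (by linarith),
      sin_ne_neg (by linarith) (by linarith)⟩, sin_ne_neg (by linarith) (by linarith)⟩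

theorem NC_P {β x : ℝ} (hβ : 0 < β) (hβ' : β ≤ 4 / 3)
    (h : x ∈ Set.Icc (-(11 / 8) * l) (-(5 / 4) * l)) : NC β x := by
  have hl := Bd.l_pos
  obtain ⟨h1, h2⟩ := h
  exact NC_strip hβ hβ' (by linarith) (by linarith)

theorem bdd_XSS (c : ℂ) (M N : ℕ) :
    Bdd (Set.Icc (-(11 / 8) * l) (-(5 / 4) * l)) (-(2 * (4 / 3))) (XSS c M N) := by
  have hK : IsCompact (Set.Icc (-(11 / 8) * l) (-(5 / 4) * l)) := isCompact_Icc
  have h1 := bdd_R1 c M hK fun x hx => (NH_P hx).1
  have h2 : Bdd (Set.Icc (-(11 / 8) * l) (-(5 / 4) * l)) 0 (fun w => R1 c M (w - l)) := by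
    have := bdd_R1 c M (K := (fun x => x + -l) '' Set.Icc (-(11 / 8) * l) (-(5 / 4) * l))
      (hK.image (by fun_prop)) (by
        rintro _ ⟨x, hx, rfl⟩
        have := (NH_P hx).2
        simpa [← sub_eq_add_neg] using this)
    exact bdd_shift_l this
  have h3 := bdd_phN (β := 4 / 3) (by norm_num) N hK fun x hx => NC_P (by norm_num) le_rfl hx
  exact ((h1.mul h2).mul h3).rate (by ring)

theorem diffAt_XSS (c : ℂ) (M N : ℕ) {z : ℂ}
    (hz : z.re ∈ Set.Icc (-(11 / 8) * l) (-(5 / 4) * l)) : DifferentiableAt ℂ (XSS c M N) z := by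
  have h1 := diffAt_R1 c M (NH_P hz).1.1 (NH_P hz).1.2
  have h2 : DifferentiableAt ℂ (fun w : ℂ => R1 c M (w - l)) z :=
    (diffAt_R1 c M (z := z - l) (by simpa using (NH_P hz).2.1)
      (by simpa using (NH_P hz).2.2)).comp z (differentiableAt_id.sub_const _)
  have h3 := diffAt_phN N (β := 4 / 3) (NC_P (by norm_num) le_rfl hz)
  exact (h1.mul h2).mul h3

/-- **One species.** -/
theorem famP (hβ : 0 < β) (hβ' : β ≤ 4 / 3) (hMN : M ≤ N) (hκ : κ ≤ 2 * β) (k : Option O3) :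
    Measurable (XH c β M N (fun _ => 1) (fun _ => 1) k) ∧
    DecOn κ (Set.Icc (loP k) (hiP k)) (XH c β M N (fun _ => 1) (fun _ => 1) k) ∧
    (loP k < hiP k → ContinuousOn (XH c β M N (fun _ => 1) (fun _ => 1) k) (CS (loP k) (hiP k)) ∧
      DifferentiableOn ℂ (XH c β M N (fun _ => 1) (fun _ => 1) k) (OS (loP k) (hiP k))) := by
  have hl := Bd.l_pos
  have h := specQ_one true
  refine ⟨measurable_XH measurable_const measurable_const k, ?_, ?_⟩
  · rcases k with _ | (_ | _ | _)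
    · refine DecOn_of (Bdd.mono_set (bdd_GH hβ hβ' h) ?_) (by linarith)
      rintro x ⟨h1, h2⟩
      have h1 : 3 / 5 * l ≤ x := h1
      have h2 : x ≤ 3 / 5 * l := h2
      exact Or.inl ⟨h1, by linarith⟩
    · refine DecOn_of (Bdd.mono_set (bdd_GH hβ hβ' h) ?_) (by linarith)
      rintro x ⟨h1, h2⟩
      have h1 : -(5 / 4) * l ≤ x := h1
      have h2 : x ≤ -(5 / 4) * l := h2
      exact Or.inr ⟨by linarith, by linarith⟩
    · rw [XH_S]
      exact DecOn_of (bdd_XSS c M N) (by linarith)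
    · refine DecOn_of (Bdd.mono_set (bdd_T hβ hβ' hMN h) ?_) (by linarith)
      rintro x ⟨h1, h2⟩
      have h1 : -(1 / 2) * l ≤ x := h1
      have h2 : x ≤ -(1 / 2) * l := h2
      exact ⟨by linarith, by linarith⟩
  · intro hlt
    rcases k with _ | (_ | _ | _)
    · exact absurd hlt (lt_irrefl _)
    · exact absurd hlt (lt_irrefl _)
    · rw [XH_S]
      refine ⟨fun z hz => (diffAt_XSS c M N ⟨hz.1, hz.2⟩).continuousAt.continuousWithinAt,
        fun z hz => (diffAt_XSS c M N ⟨hz.1.le, hz.2.le⟩).differentiableWithinAt⟩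
    · exact absurd hlt (lt_irrefl _)

/-- **The base families of the final stage.** -/
theorem fmD_P {cX cY : ℂ} {βX βY : ℝ} {MX NX MY NY : ℕ} (hβ : 0 < βX) (hβ' : βX ≤ 4 / 3)
    (hMN : MX ≤ NX) (hκ : κ ≤ 2 * βX) (gβ : 0 < βY) (gβ' : βY ≤ 4 / 3) (gMN : MY ≤ NY)
    (gκ : κ ≤ 2 * βY) :
    FmD loP hiP κ 0 (XB (XH cX βX MX NX (fun _ => 1) fun _ => 1)
      (XH cY βY MY NY (fun _ => 1) fun _ => 1)) where
  meas c k := by
    cases c
    · exact (famP gβ gβ' gMN gκ k).1
    · exact (famP hβ hβ' hMN hκ k).1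
  dec c k := by
    rw [show κ + 2 * 0 * sc4 c k = κ by ring]
    cases c
    · exact (famP gβ gβ' gMN gκ k).2.1
    · exact (famP hβ hβ' hMN hκ k).2.1
  cont c k h := by
    cases c
    · exact ((famP gβ gβ' gMN gκ k).2.2 h).1
    · exact ((famP hβ hβ' hMN hκ k).2.2 h).1
  diff c k h := by
    cases c
    · exact ((famP gβ gβ' gMN gκ k).2.2 h).2
    · exact ((famP hβ hβ' hMN hκ k).2.2 h).2

end NURow

end
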