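import Pool.Agent.NURow.MoveW
import Pool.Agent.NURow.StageQ

/-!
# Sums over objects with weights and one body functions depending on the configuration

`termG`, `ZobjG` generalise `termQ`, `ZobjQ`: the weight `W z` and the one body functions `X z`, `Y z`
may depend on the positions `z` of the objects which are not quanta on A.

`Half.moveZ`: moving the line of a half quantum `w` in front of `ZobjQ`, the residues are carried by
the strings of kind S of one species.
-/

set_option autoImplicit false
set_option linter.unusedSectionVars false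

noncomputable section

open Complex MeasureTheory
open scoped Classical

namespace NURow

open NUP1 NUP1S NUP1.Bd
open NUP1.N (Z3)

variable {ι ι' : Type*} [Fintype ι] [Fintype ι']

/-! ## reindexing -/

theorem integral_reindex (e : ι ≃ ι') (f : (ι → ℝ) → ℂ) :
    ∫ t : ι' → ℝ, f (fun i => t (e i)) ∂(Measure.pi fun _ => volume) =
      ∫ t, f t ∂(Measure.pi fun _ => volume) := by
  have mp := measurePreserving_piCongrLeft (fun _ : ι' => (volume : Measure ℝ)) e
  rw [← mp.integral_comp']
  refine integral_congr_ae (Filter.Eventually.of_forall fun t => ?_)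
  simp only []
  congr 1
  funext i
  exact MeasurableEquiv.piCongrLeft_apply_apply (β := fun _ => ℝ) e t i

theorem integrable_reindex (e : ι ≃ ι') {f : (ι → ℝ) → ℂ}
    (hf : Integrable f (Measure.pi fun _ => volume)) :
    Integrable (fun t : ι' → ℝ => f (fun i => t (e i))) (Measure.pi fun _ => volume) := by
  have mp := measurePreserving_piCongrLeft (fun _ : ι' => (volume : Measure ℝ)) e
  refine (mp.integrable_comp_emb (MeasurableEquiv.measurableEmbedding _)).1 ?_
  refine hf.congr (Filter.Eventually.of_forall fun t => ?_)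
  simp only [Function.comp]
  congr 1
  funext i
  exact (MeasurableEquiv.piCongrLeft_apply_apply (β := fun _ => ℝ) e t i).symm

/-! ## canonical families -/

section canon

variable {a p a' p' : ℕ}

/-- objects of a canonical family: quanta on A and other objects, of two species -/
abbrev CF (a p a' p' : ℕ) := (Fin a ⊕ Fin p) ⊕ (Fin a' ⊕ Fin p')

/-- the objects which are not quanta on A -/
def outi (i : Fin p ⊕ Fin p') : CF a p a' p' := Sum.map Sum.inr Sum.inr i

/-- the positions of the objects which are not quanta on A -/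
def outr {β : Type*} (z : CF a p a' p' → β) : Fin p ⊕ Fin p' → β := fun i => z (outi i)

/-- species and types of a canonical family -/
def oc4 (k : Fin p → O3) (k' : Fin p' → O3) : CF a p a' p' → CO :=
  oo (fun i => ob4 (kA a k i)) (fun i => ob4 (kA a' k' i))

/-- one body functions of a canonical family -/
def hc (X Y : Option O3 → ℂ → ℂ) (k : Fin p → O3) (k' : Fin p' → O3) : CF a p a' p' → ℂ → ℂ :=
  Sum.elim (fun i => X (kA a k i)) (fun i => Y (kA a' k' i))

/-- lines of a canonical family -/
def xc (α : ℝ) (x : Fin p → ℝ) (x' : Fin p' → ℝ) : CF a p a' p' → ℝ :=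
  Sum.elim (Sum.elim (fun _ => α) x) (Sum.elim (fun _ => α) x')

theorem outr_pos (α : ℝ) (x : Fin p → ℝ) (x' : Fin p' → ℝ) (t : CF a p a' p' → ℝ) :
    outr (pos (xc α x x') t) = pos (Sum.elim x x') (outr t) := by
  funext i
  rcases i with i | i <;> rfl

/-- quanta on A and other objects separately -/
theorem canonG (W : (Fin p ⊕ Fin p' → ℂ) → ℂ) (X Y : (Fin p ⊕ Fin p' → ℂ) → Option O3 → ℂ → ℂ)
    (α : ℝ) (k : Fin p → O3) (k' : Fin p' → O3) (x : Fin p → ℝ) (x' : Fin p' → ℝ)
    (hI : Integrable (fun t : CF a p a' p' → ℝ => W (outr (pos (xc α x x') t)) *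
      Fg (oc4 k k') (hc (X (outr (pos (xc α x x') t))) (Y (outr (pos (xc α x x') t))) k k')
        (pos (xc α x x') t)) (Measure.pi fun _ => volume)) :
    ∫ t : CF a p a' p' → ℝ, W (outr (pos (xc α x x') t)) *
      Fg (oc4 k k') (hc (X (outr (pos (xc α x x') t))) (Y (outr (pos (xc α x x') t))) k k')
        (pos (xc α x x') t) ∂(Measure.pi fun _ => volume) =
    ∫ t, W (pos (Sum.elim x x') t) * (Fg (o3 k k') (h3 (X (pos (Sum.elim x x') t))
        (Y (pos (Sum.elim x x') t)) k k') (pos (Sum.elim x x') t) *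
      Ig (oo (fun _ : Fin a => Ob.A) (fun _ : Fin a' => Ob.A))
        (Sum.elim (fun _ => fld (o3 k k') (pos (Sum.elim x x') t) (true, .A)
            (X (pos (Sum.elim x x') t) none))
          (fun _ => fld (o3 k k') (pos (Sum.elim x x') t) (false, .A)
            (Y (pos (Sum.elim x x') t) none))) (fun _ => α))
        ∂(Measure.pi fun _ => volume) := by
  set e := Equiv.sumSumSumComm (Fin a) (Fin p) (Fin a') (Fin p') with he
  rw [← integral_reindex e, integral_sum, integral_prod_symm _
    (integrable_sum (integrable_reindex e hI))]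
  refine integral_congr_ae (Filter.Eventually.of_forall fun t => ?_)
  simp only []
  unfold Ig
  rw [← mul_assoc, ← integral_const_mul]
  refine integral_congr_ae (Filter.Eventually.of_forall fun s => ?_)
  simp only []
  have e0 : outr (pos (xc α x x') fun i => Sum.elim s t (e i)) = pos (Sum.elim x x') t := by
    funext i
    rcases i with i | i <;> rfl
  rw [e0]
  set X' := X (pos (Sum.elim x x') t)
  set Y' := Y (pos (Sum.elim x x') t)
  have e1 : (oc4 k k' : CF a p a' p' → CO) = fun i =>
      Sum.elim (oo (fun _ : Fin a => Ob.A) (fun _ : Fin a' => Ob.A)) (o3 k k') (e i) := by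
    funext i
    rcases i with (i | i) | (i | i) <;> rfl
  have e2 : (hc X' Y' k k' : CF a p a' p' → ℂ → ℂ) = fun i =>
      Sum.elim (Sum.elim (fun _ : Fin a => X' none) (fun _ : Fin a' => Y' none))
      (h3 X' Y' k k') (e i) := by
    funext i
    rcases i with (i | i) | (i | i) <;> rfl
  have e3 : pos (xc α x x') (fun i => Sum.elim s t (e i)) = fun i =>
      Sum.elim (pos (fun _ => α) s) (pos (Sum.elim x x') t) (e i) := by
    funext i
    rcases i with (i | i) | (i | i) <;> rfl
  rw [e1, e2, e3, Fg_equiv e, Fg_split]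
  rw [← mul_assoc]
  congr 2
  funext i
  rcases i with i | i <;> rfl

/-- the contribution of given objects which are not quanta on A, with weight and one body functions
depending on their positions -/
def termG (W : (Fin p ⊕ Fin p' → ℂ) → ℂ) (X Y : (Fin p ⊕ Fin p' → ℂ) → Option O3 → ℂ → ℂ)
    (α : ℝ) (n n' : ℕ) (k : Fin p → O3) (k' : Fin p' → O3) (x : Fin p → ℝ) (x' : Fin p' → ℝ) : ℂ :=
  (∏ i, wt (ob3 (k i))) * (∏ i, wt (ob3 (k' i))) *
    ∫ t, W (pos (Sum.elim x x') t) * (Fg (o3 k k') (h3 (X (pos (Sum.elim x x') t))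
        (Y (pos (Sum.elim x x') t)) k k') (pos (Sum.elim x x') t) *
      gas (nA n k) (nA n' k') α
        (fld (o3 k k') (pos (Sum.elim x x') t) (true, .A) (X (pos (Sum.elim x x') t) none))
        (fld (o3 k k') (pos (Sum.elim x x') t) (false, .A) (Y (pos (Sum.elim x x') t) none)))
        ∂(Measure.pi fun _ => volume)

theorem termG_const (X Y : Option O3 → ℂ → ℂ) (α : ℝ) (n n' : ℕ) (k : Fin p → O3)
    (k' : Fin p' → O3) (x : Fin p → ℝ) (x' : Fin p' → ℝ) :
    termG (fun _ => 1) (fun _ => X) (fun _ => Y) α n n' k k' x x' =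
      termQ X Y α n n' k k' x x' := by
  unfold termG termQ
  simp only [one_mul]

theorem termG_smul (c : ℂ) (W : (Fin p ⊕ Fin p' → ℂ) → ℂ)
    (X Y : (Fin p ⊕ Fin p' → ℂ) → Option O3 → ℂ → ℂ)
    (α : ℝ) (n n' : ℕ) (k : Fin p → O3) (k' : Fin p' → O3) (x : Fin p → ℝ) (x' : Fin p' → ℝ) :
    termG (fun z => c * W z) X Y α n n' k k' x x' = c * termG W X Y α n n' k k' x x' := by
  unfold termG
  simp only [mul_assoc, integral_const_mul]
  ring

/-- the combinatorial factor of a term -/
def cz (n n' : ℕ) (k : Fin p → O3) (k' : Fin p' → O3) : ℂ :=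
  (∏ i, wt (ob3 (k i))) * (∏ i, wt (ob3 (k' i))) *
    ((((nA n k).factorial : ℕ) : ℂ)⁻¹ * (((nA n' k').factorial : ℕ) : ℂ)⁻¹ *
      ((2 * Real.pi : ℂ)⁻¹ ^ nA n k * (2 * Real.pi : ℂ)⁻¹ ^ nA n' k'))

theorem termG_eq (W : (Fin p ⊕ Fin p' → ℂ) → ℂ) (X Y : (Fin p ⊕ Fin p' → ℂ) → Option O3 → ℂ → ℂ)
    (α : ℝ) (n n' : ℕ) (k : Fin p → O3) (k' : Fin p' → O3) (x : Fin p → ℝ) (x' : Fin p' → ℝ)
    (hI : Integrable (fun t : CF (nA n k) p (nA n' k') p' → ℝ => W (outr (pos (xc α x x') t)) *
      Fg (oc4 k k') (hc (X (outr (pos (xc α x x') t))) (Y (outr (pos (xc α x x') t))) k k')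
        (pos (xc α x x') t)) (Measure.pi fun _ => volume)) :
    termG W X Y α n n' k k' x x' = cz n n' k k' *
      ∫ t : CF (nA n k) p (nA n' k') p' → ℝ, W (outr (pos (xc α x x') t)) *
        Fg (oc4 k k') (hc (X (outr (pos (xc α x x') t))) (Y (outr (pos (xc α x x') t))) k k')
          (pos (xc α x x') t) ∂(Measure.pi fun _ => volume) := by
  rw [canonG W X Y α k k' x x' hI]
  unfold termG cz gas
  rw [← integral_const_mul, ← integral_const_mul]
  refine integral_congr_ae (Filter.Eventually.of_forall fun t => ?_)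
  simp only []
  ring

end canon

end NURow

end
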