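import Pool.Agent.NURow.Bk3
import Pool.Agent.NURow.MoveZ
import Pool.Agent.NUP1S.HostO

/-!
# Joint integrability over two half quanta, Fubini, and the exchange of the species

`integrable_JJ`: the integrand `JJ` (prefactor times `ZobjQ` with the spectators of two half quanta)
is integrable on `ℝ × ℝ`, for all systems of lines without poles.
`ZobjQ_swap`: exchange of the two species.
-/

set_option autoImplicit false
set_option linter.unusedSectionVars false

noncomputable section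

open Complex MeasureTheory
open scoped Classical

namespace NURow

open NUP1 NUP1S NUP1.Bd

/-! ## the objects of a word -/

section word
variable {p p' : ℕ}

/-- kinds of quanta and objects -/
def kAB (q q' : ℕ) (k : Fin p → O3) (k' : Fin p' → O3) :
    (Fin q ⊕ Fin q') ⊕ (Fin p ⊕ Fin p') → Option O3 :=
  Sum.elim (Sum.elim (fun _ => none) (fun _ => none))
    (Sum.elim (fun i => some (k i)) (fun i => some (k' i)))

/-- species of quanta and objects -/
def bAB (q q' : ℕ) (_ : Fin p → O3) (_ : Fin p' → O3) :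
    (Fin q ⊕ Fin q') ⊕ (Fin p ⊕ Fin p') → Bool :=
  Sum.elim (Sum.elim (fun _ => true) (fun _ => false)) (Sum.elim (fun _ => true) (fun _ => false))

theorem oAB_eq (q q' : ℕ) (k : Fin p → O3) (k' : Fin p' → O3)
    (u : (Fin q ⊕ Fin q') ⊕ (Fin p ⊕ Fin p')) :
    oAB q q' k k' u = (bAB q q' k k' u, ob4 (kAB q q' k k' u)) := by
  rcases u with (u | u) | (u | u) <;> rfl

theorem sAB_eq (S : Sp) (q q' : ℕ) (k : Fin p → O3) (k' : Fin p' → O3)
    (u : (Fin q ⊕ Fin q') ⊕ (Fin p ⊕ Fin p')) :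
    sAB S q q' k k' u = S (bAB q q' k k' u) (kAB q q' k k' u) := by
  rcases u with (u | u) | (u | u) <;> rfl

theorem hAB_eq (X Y : Option O3 → ℂ → ℂ) (q q' : ℕ) (k : Fin p → O3) (k' : Fin p' → O3)
    (u : (Fin q ⊕ Fin q') ⊕ (Fin p ⊕ Fin p')) :
    hAB X Y q q' k k' u = (if bAB q q' k k' u then X else Y) (kAB q q' k k' u) := by
  rcases u with (u | u) | (u | u) <;> rfl

/-- the total charge of a word -/
theorem sum_oAB {n n' : ℕ} {k : Fin p → O3} {k' : Fin p' → O3} (h : Wok n n' k k') :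
    ∑ u, sc (oAB (nA n k) (nA n' k') k k' u) = (n : ℝ) - n' := by
  have e1 : ∀ i : Fin (nA n k), sc (oAB (nA n k) (nA n' k') k k' (Sum.inl (Sum.inl i))) = 1 :=
    fun i => by simp [oAB, oo, sc, chg]
  have e2 : ∀ i : Fin (nA n' k'), sc (oAB (nA n k) (nA n' k') k k' (Sum.inl (Sum.inr i))) = -1 :=
    fun i => by simp [oAB, oo, sc, chg]
  have e3 : ∀ i : Fin p, sc (oAB (nA n k) (nA n' k') k k' (Sum.inr (Sum.inl i))) =
      (c3 (k i) : ℝ) := fun i => by simp [oAB, o3, oo, sc, c3]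
  have e4 : ∀ i : Fin p', sc (oAB (nA n k) (nA n' k') k k' (Sum.inr (Sum.inr i))) =
      -(c3 (k' i) : ℝ) := fun i => by simp [oAB, o3, oo, sc, c3]
  rw [Fintype.sum_sum_type, Fintype.sum_sum_type, Fintype.sum_sum_type]
  simp only [e1, e2, e3, e4, Finset.sum_const, Finset.card_univ, Fintype.card_fin, nsmul_eq_mul,
    mul_one, Finset.sum_neg_distrib]
  have h1 : ((nA n k : ℕ) : ℝ) = n - ∑ i, (c3 (k i) : ℝ) := by
    unfold nA
    rw [Nat.cast_sub h.2]
    push_cast
    ring
  have h2 : ((nA n' k' : ℕ) : ℝ) = n' - ∑ i, (c3 (k' i) : ℝ) := by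
    unfold nA
    rw [Nat.cast_sub h.1]
    push_cast
    ring
  rw [h1, h2]
  ring

end word

/-! ## integrability -/

/-- admissible lines of the kinds -/
def LOk (KK : Option O3 → Set ℝ) : Prop :=
  ∀ (c c' : Bool) (k k' : Option O3), ∀ u ∈ KK k, ∀ v ∈ KK k', Ok (c, ob4 k) (c', ob4 k') (u - v)

theorem LOk_strips {α bl bh sl sh tl th gl gh : ℝ} (hs : StripsQ α bl bh sl sh tl th gl gh) :
    LOk fun k => Set.Icc (lo4 α bl sl tl k) (lo4 α bh sh th k) :=
  fun c c' k k' _ hu _ hv => Ok_of_RO (RO_stripsQ hs c c' k k' hu hv)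

/-- one body functions of a species on the lines `KK`, total charge `Q` -/
structure FamL (c : Bool) (KK : Option O3 → Set ℝ) (κ Q : ℝ) (X : Option O3 → ℂ → ℂ) : Prop where
  ms : ∀ k, Measurable (X k)
  dec : ∀ k, DecOn (κ + 2 * Q * sc4 c k) (KK k) (X k)

theorem Fam.toL {c : Bool} {α bl bh sl sh tl th κ Q : ℝ} {X : Option O3 → ℂ → ℂ}
    (h : Fam c α bl bh sl sh tl th κ Q X) :
    FamL c (fun k => Set.Icc (lo4 α bl sl tl k) (lo4 α bh sh th k)) κ Q X := ⟨h.meas, h.dec⟩

/-- a half quantum of charge `cw` on the line `a`, total charge `Q` -/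
structure HLn (KK : Option O3 → Set ℝ) (κ Q cw a : ℝ) (S : Sp) (K : ℂ → ℂ) : Prop where
  ms : ∀ c k, Measurable (S c k)
  bd : ∀ c k, ∀ x ∈ KK k, Bdd {a - x} (2 * (cw * sc4 c k)) (S c k)
  km : Measurable K
  kd : DecOn (κ + 2 * Q * cw) {a} K

section main
variable {X Y : Option O3 → ℂ → ℂ} {S S' : Sp} {gw : ℂ → ℂ} {K K' : ℂ → ℂ} {α : ℝ} {n n' : ℕ}
  {lnX : ∀ p p' : ℕ, (Fin p → O3) → (Fin p' → O3) → Fin p → ℝ}
  {lnY : ∀ p p' : ℕ, (Fin p → O3) → (Fin p' → O3) → Fin p' → ℝ} {KK : Option O3 → Set ℝ}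
  {κ Q cw cw' a b : ℝ}

/-- **Integrability of the total family of a word.** -/
theorem integrable_Gt (hL : LOk KK) (hκ : 0 < κ) (hQ : cw + cw' + ((n : ℝ) - n') = Q)
    (hX : FamL true KK κ Q X) (hY : FamL false KK κ Q Y) (hS : HLn KK κ Q cw a S K)
    (hS' : HLn KK κ Q cw' b S' K') (hgm : Measurable gw) (hg : Bdd {a - b} (2 * (cw * cw')) gw)
    (hα : α ∈ KK none) {p p' : ℕ} {k : Fin p → O3} {k' : Fin p' → O3} (hc : Wok n n' k k')
    (hlX : ∀ i, lnX p p' k k' i ∈ KK (some (k i)))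
    (hlY : ∀ i, lnY p p' k k' i ∈ KK (some (k' i))) :
    Integrable (fun t => FA (Gt S S' gw n n' k k') (Ht X Y K K' n n' k k')
      (pos (oc a (oc b (lns α n n' lnX lnY k k'))) t)) (Measure.pi fun _ => volume) := by
  have hln : ∀ u, lns α n n' lnX lnY k k' u ∈ KK (kAB (nA n k) (nA n' k') k k' u) := by
    intro u
    rcases u with (u | u) | (u | u)
    · exact hα
    · exact hα
    · exact hlX u
    · exact hlY u
  have hbS : ∀ {cw a : ℝ} {S : Sp} {K : ℂ → ℂ}, HLn KK κ Q cw a S K → ∀ u,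
      Bdd {a - lns α n n' lnX lnY k k' u} (2 * (cw * sc (oAB (nA n k) (nA n' k') k k' u)))
        (sAB S (nA n k) (nA n' k') k k' u) := by
    intro cw a S K h u
    rw [oAB_eq, sAB_eq]
    exact h.bd _ _ _ (hln u)
  have hneg : ∀ {cw a y c : ℝ} {f : ℂ → ℂ}, Bdd {a - y} (2 * (cw * c)) f →
      Bdd {y - a} (2 * (c * cw)) fun z => f (-z) := by
    intro cw a y c f h
    have h2 : Bdd {y - a} (2 * (cw * c)) fun z => f (-z) := Bdd.neg' (by simpa using h)
    rwa [show 2 * (cw * c) = 2 * (c * cw) by ring] at h2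
  refine integrable_FA (c := oc cw (oc cw' fun u => sc (oAB (nA n k) (nA n' k') k k' u))) (Q := Q)
    ?_ hκ ?_ ?_ ?_ ?_
  · rw [Fintype.sum_option, Fintype.sum_option]
    simp only [oc_none, oc_some]
    rw [sum_oAB hc]
    linarith
  · refine measurable_gO (measurable_gO (fun u v => measurable_gz _ _) fun u => ?_) fun o => ?_
    · rw [sAB_eq]
      exact hS'.ms _ _
    · cases o with
      | none => exact hgm
      | some u =>
        show Measurable (sAB S (nA n k) (nA n' k') k k' u)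
        rw [sAB_eq]
        exact hS.ms _ _
  · refine measurable_hO hS.km (measurable_hO hS'.km fun u => ?_)
    rw [hAB_eq]
    split_ifs
    · exact hX.ms _
    · exact hY.ms _
  · intro o
    rcases o with _ | _ | u
    · exact hS.kd
    · exact hS'.kd
    · show DecOn (κ + 2 * Q * sc (oAB (nA n k) (nA n' k') k k' u)) {lns α n n' lnX lnY k k' u}
        (hAB X Y (nA n k) (nA n' k') k k' u)
      rw [oAB_eq, hAB_eq]
      have hsub : {lns α n n' lnX lnY k k' u} ⊆ KK (kAB (nA n k) (nA n' k') k k' u) :=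
        Set.singleton_subset_iff.2 (hln u)
      by_cases hb : bAB (nA n k) (nA n' k') k k' u = true
      · rw [if_pos hb, hb]
        exact (hX.dec _).mono hsub
      · rw [if_neg hb, Bool.eq_false_iff.2 hb]
        exact (hY.dec _).mono hsub
  · intro o o' hoo
    rcases o with _ | _ | u
    · rcases o' with _ | _ | v
      · exact absurd rfl hoo
      · exact hg
      · exact hbS hS v
    · rcases o' with _ | _ | v
      · exact hneg hg
      · exact absurd rfl hoo
      · exact hbS hS' v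
    · rcases o' with _ | _ | v
      · exact hneg (hbS hS u)
      · exact hneg (hbS hS' u)
      · show Bdd {lns α n n' lnX lnY k k' u - lns α n n' lnX lnY k k' v}
          (2 * (sc (oAB (nA n k) (nA n' k') k k' u) * sc (oAB (nA n k) (nA n' k') k k' v)))
          (gz (oAB (nA n k) (nA n' k') k k' u) (oAB (nA n k) (nA n' k') k k' v))
        rw [oAB_eq, oAB_eq]
        refine bdd_gz isCompact_singleton _ _ fun d hd => ?_
        rw [Set.mem_singleton_iff] at hd
        rw [hd]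
        exact hL _ _ _ _ _ (hln u) _ (hln v)

/-- **Joint integrability over the two half quanta.** -/
theorem integrable_JJ (hL : LOk KK) (hκ : 0 < κ) (hQ : cw + cw' + ((n : ℝ) - n') = Q)
    (hX : FamL true KK κ Q X) (hY : FamL false KK κ Q Y) (hS : HLn KK κ Q cw a S K)
    (hS' : HLn KK κ Q cw' b S' K') (hgm : Measurable gw) (hg : Bdd {a - b} (2 * (cw * cw')) gw)
    (hα : α ∈ KK none)
    (hlX : ∀ p p' k k' i, lnX p p' k k' i ∈ KK (some (k i)))
    (hlY : ∀ p p' k k' i, lnY p p' k k' i ∈ KK (some (k' i))) :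
    Integrable (JJ X Y S S' gw K K' α n n' lnX lnY a b) (volume.prod volume) :=
  (JJ_of fun p p' k k' hc => integrable_Gt hL hκ hQ hX hY hS hS' hgm hg hα hc (hlX p p' k k')
    (hlY p p' k k')).1

end main

/-! ## Fubini -/

section fubini
variable {f : ℝ × ℝ → ℂ}

/-- the second variable inside -/
theorem fub1 (hf : Integrable f (volume.prod volume)) :
    Integrable (fun s : ℝ => ∫ t : ℝ, f (s, t)) ∧
      ∫ y, f y ∂(volume.prod volume) = ∫ s : ℝ, ∫ t : ℝ, f (s, t) :=
  ⟨hf.integral_prod_left, integral_prod _ hf⟩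

/-- the first variable inside -/
theorem fub2 (hf : Integrable f (volume.prod volume)) :
    Integrable (fun t : ℝ => ∫ s : ℝ, f (s, t)) ∧
      ∫ y, f y ∂(volume.prod volume) = ∫ t : ℝ, ∫ s : ℝ, f (s, t) :=
  ⟨hf.integral_prod_right, integral_prod_symm _ hf⟩

end fubini

/-! ## exchange of the half quanta -/

theorem XS_swap (c : Bool) (X : Option O3 → ℂ → ℂ) (S S' : Sp) (w w' : ℂ) :
    XS c X S S' w w' = XS c X S' S w' w := by
  funext k z
  unfold XS
  ring

theorem JJ_swap (X Y : Option O3 → ℂ → ℂ) (S S' : Sp) (gw : ℂ → ℂ) (K K' : ℂ → ℂ) (α : ℝ)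
    (n n' : ℕ) (lnX : ∀ p p' : ℕ, (Fin p → O3) → (Fin p' → O3) → Fin p → ℝ)
    (lnY : ∀ p p' : ℕ, (Fin p → O3) → (Fin p' → O3) → Fin p' → ℝ) (a b : ℝ) (y : ℝ × ℝ) :
    JJ X Y S S' gw K K' α n n' lnX lnY a b y =
      JJ X Y S' S (fun z => gw (-z)) K' K α n n' lnX lnY b a y.swap := by
  unfold JJ Pre
  rw [XS_swap true X S S', XS_swap false Y S S']
  simp only [Prod.fst_swap, Prod.snd_swap, neg_sub]
  ring

/-! ## exchange of the species -/

/-- spectator functions with exchanged species -/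
def Sp.flip (S : Sp) : Sp := fun c => S (!c)

theorem XS_flip (c : Bool) (X : Option O3 → ℂ → ℂ) (S S' : Sp) (w w' : ℂ) :
    XS (!c) X S.flip S'.flip w w' = XS c X S S' w w' := by
  funext k z
  unfold XS Sp.flip
  rw [Bool.not_not]

theorem sc4_not (c : Bool) (k : Option O3) : sc4 (!c) k = -sc4 c k := by
  cases c <;> simp [sc4, sc]

theorem gz_not (c c' : Bool) (k k' : Ob) (z : ℂ) : gz (!c, k) (!c', k') z = gz (c, k) (c', k') z := by
  unfold gz
  cases c <;> cases c' <;> simp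

/-- exchange of the species of an object -/
def fco (o : CO) : CO := (!o.1, o.2)

theorem gz_fco (o o' : CO) (z : ℂ) : gz (fco o) (fco o') z = gz o o' z := gz_not _ _ _ _ _

theorem Fg_fco {ι : Type*} [Fintype ι] (o : ι → CO) (h : ι → ℂ → ℂ) (z : ι → ℂ) :
    Fg (fun i => fco (o i)) h z = Fg o h z := by
  unfold Fg
  simp only [gz_fco]

theorem fld_fco {ι : Type*} [Fintype ι] (o : ι → CO) (z : ι → ℂ) (o0 : CO) (G : ℂ → ℂ) :
    fld (fun i => fco (o i)) z (fco o0) G = fld o z o0 G := by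
  funext v
  unfold fld
  simp only [gz_fco]

theorem fld_equiv {ι ι' : Type*} [Fintype ι] [Fintype ι'] (e : ι ≃ ι') (o : ι' → CO) (z : ι' → ℂ)
    (o0 : CO) (G : ℂ → ℂ) : fld (fun i => o (e i)) (fun i => z (e i)) o0 G = fld o z o0 G := by
  funext v
  unfold fld
  rw [e.prod_comp (fun i => gz o0 (o i) (v - z i))]

theorem gas_swap (a a' : ℕ) (x : ℝ) (H H' : ℂ → ℂ) : gas a a' x H H' = gas a' a x H' H := by
  unfold gas
  have e : Ig (oo (fun _ : Fin a => Ob.A) (fun _ : Fin a' => Ob.A))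
      (Sum.elim (fun _ => H) (fun _ => H')) (fun _ => x) =
      Ig (oo (fun _ : Fin a' => Ob.A) (fun _ : Fin a => Ob.A))
      (Sum.elim (fun _ => H') (fun _ => H)) (fun _ => x) := by
    rw [← Ig_equiv (Equiv.sumComm (Fin a) (Fin a'))]
    unfold Ig
    refine integral_congr_ae (Filter.Eventually.of_forall fun t => ?_)
    simp only []
    rw [← Fg_fco]
    congr 1
    · funext i
      rcases i with i | i <;> rfl
    · funext i
      rcases i with i | i <;> rfl
  rw [e]
  ring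

section swap
variable {p p' : ℕ} (X Y : Option O3 → ℂ → ℂ) (α : ℝ) (n n' : ℕ) (k : Fin p → O3)
  (k' : Fin p' → O3) (x : Fin p → ℝ) (x' : Fin p' → ℝ)

theorem termQ_swap : termQ X Y α n n' k k' x x' = termQ Y X α n' n k' k x' x := by
  set e := Equiv.sumComm (Fin p) (Fin p') with he
  have e1 : o3 k k' = fun i => fco (o3 k' k (e i)) := by
    funext i
    rcases i with i | i <;> rfl
  have e2 : h3 X Y k k' = fun i => h3 Y X k' k (e i) := by
    funext i
    rcases i with i | i <;> rfl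
  have e3 : ∀ t : Fin p' ⊕ Fin p → ℝ, pos (Sum.elim x x') (fun i => t (e i)) =
      fun i => pos (Sum.elim x' x) t (e i) := by
    intro t
    funext i
    rcases i with i | i <;> rfl
  have e4 : ∀ (z : Fin p' ⊕ Fin p → ℂ) (b : Bool) (G : ℂ → ℂ),
      fld (fun i => fco (o3 k' k (e i))) (fun i => z (e i)) (b, .A) G =
        fld (o3 k' k) z (!b, .A) G := by
    intro z b G
    have : ((b, Ob.A) : CO) = fco (!b, .A) := by simp [fco]
    rw [this, fld_fco (fun i => o3 k' k (e i)), fld_equiv e]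
  unfold termQ
  rw [mul_comm (∏ i, wt (ob3 (k i)))]
  congr 1
  rw [← integral_reindex e]
  refine integral_congr_ae (Filter.Eventually.of_forall fun t => ?_)
  simp only []
  rw [e3, e1, e2, Fg_fco (fun i => o3 k' k (e i)), Fg_equiv e, e4, e4, gas_swap]
  rfl

end swap

/-- **Exchange of the species.** -/
theorem ZobjQ_swap (X Y : Option O3 → ℂ → ℂ) (α : ℝ) (n n' : ℕ)
    (lnX : ∀ p p' : ℕ, (Fin p → O3) → (Fin p' → O3) → Fin p → ℝ)
    (lnY : ∀ p p' : ℕ, (Fin p → O3) → (Fin p' → O3) → Fin p' → ℝ) :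
    ZobjQ X Y α n n' lnX lnY =
      ZobjQ Y X α n' n (fun p p' k k' => lnY p' p k' k) (fun p p' k k' => lnX p' p k' k) := by
  unfold ZobjQ
  rw [Finset.sum_comm]
  refine Finset.sum_congr rfl fun p _ => Finset.sum_congr rfl fun p' _ => ?_
  rw [mul_comm ((p'.factorial : ℕ) : ℂ)⁻¹, Finset.sum_comm]
  congr 1
  refine Finset.sum_congr rfl fun k _ => Finset.sum_congr rfl fun k' _ => ?_
  simp only [and_comm (a := ∑ i, c3 (k' i) ≤ n'), termQ_swap X Y]

/-- exchange of the species for the lines of `NUO.Par` -/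
theorem ZobjQ_swapP (X Y : Option O3 → ℂ → ℂ) (α : ℝ) (n n' : ℕ) (P : NUO.Par) :
    ZobjQ X Y α n n' (lX P) (lY P) = ZobjQ Y X α n' n (lX P) (lY P) := by
  rw [ZobjQ_swap]
  have e1 : (fun p p' k k' => lY P p' p k' k) = lX P := by
    funext p p' k k' i
    unfold lX lY
    rw [add_comm]
  have e2 : (fun p p' k k' => lX P p' p k' k) = lY P := by
    funext p p' k k' i
    unfold lX lY
    rw [add_comm]
  rw [e1, e2]

/-- a family of one body functions after the exchange of the species -/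
theorem Fam.swap {c : Bool} {α bl bh sl sh tl th κ Q : ℝ} {X : Option O3 → ℂ → ℂ}
    (h : Fam c α bl bh sl sh tl th κ Q X) : Fam (!c) α bl bh sl sh tl th κ (-Q) X where
  meas := h.meas
  dec k := by
    rw [sc4_not, show κ + 2 * -Q * -sc4 c k = κ + 2 * Q * sc4 c k by ring]
    exact h.dec k
  cont := h.cont
  diff := h.diff

theorem FamL.swap {c : Bool} {KK : Option O3 → Set ℝ} {κ Q : ℝ} {X : Option O3 → ℂ → ℂ}
    (h : FamL c KK κ Q X) : FamL (!c) KK κ (-Q) X where
  ms := h.ms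
  dec k := by
    rw [sc4_not, show κ + 2 * -Q * -sc4 c k = κ + 2 * Q * sc4 c k by ring]
    exact h.dec k

theorem HLn.swap {KK : Option O3 → Set ℝ} {κ Q cw a : ℝ} {S : Sp} {K : ℂ → ℂ}
    (h : HLn KK κ Q cw a S K) : HLn KK κ (-Q) (-cw) a S.flip K where
  ms c k := h.ms _ _
  bd c k x hx := by
    have := h.bd (!c) k x hx
    rw [sc4_not] at this
    rw [show 2 * (-cw * sc4 c k) = 2 * (cw * -sc4 c k) by ring]
    exact this
  km := h.km
  kd := by
    rw [show κ + 2 * -Q * -cw = κ + 2 * Q * cw by ring]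
    exact h.kd

/-- the double integrand after the exchange of the species -/
theorem JJ_flip (X Y : Option O3 → ℂ → ℂ) (S S' : Sp) (gw : ℂ → ℂ) (K K' : ℂ → ℂ) (α : ℝ)
    (n n' : ℕ) (lnX : ∀ p p' : ℕ, (Fin p → O3) → (Fin p' → O3) → Fin p → ℝ)
    (lnY : ∀ p p' : ℕ, (Fin p → O3) → (Fin p' → O3) → Fin p' → ℝ) (a b : ℝ) (y : ℝ × ℝ) :
    JJ X Y S S' gw K K' α n n' lnX lnY a b y =
      JJ Y X S.flip S'.flip gw K K' α n' n (fun p p' k k' => lnY p' p k' k)
        (fun p p' k k' => lnX p' p k' k) a b y := by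
  unfold JJ
  rw [ZobjQ_swap (XS true X S S' (vl a y.1) (vl b y.2))]
  rfl

end NURow

end
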