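import Pool.Agent.NURow.Cls
import Pool.Agent.NURow.Fub

/-!
# Spectators of a half quantum bound to a string of the other species (helper11)

`SH` = `hostS false SF`: the half quantum on `5/8 l`, its host string at distance `2 l` on
`-11/8 l`; charge `-3/2`.  The quanta of the own species have a simple pole at the half quantum:
`SH true none x = rH x / sin x`.
`SHp` = the same with a single quantum of the own species at the half quantum; charge `-1/2`.
-/

set_option autoImplicit false
set_option linter.unusedSectionVars false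

noncomputable section

open Complex MeasureTheory

namespace NURow

open NUP1 NUP1S NUP1.Bd NUP1.Leg

/-- half quantum with its host string of the other species -/
def SH : Sp := hostS false SF

/-- half quantum with its host string and a single quantum of its own species at the half quantum -/
def SHp : Sp := fun c k x => SH c k x * gz (true, .A) (c, ob4 k) x

theorem hostS_fl : hostS true (fl SF) = fl SH := by
  funext c k x
  rcases c with _ | _ <;> rfl

theorem hostS_true (S : Sp) : hostS true (fl S) = fl (hostS false S) := by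
  funext c k x
  rcases c with _ | _ <;> rfl

/-! ## strings are pairs of quanta -/

/-- the host string sees a string as a pair of quanta -/
theorem gzS_mul (b c : Bool) (z : ℂ) :
    gz (b, .S) (c, .S) z = gz (b, .S) (c, .A) z * gz (b, .S) (c, .A) (z + l) := by
  have e1 : pwz .S .S z = pwz .S .A z * pwz .S .A (z + l) := by
    show q2 z = q1 (-z) * q1 (-(z + l))
    rw [q1_neg, q1_neg, show z + (l : ℂ) - l = z by ring, mul_comm]
    rfl
  have e2 : cwz .S .S z = cwz .S .A z * cwz .S .A (z + l) := by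
    show qg z * qg z * (qg (z + l) * qg (z - l)) = qg z * qg (z - l) * (qg (z + l) * qg (z + l - l))
    rw [show z + (l : ℂ) - l = z by ring]
    ring
  unfold gz
  simp only []
  split_ifs
  · exact e1
  · exact e2

/-- a quantum sees a string as a pair of quanta -/
theorem gzA_mul (b c : Bool) {z : ℂ} (h1 : sin (z + l) ≠ 0) (h2 : sin (z - l) ≠ 0)
    (h3 : sin (z + 2 * l) ≠ 0) (h4 : sin z ≠ 0) :
    gz (b, .A) (c, .S) z = gz (b, .A) (c, .A) z * gz (b, .A) (c, .A) (z + l) := by
  have e1 : pwz .A .S z = pwz .A .A z * pwz .A .A (z + l) := by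
    show q1 z = q z * q (z + l)
    unfold q q1
    rw [show z + (l : ℂ) + 2 * l = z + 3 * l by ring, show z + (l : ℂ) - 2 * l = z - l by ring,
      show z + (l : ℂ) + l = z + 2 * l by ring, show z + (l : ℂ) - l = z by ring]
    generalize sin (z + l) = a1 at *
    generalize sin (z - l) = a2 at *
    generalize sin (z + 2 * l) = a3 at *
    generalize sin z = a4 at *
    field_simp
  have e2 : cwz .A .S z = cwz .A .A z * cwz .A .A (z + l) := rfl
  unfold gz
  simp only []
  split_ifs
  · exact e1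
  · exact e2

theorem ob4_S : ob4 (some .S) = .S := rfl

theorem ob4_none : ob4 none = .A := rfl

theorem MulI.host {S : Bool → Option O3 → ℂ → ℂ} (h : MulI S) (b : Bool) : MulI (hostS b S) := by
  intro c x hx
  unfold hostS
  rw [h c x hx, ob4_S, ob4_none, gzS_mul b c, show x + (l : ℂ) - 2 * l = x - 2 * l + l by ring]
  ring

theorem mulI_SH : MulI SH := mulI_SF.host false

theorem mulI_SHp : MulI SHp := by
  intro c x hx
  unfold SHp
  rw [mulI_SH c x hx, ob4_S, ob4_none, gzA_mul true c (sin_ne_imR (by simpa using hx))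
    (sin_ne_imR (by simpa using hx)) (sin_ne_imR (by simpa using hx)) (sin_ne_imR hx)]
  ring

theorem mulI_fl {S : Bool → Option O3 → ℂ → ℂ} (h : MulI S) : MulI (fl S) :=
  fun c x hx => h (!c) x hx

/-! ## the simple pole -/

/-- regular part of the own quanta -/
def rH (x : ℂ) : ℂ := sin (x + 2 * l) / (sin (x + l) * sin (x + 3 * l) ^ 2)

theorem sin_5l (x : ℂ) : sin (x - 5 * l) = -sin (x + 3 * l) := by
  rw [show x - 5 * l = x + 3 * l - Real.pi by rw [← l8]; ring, Complex.sin_sub_pi]

theorem sin_6l (x : ℂ) : sin (x - 6 * l) = -sin (x + 2 * l) := by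
  rw [show x - 6 * l = x + 2 * l - Real.pi by rw [← l8]; ring, Complex.sin_sub_pi]

theorem cos_2l (x : ℂ) : cos (x - 2 * l) = sin (x + 2 * l) := by
  rw [show x - 2 * l = x - l - l by ring, cos_ml]
  congr 1
  ring

theorem cos_3l (x : ℂ) : cos (x - 3 * l) = sin (x + l) := by
  rw [show x - 3 * l = x - 2 * l - l by ring, cos_ml]
  congr 1
  ring

/-- **The quanta of the own species have a simple pole at the half quantum.** -/
theorem SH_pole (x : ℂ) : SH true none x = rH x / sin x := by
  show qg (x - 2 * l) * qg (x - 2 * l - l) * Ck x = _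
  unfold qg Ck rH
  rw [show x - 2 * (l : ℂ) - l = x - 3 * l by ring, cos_2l, cos_3l,
    show x - 2 * (l : ℂ) + 3 * l = x + l by ring, show x - 2 * (l : ℂ) - 3 * l = x - 5 * l by ring,
    show x - 3 * (l : ℂ) + 3 * l = x by ring, show x - 3 * (l : ℂ) - 3 * l = x - 6 * l by ring,
    sin_5l, sin_6l]
  by_cases h0 : sin x = 0
  · simp [h0]
  by_cases h1 : sin (x + l) = 0
  · simp [h1]
  by_cases h2 : sin (x + 2 * l) = 0
  · simp [h2]
  by_cases h3 : sin (x + 3 * l) = 0
  · simp [h3]
  field_simp

/-! ## closed forms -/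

/-- strings of the own species -/
theorem SH_ownS {x : ℂ} (h2 : sin (x + 2 * l) ≠ 0) : SH true (some .S) x =
    1 / (sin (x + l) ^ 2 * sin (x + 3 * l) * cos x ^ 2 * sin x) := by
  show qg (x - 2 * l) * qg (x - 2 * l) * (qg (x - 2 * l + l) * qg (x - 2 * l - l)) * CC x = _
  unfold qg CC
  rw [show x - 2 * (l : ℂ) - l = x - 3 * l by ring, show x - 2 * (l : ℂ) + l = x - l by ring,
    cos_2l, cos_3l, cos_ml,
    show x - 2 * (l : ℂ) + 3 * l = x + l by ring, show x - 2 * (l : ℂ) - 3 * l = x - 5 * l by ring,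
    show x - 3 * (l : ℂ) + 3 * l = x by ring, show x - 3 * (l : ℂ) - 3 * l = x - 6 * l by ring,
    show x - (l : ℂ) + 3 * l = x + 2 * l by ring, show x - (l : ℂ) - 3 * l = -(4 * l + -x) by ring,
    Complex.sin_neg, sin_4l, Complex.cos_neg, sin_5l, sin_6l, add_comm (3 * l : ℂ) x]
  generalize sin (x + 2 * l) = a2 at *
  generalize sin (x + l) = a1 at *
  generalize sin (x + 3 * l) = a3 at *
  generalize cos x = a4 at *
  generalize sin x = a0 at *
  by_cases h0 : a0 = 0
  · simp [h0]
  by_cases h1 : a1 = 0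
  · simp [h1]
  by_cases h3 : a3 = 0
  · simp [h3]
  by_cases h4 : a4 = 0
  · simp [h4]
  field_simp

/-- quanta of the other species -/
theorem SH_oth {x : ℂ} (h3 : sin (x + 3 * l) ≠ 0) (h3' : sin (3 * l - x) ≠ 0) :
    SH false none x = sin (x - 2 * l) * sin x * cos x := by
  show q1 (-(x - 2 * l)) * Dk x = _
  unfold q1 Dk
  rw [show -(x - 2 * (l : ℂ)) = -(x - 2 * l) by ring, Complex.sin_neg,
    show -(x - 2 * (l : ℂ)) + l = 3 * l - x by ring,
    show -(x - 2 * (l : ℂ)) - 2 * l = -x by ring,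
    show -(x - 2 * (l : ℂ)) + 3 * l = -(x - 5 * l) by ring, Complex.sin_neg, Complex.sin_neg, sin_5l,
    add_comm (3 * l : ℂ) x]
  generalize sin (x + 3 * l) = a3 at *
  generalize sin (3 * l - x) = b3 at *
  field_simp

/-- strings of the other species -/
theorem SH_othS {x : ℂ} (h3 : sin (x + 3 * l) ≠ 0) : SH false (some .S) x =
    -(sin (x - 2 * l) * cos x * sin (x - l) * sin (x + l) * sin (x - 3 * l) * sin x) := by
  show q2 (x - 2 * l) * DD x = _
  unfold q2 q1 DD
  rw [show x - 2 * (l : ℂ) + l = x - l by ring, show x - 2 * (l : ℂ) - 2 * l = -(4 * l + -x) by ring,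
    show x - 2 * (l : ℂ) + 3 * l = x + l by ring, show x - 2 * (l : ℂ) - l = x - 3 * l by ring,
    show x - 3 * (l : ℂ) + l = x - 2 * l by ring, show x - 3 * (l : ℂ) - 2 * l = x - 5 * l by ring,
    show x - 3 * (l : ℂ) + 3 * l = x by ring, Complex.sin_neg, sin_4l, Complex.cos_neg, sin_5l,
    show 2 * (l : ℂ) - x = -(x - 2 * l) by ring, Complex.sin_neg, add_comm (3 * l : ℂ) x]
  generalize sin (x + 3 * l) = a3 at *
  generalize sin (x - 2 * l) = a2 at *
  by_cases h2 : a2 = 0
  · simp [h2]
  field_simp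

/-- single quantum at the half quantum, quanta of the own species -/
theorem SHp_own (x : ℂ) : SHp true none x =
    -(sin x * sin (x + 2 * l) ^ 2 * sin (x - 2 * l)) /
      (sin (x + l) ^ 2 * sin (x - l) * sin (x + 3 * l) ^ 2) := by
  show SH true none x * q x = _
  rw [SH_pole]
  unfold rH q
  by_cases h0 : sin x = 0
  · simp [h0]
  by_cases h1 : sin (x + l) = 0
  · simp [h1]
  by_cases h2 : sin (x - l) = 0
  · simp [h2]
  by_cases h3 : sin (x + 3 * l) = 0
  · simp [h3]
  field_simp

/-! ## bounds and analyticity -/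

theorem PB.congrN {s : ℝ} {K : Set ℝ} {g g' : ℂ → ℂ} (h : PB s K g)
    (e : ∀ z : ℂ, z.re ∈ K → g' =ᶠ[nhds z] g) : PB s K g' := by
  obtain ⟨⟨C, hC, h1⟩, h2⟩ := h
  refine ⟨⟨C, hC, fun z hz => ?_⟩, fun z hz => ?_⟩
  · rw [(e z hz).self_of_nhds]
    exact h1 z hz
  · exact (h2 z hz).congr_of_eventuallyEq (e z hz)

theorem ev_sin {z : ℂ} {f : ℂ → ℂ} (hf : Continuous f) (h : sin (f z) ≠ 0) :
    ∀ᶠ y in nhds z, sin (f y) ≠ 0 :=
  ((Complex.continuous_sin.comp hf).continuousAt (x := z)).eventually_ne h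

theorem sinR {z : ℂ} {x a : ℝ} (hz : z.re = x) (h : Real.sin (x + a) ≠ 0) :
    sin (z + (a : ℂ)) ≠ 0 :=
  Bd.sin_ne_zero_of_re (by rw [add_re, ofReal_re, hz]; exact h)

/-- positions of the sines -/
def Av (K : Set ℝ) (a : ℝ) : Prop := ∀ d ∈ K, Real.sin (d + a) ≠ 0

theorem PB_rH {K : Set ℝ} (hK : IsCompact K) (h1 : Av K l) (h3 : Av K (3 * l)) : PB (-2) K rH := by
  have := ((PB_sin K (2 * l)).mul ((PB_inv_sin hK l h1).mul ((PB_inv_sin hK (3 * l) h3).mul
    (PB_inv_sin hK (3 * l) h3)))).rate (show (1 : ℝ) + (-1 + (-1 + -1)) = -2 by norm_num)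
  refine this.congr' fun z => ?_
  unfold rH
  push_cast
  by_cases h1 : sin (z + l) = 0
  · simp [h1]
  by_cases h3 : sin (z + 3 * l) = 0
  · simp [h3]
  field_simp

theorem PB_SHq {K : Set ℝ} (hK : IsCompact K) (h0 : Av K 0) (h1 : Av K l) (h3 : Av K (3 * l)) :
    PB (-3) K (SH true none) := by
  have := ((PB_rH hK h1 h3).mul (PB_inv_sin hK 0 h0)).rate (show (-2 : ℝ) + -1 = -3 by norm_num)
  refine this.congr' fun z => ?_
  rw [SH_pole, ofReal_zero, add_zero, mul_one_div]

theorem PB_SHS {K : Set ℝ} (hK : IsCompact K) (h0 : Av K 0) (h1 : Av K l) (h2 : Av K (2 * l))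
    (h3 : Av K (3 * l)) (h4 : Av K (4 * l)) : PB (-6) K (SH true (some .S)) := by
  have a0 := PB_inv_sin hK 0 h0
  have a1 := PB_inv_sin hK l h1
  have a3 := PB_inv_sin hK (3 * l) h3
  have a4 := PB_inv_sin hK (4 * l) h4
  have := ((a1.mul a1).mul (a3.mul ((a4.mul a4).mul a0))).rate
    (show (-1 : ℝ) + -1 + (-1 + (-1 + -1 + -1)) = -6 by norm_num)
  refine this.congrN fun z hz => ?_
  have e2 : sin (z + 2 * l) ≠ 0 := by
    have := sinR rfl (h2 _ hz)
    simpa using this
  filter_upwards [ev_sin (f := fun y => y + 2 * l) (by fun_prop) e2] with y hy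
  rw [SH_ownS hy]
  push_cast
  rw [add_zero, add_comm y (4 * l), sin_4l]
  by_cases h0 : sin y = 0
  · simp [h0]
  by_cases h1 : sin (y + l) = 0
  · simp [h1]
  by_cases h3 : sin (y + 3 * l) = 0
  · simp [h3]
  by_cases h4 : cos y = 0
  · simp [h4]
  field_simp

theorem PB_SHo {K : Set ℝ} (h3 : Av K (3 * l)) (h3' : Av K (-(3 * l))) :
    PB 3 K (SH false none) := by
  have := (((PB_sin K (-(2 * l))).mul (PB_sin K 0)).mul (PB_sin K (4 * l))).rate
    (show (1 : ℝ) + 1 + 1 = 3 by norm_num)
  refine this.congrN fun z hz => ?_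
  have e3 : sin (z + 3 * l) ≠ 0 := by
    have := sinR rfl (h3 _ hz)
    simpa using this
  have e3' : sin (3 * l - z) ≠ 0 := by
    have := sinR rfl (h3' _ hz)
    rw [show 3 * (l : ℂ) - z = -(z + ((-(3 * l) : ℝ) : ℂ)) by push_cast; ring, Complex.sin_neg]
    exact neg_ne_zero.2 this
  filter_upwards [ev_sin (f := fun y => y + 3 * l) (by fun_prop) e3,
    ev_sin (f := fun y => 3 * l - y) (by fun_prop) e3'] with y hy hy'
  rw [SH_oth hy hy']
  push_cast
  rw [add_zero, add_comm y (4 * l), sin_4l, ← sub_eq_add_neg]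

theorem PB_SHoS {K : Set ℝ} (h3 : Av K (3 * l)) : PB 6 K (SH false (some .S)) := by
  have := ((((PB_sin K (-(2 * l))).mul (PB_sin K (4 * l))).mul ((PB_sin K (-l)).mul
    (PB_sin K l))).mul ((PB_sin K (-(3 * l))).mul (PB_sin K 0))).fneg.rate
    (show (1 : ℝ) + 1 + (1 + 1) + (1 + 1) = 6 by norm_num)
  refine this.congrN fun z hz => ?_
  have e3 : sin (z + 3 * l) ≠ 0 := by
    have := sinR rfl (h3 _ hz)
    simpa using this
  filter_upwards [ev_sin (f := fun y => y + 3 * l) (by fun_prop) e3] with y hy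
  rw [SH_othS hy]
  push_cast
  rw [add_zero, add_comm y (4 * l), sin_4l, ← sub_eq_add_neg, ← sub_eq_add_neg, ← sub_eq_add_neg]
  ring

theorem SH_L (c : Bool) : SH c (some .L) = SH c none := by
  rcases c with _ | _ <;> rfl

theorem SH_T (c : Bool) : SH c (some .T) = SH c (some .S) := by
  rcases c with _ | _ <;> rfl

theorem SHp_L (c : Bool) : SHp c (some .L) = SHp c none := by
  rcases c with _ | _ <;> rfl

theorem SHp_T (c : Bool) : SHp c (some .T) = SHp c (some .S) := by
  rcases c with _ | _ <;> rfl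

/-- the own and the other species, quanta -/
theorem PB_SH_q {K : Set ℝ} (hK : IsCompact K) (h : ∀ d ∈ K, -l < d ∧ d < 3 * l ∧ d ≠ 0)
    (c : Bool) : PB (2 * (-3 / 2) * sc (c, .A)) K (SH c none) := by
  have hl := Bd.l_pos
  have av : ∀ a : ℝ, l ≤ a → a ≤ 5 * l → Av K a := fun a h1 h2 d hd =>
    sin_ne_pos (by linarith [(h d hd).1]) (by linarith [(h d hd).2.1])
  rcases c with _ | _
  · refine (PB_SHo (av _ (by linarith) (by linarith)) fun d hd =>
      sin_ne_neg (by linarith [(h d hd).2.1]) (by linarith [(h d hd).1])).rate (by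
        norm_num [sc, chg])
  · refine (PB_SHq hK (fun d hd => ?_) (av _ (by linarith) (by linarith))
      (av _ (by linarith) (by linarith))).rate (by norm_num [sc, chg])
    obtain ⟨h1, h2, h3⟩ := h d hd
    rcases lt_or_gt_of_ne h3 with h4 | h4
    · exact sin_ne_neg (by linarith) (by linarith)
    · exact sin_ne_pos (by linarith) (by linarith)

/-- the own and the other species, strings -/
theorem PB_SH_s {K : Set ℝ} (hK : IsCompact K) (h : ∀ d ∈ K, -l < d ∧ d < 3 * l ∧ d ≠ 0)
    (c : Bool) : PB (2 * (-3 / 2) * sc (c, .S)) K (SH c (some .S)) := by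
  have hl := Bd.l_pos
  have av : ∀ a : ℝ, l ≤ a → a ≤ 5 * l → Av K a := fun a h1 h2 d hd =>
    sin_ne_pos (by linarith [(h d hd).1]) (by linarith [(h d hd).2.1])
  rcases c with _ | _
  · exact (PB_SHoS (av _ (by linarith) (by linarith))).rate (by
        norm_num [sc, chg])
  · refine (PB_SHS hK (fun d hd => ?_) (av _ (by linarith) (by linarith))
      (av _ (by linarith) (by linarith)) (av _ (by linarith) (by linarith))
      (av _ (by linarith) (by linarith))).rate (by
        norm_num [sc, chg])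
    obtain ⟨h1, h2, h3⟩ := h d hd
    rcases lt_or_gt_of_ne h3 with h4 | h4
    · exact sin_ne_neg (by linarith) (by linarith)
    · exact sin_ne_pos (by linarith) (by linarith)

/-- **All kinds**, away from the pole. -/
theorem PB_SH {K : Set ℝ} (hK : IsCompact K) (h : ∀ d ∈ K, -l < d ∧ d < 3 * l ∧ d ≠ 0)
    (c : Bool) (k : Option O3) : PB (2 * (-3 / 2) * sc (c, ob4 k)) K (SH c k) := by
  rcases k with _ | (_ | _ | _)
  · exact PB_SH_q hK h c
  · rw [SH_L]
    exact (PB_SH_q hK h c).rate (by cases c <;> simp [sc, chg, ob4, ob3])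
  · exact PB_SH_s hK h c
  · rw [SH_T]
    exact (PB_SH_s hK h c).rate (by cases c <;> simp [sc, chg, ob4, ob3])

/-- the other species, also at the half quantum -/
theorem PB_SH_false {K : Set ℝ} (h : ∀ d ∈ K, -(3 * l) < d ∧ d < 3 * l) (k : Option O3) :
    PB (2 * (-3 / 2) * sc (false, ob4 k)) K (SH false k) := by
  have hl := Bd.l_pos
  have a3 : Av K (3 * l) := fun d hd =>
    sin_ne_pos (by linarith [(h d hd).1]) (by linarith [(h d hd).2])
  have a3' : Av K (-(3 * l)) := fun d hd =>
    sin_ne_neg (by linarith [(h d hd).2]) (by linarith [(h d hd).1])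
  rcases k with _ | (_ | _ | _)
  · exact (PB_SHo a3 a3').rate (by norm_num [sc, chg, ob4])
  · rw [SH_L]
    exact (PB_SHo a3 a3').rate (by norm_num [sc, chg, ob4, ob3])
  · exact (PB_SHoS a3).rate (by
      norm_num [sc, chg, ob4, ob3])
  · rw [SH_T]
    exact (PB_SHoS a3).rate (by
      norm_num [sc, chg, ob4, ob3])

/-- the own quanta without the pole, between `3/5 l` and `21/20 l` -/
theorem PB_rH_A : PB (-2) (Set.Icc (5 / 8 * l - 21 / 20 * l) (5 / 8 * l - 3 / 5 * l)) rH := by
  have hl := Bd.l_pos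
  exact PB_rH isCompact_Icc (fun d hd => sin_ne_pos (by linarith [hd.1]) (by linarith [hd.2]))
    fun d hd => sin_ne_pos (by linarith [hd.1]) (by linarith [hd.2])

theorem measurable_rH : Measurable rH := by unfold rH; fun_prop

theorem measurable_hostS {S : Sp} (h : ∀ c k, Measurable (S c k)) (b c : Bool) (k : Option O3) :
    Measurable (hostS b S c k) :=
  ((measurable_gz _ _).comp (measurable_id.sub_const _)).mul (h c k)

theorem measurable_SH (c : Bool) (k : Option O3) : Measurable (SH c k) :=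
  measurable_hostS measurable_SF false c k

theorem measurable_SHp (c : Bool) (k : Option O3) : Measurable (SHp c k) :=
  (measurable_SH c k).mul (measurable_gz _ _)

/-! ## single quantum at the half quantum -/

theorem PB_SHp_own {K : Set ℝ} (hK : IsCompact K) (h1 : Av K l) (h1' : Av K (-l))
    (h3 : Av K (3 * l)) : PB (-1) K (SHp true none) := by
  have a1 := PB_inv_sin hK l h1
  have a1' := PB_inv_sin hK (-l) h1'
  have a3 := PB_inv_sin hK (3 * l) h3
  have := (((PB_sin K 0).mul (((PB_sin K (2 * l)).mul (PB_sin K (2 * l))).mul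
    (PB_sin K (-(2 * l))))).mul ((a1.mul a1).mul (a1'.mul (a3.mul a3)))).fneg.rate
    (show (1 : ℝ) + (1 + 1 + 1) + (-1 + -1 + (-1 + (-1 + -1))) = -1 by norm_num)
  refine this.congr' fun z => ?_
  rw [SHp_own]
  push_cast
  rw [add_zero, ← sub_eq_add_neg, ← sub_eq_add_neg]
  by_cases h1 : sin (z + l) = 0
  · simp [h1]
  by_cases h2 : sin (z - l) = 0
  · simp [h2]
  by_cases h3 : sin (z + 3 * l) = 0
  · simp [h3]
  field_simp

theorem PB_q1 (K : Set ℝ) : PB 4 K q1 := by
  have := (((PB_sin K 0).mul (PB_sin K l)).mul ((PB_sin K (-(2 * l))).mul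
    (PB_sin K (3 * l)))).rate (show (1 : ℝ) + 1 + (1 + 1) = 4 by norm_num)
  refine this.congr' fun z => ?_
  unfold q1
  push_cast
  rw [add_zero, ← sub_eq_add_neg]
  ring

/-- **`HQ` for the half quantum with its host and the single quantum.** -/
theorem HQ_SHp : HQ (-1 / 2) (5 / 8 * l) SHp where
  pb c k := by
    have hl := Bd.l_pos
    rcases c with _ | _
    · -- the other species
      have g3 : ∀ {K : Set ℝ}, IsCompact K → (∀ d ∈ K, -(3 * l) < d ∧ d < 3 * l) → PB (-2) K qg :=
        fun {K} hK h => PB_qg hK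
          (fun d hd => sin_ne_pos (by linarith [(h d hd).1]) (by linarith [(h d hd).2]))
          fun d hd => sin_ne_neg (by linarith [(h d hd).2]) (by linarith [(h d hd).1])
      have hq : ∀ k : Option O3, k = none ∨ k = some .L →
          PB 1 (Set.Icc (5 / 8 * l - hiK k) (5 / 8 * l - loK k)) (SHp false none) := by
        intro k hk
        have hr : ∀ d ∈ Set.Icc (5 / 8 * l - hiK k) (5 / 8 * l - loK k),
            -(3 * l) < d ∧ d < 3 * l := by
          intro d hd
          rcases hk with rfl | rfl <;> obtain ⟨h1, h2⟩ := hd <;> simp only [hiK, loK] at h1 h2 <;>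
            constructor <;> linarith
        exact ((PB_SH_false hr none).mul (g3 isCompact_Icc hr)).rate (by
          norm_num [sc, chg, ob4])
      have hs : ∀ k : Option O3, k = some .S ∨ k = some .T →
          PB 2 (Set.Icc (5 / 8 * l - hiK k) (5 / 8 * l - loK k)) (SHp false (some .S)) := by
        intro k hk
        have hr : ∀ d ∈ Set.Icc (5 / 8 * l - hiK k) (5 / 8 * l - loK k),
            -(3 * l) < d ∧ d < 2 * l := by
          intro d hd
          rcases hk with rfl | rfl <;> obtain ⟨h1, h2⟩ := hd <;> simp only [hiK, loK] at h1 h2 <;>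
            constructor <;> linarith
        have a1 := g3 (K := Set.Icc (5 / 8 * l - hiK k) (5 / 8 * l - loK k)) isCompact_Icc
          fun d hd => ⟨(hr d hd).1, by linarith [(hr d hd).2]⟩
        have a2 := (g3 (K := Set.Icc (5 / 8 * l - hiK k + l) (5 / 8 * l - loK k + l)) isCompact_Icc
          fun d hd => by
            have := hr (d - l) ⟨by linarith [hd.1], by linarith [hd.2]⟩
            exact ⟨by linarith [this.1], by linarith [this.2]⟩).shift
          (K := Set.Icc (5 / 8 * l - hiK k) (5 / 8 * l - loK k)) l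
          fun x hx => ⟨by linarith [hx.1], by linarith [hx.2]⟩
        exact ((PB_SH_false (fun d hd => ⟨(hr d hd).1, by linarith [(hr d hd).2]⟩)
          (some .S)).mul (a1.mul a2)).rate (by
            norm_num [sc, chg, ob4, ob3])
      rcases k with _ | (_ | _ | _)
      · exact (hq _ (Or.inl rfl)).rate (by norm_num [sc, chg, ob4])
      · rw [SHp_L]
        exact (hq _ (Or.inr rfl)).rate (by norm_num [sc, chg, ob4, ob3])
      · exact (hs _ (Or.inl rfl)).rate (by norm_num [sc, chg, ob4, ob3])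
      · rw [SHp_T]
        exact (hs _ (Or.inr rfl)).rate (by norm_num [sc, chg, ob4, ob3])
    · -- the own species
      have hq : ∀ k : Option O3, k = none ∨ k = some .L →
          PB (-1) (Set.Icc (5 / 8 * l - hiK k) (5 / 8 * l - loK k)) (SHp true none) := by
        intro k hk
        refine PB_SHp_own isCompact_Icc (fun d hd => ?_) (fun d hd => ?_) fun d hd => ?_
        all_goals
          rcases hk with rfl | rfl <;> obtain ⟨h1, h2⟩ := hd <;> simp only [hiK, loK] at h1 h2 <;>
            (first | exact sin_ne_pos (by linarith) (by linarith) | exact sin_ne_neg (by linarith) (by linarith))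
      have hs : ∀ k : Option O3, k = some .S ∨ k = some .T →
          PB (-2) (Set.Icc (5 / 8 * l - hiK k) (5 / 8 * l - loK k)) (SHp true (some .S)) := by
        intro k hk
        have hr : ∀ d ∈ Set.Icc (5 / 8 * l - hiK k) (5 / 8 * l - loK k),
            -l < d ∧ d < 3 * l ∧ d ≠ 0 := by
          intro d hd
          rcases hk with rfl | rfl <;> obtain ⟨h1, h2⟩ := hd <;> simp only [hiK, loK] at h1 h2 <;>
            refine ⟨by linarith, by linarith, fun h => by linarith⟩
        exact ((PB_SH_s isCompact_Icc hr true).mul (PB_q1 _)).rate (by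
          norm_num [sc, chg])
      rcases k with _ | (_ | _ | _)
      · exact (hq _ (Or.inl rfl)).rate (by norm_num [sc, chg, ob4])
      · rw [SHp_L]
        exact (hq _ (Or.inr rfl)).rate (by norm_num [sc, chg, ob4, ob3])
      · exact (hs _ (Or.inl rfl)).rate (by norm_num [sc, chg, ob4, ob3])
      · rw [SHp_T]
        exact (hs _ (Or.inr rfl)).rate (by norm_num [sc, chg, ob4, ob3])
  ms := measurable_SHp
  kL := SHp_L
  kT := SHp_T
  mul c x hx := by
    have hl := Bd.l_pos
    have s1 : sin (x + l) ≠ 0 := sinR hx (sin_ne_pos (by linarith) (by linarith))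
    have s2 : sin (x + 2 * l) ≠ 0 := by
      have := sinR (a := 2 * l) hx (sin_ne_pos (by linarith) (by linarith))
      simpa using this
    have s3 : sin (3 * l - x) ≠ 0 := by
      have := sinR (a := -(3 * l)) hx (sin_ne_neg (by linarith) (by linarith))
      rw [show 3 * (l : ℂ) - x = -(x + ((-(3 * l) : ℝ) : ℂ)) by push_cast; ring, Complex.sin_neg]
      exact neg_ne_zero.2 this
    have s4 : cos x ≠ 0 := by
      have := sinR (a := 4 * l) hx (sin_ne_pos (by linarith) (by linarith))
      rw [← sin_4l, add_comm]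
      simpa using this
    have s0 : sin x ≠ 0 := by
      have := sinR (a := 0) hx (sin_ne_pos (by linarith) (by linarith))
      simpa using this
    have sm : sin (x - l) ≠ 0 := by
      have := sinR (a := -l) hx (sin_ne_pos (by linarith) (by linarith))
      simpa [sub_eq_add_neg] using this
    unfold SHp SH hostS
    rw [SF_mul c s1 s2 s4 s3, ob4_S, ob4_none, gzS_mul false c, gzA_mul true c s1 sm s2 s0,
      show x + (l : ℂ) - 2 * l = x - 2 * l + l by ring]
    ring

/-! ## corollaries -/

/-- the composite seen from the host string (helper12's `sH false SF`) -/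
theorem PB_comp {K : Set ℝ} (hK : IsCompact K) (h : ∀ d ∈ K, -(3 * l) < d ∧ d < l ∧ d ≠ -(2 * l))
    (c : Bool) (k : Option O3) : PB (2 * (-3 / 2) * sc (c, ob4 k)) K
      fun x => gz (false, .S) (c, ob4 k) x * SF c k (x + 2 * l) := by
  have h1 : PB (2 * (-3 / 2) * sc (c, ob4 k)) ((fun d => d + 2 * l) '' K) (SH c k) := by
    refine PB_SH (hK.image (by fun_prop)) ?_ c k
    rintro _ ⟨d, hd, rfl⟩
    obtain ⟨h1, h2, h3⟩ := h d hd
    exact ⟨by simp only []; linarith, by simp only []; linarith, fun h4 => h3 (by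
      simp only [] at h4
      linarith)⟩
  refine (h1.shift (2 * l) fun x hx => ⟨x, hx, rfl⟩).congr' fun z => ?_
  show gz (false, .S) (c, ob4 k) (z + ((2 * l : ℝ) : ℂ) - 2 * l) * SF c k (z + ((2 * l : ℝ) : ℂ)) = _
  push_cast
  rw [add_sub_cancel_right]

/-- **Lines of the final classes**: the half quantum with its host on `5/8 l`. -/
theorem hln_SH {KK : Option O3 → Set ℝ} {κ Q : ℝ} {K : ℂ → ℂ}
    (h : ∀ k, ∀ x ∈ KK k, -(19 / 8 * l) < x ∧ x < 13 / 8 * l ∧ x ≠ 5 / 8 * l) (hm : Measurable K)
    (hd : DecOn (κ + 2 * Q * (-3 / 2)) {5 / 8 * l} K) : HLn KK κ Q (-3 / 2) (5 / 8 * l) SH K where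
  ms := measurable_SH
  bd c k x hx := by
    obtain ⟨h1, h2, h3⟩ := h k x hx
    refine (PB_SH (K := {5 / 8 * l - x}) isCompact_singleton ?_ c k).1.rate (by ring)
    rintro d rfl
    exact ⟨by linarith, by linarith, fun h4 => h3 (by linarith)⟩
  km := hm
  kd := hd

/-- the same for the second half quantum -/
theorem hln_flSH {KK : Option O3 → Set ℝ} {κ Q : ℝ} {K : ℂ → ℂ}
    (h : ∀ k, ∀ x ∈ KK k, -(19 / 8 * l) < x ∧ x < 13 / 8 * l ∧ x ≠ 5 / 8 * l) (hm : Measurable K)
    (hd : DecOn (κ + 2 * Q * (3 / 2)) {5 / 8 * l} K) :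
    HLn KK κ Q (3 / 2) (5 / 8 * l) (fl SH) K where
  ms c k := measurable_SH _ _
  bd c k x hx := by
    obtain ⟨h1, h2, h3⟩ := h k x hx
    have := (PB_SH (K := {5 / 8 * l - x}) isCompact_singleton (by
      rintro d rfl
      exact ⟨by linarith, by linarith, fun h4 => h3 (by linarith)⟩) (!c) k).1
    refine this.rate ?_
    have e := sc4_not c k
    rw [show sc (!c, ob4 k) = -sc4 c k from e]
    ring
  km := hm
  kd := hd

theorem hln_hostSH {KK : Option O3 → Set ℝ} {κ Q : ℝ} {K : ℂ → ℂ}
    (h : ∀ k, ∀ x ∈ KK k, -(19 / 8 * l) < x ∧ x < 13 / 8 * l ∧ x ≠ 5 / 8 * l) (hm : Measurable K)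
    (hd : DecOn (κ + 2 * Q * (3 / 2)) {5 / 8 * l} K) :
    HLn KK κ Q (3 / 2) (5 / 8 * l) (hostS true (fl SF)) K := by
  rw [hostS_fl]
  exact hln_flSH h hm hd

/-- `PB` of the host composite from the one of the half quantum, strips of the kinds -/
theorem PB_SH_strip (c : Bool) (k : Option O3) (h : c = false ∨ k ≠ none) :
    PB (2 * (-3 / 2) * sc (c, ob4 k)) (Set.Icc (5 / 8 * l - hiK k) (5 / 8 * l - loK k))
      (SH c k) := by
  have hl := Bd.l_pos
  have hr : ∀ d ∈ Set.Icc (5 / 8 * l - hiK k) (5 / 8 * l - loK k), -l < d ∧ d < 3 * l := by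
    intro d hd
    rcases k with _ | (_ | _ | _) <;> obtain ⟨h1, h2⟩ := hd <;> simp only [hiK, loK] at h1 h2 <;>
      constructor <;> linarith
  rcases c with _ | _
  · exact PB_SH_false (fun d hd => ⟨by linarith [(hr d hd).1], (hr d hd).2⟩) k
  · rcases h with h | h
    · exact absurd h (by decide)
    refine PB_SH isCompact_Icc (fun d hd => ⟨(hr d hd).1, (hr d hd).2, ?_⟩) true k
    rcases k with _ | (_ | _ | _)
    · exact absurd rfl h
    all_goals
      obtain ⟨h1, h2⟩ := hd
      simp only [hiK, loK] at h1 h2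
      intro h3
      linarith

/-- the own quanta right of the pole -/
theorem PB_SH_right {x0 x1 : ℝ} (h0 : 5 / 8 * l < x0) (h1 : x1 < 13 / 8 * l) (c : Bool) :
    PB (2 * (-3 / 2) * sc (c, .A)) (Set.Icc (5 / 8 * l - x1) (5 / 8 * l - x0)) (SH c none) := by
  have hl := Bd.l_pos
  refine PB_SH_q isCompact_Icc (fun d hd => ⟨?_, ?_, fun h => ?_⟩) c
  · linarith [hd.1]
  · linarith [hd.2]
  · linarith [hd.2]

end NURow

end
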