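import Pool.Agent.NURow.PinL
import Pool.Agent.NURow.SpecH
import Pool.Agent.NURow.Pref

/-!
# The half quanta on the strips of the final stage

`MvH` of the half quanta which are moved from `31/50 l` to `5/4 l`, `FxH` of the half quanta on
`-11/4 l`.
-/

set_option autoImplicit false
set_option linter.unusedSectionVars false
set_option linter.unreachableTactic false
set_option linter.unusedTactic false

noncomputable section

open Complex MeasureTheory
open scoped Classical

namespace NURow

open NUP1 NUP1S NUP1.Bd NUP1.Leg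

/-- the half quantum between `31/50 l` and `5/4 l`, other kinds than strings `S` of species Y -/
theorem PB_SF_P (c : Bool) (k : Option O3) (h : c = true ∨ k ≠ some .S) :
    PB (sc (c, ob4 k)) (Set.Icc (31 / 50 * l - hiP k) (5 / 4 * l - loP k)) (SF c k) := by
  have hl := Bd.l_pos
  refine PB_SF_of isCompact_Icc c k (fun _ hk d hd => ?_) (fun _ hk d hd => ?_)
    (fun hc hk d hd => ?_)
  · rcases hk with rfl | rfl <;> obtain ⟨h1, h2⟩ := hd <;> simp only [hiP, loP] at h1 h2 <;>
      exact sin_ne_pos (by linarith) (by linarith)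
  · rcases hk with rfl | rfl <;> obtain ⟨h1, h2⟩ := hd <;> simp only [hiP, loP] at h1 h2 <;>
      constructor
    · exact sin_ne_pos (by linarith) (by linarith)
    · exact sin_ne_neg (by linarith) (by linarith)
    · exact sin_ne_pos (by linarith) (by linarith)
    · exact sin_ne_neg (by linarith) (by linarith)
  · rcases hk with rfl | rfl
    · rcases h with h | h
      · rw [hc] at h
        exact absurd h (by decide)
      · exact absurd rfl h
    · obtain ⟨h1, h2⟩ := hd
      simp only [hiP, loP] at h1 h2
      constructor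
      · exact sin_ne_pos (by linarith) (by linarith)
      · exact sin_ne_neg (by linarith) (by linarith)

/-- the half quantum alone on `-11/4 l` -/
theorem PB_SF_PB (c : Bool) (k : Option O3) :
    PB (sc (c, ob4 k)) (Set.Icc (-(11 / 4) * l - hiP k) (-(11 / 4) * l - loP k)) (SF c k) := by
  have hl := Bd.l_pos
  refine PB_SF_of isCompact_Icc c k (fun _ hk d hd => ?_) (fun _ hk d hd => ?_)
    (fun hc hk d hd => ?_)
  all_goals
    rcases hk with rfl | rfl <;> obtain ⟨h1, h2⟩ := hd <;> simp only [hiP, loP] at h1 h2
  all_goals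
    try constructor
  all_goals
    first
      | exact sin_ne_mul (Or.inl ⟨by linarith, by linarith⟩)
      | exact sin_ne_mul (Or.inr ⟨by linarith, by linarith⟩)
      | exact sin_ne_pos (by linarith) (by linarith)
      | exact sin_ne_neg (by linarith) (by linarith)

/-- the half quantum which is moved -/
theorem mvH_SF {κ : ℝ} {K : ℂ → ℂ} (mK : Measurable K) (hK : PB (-1) (Set.Icc (31 / 50 * l) (5 / 4 * l)) K)
    (hκ : κ ≤ 1) :
    MvH loP hiP κ (1 / 2) (31 / 50 * l) (5 / 4 * l) (-(11 / 8) * l) SF K rD where
  lt := by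
    have hl := Bd.l_pos
    linarith
  pi := by
    have hl := Bd.l_pos
    have := l8r
    linarith
  mK := mK
  ms := measurable_SF
  dK := hK.decOn (by linarith)
  cK := hK.contOn
  aK := hK.diffOn
  reg c k h := (PB_SF_P c k h).rate (by rw [show sc4 c k = sc (c, ob4 k) from rfl]; ring)
  pol z := by
    rw [show SF false (some .S) = DD from rfl, DD_pole]
    push_cast
    rfl
  num := by
    have hl := Bd.l_pos
    refine (PB_rD isCompact_Icc fun d hd => ?_).rate (by
      have : sc4 false (some .S) = -2 := by simp [sc4, sc, chg, ob4, ob3]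
      rw [this]
      norm_num)
    obtain ⟨h1, h2⟩ := hd
    simp only [hiP, loP] at h1 h2
    exact sin_ne_pos (by linarith) (by linarith)
  mem1 := by
    have hl := Bd.l_pos
    simp only [loP]
    linarith
  mem2 := by
    have hl := Bd.l_pos
    simp only [hiP]
    linarith
  pin := by
    have hl := Bd.l_pos
    simp only [loP, hiP]
    exact ⟨le_rfl, by linarith⟩
  comp c k := by
    have hl := Bd.l_pos
    have h1 := PB_comp (K := Set.Icc (loP (some .S) - hiP k) (hiP (some .S) - loP k)) isCompact_Icc
      (fun d hd => by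
        obtain ⟨h1, h2⟩ := hd
        rcases k with _ | (_ | _ | _) <;> simp only [loP, hiP] at h1 h2 <;>
          exact ⟨by linarith, by linarith, fun h3 => by linarith⟩) c k
    have h2 : sc4 false (some .S) = -2 := by simp [sc4, sc, chg, ob4, ob3]
    refine (h1.congr' fun z => ?_).rate (by
      rw [h2, show sc4 c k = sc (c, ob4 k) from rfl]
      ring)
    unfold sH
    push_cast
    rfl

/-- the half quantum alone on `-11/4 l` -/
theorem fxH_SF {κ : ℝ} {K : ℂ → ℂ} (mK : Measurable K)
    (hK : DecOn κ {-(11 / 4) * l} K) : FxH loP hiP κ (1 / 2) (-(11 / 4) * l) SF K where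
  ms := measurable_SF
  pb c k := (PB_SF_PB c k).rate (by rw [show sc4 c k = sc (c, ob4 k) from rfl]; ring)
  mK := mK
  dK := hK

/-- **The half quantum at `-11/4 l` with its captured quantum.** -/
theorem PB_SP_PB (c : Bool) (k : Option O3) :
    PB (-sc (c, ob4 k)) (Set.Icc (-(11 / 4) * l - hiP k) (-(11 / 4) * l - loP k)) (SP c k) := by
  have hl := Bd.l_pos
  have key : ∀ k : Option O3, k = none ∨ k = some .L →
      PB (-1) (Set.Icc (-(11 / 4) * l - hiP k) (-(11 / 4) * l - loP k)) CP ∧
      PB 1 (Set.Icc (-(11 / 4) * l - hiP k) (-(11 / 4) * l - loP k)) DP := by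
    intro k hk
    constructor
    · have a1 : PB 1 (Set.Icc (-(11 / 4) * l - hiP k) (-(11 / 4) * l - loP k)) Ck := by
        refine PB_Ck isCompact_Icc fun d hd => ?_
        rcases hk with rfl | rfl <;> obtain ⟨h1, h2⟩ := hd <;> simp only [hiP, loP] at h1 h2 <;> (first | exact sin_ne_mul (Or.inl ⟨by linarith, by linarith⟩) | exact sin_ne_mul (Or.inr ⟨by linarith, by linarith⟩) | exact sin_ne_pos (by linarith) (by linarith) | exact sin_ne_neg (by linarith) (by linarith))
      have a2 : PB (-2) (Set.Icc (-(11 / 4) * l - hiP k + 3 * l) (-(11 / 4) * l - loP k + 3 * l)) qg := by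
        refine PB_qg isCompact_Icc (fun d hd => ?_) fun d hd => ?_
        all_goals
          rcases hk with rfl | rfl <;> obtain ⟨h1, h2⟩ := hd <;> simp only [hiP, loP] at h1 h2 <;> (first | exact sin_ne_mul (Or.inl ⟨by linarith, by linarith⟩) | exact sin_ne_mul (Or.inr ⟨by linarith, by linarith⟩) | exact sin_ne_pos (by linarith) (by linarith) | exact sin_ne_neg (by linarith) (by linarith))
      have a3 := a2.shift (K := Set.Icc (-(11 / 4) * l - hiP k) (-(11 / 4) * l - loP k)) (3 * l)
        fun x hx => ⟨by linarith [hx.1], by linarith [hx.2]⟩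
      refine ((a1.mul a3).rate (by norm_num)).congr' fun z => ?_
      unfold CP
      push_cast
      rfl
    · have a2 : PB 1 (Set.Icc (-(-(11 / 4) * l - loP k) - 3 * l) (-(-(11 / 4) * l - hiP k) - 3 * l)) Ck := by
        refine PB_Ck isCompact_Icc fun d hd => ?_
        rcases hk with rfl | rfl <;> obtain ⟨h1, h2⟩ := hd <;> simp only [hiP, loP] at h1 h2 <;> (first | exact sin_ne_mul (Or.inl ⟨by linarith, by linarith⟩) | exact sin_ne_mul (Or.inr ⟨by linarith, by linarith⟩) | exact sin_ne_pos (by linarith) (by linarith) | exact sin_ne_neg (by linarith) (by linarith))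
      refine (a2.refl (3 * l) fun x hx => ⟨by linarith [hx.2], by linarith [hx.1]⟩).congr' fun z => ?_
      unfold DP
      push_cast
      rfl
  have key2 : ∀ k : Option O3, k = some .S ∨ k = some .T →
      PB (-2) (Set.Icc (-(11 / 4) * l - hiP k) (-(11 / 4) * l - loP k)) CCP ∧
      PB 2 (Set.Icc (-(11 / 4) * l - hiP k) (-(11 / 4) * l - loP k)) DDP := by
    intro k hk
    constructor
    · have a2 : PB (-4) (Set.Icc (-(-(11 / 4) * l - loP k) - 3 * l) (-(-(11 / 4) * l - hiP k) - 3 * l))
          QQ := by
        refine PB_QQ isCompact_Icc (fun d hd => ?_) fun d hd => ?_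
        all_goals
          rcases hk with rfl | rfl <;> obtain ⟨h1, h2⟩ := hd <;> simp only [hiP, loP] at h1 h2 <;> (first | exact sin_ne_mul (Or.inl ⟨by linarith, by linarith⟩) | exact sin_ne_mul (Or.inr ⟨by linarith, by linarith⟩) | exact sin_ne_pos (by linarith) (by linarith) | exact sin_ne_neg (by linarith) (by linarith))
      have a3 := a2.refl (K := Set.Icc (-(11 / 4) * l - hiP k) (-(11 / 4) * l - loP k)) (3 * l)
        fun x hx => ⟨by linarith [hx.2], by linarith [hx.1]⟩
      refine (((PB_CC _).mul a3).rate (by norm_num)).congr' fun z => ?_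
      unfold CCP
      push_cast
      rfl
    · refine ((PB_C2 (Set.Icc (-(-(11 / 4) * l - loP k) - 3 * l)
        (-(-(11 / 4) * l - hiP k) - 3 * l))).refl (3 * l) fun x hx =>
        ⟨by linarith [hx.2], by linarith [hx.1]⟩).congr' fun z => ?_
      unfold DDP
      push_cast
      rfl
  rcases c with _ | _
  · rcases k with _ | (_ | _ | _)
    · exact (key none (Or.inl rfl)).2.rate (by simp [sc, chg, ob4])
    · exact (key _ (Or.inr rfl)).2.rate (by simp [sc, chg, ob4, ob3])
    · exact (key2 _ (Or.inl rfl)).2.rate (by simp [sc, chg, ob4, ob3])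
    · exact (key2 _ (Or.inr rfl)).2.rate (by simp [sc, chg, ob4, ob3])
  · rcases k with _ | (_ | _ | _)
    · exact (key none (Or.inl rfl)).1.rate (by simp [sc, chg, ob4])
    · exact (key _ (Or.inr rfl)).1.rate (by simp [sc, chg, ob4, ob3])
    · exact (key2 _ (Or.inl rfl)).1.rate (by simp [sc, chg, ob4, ob3])
    · exact (key2 _ (Or.inr rfl)).1.rate (by simp [sc, chg, ob4, ob3])


/-- the half quantum with its captured quantum on `-11/4 l` -/
theorem fxH_SP {κ : ℝ} {K : ℂ → ℂ} (mK : Measurable K)
    (hK : DecOn κ {-(11 / 4) * l} K) : FxH loP hiP κ (-1 / 2) (-(11 / 4) * l) SP K where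
  ms := measurable_SP
  pb c k := (PB_SP_PB c k).rate (by rw [show sc4 c k = sc (c, ob4 k) from rfl]; ring)
  mK := mK
  dK := hK

end NURow

end
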