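import Pool.Agent.NURow.Fin2
import Pool.Agent.NURow.PinF
import Pool.Agent.NURow.PinK
import Pool.Agent.NURow.ConvL

/-!
# The eleven integrals as the sum of the final classes

`E11_fin`: the eleven integrals at the rows `± l / 2` are the signed sum of the 16 final classes and
of the two classes with one line.
-/

set_option autoImplicit false
set_option linter.unusedSectionVars false

noncomputable section

open Complex MeasureTheory

namespace NURow

open NUP1 NUP1S NUP1.Bd NUP1.Leg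
open NUP1.N (E11)

theorem km_KP' (c : ℂ) (β : ℝ) (M N : ℕ) : Measurable (KP c β M N) ∧ Measurable (KP' c β M N) :=
  ⟨measurable_KP c β M N, measurable_KP' c β M N⟩

/-- **The start classes at the limit rows as the final classes.** -/
theorem cL_cF {β : ℝ} (hβ : 1 < β) (hβ' : β ≤ 4 / 3) (M n : ℕ) {P : NUO.Par} (hP : ParP P) :
    ∑ t ∈ T3, ∑ t' ∈ T3, t.sg * t'.sg *
        (cL β M t t').val (XL β M) (XL β M) (3 / 5 * l) n n (lX P) (lY P) =
      ∑ t, ∑ t', t.sg * t'.sg * (cF (XL β M) (XL β M) (KF M) (KP (cc (2 * M)) β M M) (KF' M)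
        (KP' (cc (2 * M)) β M M) t t').val (XL β M) (XL β M) (3 / 5 * l) n n (lX P) (lY P) := by
  have hβ0 : 0 < β := by linarith
  have hs : ({-(11 / 4) * l} : Set ℝ) ⊆ Set.Icc (-(11 / 4) * l) (-(11 / 4) * l) := by
    intro x hx
    rw [Set.mem_singleton_iff.1 hx]
    exact ⟨le_rfl, le_rfl⟩
  exact cS_cF (κ := 1) (lo := loP) (hi := hiP) one_pos okS_P le_rfl le_rfl
    (fmD_P hβ0 hβ' le_rfl (by linarith) hβ0 hβ' le_rfl (by linarith))
    (mvH_SF (measurable_KF M) (PB_KF_A M) le_rfl)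
    (mvH_SF (measurable_KF' M) (PB_KF'_A M) le_rfl)
    (fxH_SF (measurable_KF M) (((PB_KF_B M).decOn (by norm_num)).mono hs))
    (fxH_SP (km_KP' _ _ _ _).1 (((PB_KP_B hβ0 hβ' _ M M).decOn (by linarith)).mono hs))
    (fxH_SF (measurable_KF' M) (((PB_KF'_B M).decOn (by norm_num)).mono hs))
    (fxH_SP (km_KP' _ _ _ _).2 (((PB_KP'_B hβ0 hβ' _ M M).decOn (by linarith)).mono hs))
    (lnA_P hP) (lnA_P' hP)

/-- **The eleven integrals at the rows `± l / 2` are the final classes.** -/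
theorem E11_fin {β : ℝ} (hβ : 1 < β) (hβ' : β ≤ 4 / 3) (M n : ℕ) {P : NUO.Par} (hP : ParP P)
    (L : LnH (lX P) (lY P)) :
    E11 (3 / 5 * l) (-(17 / 10) * l) (-(l / 2)) (l / 2) (x0 M) (x0 M) (hX0 β M) (hY0 β M) n n
      (31 / 50 * l) (-(11 / 4) * l) =
    ((2 * Real.pi : ℂ)⁻¹) ^ 2 * ∑ t : HT, ∑ t' : HT, t.sg * t'.sg *
        (cF (XL β M) (XL β M) (KF M) (KP (cc (2 * M)) β M M) (KF' M)
          (KP' (cc (2 * M)) β M M) t t').val (XL β M) (XL β M) (3 / 5 * l) n n (lX P) (lY P) -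
    sin l / sin (2 * l) * ((2 * Real.pi : ℂ)⁻¹ *
      ((cD (XD M)).val (XL β M) (XL β M) (3 / 5 * l) n n (lX P) (lY P) +
        (cD' (XD' M)).val (XL β M) (XL β M) (3 / 5 * l) n n (lX P) (lY P))) := by
  rw [E11_val hβ hβ' M n L, ← cL_cF hβ hβ' M n hP]
  rfl

end NURow

end
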