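import Pool.Agent.NUP1S.Inst2

/-!
# One body functions of rows with real parts in `[-r, r]` (helper30, board/GAM U4 (R))

Uniform bounds (over a parameter `θ`) of `R_{x,y}(u)`, of the cutoff `phi β W u` and of `GC`; analyticity in `u`
and in the parameter; measurability.
-/

set_option autoImplicit false

noncomputable section

open Complex MeasureTheory

namespace NURow

open NUP1 NUP1.Bd NUP1.ExM NUP1S

/-! ## uniformly bounded families -/

/-- `‖g θ z‖ ≤ C exp (s |im z|)` for all `θ ∈ S` and all `z` with real part in `K` -/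
def UB {Θ : Type*} (S : Set Θ) (K : Set ℝ) (s : ℝ) (g : Θ → ℂ → ℂ) : Prop :=
  ∃ C : ℝ, 0 ≤ C ∧ ∀ θ ∈ S, ∀ z : ℂ, z.re ∈ K → ‖g θ z‖ ≤ C * Real.exp (s * |z.im|)

section ub

variable {Θ : Type*} {S S' : Set Θ} {K K' : Set ℝ} {s s' : ℝ} {g g' : Θ → ℂ → ℂ}

theorem UB.mono (h : UB S K s g) (hS : S' ⊆ S) (hK : K' ⊆ K) : UB S' K' s g := by
  obtain ⟨C, hC, h⟩ := h
  exact ⟨C, hC, fun θ hθ z hz => h θ (hS hθ) z (hK hz)⟩

theorem UB.mono_rate (h : UB S K s g) (hs : s ≤ s') : UB S K s' g := by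
  obtain ⟨C, hC, h⟩ := h
  refine ⟨C, hC, fun θ hθ z hz => (h θ hθ z hz).trans
    (mul_le_mul_of_nonneg_left (Real.exp_le_exp.2 ?_) hC)⟩
  exact mul_le_mul_of_nonneg_right hs (abs_nonneg _)

theorem UB.rate (h : UB S K s g) (hs : s = s') : UB S K s' g := hs ▸ h

theorem UB.bdd (h : UB S K s g) {θ : Θ} (hθ : θ ∈ S) : Bdd K s (g θ) := by
  obtain ⟨C, hC, h⟩ := h
  exact ⟨C, hC, fun z hz => h θ hθ z hz⟩

theorem UB.congr (h : UB S K s g) (e : ∀ θ ∈ S, ∀ z : ℂ, z.re ∈ K → g' θ z = g θ z) :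
    UB S K s g' := by
  obtain ⟨C, hC, h⟩ := h
  exact ⟨C, hC, fun θ hθ z hz => by rw [e θ hθ z hz]; exact h θ hθ z hz⟩

theorem UB.const (S : Set Θ) (K : Set ℝ) (c : ℂ) : UB S K 0 (fun _ _ => c) :=
  ⟨‖c‖, norm_nonneg _, fun θ _ z _ => by simp⟩

theorem UB.mul (h : UB S K s g) (h' : UB S K s' g') : UB S K (s + s') (fun θ z => g θ z * g' θ z) := by
  obtain ⟨C, hC, h⟩ := h
  obtain ⟨D, hD, h'⟩ := h'
  refine ⟨C * D, mul_nonneg hC hD, fun θ hθ z hz => ?_⟩
  rw [norm_mul, add_mul, Real.exp_add]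
  calc _ ≤ (C * Real.exp (s * |z.im|)) * (D * Real.exp (s' * |z.im|)) :=
        mul_le_mul (h θ hθ z hz) (h' θ hθ z hz) (norm_nonneg _) (by positivity)
    _ = _ := by ring

theorem UB.add (h : UB S K s g) (h' : UB S K s g') : UB S K s (fun θ z => g θ z + g' θ z) := by
  obtain ⟨C, hC, h⟩ := h
  obtain ⟨D, hD, h'⟩ := h'
  refine ⟨C + D, add_nonneg hC hD, fun θ hθ z hz => ?_⟩
  refine (norm_add_le _ _).trans ?_
  rw [add_mul]
  exact add_le_add (h θ hθ z hz) (h' θ hθ z hz)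

theorem UB.neg (h : UB S K s g) : UB S K s (fun θ z => -g θ z) := by
  obtain ⟨C, hC, h⟩ := h
  exact ⟨C, hC, fun θ hθ z hz => by rw [norm_neg]; exact h θ hθ z hz⟩

theorem UB.sub (h : UB S K s g) (h' : UB S K s g') : UB S K s (fun θ z => g θ z - g' θ z) := by
  have := h.add h'.neg
  refine this.congr fun θ _ z _ => sub_eq_add_neg _ _

theorem UB.pow (h : UB S K s g) (n : ℕ) : UB S K (n * s) (fun θ z => g θ z ^ n) := by
  induction n with
  | zero => exact ((UB.const S K 1).rate (by simp)).congr fun θ _ z _ => by simp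
  | succ n ih =>
    have := (ih.mul h).rate (show (n : ℝ) * s + s = ((n + 1 : ℕ) : ℝ) * s by push_cast; ring)
    simpa only [pow_succ] using this

theorem UB.prod {ι : Type*} (T : Finset ι) {f : ι → Θ → ℂ → ℂ} (h : ∀ i ∈ T, UB S K s (f i)) :
    UB S K (T.card * s) (fun θ z => ∏ i ∈ T, f i θ z) := by
  classical
  induction T using Finset.induction_on with
  | empty => exact ((UB.const S K 1).rate (by simp)).congr fun θ _ z _ => by simp
  | insert a T ha ih =>
    have h1 := (h a (Finset.mem_insert_self a T)).mul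
      (ih fun i hi => h i (Finset.mem_insert_of_mem hi))
    refine (h1.rate ?_).congr fun θ _ z _ => by rw [Finset.prod_insert ha]
    rw [Finset.card_insert_of_notMem ha]
    push_cast
    ring

/-- translation of the argument by a real number -/
theorem UB.shift (h : UB S K' s g) (a : ℝ) (hK : ∀ x ∈ K, x + a ∈ K') :
    UB S K s (fun θ z => g θ (z + a)) := by
  obtain ⟨C, hC, h⟩ := h
  refine ⟨C, hC, fun θ hθ z hz => ?_⟩
  have := h θ hθ (z + a) (by rw [add_re, ofReal_re]; exact hK _ hz)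
  rwa [add_im, ofReal_im, add_zero] at this

theorem UB.shift_l (h : UB S K' s g) (hK : ∀ x ∈ K, x - l ∈ K') :
    UB S K s (fun θ z => g θ (z - l)) := by
  have := h.shift (K := K) (-l) (fun x hx => by rw [← sub_eq_add_neg]; exact hK x hx)
  refine this.congr fun θ _ z _ => ?_
  push_cast
  rw [← sub_eq_add_neg]

end ub

/-! ## compactness -/

/-- `|f|` is bounded below on the differences of `K` and `[-r, r]` -/
theorem exists_low {f : ℝ → ℝ} (hf : Continuous f) {K : Set ℝ} (hK : IsCompact K) (r : ℝ)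
    (h : ∀ d ∈ K, ∀ e : ℝ, |e| ≤ r → f (d - e) ≠ 0) :
    ∃ δ : ℝ, 0 < δ ∧ ∀ d ∈ K, ∀ e : ℝ, |e| ≤ r → δ ≤ |f (d - e)| := by
  have hc : IsCompact (K ×ˢ Set.Icc (-r) r) := hK.prod isCompact_Icc
  rcases (K ×ˢ Set.Icc (-r) r).eq_empty_or_nonempty with h0 | hne
  · refine ⟨1, one_pos, fun d hd e he => ?_⟩
    have : (d, e) ∈ K ×ˢ Set.Icc (-r) r := ⟨hd, abs_le.1 he⟩
    rw [h0] at this
    exact absurd this (Set.notMem_empty _)
  · obtain ⟨p, hp, hmin⟩ := hc.exists_isMinOn hne (f := fun p : ℝ × ℝ => |f (p.1 - p.2)|)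
      (by fun_prop)
    refine ⟨|f (p.1 - p.2)|, abs_pos.2 (h _ hp.1 _ (abs_le.2 hp.2)), fun d hd e he => ?_⟩
    exact hmin (show (d, e) ∈ K ×ˢ Set.Icc (-r) r from ⟨hd, abs_le.1 he⟩)

theorem exp_im_le {z x : ℂ} {ρ : ℝ} (hx : |x.im| ≤ ρ) : Real.exp |z.im| * Real.exp (-ρ) ≤
    Real.exp |(z - x).im| := by
  rw [← Real.exp_add]
  refine Real.exp_le_exp.2 ?_
  rw [sub_im]
  have := abs_sub_abs_le_abs_sub z.im x.im
  linarith

theorem exp_im_ge {z x : ℂ} {ρ : ℝ} (hx : |x.im| ≤ ρ) : Real.exp |(z - x).im| ≤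
    Real.exp ρ * Real.exp |z.im| := by
  rw [← Real.exp_add]
  refine Real.exp_le_exp.2 ?_
  rw [sub_im]
  have := abs_sub z.im x.im
  linarith

/-! ## the rows -/

section rows

variable {Θ : Type*} {S : Set Θ} {K : Set ℝ} {r ρ : ℝ}

/-- the points `x θ`, `θ ∈ S`, lie in the box `|re| ≤ r`, `|im| ≤ ρ` -/
def InBox (S : Set Θ) (r ρ : ℝ) (x : Θ → ℂ) : Prop := ∀ θ ∈ S, |(x θ).re| ≤ r ∧ |(x θ).im| ≤ ρ

theorem ub_sin {x : Θ → ℂ} (hx : InBox S r ρ x) (K : Set ℝ) (a : ℝ) :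
    UB S K 1 (fun θ z => sin (z - x θ + a)) := by
  refine ⟨Real.exp ρ, (Real.exp_pos _).le, fun θ hθ z _ => ?_⟩
  rw [one_mul]
  refine (norm_sin_add_le (z - x θ) a).trans ((Bd.cosh_le_exp _).trans ?_)
  exact exp_im_ge (hx θ hθ).2

theorem ub_inv_sin {x : Θ → ℂ} (hx : InBox S r ρ x) (hK : IsCompact K) (a : ℝ)
    (h : ∀ d ∈ K, ∀ e : ℝ, |e| ≤ r → Real.sin (d - e + a) ≠ 0) :
    UB S K (-1) (fun θ z => 1 / sin (z - x θ + a)) := by
  obtain ⟨δ, hδ, h⟩ := exists_low (f := fun t => Real.sin (t + a)) (by fun_prop) hK r h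
  refine ⟨2 / δ * Real.exp ρ, by positivity, fun θ hθ z hz => ?_⟩
  have h1 := le_norm_sin_add (z - x θ) a
  rw [sub_re] at h1
  have h2 := h _ hz _ (hx θ hθ).1
  have h3 := exp_le_cosh (z - x θ).im
  have h5 := exp_im_le (z := z) (hx θ hθ).2
  have h4 : δ * (Real.exp |z.im| * Real.exp (-ρ) / 2) ≤ ‖sin (z - x θ + a)‖ := by
    refine le_trans ?_ h1
    exact mul_le_mul h2 (by linarith) (by positivity) (abs_nonneg _)
  rw [norm_div, norm_one]
  have h6 : 0 < δ * (Real.exp |z.im| * Real.exp (-ρ) / 2) := by positivity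
  calc 1 / ‖sin (z - x θ + a)‖ ≤ 1 / (δ * (Real.exp |z.im| * Real.exp (-ρ) / 2)) :=
        one_div_le_one_div_of_le h6 h4
    _ = _ := by
        rw [neg_one_mul, Real.exp_neg, Real.exp_neg]
        field_simp

/-- the real parts which keep away from the row poles -/
def NPr (r : ℝ) (K : Set ℝ) : Prop := ∀ d ∈ K, ∀ e : ℝ, |e| ≤ r → NP (d - e)

theorem NPr_pos {r : ℝ} {K : Set ℝ} (h : ∀ d ∈ K, r < d ∧ d < 2 * l - r) : NPr r K := by
  intro d hd e he
  obtain ⟨h1, h2⟩ := abs_le.1 he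
  obtain ⟨h3, h4⟩ := h d hd
  exact NP_pos (by linarith) (by linarith)

theorem NPr_neg {r : ℝ} {K : Set ℝ} (h : ∀ d ∈ K, -(6 * l) + r < d ∧ d < -r) : NPr r K := by
  intro d hd e he
  obtain ⟨h1, h2⟩ := abs_le.1 he
  obtain ⟨h3, h4⟩ := h d hd
  exact NP_neg (by linarith) (by linarith)

/-- the factor of the rows -/
def RR (c : ℂ) {m : ℕ} (x y : Fin m → ℂ) (u : ℂ) : ℂ :=
  c * (∏ i, 1 / sin (u - x i)) * (∏ i, 1 / sin (u - x i - 2 * l)) *
    (∏ j, sin (u - y j + 3 * l) ^ 2)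

theorem GC_RR (c : ℂ) (β : ℝ) {m M : ℕ} (x y : Fin m → ℂ) (W : Fin M → ℂ) (u : ℂ) :
    GC c β x y W u = RR c x y u * phi β (List.ofFn W) u := rfl

theorem ub_RR (c : ℂ) {m : ℕ} {x y : Θ → Fin m → ℂ} (hx : ∀ i, InBox S r ρ fun θ => x θ i)
    (hy : ∀ i, InBox S r ρ fun θ => y θ i) (hK : IsCompact K) (h : NPr r K) :
    UB S K 0 (fun θ u => RR c (x θ) (y θ) u) := by
  have h1 : UB S K _ (fun θ z => ∏ i : Fin m, 1 / sin (z - x θ i + ((0 : ℝ) : ℂ))) :=
    UB.prod Finset.univ fun i _ => ub_inv_sin (hx i) hK 0 fun d hd e he => by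
      rw [add_zero]; exact (h d hd e he).1
  have h2 : UB S K _ (fun θ z => ∏ i : Fin m, 1 / sin (z - x θ i + ((-(2 * l) : ℝ) : ℂ))) :=
    UB.prod Finset.univ fun i _ => ub_inv_sin (hx i) hK (-(2 * l)) fun d hd e he => by
      rw [← sub_eq_add_neg]; exact (h d hd e he).2
  have h3 : UB S K _ (fun θ z => ∏ i : Fin m, sin (z - y θ i + ((3 * l : ℝ) : ℂ)) ^ 2) :=
    UB.prod Finset.univ fun i _ => (ub_sin (hy i) K (3 * l)).pow 2
  have h4 := ((((UB.const S K c).mul h1).mul h2).mul h3).rate (s' := 0) (by push_cast; ring)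
  refine h4.congr fun θ _ z _ => ?_
  unfold RR
  push_cast
  simp only [add_zero, ← sub_eq_add_neg]

end rows

/-! ## the cutoff -/

/-- the real parts which keep away from the poles of `psi` -/
def NQ (β x : ℝ) : Prop := Real.cos (β * x) ≠ 0 ∧ Real.cos (β * (x + l)) ≠ 0

theorem den_fac (β : ℝ) (z : ℂ) : cos (2 * β * z + β * l) + cos (β * l) =
    2 * (cos (β * z) * cos (β * (z + l))) := by
  have e1 : cos (2 * β * z + β * l) =
      cos (β * z) * cos (β * (z + l)) - sin (β * z) * sin (β * (z + l)) := by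
    rw [← Complex.cos_add]; ring_nf
  have e2 : cos (β * l : ℂ) = cos (β * z) * cos (β * (z + l)) + sin (β * z) * sin (β * (z + l)) := by
    rw [show (β * l : ℂ) = β * (z + l) - β * z by ring, Complex.cos_sub]; ring
  rw [e1, e2]
  ring

theorem le_norm_cos (z : ℂ) : |Real.cos z.re| * Real.cosh z.im ≤ ‖cos z‖ := by
  refine le_of_sq_le_sq ?_ (norm_nonneg _)
  rw [norm_cos_sq, mul_pow, sq_abs, Real.cosh_sq]
  nlinarith [Real.cos_sq_le_one z.re, sq_nonneg (Real.sinh z.im)]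

theorem cos_ne_re {z : ℂ} (h : Real.cos z.re ≠ 0) : cos z ≠ 0 := by
  intro h0
  have := le_norm_cos z
  rw [h0, norm_zero] at this
  have h1 := mul_pos (abs_pos.2 h) (Real.cosh_pos z.im)
  linarith

theorem den_ne' {β : ℝ} {z : ℂ} (h : NQ β z.re) : cos (2 * β * z + β * l) + cos (β * l) ≠ 0 := by
  rw [den_fac]
  have h1 : cos (β * z) ≠ 0 := cos_ne_re (by simpa using h.1)
  have h2 : cos (β * (z + l)) ≠ 0 := cos_ne_re (by simpa using h.2)
  exact mul_ne_zero two_ne_zero (mul_ne_zero h1 h2)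

theorem diff_psi' {β : ℝ} {z : ℂ} (h : NQ β z.re) : DifferentiableAt ℂ (psi β) z := by
  unfold psi
  exact DifferentiableAt.div (by fun_prop) (by fun_prop) (den_ne' h)

theorem NQ_of_lt {β x : ℝ} (hβ : 0 < β) (h1 : -(Real.pi / 2) < β * x)
    (h2 : β * (x + l) < Real.pi / 2) : NQ β x := by
  have hl := Bd.l_pos
  have hbl : 0 < β * l := by positivity
  have e : β * (x + l) = β * x + β * l := by ring
  exact ⟨(Real.cos_pos_of_mem_Ioo ⟨h1, by linarith⟩).ne',
    (Real.cos_pos_of_mem_Ioo ⟨by linarith, h2⟩).ne'⟩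

theorem l_four : 4 * l = Real.pi / 2 := by
  unfold l
  ring

/-- for `β ≤ 4 / 3` the strip `(-3 l, 2 l)` contains no pole of `psi` -/
theorem NQ_strip {β x : ℝ} (hβ : 0 < β) (hβ' : β ≤ 4 / 3) (h1 : -(3 * l) < x) (h2 : x < 2 * l) :
    NQ β x := by
  have hl := Bd.l_pos
  have h4 := l_four
  refine NQ_of_lt hβ ?_ ?_
  · rcases le_or_gt 0 x with hx | hx
    · nlinarith [mul_nonneg hβ.le hx]
    · nlinarith
  · rcases le_or_gt 0 (x + l) with hx | hx
    · nlinarith
    · nlinarith [mul_neg_of_pos_of_neg hβ hx]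

section cut

variable {Θ : Type*} {S : Set Θ} {K : Set ℝ} {r ρ : ℝ} {β : ℝ}

/-- the differences of `K` and `[-r, r]` keep away from the poles of `psi` -/
def NQr (β r : ℝ) (K : Set ℝ) : Prop := ∀ d ∈ K, ∀ e : ℝ, |e| ≤ r → NQ β (d - e)

theorem NQr_strip {β r : ℝ} {K : Set ℝ} (hβ : 0 < β) (hβ' : β ≤ 4 / 3)
    (h : ∀ d ∈ K, -(3 * l) + r < d ∧ d < 2 * l - r) : NQr β r K := by
  intro d hd e he
  obtain ⟨h1, h2⟩ := abs_le.1 he
  obtain ⟨h3, h4⟩ := h d hd
  exact NQ_strip hβ hβ' (by linarith) (by linarith)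

theorem ub_one_sub_psi (hβ : 0 < β) {w : Θ → ℂ} (hw : InBox S r ρ w) (hK : IsCompact K)
    (h : NQr β r K) : UB S K (-(2 * β)) (fun θ z => 1 - psi β (z - w θ)) := by
  obtain ⟨δ, hδ, h1⟩ := exists_low (f := fun t => Real.cos (β * t)) (by fun_prop) hK r
    fun d hd e he => (h d hd e he).1
  obtain ⟨ε, hε, h2⟩ := exists_low (f := fun t => Real.cos (β * (t + l))) (by fun_prop) hK r
    fun d hd e he => (h d hd e he).2
  refine ⟨4 / (δ * ε) * Real.exp (2 * β * ρ), by positivity, fun θ hθ z hz => ?_⟩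
  have hn := den_ne' (z := z - w θ) (by rw [sub_re]; exact h _ hz _ (hw θ hθ).1)
  have e : 1 - psi β (z - w θ) = 2 * cos (β * l) / (cos (2 * β * (z - w θ) + β * l) + cos (β * l)) := by
    unfold psi
    rw [eq_div_iff hn, sub_mul, div_mul_cancel₀ _ hn]
    ring
  have hnum : ‖(2 : ℂ) * cos (β * l)‖ ≤ 2 := by
    rw [norm_mul, ← ofReal_mul, ← ofReal_cos, Complex.norm_real, Complex.norm_two]
    have := Real.abs_cos_le_one (β * l)
    rw [Real.norm_eq_abs]; linarith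
  set t := z - w θ with ht
  have b1 : δ * (Real.exp (β * |t.im|) / 2) ≤ ‖cos (β * t)‖ := by
    have k1 := le_norm_cos (β * t)
    have e1 : ((β : ℂ) * t).re = β * t.re := by simp
    have e2 : ((β : ℂ) * t).im = β * t.im := by simp
    rw [e1, e2] at k1
    refine le_trans ?_ k1
    have k2 := h1 _ hz _ (hw θ hθ).1
    have k3 := exp_le_cosh (β * t.im)
    rw [abs_mul, abs_of_pos hβ] at k3
    have k4 : t.re = z.re - (w θ).re := by rw [ht, sub_re]
    rw [k4]
    exact mul_le_mul k2 (by linarith) (by positivity) (abs_nonneg _)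
  have b2 : ε * (Real.exp (β * |t.im|) / 2) ≤ ‖cos (β * (t + l))‖ := by
    have k1 := le_norm_cos (β * (t + l))
    have e1 : ((β : ℂ) * (t + l)).re = β * (t.re + l) := by simp
    have e2 : ((β : ℂ) * (t + l)).im = β * t.im := by simp
    rw [e1, e2] at k1
    refine le_trans ?_ k1
    have k2 := h2 _ hz _ (hw θ hθ).1
    have k3 := exp_le_cosh (β * t.im)
    rw [abs_mul, abs_of_pos hβ] at k3
    have k4 : t.re = z.re - (w θ).re := by rw [ht, sub_re]
    rw [k4]
    exact mul_le_mul k2 (by linarith) (by positivity) (abs_nonneg _)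
  have hden : δ * ε / 2 * Real.exp (2 * β * |t.im|) ≤
      ‖cos (2 * β * t + β * l) + cos (β * l)‖ := by
    rw [den_fac, norm_mul, norm_mul, Complex.norm_two]
    have := mul_le_mul b1 b2 (by positivity) (norm_nonneg _)
    have e3 : Real.exp (2 * β * |t.im|) = Real.exp (β * |t.im|) * Real.exp (β * |t.im|) := by
      rw [← Real.exp_add]; ring_nf
    rw [e3]
    nlinarith
  have hpos : 0 < δ * ε / 2 * Real.exp (2 * β * |t.im|) := by positivity
  show ‖1 - psi β t‖ ≤ _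
  rw [e, norm_div]
  refine (div_le_div₀ (by norm_num) hnum hpos hden).trans ?_
  have h5 : Real.exp (-(2 * β * |t.im|)) ≤ Real.exp (2 * β * ρ) * Real.exp (-(2 * β) * |z.im|) := by
    rw [← Real.exp_add]
    refine Real.exp_le_exp.2 ?_
    have h3 : |z.im| - |(w θ).im| ≤ |t.im| := by rw [ht, sub_im]; exact abs_sub_abs_le_abs_sub _ _
    have h4 := (hw θ hθ).2
    nlinarith
  calc 2 / (δ * ε / 2 * Real.exp (2 * β * |t.im|)) = 4 / (δ * ε) * Real.exp (-(2 * β * |t.im|)) := by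
        rw [Real.exp_neg]
        field_simp
        ring
    _ ≤ 4 / (δ * ε) * (Real.exp (2 * β * ρ) * Real.exp (-(2 * β) * |z.im|)) :=
        mul_le_mul_of_nonneg_left h5 (by positivity)
    _ = _ := by ring

theorem ub_psi (hβ : 0 < β) {w : Θ → ℂ} (hw : InBox S r ρ w) (hK : IsCompact K)
    (h : NQr β r K) : UB S K 0 (fun θ z => psi β (z - w θ)) := by
  have h1 := (UB.const S K 1).sub ((ub_one_sub_psi hβ hw hK h).mono_rate (s' := 0) (by linarith))
  exact h1.congr fun θ _ z _ => by ring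

theorem ub_prod_psi (hβ : 0 < β) {M : ℕ} {W : Θ → Fin M → ℂ} (hW : ∀ i, InBox S r ρ fun θ => W θ i)
    (hK : IsCompact K) (h : NQr β r K) : UB S K 0 (fun θ z => ∏ i, psi β (z - W θ i)) := by
  have h1 : UB S K _ (fun θ z => ∏ i : Fin M, psi β (z - W θ i)) :=
    UB.prod Finset.univ fun i _ => ub_psi hβ (hW i) hK h
  exact h1.rate (by simp)

theorem phi_ofFn (β : ℝ) {M : ℕ} (W : Fin M → ℂ) (u : ℂ) :
    phi β (List.ofFn W) u = 1 - ∏ i, psi β (u - W i) := by
  unfold phi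
  rw [List.map_ofFn, List.prod_ofFn]
  rfl

/-- **The cutoff is exponentially small far away, uniformly in the points.** -/
theorem ub_phi (hβ : 0 < β) {M : ℕ} {W : Θ → Fin M → ℂ} (hW : ∀ i, InBox S r ρ fun θ => W θ i)
    (hK : IsCompact K) (h : NQr β r K) :
    UB S K (-(2 * β)) (fun θ z => phi β (List.ofFn (W θ)) z) := by
  induction M with
  | zero =>
    refine ⟨0, le_rfl, fun θ _ z _ => ?_⟩
    show ‖phi β (List.ofFn (W θ)) z‖ ≤ _
    rw [phi_ofFn]
    simp
  | succ M ih =>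
    have h1 := ub_one_sub_psi hβ (hW 0) hK h
    have h2 := (ub_psi hβ (hW 0) hK h).mul (ih (W := fun θ i => W θ i.succ) fun i => hW i.succ)
    refine (h1.add (h2.rate (by ring))).congr fun θ _ z _ => ?_
    rw [phi_ofFn, phi_ofFn, Fin.prod_univ_succ]
    ring

/-- **The one body function of the rows.** -/
theorem ub_GC (hβ : 0 < β) (c : ℂ) {m M : ℕ} {x y : Θ → Fin m → ℂ} {W : Θ → Fin M → ℂ}
    (hx : ∀ i, InBox S r ρ fun θ => x θ i) (hy : ∀ i, InBox S r ρ fun θ => y θ i)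
    (hW : ∀ i, InBox S r ρ fun θ => W θ i) (hK : IsCompact K) (h1 : NPr r K) (h2 : NQr β r K) :
    UB S K (-(2 * β)) (fun θ z => GC c β (x θ) (y θ) (W θ) z) := by
  have := (ub_RR c hx hy hK h1).mul (ub_phi hβ hW hK h2)
  exact (this.rate (by ring)).congr fun θ _ z _ => GC_RR _ _ _ _ _ _

end cut

/-! ## analyticity -/

section diff

variable {m M : ℕ} {x y : ℂ → Fin m → ℂ} {W : ℂ → Fin M → ℂ} {u : ℂ → ℂ} {s₀ : ℂ} {β : ℝ}

/-- **Analyticity of the row factor along analytic curves of rows and points.** -/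
theorem diff_RR (c : ℂ) (hx : ∀ i, DifferentiableAt ℂ (fun s => x s i) s₀)
    (hy : ∀ i, DifferentiableAt ℂ (fun s => y s i) s₀) (hu : DifferentiableAt ℂ u s₀)
    (h : ∀ i, NP (u s₀ - x s₀ i).re) : DifferentiableAt ℂ (fun s => RR c (x s) (y s) (u s)) s₀ := by
  unfold RR
  have d1 := DifferentiableAt.fun_finsetProd (𝕜 := ℂ) (u := Finset.univ)
    (f := fun (i : Fin m) s => 1 / sin (u s - x s i)) (x := s₀) (fun i _ => by
      have h0 : sin (u s₀ - x s₀ i) ≠ 0 := Bd.sin_ne_zero_of_re (h i).1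
      have h1 : DifferentiableAt ℂ (fun s => u s - x s i) s₀ := hu.sub (hx i)
      exact (differentiableAt_const 1).div h1.csin h0)
  have d2 := DifferentiableAt.fun_finsetProd (𝕜 := ℂ) (u := Finset.univ)
    (f := fun (i : Fin m) s => 1 / sin (u s - x s i - 2 * l)) (x := s₀) (fun i _ => by
      have h0 : sin (u s₀ - x s₀ i - 2 * l) ≠ 0 := Bd.sin_ne_zero_of_re (by
        have := (h i).2
        simpa using this)
      have h1 : DifferentiableAt ℂ (fun s => u s - x s i - 2 * l) s₀ := (hu.sub (hx i)).sub_const _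
      exact (differentiableAt_const 1).div h1.csin h0)
  have d3 := DifferentiableAt.fun_finsetProd (𝕜 := ℂ) (u := Finset.univ)
    (f := fun (i : Fin m) s => sin (u s - y s i + 3 * l) ^ 2) (x := s₀) (fun i _ => by
      have h1 : DifferentiableAt ℂ (fun s => u s - y s i + 3 * l) s₀ := (hu.sub (hy i)).add_const _
      exact h1.csin.pow 2)
  exact (((differentiableAt_const c).mul d1).mul d2).mul d3

/-- **Analyticity of the cutoff.** -/
theorem diff_phi (hW : ∀ i, DifferentiableAt ℂ (fun s => W s i) s₀) (hu : DifferentiableAt ℂ u s₀)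
    (h : ∀ i, NQ β (u s₀ - W s₀ i).re) :
    DifferentiableAt ℂ (fun s => phi β (List.ofFn (W s)) (u s)) s₀ := by
  simp_rw [phi_ofFn]
  have d1 := DifferentiableAt.fun_finsetProd (𝕜 := ℂ) (u := Finset.univ)
    (f := fun (i : Fin M) s => psi β (u s - W s i)) (x := s₀) (fun i _ => by
      have h1 : DifferentiableAt ℂ (fun s => u s - W s i) s₀ := hu.sub (hW i)
      exact DifferentiableAt.comp s₀ (diff_psi' (h i)) h1)
  exact d1.const_sub 1

/-- **Analyticity of the one body function.** -/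
theorem diff_GC (c : ℂ) (hx : ∀ i, DifferentiableAt ℂ (fun s => x s i) s₀)
    (hy : ∀ i, DifferentiableAt ℂ (fun s => y s i) s₀)
    (hW : ∀ i, DifferentiableAt ℂ (fun s => W s i) s₀) (hu : DifferentiableAt ℂ u s₀)
    (h1 : ∀ i, NP (u s₀ - x s₀ i).re) (h2 : ∀ i, NQ β (u s₀ - W s₀ i).re) :
    DifferentiableAt ℂ (fun s => GC c β (x s) (y s) (W s) (u s)) s₀ :=
  (diff_RR c hx hy hu h1).mul (diff_phi hW hu h2)

end diff

/-- the rows `x s i = s a i + I y i` -/
def row {m : ℕ} (a t : Fin m → ℝ) (s : ℂ) (i : Fin m) : ℂ := s * a i + I * t i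

section row

variable {m : ℕ} {a t : Fin m → ℝ} {s : ℂ}

theorem row_re (i : Fin m) : (row a t s i).re = s.re * a i := by simp [row]

theorem row_im (i : Fin m) : (row a t s i).im = s.im * a i + t i := by simp [row]

theorem diff_row (i : Fin m) : DifferentiableAt ℂ (fun s => row a t s i) s := by
  unfold row
  fun_prop

/-- for `|re s| ≤ q`, `|im s| ≤ q'` the rows lie in a box -/
theorem row_box {q q' A T : ℝ} (ha : ∀ i, |a i| ≤ A) (ht : ∀ i, |t i| ≤ T)
    (i : Fin m) : InBox {s : ℂ | |s.re| ≤ q ∧ |s.im| ≤ q'} (q * A) (q' * A + T)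
      (fun s => row a t s i) := by
  rintro s ⟨h1, h2⟩
  have hq := (abs_nonneg _).trans h1
  have hq' := (abs_nonneg _).trans h2
  rw [row_re, row_im]
  constructor
  · rw [abs_mul]
    exact mul_le_mul h1 (ha i) (abs_nonneg _) hq
  · refine (abs_add_le _ _).trans (add_le_add ?_ (ht i))
    rw [abs_mul]
    exact mul_le_mul h2 (ha i) (abs_nonneg _) hq'

end row

/-! ## measurability -/

theorem measurable_RR (c : ℂ) {m : ℕ} (x y : Fin m → ℂ) : Measurable (RR c x y) := by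
  unfold RR
  fun_prop

theorem measurable_GC' (c : ℂ) (β : ℝ) {m M : ℕ} (x y : Fin m → ℂ) (W : Fin M → ℂ) :
    Measurable (GC c β x y W) :=
  (measurable_RR c x y).mul (measurable_phi β _)

end NURow

end
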