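import Pool.Agent.NURow.MoveW

/-!
# Two distinguished objects

A family of objects on `Option (Option ι)`: `none` and `some none` are the two half quanta.  Both
lines are moved, the first one across the poles `w = z i + q i`, `i ∈ S`, the second one across the
poles `w' = z i + q' i`, `i ∈ S'` (`Mv2.move2`), and the integrands of the four families
(`FA_ww`, `FA_Rw`, `FA_Rv`, `FA_RR`).
-/

set_option autoImplicit false
set_option linter.unusedSectionVars false

noncomputable section

open Complex MeasureTheory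
open scoped Classical

namespace NURow

open NUP1 NUP1S NUP1.Bd

variable {ι : Type*} [Fintype ι]

/-- exchange of the two distinguished objects -/
def sw2 : Option (Option ι) → Option (Option ι)
  | none => some none
  | some none => none
  | some (some i) => some (some i)

/-- exchange of the two distinguished objects -/
def sw2E (ι : Type*) : Option (Option ι) ≃ Option (Option ι) where
  toFun := sw2
  invFun := sw2
  left_inv a := by rcases a with _ | _ | a <;> rfl
  right_inv a := by rcases a with _ | _ | a <;> rfl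

/-- a pair function with a pole away from the pole -/
theorem bdd_of_pol {f r : ℂ → ℂ} {a₀ a y q s ρ : ℝ} (hnum : PB (ρ + 1) (Set.Icc (a₀ - y) (a - y)) r)
    (hpol : ∀ z : ℂ, z.re ∈ Set.Icc (a₀ - y) (a - y) → z ≠ q → f z = r z / sin (z - q))
    (hpi : a - a₀ < Real.pi) (hmem : a₀ < y + q ∧ y + q < a) (hs : s ∈ Set.Icc a₀ a)
    (hne : s ≠ y + q) : Bdd {s - y} ρ f := by
  have h1 := hnum.1
  have hmem' : s - y ∈ Set.Icc (a₀ - y) (a - y) := ⟨by linarith [hs.1], by linarith [hs.2]⟩
  have h2 : PB (-1) {s - y} fun z => (sin (z - q))⁻¹ := by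
    refine PB_inv_sinW isCompact_singleton q fun d hd => ?_
    rw [Set.mem_singleton_iff] at hd
    subst hd
    refine sin_ne_real (by linarith [hs.1, hmem.2]) (by linarith [hs.2, hmem.1]) fun h5 => hne ?_
    linarith
  have h3 : Bdd {s - y} (ρ + 1) r :=
    Bdd.mono' h1 (by
      intro d hd
      rw [Set.mem_singleton_iff] at hd
      rw [hd]
      exact hmem')
  obtain ⟨C, hC, h4⟩ := (h3.mul h2.1).rate (s' := ρ) (by ring)
  refine ⟨C, hC, fun z hz => ?_⟩
  have hz' : z.re = s - y := hz
  rw [hpol z (by rw [hz']; exact hmem'), div_eq_mul_inv]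
  · exact h4 z hz
  · intro h5
    apply hne
    rw [h5, ofReal_re] at hz'
    linarith

theorem DecOn.mono_set {κ : ℝ} {K K' : Set ℝ} {g : ℂ → ℂ} (h : DecOn κ K' g) (hK : K ⊆ K') :
    DecOn κ K g := by
  obtain ⟨D, hD⟩ := h
  exact ⟨D, fun z hz => hD z (hK hz)⟩

/-- Data of the moves of two distinguished objects -/
structure Mv2 (G : Option (Option ι) → Option (Option ι) → ℂ → ℂ) (H : Option (Option ι) → ℂ → ℂ)
    (c : Option (Option ι) → ℝ) (Q κ : ℝ) (x : ι → ℝ) (a₀ a b₀ b : ℝ) (S S' : Finset ι)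
    (q q' : ι → ℝ) (r r' : ι → ℂ → ℂ) : Prop where
  hn : ∑ o, c o = Q
  hκ : 0 < κ
  sym : ∀ a b z, G a b z = G b a (-z)
  gm : ∀ a b, Measurable (G a b)
  hm : ∀ o, Measurable (H o)
  le : a₀ ≤ a
  le' : b₀ ≤ b
  pi : a - a₀ < Real.pi
  pi' : b - b₀ < Real.pi
  dec : ∀ i, DecOn (κ + 2 * Q * c (some (some i))) {x i} (H (some (some i)))
  decw : DecOn (κ + 2 * Q * c none) (Set.Icc a₀ a) (H none)
  decv : DecOn (κ + 2 * Q * c (some none)) (Set.Icc b₀ b) (H (some none))
  contw : ContinuousOn (H none) (CS a₀ a)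
  contv : ContinuousOn (H (some none)) (CS b₀ b)
  diffw : DifferentiableOn ℂ (H none) (OS a₀ a)
  diffv : DifferentiableOn ℂ (H (some none)) (OS b₀ b)
  bdd : ∀ i j, i ≠ j → Bdd {x i - x j} (2 * (c (some (some i)) * c (some (some j))))
    (G (some (some i)) (some (some j)))
  ww : PB (2 * (c none * c (some none))) (Set.Icc (a₀ - b) (a - b₀)) (G none (some none))
  reg : ∀ i, i ∉ S → PB (2 * (c none * c (some (some i)))) (Set.Icc (a₀ - x i) (a - x i))
    (G none (some (some i)))
  reg' : ∀ i, i ∉ S' → PB (2 * (c (some none) * c (some (some i))))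
    (Set.Icc (b₀ - x i) (b - x i)) (G (some none) (some (some i)))
  pol : ∀ i ∈ S, ∀ z : ℂ, z.re ∈ Set.Icc (a₀ - x i) (a - x i) → z ≠ q i →
    G none (some (some i)) z = r i z / sin (z - q i)
  pol' : ∀ i ∈ S', ∀ z : ℂ, z.re ∈ Set.Icc (b₀ - x i) (b - x i) → z ≠ q' i →
    G (some none) (some (some i)) z = r' i z / sin (z - q' i)
  num : ∀ i ∈ S, PB (2 * (c none * c (some (some i))) + 1) (Set.Icc (a₀ - x i) (a - x i)) (r i)
  num' : ∀ i ∈ S', PB (2 * (c (some none) * c (some (some i))) + 1)
    (Set.Icc (b₀ - x i) (b - x i)) (r' i)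
  mem : ∀ i ∈ S, a₀ < x i + q i ∧ x i + q i < a
  mem' : ∀ i ∈ S', b₀ < x i + q' i ∧ x i + q' i < b
  inj : ∀ i ∈ S, ∀ j ∈ S, x i + q i = x j + q j → i = j
  inj' : ∀ i ∈ S', ∀ j ∈ S', x i + q' i = x j + q' j → i = j
  disj : ∀ i ∈ S, i ∉ S'

variable {G : Option (Option ι) → Option (Option ι) → ℂ → ℂ} {H : Option (Option ι) → ℂ → ℂ}
  {c : Option (Option ι) → ℝ} {Q κ : ℝ} {x : ι → ℝ} {a₀ a b₀ b : ℝ} {S S' : Finset ι}
  {q q' : ι → ℝ} {r r' : ι → ℂ → ℂ}

/-- the pairs of the second distinguished object on a line -/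
theorem Mv2.bddv (m : Mv2 G H c Q κ x a₀ a b₀ b S S' q q' r r') {y : ℝ} (hy : y ∈ Set.Icc b₀ b)
    (hy' : ∀ i ∈ S', y ≠ x i + q' i) (i : ι) :
    Bdd {y - x i} (2 * (c (some none) * c (some (some i)))) (G (some none) (some (some i))) := by
  by_cases hi : i ∈ S'
  · exact bdd_of_pol (m.num' i hi) (m.pol' i hi) m.pi' (m.mem' i hi) hy (hy' i hi)
  · refine Bdd.mono' (m.reg' i hi).1 ?_
    intro d hd
    rw [Set.mem_singleton_iff] at hd
    rw [hd]
    exact ⟨by linarith [hy.1], by linarith [hy.2]⟩

/-- the move of the first distinguished object -/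
theorem Mv2.toW (m : Mv2 G H c Q κ x a₀ a b₀ b S S' q q' r r') (lt : a₀ < a) {y : ℝ}
    (hy : y ∈ Set.Icc b₀ b) (hy' : ∀ i ∈ S', y ≠ x i + q' i) :
    Mv G H c Q κ (oc y x) a₀ a (S.map Function.Embedding.some) (fun o => o.elim 0 q)
      (fun o => o.elim 0 r) where
  hn := m.hn
  hκ := m.hκ
  sym := m.sym
  gm := m.gm
  hm := m.hm
  lt := lt
  pi := m.pi
  dec i := by
    cases i with
    | none => exact DecOn.mono_set m.decv (Set.singleton_subset_iff.2 hy)
    | some i => exact m.dec i
  dec0 := m.decw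
  cont := m.contw
  diff := m.diffw
  bdd i j hij := by
    cases i with
    | none =>
      cases j with
      | none => exact absurd rfl hij
      | some j => exact m.bddv hy hy' j
    | some i =>
      cases j with
      | none =>
        have h1 := m.bddv hy hy' i
        have h2 : Bdd {x i - y} (2 * (c (some none) * c (some (some i))))
            (G (some (some i)) (some none)) := by
          refine Bdd.transp m.sym ?_
          rwa [neg_sub]
        rw [show 2 * (c (some none) * c (some (some i))) =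
          2 * (c (some (some i)) * c (some none)) by ring] at h2
        exact h2
      | some j => exact m.bdd i j fun h => hij (h ▸ rfl)
  reg i hi := by
    cases i with
    | none =>
      refine m.ww.mono ?_
      rintro d ⟨h1, h2⟩
      simp only [oc_none] at h1 h2
      exact ⟨by linarith [hy.2], by linarith [hy.1]⟩
    | some i => exact m.reg i fun h => hi (Finset.mem_map.2 ⟨i, h, rfl⟩)
  pol i hi := by
    obtain ⟨j, hj, rfl⟩ := Finset.mem_map.1 hi
    exact m.pol j hj
  num i hi := by
    obtain ⟨j, hj, rfl⟩ := Finset.mem_map.1 hi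
    exact m.num j hj
  mem i hi := by
    obtain ⟨j, hj, rfl⟩ := Finset.mem_map.1 hi
    exact m.mem j hj
  inj i hi j hj h := by
    obtain ⟨i', hi', rfl⟩ := Finset.mem_map.1 hi
    obtain ⟨j', hj', rfl⟩ := Finset.mem_map.1 hj
    have := m.inj i' hi' j' hj' h
    rw [this]

theorem Mv2.left_mem (m : Mv2 G H c Q κ x a₀ a b₀ b S S' q q' r r') :
    b₀ ∈ Set.Icc b₀ b ∧ ∀ i ∈ S', b₀ ≠ x i + q' i :=
  ⟨⟨le_rfl, m.le'⟩, fun i hi => (m.mem' i hi).1.ne⟩

theorem Mv2.right_mem (m : Mv2 G H c Q κ x a₀ a b₀ b S S' q q' r r') :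
    b ∈ Set.Icc b₀ b ∧ ∀ i ∈ S', b ≠ x i + q' i :=
  ⟨⟨m.le', le_rfl⟩, fun i hi => (m.mem' i hi).2.ne'⟩

/-- exchange of the two distinguished objects -/
theorem Mv2.swap (m : Mv2 G H c Q κ x a₀ a b₀ b S S' q q' r r') :
    Mv2 (fun u v => G (sw2 u) (sw2 v)) (fun u => H (sw2 u)) (fun u => c (sw2 u)) Q κ x b₀ b a₀ a
      S' S q' q r' r where
  hn := by
    rw [← m.hn]
    exact (sw2E ι).sum_comp c
  hκ := m.hκ
  sym a b z := m.sym _ _ _
  gm a b := m.gm _ _
  hm o := m.hm _
  le := m.le'
  le' := m.le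
  pi := m.pi'
  pi' := m.pi
  dec := m.dec
  decw := m.decv
  decv := m.decw
  contw := m.contv
  contv := m.contw
  diffw := m.diffv
  diffv := m.diffw
  bdd := m.bdd
  ww := by
    have h1 : PB (2 * (c none * c (some none))) (Set.Icc (b₀ - a) (b - a₀))
        fun z => G none (some none) (-z) := by
      refine PB.neg (m.ww.mono ?_)
      rintro _ ⟨y, hy, rfl⟩
      exact ⟨by simp only []; linarith [hy.2], by simp only []; linarith [hy.1]⟩
    have e : (fun z => G none (some none) (-z)) = G (some none) none := by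
      funext z
      rw [m.sym (some none) none]
    rw [e, show 2 * (c none * c (some none)) = 2 * (c (some none) * c none) by ring] at h1
    exact h1
  reg := m.reg'
  reg' := m.reg
  pol := m.pol'
  pol' := m.pol
  num := m.num'
  num' := m.num
  mem := m.mem'
  mem' := m.mem
  inj := m.inj'
  inj' := m.inj
  disj i hi hi' := m.disj i hi' hi

theorem cR_none (c : Option (Option ι) → ℝ) (i : ι) : cR c (some i) none = c (some none) := by
  unfold cR
  rw [if_neg (by simp), add_zero]

theorem cR_ne (c : Option (Option ι) → ℝ) {i j : ι} (h : j ≠ i) :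
    cR c (some i) (some j) = c (some (some j)) := by
  unfold cR
  rw [if_neg (by simpa using h), add_zero]

theorem cR_eq (c : Option (Option ι) → ℝ) (i : ι) :
    cR c (some i) (some i) = c (some (some i)) + c none := by
  unfold cR
  rw [if_pos rfl]

/-- the move of the second distinguished object in a residue family -/
theorem Mv2.toR (m : Mv2 G H c Q κ x a₀ a b₀ b S S' q q' r r') (lt : a₀ < a) (lt' : b₀ < b)
    {i : ι} (hi : i ∈ S) (ρ : ℂ) :
    Mv (gR G (some i) (q i)) (hR H (some i) (q i) ρ) (cR c (some i)) Q κ x b₀ b S' q' r' := by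
  have mw := m.toW lt m.left_mem.1 m.left_mem.2
  have hi' : some i ∈ S.map Function.Embedding.some := Finset.mem_map.2 ⟨i, hi, rfl⟩
  have hmi := m.mem i hi
  have hdisj := m.disj i hi
  have eh : hR H (some i) (q i) ρ none = H (some none) := by
    funext z
    rw [hR_of_ne H (by simp)]
  have eg : ∀ j, j ≠ i → gR G (some i) (q i) none (some j) = G (some none) (some (some j)) := by
    intro j hj
    funext z
    exact gR_of_ne G (by simp) (by simpa using hj) _ _
  refine
    { hn := sum_cR m.hn _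
      hκ := m.hκ
      sym := gR_symm m.sym _ _
      gm := measurable_gR m.gm _ _
      hm := measurable_hR m.hm _ _ _
      lt := lt'
      pi := m.pi'
      dec := fun j => mw.dec_hR hi' ρ (some j)
      dec0 := by rw [eh, cR_none]; exact m.decv
      cont := by rw [eh]; exact m.contv
      diff := by rw [eh]; exact m.diffv
      bdd := fun j k hjk => mw.bdd_gR hi' (j := some j) (k := some k) (by simpa using hjk)
      reg := fun j hj => ?_
      pol := fun j hj => ?_
      num := fun j hj => ?_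
      mem := m.mem'
      inj := m.inj' }
  · by_cases hji : j = i
    · subst hji
      have h1 := m.reg' j hj
      have h2 : PB (2 * (c none * c (some none))) (Set.Icc (b₀ - x j) (b - x j))
          fun z => G none (some none) (-z + q j) := by
        have h3 : PB (2 * (c none * c (some none)))
            ((fun d => -d) '' Set.Icc (b₀ - x j) (b - x j))
            fun z => G none (some none) (z + q j) := by
          refine PB.shiftW (q j) (m.ww.mono ?_)
          rintro _ ⟨_, ⟨y, hy, rfl⟩, rfl⟩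
          simp only []
          exact ⟨by linarith [hy.2], by linarith [hy.1]⟩
        exact h3.neg
      have h3 := h1.mulW h2
      have e : (fun z => G (some none) (some (some j)) z * G none (some none) (-z + q j)) =
          gR G (some j) (q j) none (some j) := by
        funext z
        rw [gR_right G (by simp)]
      rw [e] at h3
      rw [cR_none, cR_eq]
      exact h3.rateW (by ring)
    · rw [eg j hji, cR_none, cR_ne c hji]
      exact m.reg' j hj
  · have hji : j ≠ i := fun h => hdisj (h ▸ hj)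
    rw [eg j hji]
    exact m.pol' j hj
  · have hji : j ≠ i := fun h => hdisj (h ▸ hj)
    rw [cR_none, cR_ne c hji]
    exact m.num' j hj

/-- **Moving the lines of both distinguished objects.** -/
theorem Mv2.move2 (m : Mv2 G H c Q κ x a₀ a b₀ b S S' q q' r r') (lt : a₀ < a) (lt' : b₀ < b) :
    IA G H (oc a₀ (oc b₀ x)) =
      IA G H (oc a (oc b x)) -
      2 * Real.pi * ∑ i ∈ S, IA (gR G (some i) (q i)) (hR H (some i) (q i) (r i (q i))) (oc b x) -
      2 * Real.pi * ∑ j ∈ S', IA (gR (fun u v => G (sw2 u) (sw2 v)) (some j) (q' j))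
        (hR (fun u => H (sw2 u)) (some j) (q' j) (r' j (q' j))) (oc a x) +
      (2 * Real.pi) ^ 2 * ∑ i ∈ S, ∑ j ∈ S', IA (gR (gR G (some i) (q i)) j (q' j))
        (hR (hR H (some i) (q i) (r i (q i))) j (q' j) (r' j (q' j))) x := by
  have h1 := (m.toW lt m.left_mem.1 m.left_mem.2).move
  rw [Finset.sum_map] at h1
  simp only [Function.Embedding.some_apply, Option.elim_some] at h1
  have h2 := (m.swap.toW lt' m.swap.right_mem.1 m.swap.right_mem.2).move
  rw [Finset.sum_map] at h2
  simp only [Function.Embedding.some_apply, Option.elim_some] at h2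
  have e : ∀ y y' : ℝ, IA (fun u v => G (sw2 u) (sw2 v)) (fun u => H (sw2 u)) (oc y (oc y' x)) =
      IA G H (oc y' (oc y x)) := by
    intro y y'
    rw [← IA_equiv (sw2E ι) m.sym H (oc y' (oc y x))]
    congr 1
    funext u
    rcases u with _ | _ | u <;> rfl
  rw [e, e] at h2
  have h3 : ∀ i ∈ S, IA (gR G (some i) (q i)) (hR H (some i) (q i) (r i (q i))) (oc b₀ x) =
      IA (gR G (some i) (q i)) (hR H (some i) (q i) (r i (q i))) (oc b x) -
      2 * Real.pi * ∑ j ∈ S', IA (gR (gR G (some i) (q i)) j (q' j))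
        (hR (hR H (some i) (q i) (r i (q i))) j (q' j) (r' j (q' j))) x := by
    intro i hi
    have := (m.toR lt lt' hi (r i (q i))).move
    rw [← this]
    ring
  rw [Finset.sum_congr rfl h3, Finset.sum_sub_distrib, ← Finset.mul_sum] at h1
  linear_combination h1 * (-1) - h2

/-- **Moving the line of the first distinguished object only.** -/
theorem Mv2.move1 (m : Mv2 G H c Q κ x a₀ a b₀ b S S' q q' r r') (lt : a₀ < a) :
    IA G H (oc a₀ (oc b x)) =
      IA G H (oc a (oc b x)) -
      2 * Real.pi * ∑ i ∈ S, IA (gR G (some i) (q i)) (hR H (some i) (q i) (r i (q i)))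
        (oc b x) := by
  have h1 := (m.toW lt m.right_mem.1 m.right_mem.2).move
  rw [Finset.sum_map] at h1
  simp only [Function.Embedding.some_apply, Option.elim_some] at h1
  linear_combination h1 * (-1)

/-- **Moving the line of the second distinguished object only.** -/
theorem Mv2.move1' (m : Mv2 G H c Q κ x a₀ a b₀ b S S' q q' r r') (lt' : b₀ < b) :
    IA G H (oc a (oc b₀ x)) =
      IA G H (oc a (oc b x)) -
      2 * Real.pi * ∑ j ∈ S', IA (gR (fun u v => G (sw2 u) (sw2 v)) (some j) (q' j))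
        (hR (fun u => H (sw2 u)) (some j) (q' j) (r' j (q' j))) (oc a x) := by
  have h2 := m.swap.move1 lt'
  have e : ∀ y y' : ℝ, IA (fun u v => G (sw2 u) (sw2 v)) (fun u => H (sw2 u)) (oc y (oc y' x)) =
      IA G H (oc y' (oc y x)) := by
    intro y y'
    rw [← IA_equiv (sw2E ι) m.sym H (oc y' (oc y x))]
    congr 1
    funext u
    rcases u with _ | _ | u <;> rfl
  rw [e, e] at h2
  exact h2

/-! ## integrability -/

/-- all pairs of the first distinguished object on a line -/
theorem Mv2.bddw (m : Mv2 G H c Q κ x a₀ a b₀ b S S' q q' r r') {y : ℝ} (hy : y ∈ Set.Icc a₀ a)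
    (hy' : ∀ i ∈ S, y ≠ x i + q i) (i : ι) :
    Bdd {y - x i} (2 * (c none * c (some (some i)))) (G none (some (some i))) :=
  m.swap.bddv hy hy' i

theorem Mv2.integrable (m : Mv2 G H c Q κ x a₀ a b₀ b S S' q q' r r') {y y' : ℝ}
    (hy : y ∈ Set.Icc a₀ a) (hy' : y' ∈ Set.Icc b₀ b) (h : ∀ i ∈ S, y ≠ x i + q i)
    (h' : ∀ i ∈ S', y' ≠ x i + q' i) :
    Integrable (fun t => FA G H (pos (oc y (oc y' x)) t)) (Measure.pi fun _ => volume) := by
  have hb1 := m.bddw hy h
  have hb2 := m.bddv hy' h'
  have hww : Bdd {y - y'} (2 * (c none * c (some none))) (G none (some none)) := by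
    refine Bdd.mono' m.ww.1 ?_
    intro d hd
    rw [Set.mem_singleton_iff] at hd
    rw [hd]
    exact ⟨by linarith [hy.1, hy'.2], by linarith [hy.2, hy'.1]⟩
  refine integrable_FA m.hn m.hκ m.gm m.hm (fun o => ?_) fun o o' hoo => ?_
  · rcases o with _ | _ | i
    · exact DecOn.mono_set m.decw (Set.singleton_subset_iff.2 hy)
    · exact DecOn.mono_set m.decv (Set.singleton_subset_iff.2 hy')
    · exact m.dec i
  · have tr : ∀ {u v : Option (Option ι)} {d s : ℝ}, Bdd {-d} (2 * (c u * c v)) (G u v) →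
        s = 2 * (c v * c u) → Bdd {d} s (G v u) := by
      intro u v d s h1 h2
      rw [h2, show 2 * (c v * c u) = 2 * (c u * c v) by ring]
      exact Bdd.transp m.sym h1
    rcases o with _ | _ | i <;> rcases o' with _ | _ | j
    · exact absurd rfl hoo
    · exact hww
    · exact hb1 j
    · exact tr (by simpa using hww) rfl
    · exact absurd rfl hoo
    · exact hb2 j
    · exact tr (by simpa using hb1 i) rfl
    · exact tr (by simpa using hb2 i) rfl
    · exact m.bdd i j fun h => hoo (h ▸ rfl)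

theorem Mv2.integrable_ww (m : Mv2 G H c Q κ x a₀ a b₀ b S S' q q' r r') :
    Integrable (fun t => FA G H (pos (oc a (oc b x)) t)) (Measure.pi fun _ => volume) :=
  m.integrable ⟨m.le, le_rfl⟩ ⟨m.le', le_rfl⟩ (fun i hi => (m.mem i hi).2.ne')
    fun i hi => (m.mem' i hi).2.ne'

theorem Mv2.integrable_00 (m : Mv2 G H c Q κ x a₀ a b₀ b S S' q q' r r') :
    Integrable (fun t => FA G H (pos (oc a₀ (oc b₀ x)) t)) (Measure.pi fun _ => volume) :=
  m.integrable ⟨le_rfl, m.le⟩ ⟨le_rfl, m.le'⟩ (fun i hi => (m.mem i hi).1.ne)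
    fun i hi => (m.mem' i hi).1.ne

theorem Mv2.integrable_01 (m : Mv2 G H c Q κ x a₀ a b₀ b S S' q q' r r') :
    Integrable (fun t => FA G H (pos (oc a₀ (oc b x)) t)) (Measure.pi fun _ => volume) :=
  m.integrable ⟨le_rfl, m.le⟩ ⟨m.le', le_rfl⟩ (fun i hi => (m.mem i hi).1.ne)
    fun i hi => (m.mem' i hi).2.ne'

theorem Mv2.integrable_10 (m : Mv2 G H c Q κ x a₀ a b₀ b S S' q q' r r') :
    Integrable (fun t => FA G H (pos (oc a (oc b₀ x)) t)) (Measure.pi fun _ => volume) :=
  m.integrable ⟨m.le, le_rfl⟩ ⟨le_rfl, m.le'⟩ (fun i hi => (m.mem i hi).2.ne')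
    fun i hi => (m.mem' i hi).1.ne

theorem Mv2.integrable_Rw (m : Mv2 G H c Q κ x a₀ a b₀ b S S' q q' r r') (lt : a₀ < a) {i : ι}
    (hi : i ∈ S) (ρ : ℂ) : Integrable (fun t => FA (gR G (some i) (q i)) (hR H (some i) (q i) ρ)
      (pos (oc b x) t)) (Measure.pi fun _ => volume) :=
  (m.toW lt m.right_mem.1 m.right_mem.2).integrable_R (Finset.mem_map.2 ⟨i, hi, rfl⟩) ρ

theorem Mv2.integrable_Rv (m : Mv2 G H c Q κ x a₀ a b₀ b S S' q q' r r') (lt' : b₀ < b) {j : ι}
    (hj : j ∈ S') (ρ : ℂ) : Integrable (fun t => FA (gR (fun u v => G (sw2 u) (sw2 v)) (some j)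
      (q' j)) (hR (fun u => H (sw2 u)) (some j) (q' j) ρ) (pos (oc a x) t))
      (Measure.pi fun _ => volume) :=
  m.swap.integrable_Rw lt' hj ρ

theorem Mv2.integrable_RR (m : Mv2 G H c Q κ x a₀ a b₀ b S S' q q' r r') (lt : a₀ < a)
    (lt' : b₀ < b) {i j : ι} (hi : i ∈ S) (hj : j ∈ S') (ρ ρ' : ℂ) :
    Integrable (fun t => FA (gR (gR G (some i) (q i)) j (q' j))
      (hR (hR H (some i) (q i) ρ) j (q' j) ρ') (pos x t)) (Measure.pi fun _ => volume) :=
  (m.toR lt lt' hi ρ).integrable_R hj ρ'

/-! ## the integrands -/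

section integrands

variable (g : ι → ι → ℂ → ℂ) (s s' : ι → ℂ → ℂ) (gw : ℂ → ℂ) (K K' : ℂ → ℂ) (h : ι → ℂ → ℂ)

/-- pair functions of the family with both half quanta -/
def G2O : Option (Option ι) → Option (Option ι) → ℂ → ℂ :=
  gO (gO g s') fun o => o.elim gw s

/-- one body functions of the family with both half quanta -/
def H2O : Option (Option ι) → ℂ → ℂ := hO K (hO K' h)

theorem FA_ww (hsym : ∀ a b z, g a b z = g b a (-z)) (w w' : ℂ) (z : ι → ℂ) :
    FA (G2O g s s' gw) (H2O K K' h) (oc w (oc w' z)) =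
      K w * K' w' * gw (w - w') * ((∏ i, s i (w - z i)) * ∏ i, s' i (w' - z i)) * FA g h z := by
  unfold G2O H2O
  rw [FA_gO (gO_symm hsym s'), FA_gO hsym, Fintype.prod_option]
  simp only [Option.elim_none, Option.elim_some, oc_none, oc_some]
  ring

theorem prod_erase_option {inst : DecidableEq (Option ι)} (i : ι) (f : Option ι → ℂ) :
    ∏ j ∈ @Finset.erase _ inst Finset.univ (some i), f j =
      f none * ∏ j ∈ Finset.univ.erase i, f (some j) := by
  have e : @Finset.erase _ inst (Finset.univ : Finset (Option ι)) (some i) =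
      Finset.cons none ((Finset.univ.erase i).map Function.Embedding.some) (by simp) := by
    ext o
    cases o <;> simp
  rw [e, Finset.prod_cons, Finset.prod_map]
  rfl

theorem FA_Rw (hsym : ∀ a b z, g a b z = g b a (-z)) (i : ι) (q : ℝ) (ρ : ℂ) (w' : ℂ)
    (z : ι → ℂ) :
    FA (gR (G2O g s s' gw) (some i) q) (hR (H2O K K' h) (some i) q ρ) (oc w' z) =
      K (z i + q) * K' w' * gw (z i + q - w') *
        ((ρ * ∏ j ∈ Finset.univ.erase i, s j (z i + q - z j)) * ∏ j, s' j (w' - z j)) *
        FA g h z := by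
  unfold G2O H2O
  rw [FA_RO, prod_erase_option, FA_gO hsym]
  simp only [Option.elim_none, Option.elim_some, oc_none, oc_some]
  ring

theorem FA_Rv (hsym : ∀ a b z, g a b z = g b a (-z)) (j : ι) (q : ℝ) (ρ : ℂ) (w : ℂ)
    (z : ι → ℂ) :
    FA (gR (fun u v => G2O g s s' gw (sw2 u) (sw2 v)) (some j) q)
        (hR (fun u => H2O K K' h (sw2 u)) (some j) q ρ) (oc w z) =
      K w * K' (z j + q) * gw (w - (z j + q)) *
        ((∏ i, s i (w - z i)) * (ρ * ∏ i ∈ Finset.univ.erase j, s' i (z j + q - z i))) *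
        FA g h z := by
  rw [FA_R, prod_erase_option]
  have e1 : FA (fun u v : Option ι => G2O g s s' gw (sw2 (some u)) (sw2 (some v)))
      (fun u => H2O K K' h (sw2 (some u))) (oc w z) = FA (gO g s) (hO K h) (oc w z) := by
    congr 1
    · funext u v ζ
      rcases u with _ | u <;> rcases v with _ | v <;> rfl
    · funext u
      rcases u with _ | u <;> rfl
  rw [e1, FA_gO hsym]
  simp only [G2O, H2O, sw2, gO, hO, Option.elim_none, Option.elim_some, oc_none, oc_some]
  rw [show -(z j + (q : ℂ) - w) = w - (z j + q) by ring]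
  ring

theorem FA_RR {i j : ι} (hij : i ≠ j) (q q' : ℝ) (ρ ρ' : ℂ)
    (z : ι → ℂ) :
    FA (gR (gR (G2O g s s' gw) (some i) q) j q') (hR (hR (H2O K K' h) (some i) q ρ) j q' ρ') z =
      K (z i + q) * K' (z j + q') * gw (z i + q - (z j + q')) *
        ((ρ * ∏ k ∈ Finset.univ.erase i, s k (z i + q - z k)) *
          (ρ' * ∏ k ∈ Finset.univ.erase j, s' k (z j + q' - z k))) * FA g h z := by
  rw [FA_R]
  have e1 : FA (fun u v : ι => gR (G2O g s s' gw) (some i) q (some u) (some v))
      (fun u => hR (H2O K K' h) (some i) q ρ (some u)) z =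
      FA (gR (gO g s) i q) (hR (hO K h) i q ρ) z := by
    congr 1
    · funext u v ζ
      unfold gR
      simp only [Option.some.injEq]
      rfl
    · funext u ζ
      unfold hR
      simp only [Option.some.injEq]
      rfl
  rw [e1, FA_RO]
  have e2 : hR (H2O K K' h) (some i) q ρ none (z j + q') = K' (z j + q') := by
    rw [hR_of_ne _ (by simp)]
    rfl
  have hi : i ∈ (Finset.univ : Finset ι).erase j := Finset.mem_erase.2 ⟨hij, Finset.mem_univ i⟩
  have e3 : ∏ k ∈ Finset.univ.erase j, gR (G2O g s s' gw) (some i) q none (some k)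
      (z j + q' - z k) =
      gw (z i + q - (z j + q')) * ∏ k ∈ Finset.univ.erase j, s' k (z j + q' - z k) := by
    rw [← Finset.mul_prod_erase _ _ hi,
      ← Finset.mul_prod_erase _ (fun k => s' k (z j + q' - z k)) hi]
    have e4 : gR (G2O g s s' gw) (some i) q none (some i) (z j + q' - z i) =
        s' i (z j + q' - z i) * gw (z i + q - (z j + q')) := by
      rw [gR_right _ (by simp)]
      simp only [G2O, gO, Option.elim_none]
      congr 2
      ring
    rw [e4]
    have e5 : ∏ k ∈ (Finset.univ.erase j).erase i, gR (G2O g s s' gw) (some i) q none (some k)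
        (z j + q' - z k) = ∏ k ∈ (Finset.univ.erase j).erase i, s' k (z j + q' - z k) := by
      refine Finset.prod_congr rfl fun k hk => ?_
      rw [gR_of_ne _ (by simp) (by simpa using Finset.ne_of_mem_erase hk)]
      rfl
    rw [e5]
    ring
  rw [e2, e3]
  ring

end integrands

end NURow

end
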