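import Pool.Agent.NURow.Bk1
import Pool.Agent.NURow.StageQ

/-!
# The integrand of a word with two half quanta

`TTw` = integrand of a word (kinds `k`, `k'` of the objects at the positions `z`) with half quanta at
`w`, `w'`, which may be bound to objects `m`, `m'`.  The families of `Mv2` as integrals of `TTw`
(`I00`, `I10`, `I01`, `I11`).
-/

set_option autoImplicit false
set_option linter.unusedSectionVars false

noncomputable section

open Complex MeasureTheory
open scoped Classical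

namespace NURow

open NUP1 NUP1S NUP1.Bd

/-! ## measure preserving equivalences -/

section equivs
variable (ι A B : Type*) [Fintype ι] [Fintype A] [Fintype B]

/-- one line first -/
def eO : ℝ × (ι → ℝ) ≃ᵐ (Option ι → ℝ) := MeasurableEquiv.prodComm.trans (optE ι)

theorem mp_eO : MeasurePreserving (eO ι) (volume.prod (Measure.pi fun _ => volume))
    (Measure.pi fun _ => volume) := mp_optE.comp Measure.measurePreserving_swap

theorem eO_apply (y : ℝ × (ι → ℝ)) : eO ι y = oc y.1 y.2 := rfl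

/-- the second part first -/
def eS : (B → ℝ) × (A → ℝ) ≃ᵐ (A ⊕ B → ℝ) :=
  MeasurableEquiv.prodComm.trans (MeasurableEquiv.sumPiEquivProdPi fun _ => ℝ).symm

theorem mp_eS : MeasurePreserving (eS A B)
    ((Measure.pi fun _ => volume).prod (Measure.pi fun _ => volume))
    (Measure.pi fun _ => volume) :=
  (measurePreserving_sumPiEquivProdPi_symm (X := fun _ : A ⊕ B => ℝ)
    (fun _ => (volume : Measure ℝ))).comp Measure.measurePreserving_swap

theorem eS_apply (y : (B → ℝ) × (A → ℝ)) : eS A B y = Sum.elim y.2 y.1 := by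
  funext u
  rcases u with u | u <;> rfl

/-- one line, the second part, the first part -/
def e1 : (ℝ × (B → ℝ)) × (A → ℝ) ≃ᵐ (Option (A ⊕ B) → ℝ) :=
  MeasurableEquiv.prodAssoc.trans
    (((MeasurableEquiv.refl ℝ).prodCongr (eS A B)).trans (eO (A ⊕ B)))

theorem mp_e1 : MeasurePreserving (e1 A B)
    ((volume.prod (Measure.pi fun _ => volume)).prod (Measure.pi fun _ => volume))
    (Measure.pi fun _ => volume) :=
  (mp_eO (A ⊕ B)).comp (((MeasurePreserving.id volume).prod (mp_eS A B)).comp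
    (measurePreserving_prodAssoc _ _ _))

theorem e1_apply (y : (ℝ × (B → ℝ)) × (A → ℝ)) : e1 A B y = oc y.1.1 (Sum.elim y.2 y.1.2) := by
  funext u
  rcases u with _ | u | u <;> rfl

/-- two lines, the second part, the first part -/
def e2 : ((ℝ × ℝ) × (B → ℝ)) × (A → ℝ) ≃ᵐ (Option (Option (A ⊕ B)) → ℝ) :=
  (MeasurableEquiv.prodAssoc.prodCongr (MeasurableEquiv.refl (A → ℝ))).trans
    (MeasurableEquiv.prodAssoc.trans
      (((MeasurableEquiv.refl ℝ).prodCongr (e1 A B)).trans (eO (Option (A ⊕ B)))))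

theorem mp_e2 : MeasurePreserving (e2 A B)
    (((volume.prod volume).prod (Measure.pi fun _ => volume)).prod (Measure.pi fun _ => volume))
    (Measure.pi fun _ => volume) :=
  (mp_eO (Option (A ⊕ B))).comp (((MeasurePreserving.id volume).prod (mp_e1 A B)).comp
    ((measurePreserving_prodAssoc _ _ _).comp
      ((measurePreserving_prodAssoc _ _ _).prod (MeasurePreserving.id _))))

theorem e2_apply (y : ((ℝ × ℝ) × (B → ℝ)) × (A → ℝ)) :
    e2 A B y = oc y.1.1.1 (oc y.1.1.2 (Sum.elim y.2 y.1.2)) := by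
  funext u
  rcases u with _ | _ | u | u <;> rfl

end equivs

section fub
variable {A X Y : Type*} [Fintype A] [MeasurableSpace X] [MeasurableSpace Y] {μ : Measure X}
  {ν : Measure Y} [SFinite μ]

/-- Fubini along a measure preserving equivalence -/
theorem fub (e : X × (A → ℝ) ≃ᵐ Y)
    (he : MeasurePreserving e (μ.prod (Measure.pi fun _ => volume)) ν) {f : Y → ℂ}
    (hf : Integrable f ν) :
    Integrable (fun y => ∫ t, f (e (y, t)) ∂(Measure.pi fun _ => volume)) μ ∧
      ∫ y, f y ∂ν = ∫ y, (∫ t, f (e (y, t)) ∂(Measure.pi fun _ => volume)) ∂μ := by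
  have h1 := (he.integrable_comp_emb e.measurableEmbedding).2 hf
  refine ⟨h1.integral_prod_left, ?_⟩
  rw [← he.integral_comp' f]
  exact integral_prod _ h1

end fub

/-! ## the integrand of a word -/

/-- spectator functions: species, kind, difference of the positions -/
abbrev Sp : Type := Bool → Option O3 → ℂ → ℂ

/-- one body functions of a species with the spectators of two half quanta -/
def XS (c : Bool) (X : Option O3 → ℂ → ℂ) (S S' : Sp) (w w' : ℂ) (k : Option O3) (z : ℂ) : ℂ :=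
  X k z * (S c k (w - z) * S' c k (w' - z))

section word
variable {p p' : ℕ}

/-- spectator functions of the objects -/
def spB (S : Sp) (k : Fin p → O3) (k' : Fin p' → O3) : Fin p ⊕ Fin p' → ℂ → ℂ :=
  Sum.elim (fun i => S true (some (k i))) (fun i => S false (some (k' i)))

/-- spectator functions of the quanta -/
def spA (S : Sp) (q q' : ℕ) : Fin q ⊕ Fin q' → ℂ → ℂ :=
  Sum.elim (fun _ => S true none) (fun _ => S false none)

/-- value of the spectator of a half quantum at `w`, bound to the object `m`, on the object `j` -/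
def spV (S : Sp) (ρ : ℂ) (k : Fin p → O3) (k' : Fin p' → O3) (w : ℂ)
    (m : Option (Fin p ⊕ Fin p')) (j : Fin p ⊕ Fin p') (z : ℂ) : ℂ :=
  if m = some j then ρ else spB S k k' j (w - z)

/-- **the integrand of a word with two half quanta** -/
def TTw (X Y : Option O3 → ℂ → ℂ) (S S' : Sp) (ρ ρ' : ℂ) (α : ℝ) (n n' : ℕ) (k : Fin p → O3)
    (k' : Fin p' → O3) (w w' : ℂ) (m m' : Option (Fin p ⊕ Fin p'))
    (z : Fin p ⊕ Fin p' → ℂ) : ℂ :=
  (∏ i, wt (ob3 (k i))) * (∏ i, wt (ob3 (k' i))) *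
    (Fg (o3 k k') (fun j v => h3 X Y k k' j v *
      (spV S ρ k k' w m j v * spV S' ρ' k k' w' m' j v)) z *
      gas (nA n k) (nA n' k') α (fld (o3 k k') z (true, .A) (XS true X S S' w w' none))
        (fld (o3 k k') z (false, .A) (XS false Y S S' w w' none)))

theorem spV_none (S : Sp) (ρ : ℂ) (k : Fin p → O3) (k' : Fin p' → O3) (w : ℂ)
    (j : Fin p ⊕ Fin p') (z : ℂ) : spV S ρ k k' w none j z = spB S k k' j (w - z) := by
  unfold spV
  rw [if_neg (by simp)]

/-- half quanta which are not bound -/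
theorem termQ_TTw (X Y : Option O3 → ℂ → ℂ) (S S' : Sp) (ρ ρ' : ℂ) (α : ℝ) (n n' : ℕ)
    (k : Fin p → O3) (k' : Fin p' → O3) (w w' : ℂ) (x : Fin p → ℝ) (x' : Fin p' → ℝ) :
    termQ (XS true X S S' w w') (XS false Y S S' w w') α n n' k k' x x' =
      ∫ t, TTw X Y S S' ρ ρ' α n n' k k' w w' none none (pos (Sum.elim x x') t)
        ∂(Measure.pi fun _ => volume) := by
  unfold termQ
  rw [← integral_const_mul]
  refine integral_congr_ae (Filter.Eventually.of_forall fun t => ?_)
  simp only [TTw]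
  congr 2
  congr 1
  funext j v
  rw [spV_none, spV_none]
  rcases j with j | j <;> rfl

/-- coefficient of a word -/
def cW (n n' : ℕ) (k : Fin p → O3) (k' : Fin p' → O3) : ℂ :=
  (∏ i, wt (ob3 (k i))) * (∏ i, wt (ob3 (k' i))) *
    ((((nA n k).factorial : ℕ) : ℂ)⁻¹ * (((nA n' k').factorial : ℕ) : ℂ)⁻¹ *
      ((2 * Real.pi : ℂ)⁻¹ ^ (nA n k) * (2 * Real.pi : ℂ)⁻¹ ^ (nA n' k')))

/-- species and types of quanta and objects -/
def oAB (q q' : ℕ) (k : Fin p → O3) (k' : Fin p' → O3) :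
    (Fin q ⊕ Fin q') ⊕ (Fin p ⊕ Fin p') → CO :=
  Sum.elim (oo (fun _ => Ob.A) (fun _ => Ob.A)) (o3 k k')

/-- pair functions of quanta and objects -/
def gAB (q q' : ℕ) (k : Fin p → O3) (k' : Fin p' → O3)
    (u v : (Fin q ⊕ Fin q') ⊕ (Fin p ⊕ Fin p')) : ℂ → ℂ :=
  gz (oAB q q' k k' u) (oAB q q' k k' v)

theorem gAB_symm (q q' : ℕ) (k : Fin p → O3) (k' : Fin p' → O3)
    (u v : (Fin q ⊕ Fin q') ⊕ (Fin p ⊕ Fin p')) (z : ℂ) :
    gAB q q' k k' u v z = gAB q q' k k' v u (-z) := gz_symm _ _ _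

/-- one body functions of the quanta -/
def hA (X Y : Option O3 → ℂ → ℂ) (q q' : ℕ) : Fin q ⊕ Fin q' → ℂ → ℂ :=
  Sum.elim (fun _ => X none) (fun _ => Y none)

/-- one body functions of quanta and objects -/
def hAB (X Y : Option O3 → ℂ → ℂ) (q q' : ℕ) (k : Fin p → O3) (k' : Fin p' → O3) :
    (Fin q ⊕ Fin q') ⊕ (Fin p ⊕ Fin p') → ℂ → ℂ :=
  Sum.elim (hA X Y q q') (h3 X Y k k')

/-- spectator functions of quanta and objects -/
def sAB (S : Sp) (q q' : ℕ) (k : Fin p → O3) (k' : Fin p' → O3) :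
    (Fin q ⊕ Fin q') ⊕ (Fin p ⊕ Fin p') → ℂ → ℂ :=
  Sum.elim (spA S q q') (spB S k k')

theorem Fg_mul {ι : Type*} [Fintype ι] (o : ι → CO) (h b : ι → ℂ → ℂ) (z : ι → ℂ) :
    Fg o (fun i v => h i v * b i v) z = (∏ i, b i (z i)) * Fg o h z := by
  unfold Fg
  rw [Finset.prod_mul_distrib]
  ring

/-- separation of quanta and objects, with factors -/
theorem split_V {A B : Type*} [Fintype A] [Fintype B] (oA : A → CO) (oB : B → CO)
    (hA : A → ℂ → ℂ) (hB : B → ℂ → ℂ) (a a' : A → ℂ → ℂ) (b b' : B → ℂ → ℂ) (zA : A → ℂ)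
    (zB : B → ℂ) :
    (((∏ i, a i (zA i)) * ∏ j, b j (zB j)) * ((∏ i, a' i (zA i)) * ∏ j, b' j (zB j))) *
      Fg (Sum.elim oA oB) (Sum.elim hA hB) (Sum.elim zA zB) =
    Fg oB (fun j v => hB j v * (b j v * b' j v)) zB *
      Fg oA (fun i => fld oB zB (oA i) (fun v => hA i v * (a i v * a' i v))) zA := by
  rw [Fg_split, Fg_mul]
  have e : (fun i => fld oB zB (oA i) (fun v => hA i v * (a i v * a' i v))) =
      fun i v => fld oB zB (oA i) (hA i) v * (a i v * a' i v) := by
    funext i v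
    unfold fld
    ring
  rw [e, Fg_mul, Finset.prod_mul_distrib, Finset.prod_mul_distrib]
  ring

/-- **`TTw` as the integral over the quanta** -/
theorem TTw_eq (X Y : Option O3 → ℂ → ℂ) (S S' : Sp) (ρ ρ' : ℂ) (α : ℝ) (n n' : ℕ)
    (k : Fin p → O3) (k' : Fin p' → O3) (w w' : ℂ) (m m' : Option (Fin p ⊕ Fin p'))
    (z : Fin p ⊕ Fin p' → ℂ) :
    TTw X Y S S' ρ ρ' α n n' k k' w w' m m' z = cW n n' k k' *
      ∫ t, (((∏ i, spA S (nA n k) (nA n' k') i (w - pos (fun _ => α) t i)) *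
          ∏ j, spV S ρ k k' w m j (z j)) *
        ((∏ i, spA S' (nA n k) (nA n' k') i (w' - pos (fun _ => α) t i)) *
          ∏ j, spV S' ρ' k k' w' m' j (z j))) *
        FA (gAB (nA n k) (nA n' k') k k') (hAB X Y (nA n k) (nA n' k') k k')
          (Sum.elim (pos (fun _ => α) t) z) ∂(Measure.pi fun _ => volume) := by
  have key : ∀ t, (((∏ i, spA S (nA n k) (nA n' k') i (w - pos (fun _ => α) t i)) *
          ∏ j, spV S ρ k k' w m j (z j)) *
        ((∏ i, spA S' (nA n k) (nA n' k') i (w' - pos (fun _ => α) t i)) *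
          ∏ j, spV S' ρ' k k' w' m' j (z j))) *
        FA (gAB (nA n k) (nA n' k') k k') (hAB X Y (nA n k) (nA n' k') k k')
          (Sum.elim (pos (fun _ => α) t) z) =
      Fg (o3 k k') (fun j v => h3 X Y k k' j v *
        (spV S ρ k k' w m j v * spV S' ρ' k k' w' m' j v)) z *
      Fg (oo (fun _ : Fin (nA n k) => Ob.A) (fun _ : Fin (nA n' k') => Ob.A))
        (Sum.elim (fun _ => fld (o3 k k') z (true, .A) (XS true X S S' w w' none))
          (fun _ => fld (o3 k k') z (false, .A) (XS false Y S S' w w' none)))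
        (pos (fun _ => α) t) := by
    intro t
    have h := split_V (oo (fun _ : Fin (nA n k) => Ob.A) (fun _ : Fin (nA n' k') => Ob.A))
      (o3 k k') (hA X Y (nA n k) (nA n' k')) (h3 X Y k k')
      (fun i v => spA S (nA n k) (nA n' k') i (w - v))
      (fun i v => spA S' (nA n k) (nA n' k') i (w' - v))
      (fun j v => spV S ρ k k' w m j v) (fun j v => spV S' ρ' k k' w' m' j v)
      (pos (fun _ => α) t) z
    have e : (fun i => fld (o3 k k') z
        (oo (fun _ : Fin (nA n k) => Ob.A) (fun _ : Fin (nA n' k') => Ob.A) i)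
        (fun v => hA X Y (nA n k) (nA n' k') i v * (spA S (nA n k) (nA n' k') i (w - v) *
          spA S' (nA n k) (nA n' k') i (w' - v)))) =
        Sum.elim (fun _ => fld (o3 k k') z (true, .A) (XS true X S S' w w' none))
          (fun _ => fld (o3 k k') z (false, .A) (XS false Y S S' w w' none)) := by
      funext i
      rcases i with i | i <;> rfl
    rw [e] at h
    exact h
  simp_rw [key]
  rw [integral_const_mul]
  unfold TTw gas cW Ig
  ring

/-! ## the four families -/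

section fam
variable (X Y : Option O3 → ℂ → ℂ) (S S' : Sp) (gw : ℂ → ℂ) (K K' : ℂ → ℂ) (α : ℝ) (n n' : ℕ)
  (k : Fin p → O3) (k' : Fin p' → O3)

/-- pair functions of the total family -/
abbrev Gt : Option (Option ((Fin (nA n k) ⊕ Fin (nA n' k')) ⊕ (Fin p ⊕ Fin p'))) →
    Option (Option ((Fin (nA n k) ⊕ Fin (nA n' k')) ⊕ (Fin p ⊕ Fin p'))) → ℂ → ℂ :=
  G2O (gAB (nA n k) (nA n' k') k k') (sAB S (nA n k) (nA n' k') k k')
    (sAB S' (nA n k) (nA n' k') k k') gw

/-- one body functions of the total family -/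
abbrev Ht : Option (Option ((Fin (nA n k) ⊕ Fin (nA n' k')) ⊕ (Fin p ⊕ Fin p'))) → ℂ → ℂ :=
  H2O K K' (hAB X Y (nA n k) (nA n' k') k k')

/-- prefactor -/
def Pre (w w' : ℂ) : ℂ := K w * K' w' * gw (w - w')

theorem prod_none (S : Sp) (ρ w : ℂ) (zA : Fin (nA n k) ⊕ Fin (nA n' k') → ℂ)
    (zB : Fin p ⊕ Fin p' → ℂ) :
    ∏ u, sAB S (nA n k) (nA n' k') k k' u (w - Sum.elim zA zB u) =
      (∏ i, spA S (nA n k) (nA n' k') i (w - zA i)) *
        ∏ j, spV S ρ k k' w none j (zB j) := by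
  rw [Fintype.prod_sum_type]
  simp only [spV_none]
  rfl

theorem prod_some (S : Sp) (ρ w : ℂ) (m : Fin p ⊕ Fin p')
    (zA : Fin (nA n k) ⊕ Fin (nA n' k') → ℂ) (zB : Fin p ⊕ Fin p' → ℂ)
    {inst : DecidableEq ((Fin (nA n k) ⊕ Fin (nA n' k')) ⊕ (Fin p ⊕ Fin p'))} :
    ρ * ∏ u ∈ @Finset.erase _ inst Finset.univ (Sum.inr m),
        sAB S (nA n k) (nA n' k') k k' u (w - Sum.elim zA zB u) =
      (∏ i, spA S (nA n k) (nA n' k') i (w - zA i)) *
        ∏ j, spV S ρ k k' w (some m) j (zB j) := by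
  have h1 : ∀ f : (Fin (nA n k) ⊕ Fin (nA n' k')) ⊕ (Fin p ⊕ Fin p') → ℂ,
      ρ * ∏ u ∈ @Finset.erase _ inst Finset.univ (Sum.inr m), f u =
        ∏ u, if u = Sum.inr m then ρ else f u := by
    intro f
    rw [← @Finset.mul_prod_erase _ _ _ inst Finset.univ
      (fun u => if u = Sum.inr m then ρ else f u) (Sum.inr m) (Finset.mem_univ _), if_pos rfl]
    congr 1
    refine Finset.prod_congr rfl fun u hu => ?_
    rw [if_neg (@Finset.ne_of_mem_erase _ inst _ _ _ hu)]
  rw [h1, Fintype.prod_sum_type]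
  congr 1
  · exact Finset.prod_congr rfl fun j _ => if_neg (by simp)
  refine Finset.prod_congr rfl fun j _ => ?_
  unfold spV
  by_cases h : m = j
  · rw [if_pos (by rw [h]), if_pos (by rw [h])]
  · rw [if_neg (by simpa using fun h' => h h'.symm), if_neg (by simpa using h)]
    rfl

variable {xB : Fin p ⊕ Fin p' → ℝ} {a b : ℝ}

theorem pos_ocS (s : ℝ) (tA : Fin (nA n k) ⊕ Fin (nA n' k') → ℝ) (tB : Fin p ⊕ Fin p' → ℝ) :
    pos (oc a (Sum.elim (fun _ => α) xB)) (oc s (Sum.elim tA tB)) =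
      oc (vl a s) (Sum.elim (pos (fun _ => α) tA) (pos xB tB)) := by
  rw [pos_oc]
  congr 1
  exact pos_elim _ _ _ _

/-- **both half quanta free** -/
theorem I00 (ρ ρ' : ℂ)
    (hI : Integrable (fun t => FA (Gt S S' gw n n' k k') (Ht X Y K K' n n' k k')
      (pos (oc a (oc b (Sum.elim (fun _ => α) xB))) t)) (Measure.pi fun _ => volume)) :
    Integrable (fun y : (ℝ × ℝ) × (Fin p ⊕ Fin p' → ℝ) => Pre gw K K' (vl a y.1.1) (vl b y.1.2) *
      TTw X Y S S' ρ ρ' α n n' k k' (vl a y.1.1) (vl b y.1.2) none none (pos xB y.2))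
      ((volume.prod volume).prod (Measure.pi fun _ => volume)) ∧
    cW n n' k k' * IA (Gt S S' gw n n' k k') (Ht X Y K K' n n' k k')
      (oc a (oc b (Sum.elim (fun _ => α) xB))) =
    ∫ y : (ℝ × ℝ) × (Fin p ⊕ Fin p' → ℝ), Pre gw K K' (vl a y.1.1) (vl b y.1.2) *
      TTw X Y S S' ρ ρ' α n n' k k' (vl a y.1.1) (vl b y.1.2) none none (pos xB y.2)
      ∂((volume.prod volume).prod (Measure.pi fun _ => volume)) := by
  obtain ⟨h1, h2⟩ := fub (e2 _ _) (mp_e2 _ _) hI
  have key : ∀ y : (ℝ × ℝ) × (Fin p ⊕ Fin p' → ℝ),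
      cW n n' k k' * ∫ t, FA (Gt S S' gw n n' k k') (Ht X Y K K' n n' k k')
        (pos (oc a (oc b (Sum.elim (fun _ => α) xB))) (e2 _ _ (y, t)))
        ∂(Measure.pi fun _ => volume) =
      Pre gw K K' (vl a y.1.1) (vl b y.1.2) *
        TTw X Y S S' ρ ρ' α n n' k k' (vl a y.1.1) (vl b y.1.2) none none (pos xB y.2) := by
    intro y
    rw [TTw_eq, ← mul_assoc, mul_comm (Pre gw K K' _ _) (cW n n' k k'), mul_assoc,
      ← integral_const_mul (Pre gw K K' (vl a y.1.1) (vl b y.1.2))]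
    congr 1
    refine integral_congr_ae (Filter.Eventually.of_forall fun t => ?_)
    simp only []
    rw [e2_apply, pos_oc, pos_ocS, FA_ww _ _ _ _ _ _ _ (gAB_symm _ _ _ _),
      prod_none n n' k k' S ρ, prod_none n n' k k' S' ρ']
    unfold Pre
    ring
  constructor
  · refine (h1.const_mul (cW n n' k k')).congr (Filter.Eventually.of_forall fun y => ?_)
    exact key y
  · unfold IA
    rw [h2, ← integral_const_mul]
    exact integral_congr_ae (Filter.Eventually.of_forall key)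

/-- **the first half quantum bound to `i`** -/
theorem I10 (i : Fin p ⊕ Fin p') (q : ℝ) (ρ ρ' : ℂ)
    (hI : Integrable (fun t => FA (gR (Gt S S' gw n n' k k') (some (Sum.inr i)) q)
      (hR (Ht X Y K K' n n' k k') (some (Sum.inr i)) q ρ)
      (pos (oc b (Sum.elim (fun _ => α) xB)) t)) (Measure.pi fun _ => volume)) :
    Integrable (fun y : ℝ × (Fin p ⊕ Fin p' → ℝ) =>
      Pre gw K K' (pos xB y.2 i + q) (vl b y.1) *
      TTw X Y S S' ρ ρ' α n n' k k' (pos xB y.2 i + q) (vl b y.1) (some i) none (pos xB y.2))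
      (volume.prod (Measure.pi fun _ => volume)) ∧
    cW n n' k k' * IA (gR (Gt S S' gw n n' k k') (some (Sum.inr i)) q)
      (hR (Ht X Y K K' n n' k k') (some (Sum.inr i)) q ρ) (oc b (Sum.elim (fun _ => α) xB)) =
    ∫ y : ℝ × (Fin p ⊕ Fin p' → ℝ), Pre gw K K' (pos xB y.2 i + q) (vl b y.1) *
      TTw X Y S S' ρ ρ' α n n' k k' (pos xB y.2 i + q) (vl b y.1) (some i) none (pos xB y.2)
      ∂(volume.prod (Measure.pi fun _ => volume)) := by
  obtain ⟨h1, h2⟩ := fub (e1 _ _) (mp_e1 _ _) hI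
  have key : ∀ y : ℝ × (Fin p ⊕ Fin p' → ℝ),
      cW n n' k k' * ∫ t, FA (gR (Gt S S' gw n n' k k') (some (Sum.inr i)) q)
        (hR (Ht X Y K K' n n' k k') (some (Sum.inr i)) q ρ)
        (pos (oc b (Sum.elim (fun _ => α) xB)) (e1 _ _ (y, t)))
        ∂(Measure.pi fun _ => volume) =
      Pre gw K K' (pos xB y.2 i + q) (vl b y.1) *
        TTw X Y S S' ρ ρ' α n n' k k' (pos xB y.2 i + q) (vl b y.1) (some i) none
          (pos xB y.2) := by
    intro y
    rw [TTw_eq, ← mul_assoc, mul_comm (Pre gw K K' _ _) (cW n n' k k'), mul_assoc,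
      ← integral_const_mul (Pre gw K K' (pos xB y.2 i + q) (vl b y.1))]
    congr 1
    refine integral_congr_ae (Filter.Eventually.of_forall fun t => ?_)
    simp only []
    rw [e1_apply, pos_ocS, FA_Rw _ _ _ _ _ _ _ (gAB_symm _ _ _ _)]
    simp only [Sum.elim_inr]
    rw [prod_some n n' k k' S ρ, prod_none n n' k k' S' ρ']
    unfold Pre
    ring
  constructor
  · refine (h1.const_mul (cW n n' k k')).congr (Filter.Eventually.of_forall fun y => ?_)
    exact key y
  · unfold IA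
    rw [h2, ← integral_const_mul]
    exact integral_congr_ae (Filter.Eventually.of_forall key)

/-- **the second half quantum bound to `j`** -/
theorem I01 (j : Fin p ⊕ Fin p') (q : ℝ) (ρ ρ' : ℂ)
    (hI : Integrable (fun t => FA
      (gR (fun u v => Gt S S' gw n n' k k' (sw2 u) (sw2 v)) (some (Sum.inr j)) q)
      (hR (fun u => Ht X Y K K' n n' k k' (sw2 u)) (some (Sum.inr j)) q ρ')
      (pos (oc a (Sum.elim (fun _ => α) xB)) t)) (Measure.pi fun _ => volume)) :
    Integrable (fun y : ℝ × (Fin p ⊕ Fin p' → ℝ) =>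
      Pre gw K K' (vl a y.1) (pos xB y.2 j + q) *
      TTw X Y S S' ρ ρ' α n n' k k' (vl a y.1) (pos xB y.2 j + q) none (some j) (pos xB y.2))
      (volume.prod (Measure.pi fun _ => volume)) ∧
    cW n n' k k' * IA
      (gR (fun u v => Gt S S' gw n n' k k' (sw2 u) (sw2 v)) (some (Sum.inr j)) q)
      (hR (fun u => Ht X Y K K' n n' k k' (sw2 u)) (some (Sum.inr j)) q ρ')
      (oc a (Sum.elim (fun _ => α) xB)) =
    ∫ y : ℝ × (Fin p ⊕ Fin p' → ℝ), Pre gw K K' (vl a y.1) (pos xB y.2 j + q) *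
      TTw X Y S S' ρ ρ' α n n' k k' (vl a y.1) (pos xB y.2 j + q) none (some j) (pos xB y.2)
      ∂(volume.prod (Measure.pi fun _ => volume)) := by
  obtain ⟨h1, h2⟩ := fub (e1 _ _) (mp_e1 _ _) hI
  have key : ∀ y : ℝ × (Fin p ⊕ Fin p' → ℝ),
      cW n n' k k' * ∫ t, FA
        (gR (fun u v => Gt S S' gw n n' k k' (sw2 u) (sw2 v)) (some (Sum.inr j)) q)
        (hR (fun u => Ht X Y K K' n n' k k' (sw2 u)) (some (Sum.inr j)) q ρ')
        (pos (oc a (Sum.elim (fun _ => α) xB)) (e1 _ _ (y, t)))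
        ∂(Measure.pi fun _ => volume) =
      Pre gw K K' (vl a y.1) (pos xB y.2 j + q) *
        TTw X Y S S' ρ ρ' α n n' k k' (vl a y.1) (pos xB y.2 j + q) none (some j)
          (pos xB y.2) := by
    intro y
    rw [TTw_eq, ← mul_assoc, mul_comm (Pre gw K K' _ _) (cW n n' k k'), mul_assoc,
      ← integral_const_mul (Pre gw K K' (vl a y.1) (pos xB y.2 j + q))]
    congr 1
    refine integral_congr_ae (Filter.Eventually.of_forall fun t => ?_)
    simp only []
    rw [e1_apply, pos_ocS, FA_Rv _ _ _ _ _ _ _ (gAB_symm _ _ _ _)]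
    simp only [Sum.elim_inr]
    rw [prod_none n n' k k' S ρ, prod_some n n' k k' S' ρ']
    unfold Pre
    ring
  constructor
  · refine (h1.const_mul (cW n n' k k')).congr (Filter.Eventually.of_forall fun y => ?_)
    exact key y
  · unfold IA
    rw [h2, ← integral_const_mul]
    exact integral_congr_ae (Filter.Eventually.of_forall key)

/-- **both half quanta bound** -/
theorem I11 {i j : Fin p ⊕ Fin p'} (hij : i ≠ j) (q q' : ℝ) (ρ ρ' : ℂ)
    (hI : Integrable (fun t => FA
      (gR (gR (Gt S S' gw n n' k k') (some (Sum.inr i)) q) (Sum.inr j) q')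
      (hR (hR (Ht X Y K K' n n' k k') (some (Sum.inr i)) q ρ) (Sum.inr j) q' ρ')
      (pos (Sum.elim (fun _ => α) xB) t)) (Measure.pi fun _ => volume)) :
    Integrable (fun y : Fin p ⊕ Fin p' → ℝ =>
      Pre gw K K' (pos xB y i + q) (pos xB y j + q') *
      TTw X Y S S' ρ ρ' α n n' k k' (pos xB y i + q) (pos xB y j + q') (some i) (some j)
        (pos xB y)) (Measure.pi fun _ => volume) ∧
    cW n n' k k' * IA
      (gR (gR (Gt S S' gw n n' k k') (some (Sum.inr i)) q) (Sum.inr j) q')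
      (hR (hR (Ht X Y K K' n n' k k') (some (Sum.inr i)) q ρ) (Sum.inr j) q' ρ')
      (Sum.elim (fun _ => α) xB) =
    ∫ y : Fin p ⊕ Fin p' → ℝ, Pre gw K K' (pos xB y i + q) (pos xB y j + q') *
      TTw X Y S S' ρ ρ' α n n' k k' (pos xB y i + q) (pos xB y j + q') (some i) (some j)
        (pos xB y) ∂(Measure.pi fun _ => volume) := by
  obtain ⟨h1, h2⟩ := fub (eS _ _) (mp_eS _ _) hI
  have hij' : (Sum.inr i : (Fin (nA n k) ⊕ Fin (nA n' k')) ⊕ (Fin p ⊕ Fin p')) ≠ Sum.inr j :=
    fun h => hij (Sum.inr.inj h)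
  have key : ∀ y : Fin p ⊕ Fin p' → ℝ,
      cW n n' k k' * ∫ t, FA
        (gR (gR (Gt S S' gw n n' k k') (some (Sum.inr i)) q) (Sum.inr j) q')
        (hR (hR (Ht X Y K K' n n' k k') (some (Sum.inr i)) q ρ) (Sum.inr j) q' ρ')
        (pos (Sum.elim (fun _ => α) xB) (eS _ _ (y, t)))
        ∂(Measure.pi fun _ => volume) =
      Pre gw K K' (pos xB y i + q) (pos xB y j + q') *
        TTw X Y S S' ρ ρ' α n n' k k' (pos xB y i + q) (pos xB y j + q') (some i) (some j)
          (pos xB y) := by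
    intro y
    rw [TTw_eq, ← mul_assoc, mul_comm (Pre gw K K' _ _) (cW n n' k k'), mul_assoc,
      ← integral_const_mul (Pre gw K K' (pos xB y i + q) (pos xB y j + q'))]
    congr 1
    refine integral_congr_ae (Filter.Eventually.of_forall fun t => ?_)
    simp only []
    rw [eS_apply, pos_elim, FA_RR _ _ _ _ _ _ _ hij']
    simp only [Sum.elim_inr]
    rw [prod_some n n' k k' S ρ, prod_some n n' k k' S' ρ']
    unfold Pre
    ring
  constructor
  · refine (h1.const_mul (cW n n' k k')).congr (Filter.Eventually.of_forall fun y => ?_)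
    exact key y
  · unfold IA
    rw [h2, ← integral_const_mul]
    exact integral_congr_ae (Filter.Eventually.of_forall key)

end fam

end word

end NURow

end
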