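import Pool.Agent.NURow.Bk2

/-!
# Moving both half quanta in the sum over the words

`ZGs` = sum over the words.  `dbl`: the double integral over the two half quanta of prefactor times
`ZobjQ`, both lines moved; `sgl`, `sgl'`: one line moved.  The residue terms are the sums over the
words and over the marked objects of the residue families of `Mv2`.
-/

set_option autoImplicit false
set_option linter.unusedSectionVars false

noncomputable section

open Complex MeasureTheory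
open scoped Classical

namespace NURow

open NUP1 NUP1S NUP1.Bd

/-! ## sums over the words -/

/-- words which contribute -/
def Wok (n n' : ℕ) {p p' : ℕ} (k : Fin p → O3) (k' : Fin p' → O3) : Prop :=
  ∑ i, c3 (k' i) ≤ n' ∧ ∑ i, c3 (k i) ≤ n

/-- the sum over the words -/
def ZGs (n n' : ℕ) (Φ : ∀ p p' : ℕ, (Fin p → O3) → (Fin p' → O3) → ℂ) : ℂ :=
  ∑ p' ∈ Finset.range (n' + 1), ∑ p ∈ Finset.range (n + 1),
    ((p'.factorial : ℕ) : ℂ)⁻¹ * ((p.factorial : ℕ) : ℂ)⁻¹ *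
    ∑ k' : Fin p' → O3, ∑ k : Fin p → O3,
      if ∑ i, c3 (k' i) ≤ n' ∧ ∑ i, c3 (k i) ≤ n then Φ p p' k k' else 0

theorem ZobjQ_ZGs (X Y : Option O3 → ℂ → ℂ) (α : ℝ) (n n' : ℕ)
    (lnX : ∀ p p' : ℕ, (Fin p → O3) → (Fin p' → O3) → Fin p → ℝ)
    (lnY : ∀ p p' : ℕ, (Fin p → O3) → (Fin p' → O3) → Fin p' → ℝ) :
    ZobjQ X Y α n n' lnX lnY =
      ZGs n n' fun p p' k k' => termQ X Y α n n' k k' (lnX p p' k k') (lnY p p' k k') := rfl

theorem ZGs_congr {n n' : ℕ} {Φ Ψ : ∀ p p' : ℕ, (Fin p → O3) → (Fin p' → O3) → ℂ}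
    (h : ∀ (p p' : ℕ) (k : Fin p → O3) (k' : Fin p' → O3), Wok n n' k k' →
      Φ p p' k k' = Ψ p p' k k') : ZGs n n' Φ = ZGs n n' Ψ := by
  unfold ZGs
  refine Finset.sum_congr rfl fun p' _ => Finset.sum_congr rfl fun p _ => ?_
  congr 1
  refine Finset.sum_congr rfl fun k' _ => Finset.sum_congr rfl fun k _ => ?_
  by_cases hc : ∑ i, c3 (k' i) ≤ n' ∧ ∑ i, c3 (k i) ≤ n
  · rw [if_pos hc, if_pos hc, h p p' k k' hc]
  · rw [if_neg hc, if_neg hc]

theorem ZGs_mul (n n' : ℕ) (c : ℂ) (Φ : ∀ p p' : ℕ, (Fin p → O3) → (Fin p' → O3) → ℂ) :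
    ZGs n n' (fun p p' k k' => c * Φ p p' k k') = c * ZGs n n' Φ := by
  unfold ZGs
  rw [Finset.mul_sum]
  refine Finset.sum_congr rfl fun p' _ => ?_
  rw [Finset.mul_sum]
  refine Finset.sum_congr rfl fun p _ => ?_
  rw [mul_left_comm]
  congr 1
  rw [Finset.mul_sum]
  refine Finset.sum_congr rfl fun k' _ => ?_
  rw [Finset.mul_sum]
  refine Finset.sum_congr rfl fun k _ => ?_
  rw [mul_ite, mul_zero]

theorem ZGs_add (n n' : ℕ) (Φ Ψ : ∀ p p' : ℕ, (Fin p → O3) → (Fin p' → O3) → ℂ) :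
    ZGs n n' (fun p p' k k' => Φ p p' k k' + Ψ p p' k k') = ZGs n n' Φ + ZGs n n' Ψ := by
  unfold ZGs
  rw [← Finset.sum_add_distrib]
  refine Finset.sum_congr rfl fun p' _ => ?_
  rw [← Finset.sum_add_distrib]
  refine Finset.sum_congr rfl fun p _ => ?_
  rw [← mul_add]
  congr 1
  rw [← Finset.sum_add_distrib]
  refine Finset.sum_congr rfl fun k' _ => ?_
  rw [← Finset.sum_add_distrib]
  refine Finset.sum_congr rfl fun k _ => ?_
  split_ifs
  · rfl
  · rw [add_zero]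

theorem ZGs_sub (n n' : ℕ) (Φ Ψ : ∀ p p' : ℕ, (Fin p → O3) → (Fin p' → O3) → ℂ) :
    ZGs n n' (fun p p' k k' => Φ p p' k k' - Ψ p p' k k') = ZGs n n' Φ - ZGs n n' Ψ := by
  have h := ZGs_add n n' Φ fun p p' k k' => (-1) * Ψ p p' k k'
  rw [ZGs_mul] at h
  simp only [sub_eq_add_neg]
  calc _ = ZGs n n' (fun p p' k k' => Φ p p' k k' + -1 * Ψ p p' k k') :=
        ZGs_congr fun p p' k k' _ => by ring
    _ = _ := by rw [h]; ring

section int
variable {E : Type*} [MeasurableSpace E] {μ : Measure E} {n n' : ℕ}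
  {Φ : E → ∀ p p' : ℕ, (Fin p → O3) → (Fin p' → O3) → ℂ}

theorem integrable_ZGs
    (h : ∀ (p p' : ℕ) (k : Fin p → O3) (k' : Fin p' → O3), Wok n n' k k' →
      Integrable (fun y => Φ y p p' k k') μ) : Integrable (fun y => ZGs n n' (Φ y)) μ := by
  unfold ZGs
  refine integrable_finsetSum _ fun p' _ => integrable_finsetSum _ fun p _ => ?_
  refine Integrable.const_mul (integrable_finsetSum _ fun k' _ =>
    integrable_finsetSum _ fun k _ => ?_) _
  by_cases hc : ∑ i, c3 (k' i) ≤ n' ∧ ∑ i, c3 (k i) ≤ n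
  · simp only [if_pos hc]
    exact h p p' k k' hc
  · simp only [if_neg hc]
    exact integrable_zero _ _ _

theorem integral_ZGs
    (h : ∀ (p p' : ℕ) (k : Fin p → O3) (k' : Fin p' → O3), Wok n n' k k' →
      Integrable (fun y => Φ y p p' k k') μ) :
    ∫ y, ZGs n n' (Φ y) ∂μ = ZGs n n' fun p p' k k' => ∫ y, Φ y p p' k k' ∂μ := by
  have h0 : ∀ (p p' : ℕ) (k : Fin p → O3) (k' : Fin p' → O3),
      Integrable (fun y => if ∑ i, c3 (k' i) ≤ n' ∧ ∑ i, c3 (k i) ≤ n then Φ y p p' k k' else 0)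
        μ := by
    intro p p' k k'
    by_cases hc : ∑ i, c3 (k' i) ≤ n' ∧ ∑ i, c3 (k i) ≤ n
    · simp only [if_pos hc]
      exact h p p' k k' hc
    · simp only [if_neg hc]
      exact integrable_zero _ _ _
  unfold ZGs
  rw [integral_finsetSum _ fun p' _ => integrable_finsetSum _ fun p _ =>
    Integrable.const_mul (integrable_finsetSum _ fun k' _ => integrable_finsetSum _ fun k _ =>
      h0 p p' k k') _]
  refine Finset.sum_congr rfl fun p' _ => ?_
  rw [integral_finsetSum _ fun p _ =>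
    Integrable.const_mul (integrable_finsetSum _ fun k' _ => integrable_finsetSum _ fun k _ =>
      h0 p p' k k') _]
  refine Finset.sum_congr rfl fun p _ => ?_
  rw [integral_const_mul]
  congr 1
  rw [integral_finsetSum _ fun k' _ => integrable_finsetSum _ fun k _ => h0 p p' k k']
  refine Finset.sum_congr rfl fun k' _ => ?_
  rw [integral_finsetSum _ fun k _ => h0 p p' k k']
  refine Finset.sum_congr rfl fun k _ => ?_
  by_cases hc : ∑ i, c3 (k' i) ≤ n' ∧ ∑ i, c3 (k i) ≤ n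
  · simp only [if_pos hc]
  · simp only [if_neg hc, integral_zero]

end int

/-! ## both half quanta free, one word -/

section word
variable {p p' : ℕ} (X Y : Option O3 → ℂ → ℂ) (S S' : Sp) (gw : ℂ → ℂ) (K K' : ℂ → ℂ) (α : ℝ)
  (n n' : ℕ) (k : Fin p → O3) (k' : Fin p' → O3) {x : Fin p → ℝ} {x' : Fin p' → ℝ} {a b : ℝ}

theorem I00w
    (hI : Integrable (fun t => FA (Gt S S' gw n n' k k') (Ht X Y K K' n n' k k')
      (pos (oc a (oc b (Sum.elim (fun _ => α) (Sum.elim x x')))) t))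
      (Measure.pi fun _ => volume)) :
    Integrable (fun y : ℝ × ℝ => Pre gw K K' (vl a y.1) (vl b y.2) *
      termQ (XS true X S S' (vl a y.1) (vl b y.2)) (XS false Y S S' (vl a y.1) (vl b y.2)) α n n'
        k k' x x') (volume.prod volume) ∧
    cW n n' k k' * IA (Gt S S' gw n n' k k') (Ht X Y K K' n n' k k')
      (oc a (oc b (Sum.elim (fun _ => α) (Sum.elim x x')))) =
    ∫ y : ℝ × ℝ, Pre gw K K' (vl a y.1) (vl b y.2) *
      termQ (XS true X S S' (vl a y.1) (vl b y.2)) (XS false Y S S' (vl a y.1) (vl b y.2)) α n n'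
        k k' x x' ∂(volume.prod volume) := by
  obtain ⟨h1, h2⟩ := I00 X Y S S' gw K K' α n n' k k' 0 0 hI
  have e : ∀ y : ℝ × ℝ, Pre gw K K' (vl a y.1) (vl b y.2) *
      termQ (XS true X S S' (vl a y.1) (vl b y.2)) (XS false Y S S' (vl a y.1) (vl b y.2)) α n n'
        k k' x x' = ∫ t, Pre gw K K' (vl a y.1) (vl b y.2) *
      TTw X Y S S' 0 0 α n n' k k' (vl a y.1) (vl b y.2) none none (pos (Sum.elim x x') t)
        ∂(Measure.pi fun _ => volume) := by
    intro y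
    rw [termQ_TTw X Y S S' 0 0, integral_const_mul]
  simp_rw [e]
  exact ⟨h1.integral_prod_left, h2.trans (integral_prod _ h1)⟩

end word

/-! ## the moves in the sum over the words -/

/-- the objects of a word which carry a half quantum -/
abbrev Marks : Type := ∀ (p p' : ℕ), (Fin p → O3) → (Fin p' → O3) → Finset (Fin p ⊕ Fin p')

section main
variable (X Y : Option O3 → ℂ → ℂ) (S S' : Sp) (gw : ℂ → ℂ) (K K' : ℂ → ℂ) (α : ℝ) (n n' : ℕ)
  (lnX : ∀ p p' : ℕ, (Fin p → O3) → (Fin p' → O3) → Fin p → ℝ)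
  (lnY : ∀ p p' : ℕ, (Fin p → O3) → (Fin p' → O3) → Fin p' → ℝ)

/-- the lines of a word -/
abbrev lns {p p' : ℕ} (k : Fin p → O3) (k' : Fin p' → O3) :
    (Fin (nA n k) ⊕ Fin (nA n' k')) ⊕ (Fin p ⊕ Fin p') → ℝ :=
  Sum.elim (fun _ => α) (Sum.elim (lnX p p' k k') (lnY p p' k k'))

/-- the data of the moves of all words: charges `c`, poles at distance `q`, `q'`, numerators `r`,
`r'` -/
def AllMv (MK MK' : Marks) (κ a₀ a b₀ b q q' : ℝ) (r r' : ℂ → ℂ) : Prop :=
  ∀ (p p' : ℕ) (k : Fin p → O3) (k' : Fin p' → O3), Wok n n' k k' →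
    ∃ (c : Option (Option ((Fin (nA n k) ⊕ Fin (nA n' k')) ⊕ (Fin p ⊕ Fin p'))) → ℝ) (Q : ℝ),
      Mv2 (Gt S S' gw n n' k k') (Ht X Y K K' n n' k k') c Q κ (lns α n n' lnX lnY k k')
        a₀ a b₀ b ((MK p p' k k').map Function.Embedding.inr)
        ((MK' p p' k k').map Function.Embedding.inr) (fun _ => q) (fun _ => q') (fun _ => r)
        (fun _ => r')

/-- the double integral over the half quanta -/
def JJ (a b : ℝ) (y : ℝ × ℝ) : ℂ := Pre gw K K' (vl a y.1) (vl b y.2) *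
  ZobjQ (XS true X S S' (vl a y.1) (vl b y.2)) (XS false Y S S' (vl a y.1) (vl b y.2)) α n n'
    lnX lnY

/-- the first half quantum bound: residue families -/
def JR (MK : Marks) (q : ℝ) (ρ : ℂ) (b : ℝ) : ℂ := ZGs n n' fun p p' k k' =>
  ∑ i ∈ MK p p' k k', cW n n' k k' * IA (gR (Gt S S' gw n n' k k') (some (Sum.inr i)) q)
    (hR (Ht X Y K K' n n' k k') (some (Sum.inr i)) q ρ) (oc b (lns α n n' lnX lnY k k'))

/-- the second half quantum bound: residue families -/
def JR' (MK' : Marks) (q' : ℝ) (ρ' : ℂ) (a : ℝ) : ℂ := ZGs n n' fun p p' k k' =>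
  ∑ j ∈ MK' p p' k k', cW n n' k k' *
    IA (gR (fun u v => Gt S S' gw n n' k k' (sw2 u) (sw2 v)) (some (Sum.inr j)) q')
    (hR (fun u => Ht X Y K K' n n' k k' (sw2 u)) (some (Sum.inr j)) q' ρ')
    (oc a (lns α n n' lnX lnY k k'))

/-- both half quanta bound: residue families -/
def JRR (MK MK' : Marks) (q q' : ℝ) (ρ ρ' : ℂ) : ℂ := ZGs n n' fun p p' k k' =>
  ∑ i ∈ MK p p' k k', ∑ j ∈ MK' p p' k k', cW n n' k k' *
    IA (gR (gR (Gt S S' gw n n' k k') (some (Sum.inr i)) q) (Sum.inr j) q')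
    (hR (hR (Ht X Y K K' n n' k k') (some (Sum.inr i)) q ρ) (Sum.inr j) q' ρ')
    (lns α n n' lnX lnY k k')

variable {X Y S S' gw K K' α n n' lnX lnY} {MK MK' : Marks} {κ a₀ a b₀ b q q' : ℝ}
  {r r' : ℂ → ℂ}

theorem JJ_of {a b : ℝ} (h : ∀ (p p' : ℕ) (k : Fin p → O3) (k' : Fin p' → O3), Wok n n' k k' →
      Integrable (fun t => FA (Gt S S' gw n n' k k') (Ht X Y K K' n n' k k')
        (pos (oc a (oc b (lns α n n' lnX lnY k k'))) t)) (Measure.pi fun _ => volume)) :
    Integrable (JJ X Y S S' gw K K' α n n' lnX lnY a b) (volume.prod volume) ∧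
    ∫ y, JJ X Y S S' gw K K' α n n' lnX lnY a b y ∂(volume.prod volume) =
      ZGs n n' fun p p' k k' => cW n n' k k' * IA (Gt S S' gw n n' k k')
        (Ht X Y K K' n n' k k') (oc a (oc b (lns α n n' lnX lnY k k'))) := by
  have e : ∀ y : ℝ × ℝ, JJ X Y S S' gw K K' α n n' lnX lnY a b y =
      ZGs n n' fun p p' k k' => Pre gw K K' (vl a y.1) (vl b y.2) *
        termQ (XS true X S S' (vl a y.1) (vl b y.2)) (XS false Y S S' (vl a y.1) (vl b y.2)) α
          n n' k k' (lnX p p' k k') (lnY p p' k k') := by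
    intro y
    unfold JJ
    rw [ZobjQ_ZGs, ZGs_mul]
  have h1 : ∀ (p p' : ℕ) (k : Fin p → O3) (k' : Fin p' → O3), Wok n n' k k' → _ :=
    fun p p' k k' hc => I00w X Y S S' gw K K' α n n' k k' (x := lnX p p' k k')
      (x' := lnY p p' k k') (h p p' k k' hc)
  constructor
  · exact (integrable_ZGs fun p p' k k' hc => (h1 p p' k k' hc).1).congr
      (Filter.Eventually.of_forall fun y => (e y).symm)
  · simp_rw [e]
    rw [integral_ZGs fun p p' k k' hc => (h1 p p' k k' hc).1]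
    exact ZGs_congr fun p p' k k' hc => ((h1 p p' k k' hc).2).symm

/-- **Both half quanta moved.** -/
theorem dbl (m : AllMv X Y S S' gw K K' α n n' lnX lnY MK MK' κ a₀ a b₀ b q q' r r')
    (lt : a₀ < a) (lt' : b₀ < b) :
    Integrable (JJ X Y S S' gw K K' α n n' lnX lnY a₀ b₀) (volume.prod volume) ∧
    Integrable (JJ X Y S S' gw K K' α n n' lnX lnY a b) (volume.prod volume) ∧
    ∫ y, JJ X Y S S' gw K K' α n n' lnX lnY a₀ b₀ y ∂(volume.prod volume) =
      ∫ y, JJ X Y S S' gw K K' α n n' lnX lnY a b y ∂(volume.prod volume) -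
      2 * Real.pi * JR X Y S S' gw K K' α n n' lnX lnY MK q (r q) b -
      2 * Real.pi * JR' X Y S S' gw K K' α n n' lnX lnY MK' q' (r' q') a +
      (2 * Real.pi) ^ 2 *
        JRR X Y S S' gw K K' α n n' lnX lnY MK MK' q q' (r q) (r' q') := by
  obtain ⟨h1, h2⟩ := JJ_of (X := X) (Y := Y) (S := S) (S' := S') (gw := gw) (K := K) (K' := K')
    (α := α) (n := n) (n' := n') (lnX := lnX) (lnY := lnY) (a := a₀) (b := b₀)
    fun p p' k k' hc => by
      obtain ⟨c, Q, m⟩ := m p p' k k' hc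
      exact m.integrable_00
  obtain ⟨h3, h4⟩ := JJ_of (X := X) (Y := Y) (S := S) (S' := S') (gw := gw) (K := K) (K' := K')
    (α := α) (n := n) (n' := n') (lnX := lnX) (lnY := lnY) (a := a) (b := b)
    fun p p' k k' hc => by
      obtain ⟨c, Q, m⟩ := m p p' k k' hc
      exact m.integrable_ww
  refine ⟨h1, h3, ?_⟩
  rw [h2, h4]
  unfold JR JR' JRR
  rw [← ZGs_mul, ← ZGs_mul, ← ZGs_mul, ← ZGs_sub, ← ZGs_sub, ← ZGs_add]
  refine ZGs_congr fun p p' k k' hc => ?_
  obtain ⟨c, Q, m⟩ := m p p' k k' hc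
  have h5 := m.move2 lt lt'
  simp only [Finset.sum_map, Function.Embedding.inr_apply] at h5
  rw [h5]
  simp only [← Finset.mul_sum]
  ring

/-- **The first half quantum moved.** -/
theorem sgl (m : AllMv X Y S S' gw K K' α n n' lnX lnY MK MK' κ a₀ a b₀ b q q' r r')
    (lt : a₀ < a) :
    Integrable (JJ X Y S S' gw K K' α n n' lnX lnY a₀ b) (volume.prod volume) ∧
    Integrable (JJ X Y S S' gw K K' α n n' lnX lnY a b) (volume.prod volume) ∧
    ∫ y, JJ X Y S S' gw K K' α n n' lnX lnY a₀ b y ∂(volume.prod volume) =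
      ∫ y, JJ X Y S S' gw K K' α n n' lnX lnY a b y ∂(volume.prod volume) -
      2 * Real.pi * JR X Y S S' gw K K' α n n' lnX lnY MK q (r q) b := by
  obtain ⟨h1, h2⟩ := JJ_of (X := X) (Y := Y) (S := S) (S' := S') (gw := gw) (K := K) (K' := K')
    (α := α) (n := n) (n' := n') (lnX := lnX) (lnY := lnY) (a := a₀) (b := b)
    fun p p' k k' hc => by
      obtain ⟨c, Q, m⟩ := m p p' k k' hc
      exact m.integrable_01
  obtain ⟨h3, h4⟩ := JJ_of (X := X) (Y := Y) (S := S) (S' := S') (gw := gw) (K := K) (K' := K')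
    (α := α) (n := n) (n' := n') (lnX := lnX) (lnY := lnY) (a := a) (b := b)
    fun p p' k k' hc => by
      obtain ⟨c, Q, m⟩ := m p p' k k' hc
      exact m.integrable_ww
  refine ⟨h1, h3, ?_⟩
  rw [h2, h4]
  unfold JR
  rw [← ZGs_mul, ← ZGs_sub]
  refine ZGs_congr fun p p' k k' hc => ?_
  obtain ⟨c, Q, m⟩ := m p p' k k' hc
  have h5 := m.move1 lt
  simp only [Finset.sum_map, Function.Embedding.inr_apply] at h5
  rw [h5]
  simp only [← Finset.mul_sum]
  ring

/-- **The second half quantum moved.** -/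
theorem sgl' (m : AllMv X Y S S' gw K K' α n n' lnX lnY MK MK' κ a₀ a b₀ b q q' r r')
    (lt' : b₀ < b) :
    Integrable (JJ X Y S S' gw K K' α n n' lnX lnY a b₀) (volume.prod volume) ∧
    Integrable (JJ X Y S S' gw K K' α n n' lnX lnY a b) (volume.prod volume) ∧
    ∫ y, JJ X Y S S' gw K K' α n n' lnX lnY a b₀ y ∂(volume.prod volume) =
      ∫ y, JJ X Y S S' gw K K' α n n' lnX lnY a b y ∂(volume.prod volume) -
      2 * Real.pi * JR' X Y S S' gw K K' α n n' lnX lnY MK' q' (r' q') a := by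
  obtain ⟨h1, h2⟩ := JJ_of (X := X) (Y := Y) (S := S) (S' := S') (gw := gw) (K := K) (K' := K')
    (α := α) (n := n) (n' := n') (lnX := lnX) (lnY := lnY) (a := a) (b := b₀)
    fun p p' k k' hc => by
      obtain ⟨c, Q, m⟩ := m p p' k k' hc
      exact m.integrable_10
  obtain ⟨h3, h4⟩ := JJ_of (X := X) (Y := Y) (S := S) (S' := S') (gw := gw) (K := K) (K' := K')
    (α := α) (n := n) (n' := n') (lnX := lnX) (lnY := lnY) (a := a) (b := b)
    fun p p' k k' hc => by
      obtain ⟨c, Q, m⟩ := m p p' k k' hc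
      exact m.integrable_ww
  refine ⟨h1, h3, ?_⟩
  rw [h2, h4]
  unfold JR'
  rw [← ZGs_mul, ← ZGs_sub]
  refine ZGs_congr fun p p' k k' hc => ?_
  obtain ⟨c, Q, m⟩ := m p p' k k' hc
  have h5 := m.move1' lt'
  simp only [Finset.sum_map, Function.Embedding.inr_apply] at h5
  rw [h5]
  simp only [← Finset.mul_sum]
  ring

end main

end NURow

end
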