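import Pool.Agent.NURow.One
import Pool.Agent.NURow.Pcut
import Pool.Agent.NURow.StageQ

/-!
# One body functions for `M` rows at `l / 2` and `M` rows at `- l / 2` in each group

`R1` = row factor with the two ends, `phN` = cutoff with `N` pairs.  The string kind T is used on
the line `Re = - l / 2`, which contains the pole of the rows: `Th` is the analytic extension.
-/

set_option autoImplicit false
set_option linter.unusedSectionVars false

noncomputable section

open Complex MeasureTheory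

namespace NURow

open NUP1 NUP1S NUP1.Bd

/-! ## bounds far from the real axis -/

/-- exponential bound over a set of real parts, away from the real axis -/
def BddF (K : Set ℝ) (s : ℝ) (g : ℂ → ℂ) : Prop :=
  ∃ C : ℝ, 0 ≤ C ∧ ∀ z : ℂ, z.re ∈ K → 1 ≤ |z.im| → ‖g z‖ ≤ C * Real.exp (s * |z.im|)

section bddF

variable {K : Set ℝ} {s s' : ℝ} {g g' : ℂ → ℂ}

theorem BddF.of_bdd (h : Bdd K s g) : BddF K s g := by
  obtain ⟨C, hC, h⟩ := h
  exact ⟨C, hC, fun z hz _ => h z hz⟩

theorem BddF.mul (h : BddF K s g) (h' : BddF K s' g') : BddF K (s + s') (fun z => g z * g' z) := by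
  obtain ⟨C, hC, h⟩ := h
  obtain ⟨D, hD, h'⟩ := h'
  refine ⟨C * D, mul_nonneg hC hD, fun z hz hi => ?_⟩
  rw [norm_mul, add_mul, Real.exp_add]
  calc _ ≤ (C * Real.exp (s * |z.im|)) * (D * Real.exp (s' * |z.im|)) :=
        mul_le_mul (h z hz hi) (h' z hz hi) (norm_nonneg _) (by positivity)
    _ = _ := by ring

theorem BddF.rate (h : BddF K s g) (e : s = s') : BddF K s' g := e ▸ h

theorem BddF.mono_rate (h : BddF K s g) (hs : s ≤ s') : BddF K s' g := by
  obtain ⟨C, hC, h⟩ := h
  refine ⟨C, hC, fun z hz hi => (h z hz hi).trans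
    (mul_le_mul_of_nonneg_left (Real.exp_le_exp.2 ?_) hC)⟩
  exact mul_le_mul_of_nonneg_right hs (abs_nonneg _)

theorem BddF.sub (h : BddF K s g) (h' : BddF K s g') : BddF K s (fun z => g z - g' z) := by
  obtain ⟨C, hC, h⟩ := h
  obtain ⟨D, hD, h'⟩ := h'
  refine ⟨C + D, add_nonneg hC hD, fun z hz hi => ?_⟩
  refine (norm_sub_le _ _).trans ?_
  rw [add_mul]
  exact add_le_add (h z hz hi) (h' z hz hi)

theorem BddF.pow (h : BddF K s g) (n : ℕ) : BddF K (n * s) (fun z => g z ^ n) := by
  induction n with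
  | zero => exact ⟨1, zero_le_one, fun z _ _ => by simp⟩
  | succ n ih =>
    have := (ih.mul h).rate (show (n : ℝ) * s + s = ((n + 1 : ℕ) : ℝ) * s by push_cast; ring)
    simpa only [pow_succ] using this

theorem BddF.congr (h : BddF K s g) (e : ∀ z : ℂ, z.re ∈ K → 1 ≤ |z.im| → g' z = g z) :
    BddF K s g' := by
  obtain ⟨C, hC, h⟩ := h
  exact ⟨C, hC, fun z hz hi => by rw [e z hz hi]; exact h z hz hi⟩

/-- the sine is large away from the real axis -/
theorem exp_le_sin {z : ℂ} (h : 1 ≤ |z.im|) : Real.exp |z.im| ≤ 4 * ‖sin z‖ := by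
  have h1 : Real.sinh |z.im| ≤ ‖sin z‖ := by
    refine le_of_sq_le_sq ?_ (norm_nonneg _)
    have h2 : ‖sin z‖ ^ 2 = Real.sin z.re ^ 2 + Real.sinh z.im ^ 2 := by
      rw [← Complex.normSq_eq_norm_sq, Complex.normSq_apply, Complex.sin_eq z]
      simp only [add_re, add_im, mul_re, mul_im, I_re, I_im]
      simp only [← ofReal_sin, ← ofReal_cos, ← ofReal_sinh, ← ofReal_cosh, ofReal_re, ofReal_im]
      have := Real.sin_sq_add_cos_sq z.re
      have h3 := Real.cosh_sq z.im
      ring_nf
      rw [h3]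
      linear_combination (Real.sinh z.im ^ 2) * this
    rw [h2]
    have h3 : Real.sinh |z.im| ^ 2 = Real.sinh z.im ^ 2 := by
      rcases le_total 0 z.im with h0 | h0
      · rw [abs_of_nonneg h0]
      · rw [abs_of_nonpos h0, Real.sinh_neg, neg_sq]
    rw [h3]
    nlinarith [sq_nonneg (Real.sin z.re)]
  have h2 : Real.exp |z.im| ≤ 4 * Real.sinh |z.im| := by
    rw [Real.sinh_eq]
    have h3 : (2 : ℝ) ≤ Real.exp |z.im| := by
      have := Real.add_one_le_exp |z.im|
      linarith
    have h4 : Real.exp (-|z.im|) ≤ 1 / 2 := by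
      rw [Real.exp_neg]
      rw [inv_le_comm₀ (Real.exp_pos _) (by norm_num)]
      simpa using h3
    linarith
  linarith

theorem bddF_inv_sin (K : Set ℝ) (a : ℝ) : BddF K (-1) (fun z => 1 / sin (z + a)) := by
  refine ⟨4, by norm_num, fun z _ hi => ?_⟩
  have h1 := exp_le_sin (z := z + a) (by simpa using hi)
  have e : (z + a).im = z.im := by simp
  rw [e] at h1
  have h2 : 0 < ‖sin (z + a)‖ := by
    have := Real.exp_pos |z.im|
    linarith
  rw [norm_div, norm_one, div_le_iff₀ h2, neg_one_mul, Real.exp_neg]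
  have h3 := Real.exp_pos |z.im|
  calc (1 : ℝ) = (Real.exp |z.im|)⁻¹ * Real.exp |z.im| := by
        rw [inv_mul_cancel₀ h3.ne']
    _ ≤ (Real.exp |z.im|)⁻¹ * (4 * ‖sin (z + a)‖) :=
        mul_le_mul_of_nonneg_left h1 (by positivity)
    _ = _ := by ring

/-- a continuous function with a bound far from the real axis is bounded -/
theorem bdd_glue {K : Set ℝ} (hK : IsCompact K) {f : ℂ → ℂ} {s : ℝ}
    (hc : ∀ z : ℂ, z.re ∈ K → ContinuousAt f z) (h : BddF K s f) : Bdd K s f := by
  obtain ⟨C, hC, h⟩ := h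
  have hS : IsCompact ((fun p : ℝ × ℝ => (p.1 + p.2 * I : ℂ)) '' (K ×ˢ Set.Icc (-1 : ℝ) 1)) :=
    (hK.prod isCompact_Icc).image (by fun_prop)
  obtain ⟨B, hB⟩ := hS.exists_bound_of_continuousOn (f := f) (by
    rintro _ ⟨p, hp, rfl⟩
    exact (hc _ (by simpa using hp.1)).continuousWithinAt)
  refine ⟨C + |B| * Real.exp |s|, by positivity, fun z hz => ?_⟩
  rcases le_or_gt 1 |z.im| with hi | hi
  · refine (h z hz hi).trans (mul_le_mul_of_nonneg_right ?_ (Real.exp_pos _).le)
    have : 0 ≤ |B| * Real.exp |s| := by positivity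
    linarith
  · have h1 : ‖f z‖ ≤ B := by
      refine hB z ⟨(z.re, z.im), ⟨hz, ?_⟩, re_add_im z⟩
      rw [Set.mem_Icc]
      constructor <;> linarith [(abs_lt.1 hi).1, (abs_lt.1 hi).2]
    have h2 : 1 ≤ Real.exp |s| * Real.exp (s * |z.im|) := by
      rw [← Real.exp_add, Real.one_le_exp_iff]
      have h3 : abs (s * |z.im|) ≤ |s| := by
        rw [abs_mul, abs_abs]
        exact mul_le_of_le_one_right (abs_nonneg _) hi.le
      have := (abs_le.1 h3).1
      linarith
    have h4 : B ≤ |B| * (Real.exp |s| * Real.exp (s * |z.im|)) :=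
      (le_abs_self B).trans (le_mul_of_one_le_right (abs_nonneg _) h2)
    have h5 : 0 ≤ C * Real.exp (s * |z.im|) := by positivity
    rw [add_mul, mul_assoc]
    linarith

end bddF

/-! ## `sin (β z) / sin z` -/

/-- `sin (β z) / sin z`, extended to `0` -/
def sr (β : ℝ) (z : ℂ) : ℂ := dslope (fun z => sin (β * z)) 0 z / dslope sin 0 z

theorem sr_mul {β : ℝ} {z : ℂ} (h : sin z ≠ 0) : sr β z * sin z = sin (β * z) := by
  have hz : z ≠ 0 := by
    rintro rfl
    simp at h
  unfold sr
  rw [dslope_of_ne _ hz, dslope_of_ne _ hz, slope_def_field, slope_def_field]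
  simp only [mul_zero, Complex.sin_zero, sub_zero]
  field_simp

theorem dslope_sin_ne {z : ℂ} (h : z = 0 ∨ sin z ≠ 0) : dslope sin 0 z ≠ 0 := by
  by_cases hz : z = 0
  · rw [hz, dslope_same, Complex.deriv_sin, Complex.cos_zero]
    exact one_ne_zero
  · have h := h.resolve_left hz
    rw [dslope_of_ne _ hz, slope_def_field]
    simp only [Complex.sin_zero, sub_zero]
    exact div_ne_zero h hz

theorem differentiableAt_dslope {f : ℂ → ℂ} (hf : Differentiable ℂ f) (z : ℂ) :
    DifferentiableAt ℂ (dslope f 0) z := by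
  have h := (Complex.differentiableOn_dslope (f := f) (s := Set.univ) (c := (0 : ℂ))
    Filter.univ_mem).2 hf.differentiableOn
  exact (h z (Set.mem_univ z)).differentiableAt Filter.univ_mem

theorem differentiableAt_sr {β : ℝ} {z : ℂ} (h : z = 0 ∨ sin z ≠ 0) :
    DifferentiableAt ℂ (sr β) z := by
  unfold sr
  exact (differentiableAt_dslope (by fun_prop) z).div
    (differentiableAt_dslope Complex.differentiable_sin z) (dslope_sin_ne h)

/-- `psi β z / sin z`, extended to `0` -/
def qs (β : ℝ) (z : ℂ) : ℂ := -(sr β z * sin (β * (z + l))) / (cos (β * z) * cos (β * (z + l)))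

theorem psi_form {β : ℝ} {z : ℂ} (h : NQ β z.re) :
    psi β z = -(sin (β * z) * sin (β * (z + l))) / (cos (β * z) * cos (β * (z + l))) := by
  have h1 : cos (β * z) ≠ 0 := cos_ne_re (by simpa using h.1)
  have h2 : cos (β * (z + l)) ≠ 0 := cos_ne_re (by simpa using h.2)
  unfold psi
  rw [den_fac]
  have e1 : cos (2 * β * z + β * l) - cos (β * l) =
      -(2 * (sin (β * z) * sin (β * (z + l)))) := by
    have e1 : cos (2 * β * z + β * l) =
        cos (β * z) * cos (β * (z + l)) - sin (β * z) * sin (β * (z + l)) := by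
      rw [← Complex.cos_add]; ring_nf
    have e2 : cos (β * l : ℂ) = cos (β * z) * cos (β * (z + l)) + sin (β * z) * sin (β * (z + l)) := by
      rw [show (β * l : ℂ) = β * (z + l) - β * z by ring, Complex.cos_sub]; ring
    rw [e1, e2]
    ring
  rw [e1]
  field_simp

theorem qs_mul {β : ℝ} {z : ℂ} (h : NQ β z.re) (hs : sin z ≠ 0) : qs β z * sin z = psi β z := by
  rw [psi_form h, ← sr_mul hs]
  unfold qs
  ring

theorem psi_refl (β : ℝ) (z : ℂ) : psi β (z - l) = psi β (-z) := by
  unfold psi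
  have e : (2 * β * (z - l) + β * l : ℂ) = -(2 * β * -z + β * l) := by ring
  rw [e, Complex.cos_neg]

theorem differentiableAt_qs {β : ℝ} {z : ℂ} (h : NQ β z.re) (hs : z = 0 ∨ sin z ≠ 0) :
    DifferentiableAt ℂ (qs β) z := by
  have h1 : cos (β * z) ≠ 0 := cos_ne_re (by simpa using h.1)
  have h2 : cos (β * (z + l)) ≠ 0 := cos_ne_re (by simpa using h.2)
  unfold qs
  have h3 := differentiableAt_sr (β := β) hs
  exact ((h3.mul (by fun_prop)).neg).div (by fun_prop) (mul_ne_zero h1 h2)

end NURow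

end
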