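import Pool.Agent.NURow.Data

/-!
# The one body functions: rows at `± l / 2`, ends, cutoff, spectators
-/

set_option autoImplicit false
set_option linter.unusedSectionVars false

noncomputable section

open Complex MeasureTheory

namespace NURow

open NUP1 NUP1S NUP1.Bd

/-- real parts without poles of the rows at `± l / 2` -/
def NH (x : ℝ) : Prop := Real.sin (x - l / 2) ≠ 0 ∧ Real.sin (x - 5 * l / 2) ≠ 0 ∧
  Real.sin (x - 3 * l / 2) ≠ 0

/-- row factor with the two ends, without the factor of the rows at `- l / 2` -/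
def Rh (c : ℂ) (M : ℕ) (u : ℂ) : ℂ :=
  c * (1 / sin (u - l / 2)) ^ M * (1 / sin (u - 5 * l / 2)) ^ (M + 1) *
    (1 / sin (u - 3 * l / 2)) ^ (M + 1) * (sin (u + 5 * l / 2) ^ (2 * M + 1)) *
    (sin (u + 7 * l / 2) ^ (2 * M + 1))

/-- row factor with the two ends -/
def R1 (c : ℂ) (M : ℕ) (u : ℂ) : ℂ := Rh c M u * (1 / sin (u + l / 2)) ^ M

/-- cutoff with `N` pairs -/
def phN (β : ℝ) (N : ℕ) (u : ℂ) : ℂ := 1 - Psi β u ^ N

theorem half_l : ((l / 2 : ℝ) : ℂ) = (l : ℂ) / 2 := by push_cast; ring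

theorem bdd_Rh (c : ℂ) (M : ℕ) {K : Set ℝ} (hK : IsCompact K) (h : ∀ x ∈ K, NH x) :
    Bdd K M (Rh c M) := by
  have h1 := (bdd_inv_sin hK (-(l / 2)) fun d hd => by
    rw [← sub_eq_add_neg]; exact (h d hd).1).pow M
  have h2 := (bdd_inv_sin hK (-(5 * l / 2)) fun d hd => by
    rw [← sub_eq_add_neg]; exact (h d hd).2.1).pow (M + 1)
  have h3 := (bdd_inv_sin hK (-(3 * l / 2)) fun d hd => by
    rw [← sub_eq_add_neg]; exact (h d hd).2.2).pow (M + 1)
  have h4 := (bdd_sin K (5 * l / 2)).pow (2 * M + 1)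
  have h5 := (bdd_sin K (7 * l / 2)).pow (2 * M + 1)
  have h6 := ((((((Bdd.const K c).mul h1).mul h2).mul h3).mul h4).mul h5).rate
    (s' := M) (by push_cast; ring)
  have e : (fun z : ℂ => c * (1 / sin (z + ((-(l / 2) : ℝ) : ℂ))) ^ M *
      (1 / sin (z + ((-(5 * l / 2) : ℝ) : ℂ))) ^ (M + 1) *
      (1 / sin (z + ((-(3 * l / 2) : ℝ) : ℂ))) ^ (M + 1) *
      (sin (z + ((5 * l / 2 : ℝ) : ℂ)) ^ (2 * M + 1)) *
      (sin (z + ((7 * l / 2 : ℝ) : ℂ)) ^ (2 * M + 1))) = Rh c M := by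
    funext z
    unfold Rh
    push_cast
    simp only [← sub_eq_add_neg]
  rw [e] at h6
  exact h6

theorem bdd_R1 (c : ℂ) (M : ℕ) {K : Set ℝ} (hK : IsCompact K)
    (h : ∀ x ∈ K, NH x ∧ Real.sin (x + l / 2) ≠ 0) : Bdd K 0 (R1 c M) := by
  have h1 := bdd_Rh c M hK fun x hx => (h x hx).1
  have h2 := (bdd_inv_sin hK (l / 2) fun d hd => (h d hd).2).pow M
  have h3 := (h1.mul h2).rate (s' := 0) (by ring)
  have e : (fun z : ℂ => Rh c M z * (1 / sin (z + ((l / 2 : ℝ) : ℂ))) ^ M) = R1 c M := by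
    funext z
    unfold R1
    push_cast
    rfl
  rw [e] at h3
  exact h3

theorem bddF_R1 (c : ℂ) (M : ℕ) {K : Set ℝ} (hK : IsCompact K) (h : ∀ x ∈ K, NH x) :
    BddF K 0 (R1 c M) := by
  have h1 := BddF.of_bdd (bdd_Rh c M hK h)
  have h2 := (bddF_inv_sin K (l / 2)).pow M
  have h3 := (h1.mul h2).rate (s' := 0) (by ring)
  have e : (fun z : ℂ => Rh c M z * (1 / sin (z + ((l / 2 : ℝ) : ℂ))) ^ M) = R1 c M := by
    funext z
    unfold R1
    push_cast
    rfl
  rw [e] at h3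
  exact h3

theorem sin_ne_sub {z : ℂ} {a : ℝ} (h : Real.sin (z.re - a) ≠ 0) : sin (z - a) ≠ 0 :=
  Bd.sin_ne_zero_of_re (by simpa using h)

theorem diffAt_Rh (c : ℂ) (M : ℕ) {z : ℂ} (h : NH z.re) : DifferentiableAt ℂ (Rh c M) z := by
  have h1 : sin (z - l / 2) ≠ 0 := by
    rw [← half_l]
    exact sin_ne_sub h.1
  have h2 : sin (z - 5 * l / 2) ≠ 0 := by
    have := sin_ne_sub (z := z) (a := 5 * l / 2) h.2.1
    push_cast at this
    exact this
  have h3 : sin (z - 3 * l / 2) ≠ 0 := by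
    have := sin_ne_sub (z := z) (a := 3 * l / 2) h.2.2
    push_cast at this
    exact this
  unfold Rh
  fun_prop (disch := assumption)

theorem diffAt_R1 (c : ℂ) (M : ℕ) {z : ℂ} (h : NH z.re) (h' : Real.sin (z.re + l / 2) ≠ 0) :
    DifferentiableAt ℂ (R1 c M) z := by
  have h1 : sin (z + l / 2) ≠ 0 := by
    have := sin_ne_of_re (z := z) (a := l / 2) h'
    push_cast at this
    exact this
  unfold R1
  have h2 := diffAt_Rh c M h
  have h3 : DifferentiableAt ℂ (fun u : ℂ => (1 / sin (u + l / 2)) ^ M) z := by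
    fun_prop (disch := assumption)
  exact h2.mul h3

theorem measurable_Rh (c : ℂ) (M : ℕ) : Measurable (Rh c M) := by
  unfold Rh
  fun_prop

theorem measurable_R1 (c : ℂ) (M : ℕ) : Measurable (R1 c M) := by
  have := measurable_Rh c M
  unfold R1
  fun_prop

/-! ## the cutoff -/

/-- real parts where the cutoff is regular -/
def NC (β x : ℝ) : Prop := NQ β (x - l / 2) ∧ NQ β (x + l / 2)

theorem NC_strip {β x : ℝ} (hβ : 0 < β) (hβ' : β ≤ 4 / 3) (h1 : -(5 * l / 2) < x)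
    (h2 : x < 3 * l / 2) : NC β x :=
  ⟨NQ_strip hβ hβ' (by linarith) (by linarith [Bd.l_pos]),
    NQ_strip hβ hβ' (by linarith [Bd.l_pos]) (by linarith)⟩

theorem measurable_Psi (β : ℝ) : Measurable (Psi β) := by
  unfold Psi
  have h := measurable_psi β 0
  simp only [sub_zero] at h
  exact (h.comp (measurable_id.sub_const _)).mul (h.comp (measurable_id.add_const _))

theorem measurable_phN (β : ℝ) (N : ℕ) : Measurable (phN β N) := by
  have := measurable_Psi β
  unfold phN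
  fun_prop

theorem Bdd.cg {K : Set ℝ} {s : ℝ} {g g' : ℂ → ℂ} (h : Bdd K s g)
    (e : ∀ z : ℂ, z.re ∈ K → g' z = g z) : Bdd K s g' := by
  obtain ⟨C, hC, h⟩ := h
  exact ⟨C, hC, fun z hz => by rw [e z hz]; exact h z hz⟩

theorem bdd_one_sub_psi' {β : ℝ} (hβ : 0 < β) {K : Set ℝ} (hK : IsCompact K) (a : ℝ)
    (h : ∀ x ∈ K, NQ β (x + a)) : Bdd K (-(2 * β)) (fun z => 1 - psi β (z + a)) := by
  -- the box of radius zero around `0`
  have hx : InBox (Set.univ : Set Unit) 0 0 (fun _ => (0 : ℂ)) := fun _ _ => by simp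
  have hK' : IsCompact ((fun x => x + a) '' K) := hK.image (by fun_prop)
  have h1 := (ub_one_sub_psi (K := (fun x => x + a) '' K) hβ hx hK' (by
    rintro _ ⟨x, hx, rfl⟩ e he
    have : e = 0 := abs_eq_zero.1 (le_antisymm he (abs_nonneg _))
    rw [this, sub_zero]
    exact h x hx)).bdd (Set.mem_univ ())
  simp only [sub_zero] at h1
  exact Bdd.shift (K := K) a h1

theorem bdd_psi' {β : ℝ} (hβ : 0 < β) {K : Set ℝ} (hK : IsCompact K) (a : ℝ)
    (h : ∀ x ∈ K, NQ β (x + a)) : Bdd K 0 (fun z => psi β (z + a)) := by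
  have h1 := (Bdd.const K 1).sub ((bdd_one_sub_psi' hβ hK a h).mono_rate (s' := 0) (by linarith))
  exact Bdd.cg h1 fun z _ => by ring

theorem bdd_one_sub_Psi {β : ℝ} (hβ : 0 < β) {K : Set ℝ} (hK : IsCompact K)
    (h : ∀ x ∈ K, NC β x) : Bdd K (-(2 * β)) (fun z => 1 - Psi β z) := by
  have h1 := bdd_one_sub_psi' hβ hK (-(l / 2)) fun x hx => by
    rw [← sub_eq_add_neg]; exact (h x hx).1
  have h2 := bdd_psi' hβ hK (-(l / 2)) fun x hx => by
    rw [← sub_eq_add_neg]; exact (h x hx).1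
  have h3 := bdd_one_sub_psi' hβ hK (l / 2) fun x hx => (h x hx).2
  have h4 := (h2.mul h3).rate (s' := -(2 * β)) (by ring)
  obtain ⟨C, hC, h1⟩ := h1
  obtain ⟨D, hD, h4⟩ := h4
  refine ⟨C + D, by positivity, fun z hz => ?_⟩
  have e : 1 - Psi β z = (1 - psi β (z + ((-(l / 2) : ℝ) : ℂ))) +
      psi β (z + ((-(l / 2) : ℝ) : ℂ)) * (1 - psi β (z + ((l / 2 : ℝ) : ℂ))) := by
    unfold Psi
    push_cast
    rw [← sub_eq_add_neg]
    ring
  show ‖1 - Psi β z‖ ≤ _
  rw [e, add_mul]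
  exact (norm_add_le _ _).trans (add_le_add (h1 z hz) (h4 z hz))

theorem bdd_phN {β : ℝ} (hβ : 0 < β) (N : ℕ) {K : Set ℝ} (hK : IsCompact K)
    (h : ∀ x ∈ K, NC β x) : Bdd K (-(2 * β)) (phN β N) := by
  have h0 := bdd_one_sub_Psi hβ hK h
  have h1 : Bdd K 0 (Psi β) :=
    Bdd.cg ((Bdd.const K 1).sub (h0.mono_rate (s' := 0) (by linarith))) fun z _ => by ring
  induction N with
  | zero =>
    refine ⟨0, le_rfl, fun z _ => ?_⟩
    unfold phN
    simp
  | succ N ih =>
    have h2 := (h1.mul ih).rate (s' := -(2 * β)) (by ring)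
    obtain ⟨C, hC, h0⟩ := h0
    obtain ⟨D, hD, h2⟩ := h2
    refine ⟨C + D, by positivity, fun z hz => ?_⟩
    have e : phN β (N + 1) z = (1 - Psi β z) + Psi β z * phN β N z := by
      unfold phN
      ring
    rw [e, add_mul]
    exact (norm_add_le _ _).trans (add_le_add (h0 z hz) (h2 z hz))

theorem re_sub_half (z : ℂ) : (z - l / 2).re = z.re - l / 2 := by
  rw [← half_l]
  simp

theorem re_add_half (z : ℂ) : (z + l / 2).re = z.re + l / 2 := by
  rw [← half_l]
  simp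

theorem diffAt_Psi {β : ℝ} {z : ℂ} (h : NC β z.re) : DifferentiableAt ℂ (Psi β) z := by
  have h1 : DifferentiableAt ℂ (psi β) (z - l / 2) := diff_psi' (by rw [re_sub_half]; exact h.1)
  have h2 : DifferentiableAt ℂ (psi β) (z + l / 2) := diff_psi' (by rw [re_add_half]; exact h.2)
  exact (h1.comp z (differentiableAt_id.sub_const _)).mul
    (h2.comp z (differentiableAt_id.add_const _))

theorem diffAt_phN {β : ℝ} (N : ℕ) {z : ℂ} (h : NC β z.re) : DifferentiableAt ℂ (phN β N) z := by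
  have := diffAt_Psi h
  unfold phN
  exact (this.pow N).const_sub 1

/-! ## the strings T -/

/-- `Psi β w ^ N / sin (w + l / 2) ^ M` -/
def Bq (β : ℝ) (N M : ℕ) (w : ℂ) : ℂ :=
  psi β (w - l / 2) ^ N * psi β (w + l / 2) ^ (N - M) * qs β (w + l / 2) ^ M

/-- `Psi β (w - l) ^ N / sin (w + l / 2) ^ M` -/
def Bm (β : ℝ) (N M : ℕ) (w : ℂ) : ℂ :=
  psi β (w - 3 * l / 2) ^ N * psi β (w - l / 2) ^ (N - M) * (-qs β (-(w + l / 2))) ^ M

theorem Bq_mul {β : ℝ} {N M : ℕ} (hMN : M ≤ N) {w : ℂ} (h : NQ β (w.re + l / 2))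
    (hs : sin (w + l / 2) ≠ 0) : Bq β N M w * sin (w + l / 2) ^ M = Psi β w ^ N := by
  have h1 := qs_mul (β := β) (z := w + l / 2) (by rw [re_add_half]; exact h) hs
  unfold Bq Psi
  rw [mul_pow, mul_assoc, ← mul_pow, h1, mul_assoc, ← pow_add, Nat.sub_add_cancel hMN]

theorem Bm_mul {β : ℝ} {N M : ℕ} (hMN : M ≤ N) {w : ℂ} (h : NQ β (-(w.re + l / 2)))
    (hs : sin (w + l / 2) ≠ 0) : Bm β N M w * sin (w + l / 2) ^ M = Psi β (w - l) ^ N := by
  have h1 := qs_mul (β := β) (z := -(w + l / 2)) (by rw [neg_re, re_add_half]; exact h)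
    (by rw [Complex.sin_neg]; exact neg_ne_zero.2 hs)
  have h2 : psi β (w - l / 2) = psi β (-(w + l / 2)) := by
    rw [← psi_refl]
    congr 1
    ring
  have h3 : -qs β (-(w + l / 2)) * sin (w + l / 2) = psi β (w - l / 2) := by
    rw [h2, ← h1, Complex.sin_neg]
    ring
  unfold Bm Psi
  rw [show w - l - l / 2 = w - 3 * l / 2 by ring, show w - l + l / 2 = w - l / 2 by ring, mul_pow,
    mul_assoc, ← mul_pow, h3, mul_assoc, ← pow_add, Nat.sub_add_cancel hMN]

/-- the one body function of the strings T, without the poles at the row `- l / 2` -/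
def Th (c : ℂ) (β β' : ℝ) (M N : ℕ) (w : ℂ) : ℂ :=
  Rh c M w * R1 c M (w - l) * (Bq β' N M w - Bq β N M w - phN β N w * Bm β N M w)

theorem Th_eq (c : ℂ) {β β' : ℝ} {M N : ℕ} (hMN : M ≤ N) {w : ℂ} (h1 : NQ β (w.re + l / 2))
    (h2 : NQ β' (w.re + l / 2)) (h3 : NQ β (-(w.re + l / 2))) (hs : sin (w + l / 2) ≠ 0) :
    Th c β β' M N w = R1 c M w * R1 c M (w - l) *
      (phN β N w * phN β N (w - l) - phN β' N w) := by
  have e1 := Bq_mul hMN h2 hs
  have e2 := Bq_mul hMN h1 hs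
  have e3 := Bm_mul hMN h3 hs
  have hp : sin (w + l / 2) ^ M ≠ 0 := pow_ne_zero _ hs
  have e4 : phN β N w * phN β N (w - l) - phN β' N w =
      (Bq β' N M w - Bq β N M w - phN β N w * Bm β N M w) * sin (w + l / 2) ^ M := by
    rw [sub_mul, sub_mul, mul_assoc (phN β N w), e1, e2, e3]
    unfold phN
    ring
  rw [e4]
  unfold Th
  have e5 : R1 c M w * sin (w + l / 2) ^ M = Rh c M w := by
    unfold R1
    rw [one_div, inv_pow, mul_assoc, inv_mul_cancel₀ hp, mul_one]
  rw [← e5]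
  ring

/-- real parts where `Th` is regular -/
structure NT (β β' x : ℝ) : Prop where
  r1 : NH x
  r2 : NH (x - l)
  r3 : Real.sin (x - l + l / 2) ≠ 0
  lo : -Real.pi < x + l / 2
  hi : x + l / 2 < Real.pi
  c1 : NQ β (x - l / 2)
  c2 : NQ β (x + l / 2)
  c3 : NQ β (x - 3 * l / 2)
  c4 : NQ β (-(x + l / 2))
  d1 : NQ β' (x - l / 2)
  d2 : NQ β' (x + l / 2)

theorem diffAt_Th (c : ℂ) {β β' : ℝ} (M N : ℕ) {w : ℂ} (h : NT β β' w.re) :
    DifferentiableAt ℂ (Th c β β' M N) w := by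
  have hs : w + l / 2 = 0 ∨ sin (w + l / 2) ≠ 0 := by
    by_cases h0 : w + l / 2 = 0
    · exact Or.inl h0
    · exact Or.inr (NUP1.sin_ne (by rw [re_add_half]; exact h.lo) (by rw [re_add_half]; exact h.hi) h0)
  have hs' : -(w + l / 2) = 0 ∨ sin (-(w + l / 2)) ≠ 0 := by
    rcases hs with h0 | h0
    · left
      rw [h0, neg_zero]
    · right
      rw [Complex.sin_neg]
      exact neg_ne_zero.2 h0
  have dp : ∀ (b : ℝ), NQ b (w.re - l / 2) →
      DifferentiableAt ℂ (fun w : ℂ => psi b (w - l / 2)) w := fun b hb =>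
    (diff_psi' (by rw [re_sub_half]; exact hb)).comp w (differentiableAt_id.sub_const _)
  have dq' : ∀ (b : ℝ), NQ b (w.re + l / 2) →
      DifferentiableAt ℂ (fun w : ℂ => psi b (w + l / 2)) w := fun b hb =>
    (diff_psi' (by rw [re_add_half]; exact hb)).comp w (differentiableAt_id.add_const _)
  have dr : ∀ (b : ℝ), NQ b (w.re + l / 2) →
      DifferentiableAt ℂ (fun w : ℂ => qs b (w + l / 2)) w := fun b hb =>
    (differentiableAt_qs (by rw [re_add_half]; exact hb) hs).comp w (differentiableAt_id.add_const _)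
  have ds : DifferentiableAt ℂ (fun w : ℂ => qs β (-(w + l / 2))) w :=
    (differentiableAt_qs (by rw [neg_re, re_add_half]; exact h.c4) hs').comp w
      ((differentiableAt_id.add_const _).neg)
  have dt : DifferentiableAt ℂ (fun w : ℂ => psi β (w - 3 * l / 2)) w := by
    have e : (w - 3 * l / 2).re = w.re - 3 * l / 2 := by
      have : (w - ((3 * l / 2 : ℝ) : ℂ)).re = w.re - 3 * l / 2 := by simp
      push_cast at this
      exact this
    exact (diff_psi' (by rw [e]; exact h.c3)).comp w (differentiableAt_id.sub_const _)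
  have dR : DifferentiableAt ℂ (fun w : ℂ => R1 c M (w - l)) w :=
    (diffAt_R1 c M (z := w - l) (by simpa using h.r2) (by simpa using h.r3)).comp w
      (differentiableAt_id.sub_const _)
  unfold Th Bq Bm
  refine ((diffAt_Rh c M h.r1).mul dR).mul ?_
  refine ((((dp β' h.d1).pow N).mul ((dq' β' h.d2).pow (N - M))).mul ((dr β' h.d2).pow M)).sub
    ((((dp β h.c1).pow N).mul ((dq' β h.c2).pow (N - M))).mul ((dr β h.c2).pow M)) |>.sub ?_
  exact (diffAt_phN N ⟨h.c1, h.c2⟩).mul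
    (((dt.pow N).mul ((dp β h.c1).pow (N - M))).mul (ds.neg.pow M))

theorem measurable_sr (β : ℝ) : Measurable (sr β) := by
  unfold sr
  have h1 : Continuous (dslope (fun z : ℂ => sin (β * z)) 0) :=
    continuous_iff_continuousAt.2 fun z =>
      (differentiableAt_dslope (f := fun z : ℂ => sin (β * z)) (by fun_prop) z).continuousAt
  have h2 : Continuous (dslope sin (0 : ℂ)) :=
    continuous_iff_continuousAt.2 fun z =>
      (differentiableAt_dslope Complex.differentiable_sin z).continuousAt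
  exact h1.measurable.div h2.measurable

theorem measurable_qs (β : ℝ) : Measurable (qs β) := by
  have := measurable_sr β
  unfold qs
  fun_prop

theorem measurable_psi0 (β : ℝ) : Measurable (psi β) := by
  have h := measurable_psi β 0
  simpa using h

theorem measurable_Th (c : ℂ) (β β' : ℝ) (M N : ℕ) : Measurable (Th c β β' M N) := by
  have h1 := measurable_psi0 β
  have h2 := measurable_psi0 β'
  have h3 := measurable_qs β
  have h4 := measurable_qs β'
  have h5 := measurable_Rh c M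
  have h6 := measurable_R1 c M
  have h7 := measurable_phN β N
  unfold Th Bq Bm
  fun_prop

/-- **The strings T decay on strips containing the rows `- l / 2`.** -/
theorem bdd_Th (c : ℂ) {β β' : ℝ} (hβ : 0 < β) (hβ' : β ≤ β') {M N : ℕ} (hMN : M ≤ N) {K : Set ℝ}
    (hK : IsCompact K) (h : ∀ x ∈ K, NT β β' x) (h' : ∀ x ∈ K, NC β (x - l)) :
    Bdd K (-(2 * β)) (Th c β β' M N) := by
  refine bdd_glue hK (fun z hz => (diffAt_Th c M N (h _ hz)).continuousAt) ?_
  have hK' : IsCompact ((fun x => x - l) '' K) := hK.image (by fun_prop)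
  have sh : ∀ {s : ℝ} {g : ℂ → ℂ}, Bdd ((fun x => x - l) '' K) s g →
      Bdd K s fun z => g (z - l) := fun {s g} hg => by
    have := Bdd.shift (K := K) (-l) (by simpa [sub_eq_add_neg] using hg)
    simpa [sub_eq_add_neg] using this
  have b1 := bddF_R1 c M hK fun x hx => (h x hx).r1
  have b2 := BddF.of_bdd (sh (bdd_R1 c M hK' (by
    rintro _ ⟨x, hx, rfl⟩
    exact ⟨(h x hx).r2, (h x hx).r3⟩)))
  have b3 := BddF.of_bdd (bdd_phN hβ N hK fun x hx => ⟨(h x hx).c1, (h x hx).c2⟩)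
  have b4 := BddF.of_bdd (sh (bdd_phN hβ N hK' (by
    rintro _ ⟨x, hx, rfl⟩
    exact h' x hx)))
  have b5 := BddF.of_bdd (bdd_phN (hβ.trans_le hβ') N hK fun x hx => ⟨(h x hx).d1, (h x hx).d2⟩)
  have b6 := ((b1.mul b2).mul (((b3.mul b4).mono_rate (s' := -(2 * β)) (by linarith)).sub
    (b5.mono_rate (s' := -(2 * β)) (by linarith)))).rate (s' := -(2 * β)) (by ring)
  refine b6.congr fun z hz hi => ?_
  have hs : sin (z + l / 2) ≠ 0 := by
    refine NUP1.sin_ne_im ?_
    rw [← half_l, add_im, ofReal_im, add_zero]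
    intro h0
    rw [h0, abs_zero] at hi
    linarith
  exact Th_eq c hMN (h _ hz).c2 (h _ hz).d2 (h _ hz).c4 hs

end NURow

end
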