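import Pool.Agent.NURow.Fub
import Pool.Agent.NURow.Cls

/-!
# Half quanta and one body functions on the final lines

`KKf` = the lines of quanta and objects in the flat classes; `HLn` of the half quanta alone and with
a captured quantum on `31/50 l`, `5/4 l`, `-11/4 l`; `FamL` of the one body functions `XH`.
-/

set_option autoImplicit false
set_option linter.unusedSectionVars false

noncomputable section

open Complex MeasureTheory
open scoped Classical

namespace NURow

open NUP1 NUP1S NUP1.Bd NUP1.Leg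

/-- the lines of the flat classes -/
def KKf : Option O3 → Set ℝ
  | none => {3 / 5 * l}
  | some .L => {-(5 / 4 * l)}
  | some .S => Set.Icc (-(13 / 10 * l)) (-(5 / 4 * l))
  | some .T => {-(l / 2)}

theorem KKf_sub (k : Option O3) : KKf k ⊆ Set.Icc (loK k) (hiK k) := by
  have hl := Bd.l_pos
  rcases k with _ | (_ | _ | _) <;> intro x hx <;> simp only [KKf, loK, hiK] at hx ⊢
  · rw [hx]
    exact ⟨le_rfl, by linarith⟩
  · rw [hx]
    exact ⟨by linarith, le_rfl⟩
  · exact ⟨hx.1, by linarith [hx.2]⟩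
  · rw [hx]
    exact ⟨by linarith, le_rfl⟩

theorem KKf_sub4 (k : Option O3) :
    KKf k ⊆ Set.Icc (lo4 (3 / 5 * l) (-(17 / 10 * l)) (-(13 / 10 * l)) (-(7 / 10 * l)) k)
      (lo4 (3 / 5 * l) (-(5 / 4 * l)) (-(7 / 10 * l)) (-(l / 2)) k) := by
  have hl := Bd.l_pos
  rcases k with _ | (_ | _ | _) <;> intro x hx <;> simp only [KKf, lo4] at hx ⊢
  · rw [hx]
    exact ⟨le_rfl, le_rfl⟩
  · rw [hx]
    exact ⟨by linarith, le_rfl⟩
  · exact ⟨hx.1, by linarith [hx.2]⟩
  · rw [hx]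
    exact ⟨by linarith, le_rfl⟩

theorem LOk.mono {KK KK' : Option O3 → Set ℝ} (h : LOk KK) (hs : ∀ k, KK' k ⊆ KK k) : LOk KK' :=
  fun c c' k k' u hu v hv => h c c' k k' u (hs k hu) v (hs k' hv)

theorem LOk_KKf : LOk KKf := (LOk_strips stripsH).mono KKf_sub4

theorem FamL.mono {c : Bool} {KK KK' : Option O3 → Set ℝ} {κ Q : ℝ} {X : Option O3 → ℂ → ℂ}
    (h : FamL c KK κ Q X) (hs : ∀ k, KK' k ⊆ KK k) : FamL c KK' κ Q X :=
  ⟨h.ms, fun k => (h.dec k).mono (hs k)⟩

/-- `HLn` from the factors of a half quantum -/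
theorem HQ.line {cw p : ℝ} {S : Sp} (h : HQ cw p S) {KK : Option O3 → Set ℝ}
    (hK : ∀ k, KK k ⊆ Set.Icc (loK k) (hiK k)) {κ Q : ℝ} {K : ℂ → ℂ} (km : Measurable K)
    (kd : DecOn (κ + 2 * Q * cw) {p} K) : HLn KK κ Q cw p S K where
  ms := h.ms
  bd c k x hx := by
    have h1 := (h.pb c k).1
    have h2 : Bdd {p - x} (2 * cw * sc (c, ob4 k)) (S c k) := Bdd.mono_set h1 fun y hy => by
      rw [Set.mem_singleton_iff.1 hy]
      have := hK k hx
      exact ⟨by linarith [this.2], by linarith [this.1]⟩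
    exact h2.rate (by rw [show sc4 c k = sc (c, ob4 k) from rfl]; ring)
  km := km
  kd := kd

/-- the same for the second half quantum -/
theorem HLn.fl {KK : Option O3 → Set ℝ} {κ Q cw a : ℝ} {S : Sp} {K : ℂ → ℂ}
    (h : HLn KK κ Q cw a S K) {K' : ℂ → ℂ} (km : Measurable K')
    (kd : DecOn (κ + 2 * Q * -cw) {a} K') : HLn KK κ Q (-cw) a (fl S) K' where
  ms c k := h.ms _ _
  bd c k x hx := by
    have := h.bd (!c) k x hx
    rw [sc4_not] at this
    exact this.rate (by ring)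
  km := km
  kd := kd

theorem DecOn.mono_rate' {κ κ' : ℝ} {K : Set ℝ} {g : ℂ → ℂ} (h : DecOn κ' K g) (hκ : κ ≤ κ') :
    DecOn κ K g := by
  obtain ⟨D, hD⟩ := h
  refine ⟨|D|, fun z hz => (hD z hz).trans ?_⟩
  refine mul_le_mul (le_abs_self _) (Real.exp_le_exp.2 ?_) (Real.exp_pos _).le (abs_nonneg _)
  have := abs_nonneg z.im
  nlinarith

/-- one body functions on the final lines -/
theorem famL_XH {β : ℝ} (hβ : 0 < β) (hβ' : β ≤ 4 / 3) {M N : ℕ} (hMN : M ≤ N) (b : Bool) (c : ℂ)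
    {κ : ℝ} (hκ : κ ≤ 2 * β) : FamL b KKf κ 0 (XH c β M N (fun _ => 1) fun _ => 1) where
  ms := measurable_XH measurable_const measurable_const
  dec k := by
    have h := (dataH (c := c) hβ hβ' hMN (spec_one b)).dec k
    refine (DecOn.mono (DecOn.mono_rate' h ?_) (KKf_sub4 k))
    linarith

/-! ## `HLn` on the lines -/

theorem bd_SF_W (c : Bool) (k : Option O3) : ∀ x ∈ KKf k,
    Bdd {5 / 4 * l - x} (2 * (1 / 2 * sc4 c k)) (SF c k) := by
  intro x hx
  have hl := Bd.l_pos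
  by_cases h : c = true ∨ k ≠ some .S
  · have h1 := (PB_SF_A c k h).1
    refine (Bdd.mono_set h1 fun y hy => ?_).rate (by rw [show sc4 c k = sc (c, ob4 k) from rfl]; ring)
    rw [Set.mem_singleton_iff.1 hy]
    have := KKf_sub k hx
    exact ⟨by linarith [this.2], by linarith [this.1]⟩
  · push Not at h
    obtain ⟨hc, rfl⟩ := h
    have hc' : c = false := by simpa using hc
    subst hc'
    have h1 : PB (-2) {5 / 4 * l - x} DD := by
      obtain ⟨h1, h2⟩ := hx
      refine PB_DD isCompact_singleton (fun d hd => ?_) fun d hd => ?_ <;>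
        rw [Set.mem_singleton_iff.1 hd]
      · exact sin_ne_pos (by linarith) (by linarith)
      · exact sin_ne_pos (by linarith) (by linarith)
    exact h1.1.rate (by simp [sc4, sc, chg, ob4, ob3])

/-- the half quantum alone on `5/4 l` -/
theorem hLn_SF_W {κ Q : ℝ} {K : ℂ → ℂ} (km : Measurable K)
    (kd : DecOn (κ + 2 * Q * (1 / 2)) {5 / 4 * l} K) :
    HLn KKf κ Q (1 / 2) (5 / 4 * l) SF K where
  ms := measurable_SF
  bd := bd_SF_W
  km := km
  kd := kd

/-- the half quantum alone on `31/50 l` -/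
theorem hLn_SF_A {κ Q : ℝ} {K : ℂ → ℂ} (km : Measurable K)
    (kd : DecOn (κ + 2 * Q * (1 / 2)) {31 / 50 * l} K) :
    HLn KKf κ Q (1 / 2) (31 / 50 * l) SF K := HQ_SF_a0.line KKf_sub km kd

/-- the half quantum alone on `-11/4 l` -/
theorem hLn_SF_B {κ Q : ℝ} {K : ℂ → ℂ} (km : Measurable K)
    (kd : DecOn (κ + 2 * Q * (1 / 2)) {-(11 / 4) * l} K) :
    HLn KKf κ Q (1 / 2) (-(11 / 4) * l) SF K := HQ_SF_B.line KKf_sub km kd

/-- the half quantum with its captured quantum on `-11/4 l` -/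
theorem hLn_SP_B {κ Q : ℝ} {K : ℂ → ℂ} (km : Measurable K)
    (kd : DecOn (κ + 2 * Q * (-1 / 2)) {-(11 / 4) * l} K) :
    HLn KKf κ Q (-1 / 2) (-(11 / 4) * l) SP K := HQ_SP_B.line KKf_sub km kd

end NURow

end
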