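import Pool.Agent.NURow.PinV

/-!
# From the start classes to the final classes

`sum_cS_cF`: the signed sum of the start classes (`t, t' ∈ {W, F, P}`) is the signed sum of the
final classes (`t, t' ∈ {W, F, P, H}`), from the moves of the two half quanta.
-/

set_option autoImplicit false
set_option linter.unusedSectionVars false

noncomputable section

open Complex MeasureTheory
open scoped Classical

namespace NURow

open NUP1 NUP1S NUP1.Bd NUP1.Leg

/-- the types of the start classes -/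
def T3 : Finset HT := {.W, .F, .P}

theorem sum_T3 (f : HT → ℂ) : ∑ t ∈ T3, f t = f .W + f .F + f .P := by
  unfold T3
  rw [Finset.sum_insert (by decide), Finset.sum_insert (by decide), Finset.sum_singleton]
  ring

theorem sum_HT (f : HT → ℂ) : ∑ t, f t = f .W + f .F + f .P + f .H := by
  have : (Finset.univ : Finset HT) = {.W, .F, .P, .H} := rfl
  rw [this, Finset.sum_insert (by decide), Finset.sum_insert (by decide),
    Finset.sum_insert (by decide), Finset.sum_singleton]
  ring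

section sum

variable {X Y : Option O3 → ℂ → ℂ} {kF kP kF' kP' : ℂ → ℂ} {α : ℝ} {n n' : ℕ}
  {lnX : ∀ p p' : ℕ, (Fin p → O3) → (Fin p' → O3) → Fin p → ℝ}
  {lnY : ∀ p p' : ℕ, (Fin p → O3) → (Fin p' → O3) → Fin p' → ℝ}

/-- **The start classes as the final classes.** -/
theorem sum_cS_cF
    (hX : ∀ t' ∈ T3, (cS kF kP kF' kP' .W t').val X Y α n n' lnX lnY =
      (cS kF kP kF' kP' .W t').mX.val X Y α n n' lnX lnY +
        ((cS kF kP kF' kP' .W t').hX Y).val X Y α n n' lnX lnY)
    (hY : ∀ t, (CD.fX Y t (cS kF kP kF' kP' t .W)).val X Y α n n' lnX lnY =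
      (CD.fX Y t (cS kF kP kF' kP' t .W)).mY.val X Y α n n' lnX lnY +
        ((CD.fX Y t (cS kF kP kF' kP' t .W)).hY X).val X Y α n n' lnX lnY) :
    ∑ t ∈ T3, ∑ t' ∈ T3, t.sg * t'.sg * (cS kF kP kF' kP' t t').val X Y α n n' lnX lnY =
      ∑ t, ∑ t', t.sg * t'.sg * (cF X Y kF kP kF' kP' t t').val X Y α n n' lnX lnY := by
  have h1 := hX .W (by decide)
  have h2 := hX .F (by decide)
  have h3 := hX .P (by decide)
  have k1 := hY .W
  have k2 := hY .F
  have k3 := hY .P
  have k4 := hY .H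
  have e : cS kF kP kF' kP' .H = cS kF kP kF' kP' .W := by
    funext t'
    cases t' <;> rfl
  have e' : ∀ t, cS kF kP kF' kP' t .H = cS kF kP kF' kP' t .W := by
    intro t
    cases t <;> rfl
  simp only [sum_T3, sum_HT, cF, e, e', CD.fX, CD.fY, HT.sg] at *
  rw [h1, h2, h3, k1, k2, k3, k4]
  ring

theorem enorm_sg (t : HT) : ‖t.sg‖ₑ = 1 := by
  cases t <;> simp [HT.sg]

/-- the sum of the final classes in modulus -/
theorem enorm_sum_cF (kF kP kF' kP' : ℂ → ℂ) :
    ‖∑ t : HT, ∑ t' : HT, t.sg * t'.sg * (cF X Y kF kP kF' kP' t t').val X Y α n n' lnX lnY‖ₑ ≤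
      ∑ t : HT, ∑ t' : HT, ∫⁻ y : ℝ × ℝ,
        ‖(cF X Y kF kP kF' kP' t t').pre (vl (cF X Y kF kP kF' kP' t t').a y.1)
          (vl (cF X Y kF kP kF' kP' t t').b y.2)‖ₑ *
        ‖(cF X Y kF kP kF' kP' t t').Z X Y α n n' lnX lnY
          (vl (cF X Y kF kP kF' kP' t t').a y.1)
          (vl (cF X Y kF kP kF' kP' t t').b y.2)‖ₑ ∂(volume.prod volume) := by
  refine (enorm_sum_le _ _).trans (Finset.sum_le_sum fun t _ => ?_)
  refine (enorm_sum_le _ _).trans (Finset.sum_le_sum fun t' _ => ?_)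
  rw [enorm_mul, enorm_mul, enorm_sg, enorm_sg, one_mul, one_mul]
  exact CD.val_le _ _ _ _ _ _ _ _

end sum

end NURow

end
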