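import Pool.Agent.NURow.PinV

/-!
# The move of the line of `w'` in a class

`CD.flip`: exchange of the species and of the half quanta. `CD.moveY`: the mirror of `CD.moveX`.
-/

set_option autoImplicit false
set_option linter.unusedSectionVars false

noncomputable section

open Complex MeasureTheory
open scoped Classical

namespace NURow

open NUP1 NUP1S NUP1.Bd

/-- exchange of the species and of the half quanta -/
def CD.flip (c : CD) : CD where
  K := c.K'
  K' := c.K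
  gw x := c.gw (-x)
  S := Sp.flip c.S'
  S' := Sp.flip c.S
  dX := c.dY
  dY := c.dX
  a := c.b
  b := c.a

/-- exchange of the species of the lines -/
abbrev swL (ln : ∀ p p' : ℕ, (Fin p → O3) → (Fin p' → O3) → Fin p → ℝ) :
    ∀ p p' : ℕ, (Fin p → O3) → (Fin p' → O3) → Fin p' → ℝ := fun p p' k k' => ln p' p k' k

/-- exchange of the species of the lines -/
abbrev swL' (ln : ∀ p p' : ℕ, (Fin p → O3) → (Fin p' → O3) → Fin p' → ℝ) :
    ∀ p p' : ℕ, (Fin p → O3) → (Fin p' → O3) → Fin p → ℝ := fun p p' k k' => ln p' p k' k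

theorem XS_flip2 (c : Bool) (X : Option O3 → ℂ → ℂ) (S S' : Sp) (w w' : ℂ) :
    XS c X S S' w w' = XS (!c) X (Sp.flip S') (Sp.flip S) w' w := by
  funext k z
  unfold XS Sp.flip
  rw [Bool.not_not]
  ring

theorem CD.flip_Z (c : CD) (X Y : Option O3 → ℂ → ℂ) (α : ℝ) (n n' : ℕ)
    (lnX : ∀ p p' : ℕ, (Fin p → O3) → (Fin p' → O3) → Fin p → ℝ)
    (lnY : ∀ p p' : ℕ, (Fin p → O3) → (Fin p' → O3) → Fin p' → ℝ) (w w' : ℂ) :
    c.Z X Y α n n' lnX lnY w w' = c.flip.Z Y X α n' n (swL' lnY) (swL lnX) w' w := by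
  unfold CD.Z
  by_cases h : c.dX ≤ n ∧ c.dY ≤ n'
  · have h' : c.flip.dX ≤ n' ∧ c.flip.dY ≤ n := ⟨h.2, h.1⟩
    rw [if_pos h, if_pos h', ZobjQ_swap, XS_flip2 false Y, XS_flip2 true X]
    rfl
  · have h' : ¬ (c.flip.dX ≤ n' ∧ c.flip.dY ≤ n) := fun h' => h ⟨h'.2, h'.1⟩
    rw [if_neg h, if_neg h']

theorem CD.flip_pre (c : CD) (w w' : ℂ) : c.pre w w' = c.flip.pre w' w := by
  unfold CD.pre CD.flip Pre
  simp only [neg_sub]
  ring

/-- **Exchange of the species and of the half quanta.** -/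
theorem CD.flip_val (c : CD) (X Y : Option O3 → ℂ → ℂ) (α : ℝ) (n n' : ℕ)
    (lnX : ∀ p p' : ℕ, (Fin p → O3) → (Fin p' → O3) → Fin p → ℝ)
    (lnY : ∀ p p' : ℕ, (Fin p → O3) → (Fin p' → O3) → Fin p' → ℝ) :
    c.val X Y α n n' lnX lnY = c.flip.val Y X α n' n (swL' lnY) (swL lnX) := by
  unfold CD.val
  rw [← integral_prod_swap]
  refine integral_congr_ae (Filter.Eventually.of_forall fun y => ?_)
  simp only [Prod.fst_swap, Prod.snd_swap]
  rw [CD.flip_pre, CD.flip_Z]
  rfl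

theorem hostS_flip (S : Sp) : hostS false (Sp.flip S) = Sp.flip (hostS true S) := by
  funext c k x
  unfold hostS Sp.flip
  rw [show gz (false, Ob.S) (c, ob4 k) (x - 2 * l) = gz (true, Ob.S) (!c, ob4 k) (x - 2 * l) from
    (gz_not false c .S (ob4 k) (x - 2 * l)).symm]

theorem CD.flip_mX (c : CD) : c.flip.mX = c.mY.flip := rfl

theorem CD.flip_hX (c : CD) (X : Option O3 → ℂ → ℂ) : c.flip.hX X = (c.hY X).flip := by
  unfold CD.hX CD.hY CD.flip
  simp only [CD.mk.injEq, true_and, and_true]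
  refine ⟨?_, hostS_flip _⟩
  funext x
  simp only [Sp.flip, Bool.not_false]
  congr 2
  ring

theorem FmD.flip {lo hi : Option O3 → ℝ} {κ : ℝ} {X Y : Option O3 → ℂ → ℂ}
    (hF : FmD lo hi κ 0 (XB X Y)) : FmD lo hi κ 0 (XB Y X) where
  meas c k := by
    cases c
    · exact hF.meas true k
    · exact hF.meas false k
  dec c k := by
    rw [show κ + 2 * 0 * sc4 c k = κ + 2 * 0 * sc4 (!c) k by ring]
    cases c
    · exact hF.dec true k
    · exact hF.dec false k
  cont c k h := by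
    cases c
    · exact hF.cont true k h
    · exact hF.cont false k h
  diff c k h := by
    cases c
    · exact hF.diff true k h
    · exact hF.diff false k h

theorem FxH.flip {lo hi : Option O3 → ℝ} {κ cw b : ℝ} {S : Sp} {K : ℂ → ℂ}
    (v : FxH lo hi κ cw b S K) : FxH lo hi κ (-cw) b (Sp.flip S) K where
  ms c k := v.ms _ _
  pb c k := by
    have := v.pb (!c) k
    rw [sc4_not] at this
    rw [show 2 * (-cw * sc4 c k) = 2 * (cw * -sc4 c k) by ring]
    exact this
  mK := v.mK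
  dK := v.dK

variable {lo hi : Option O3 → ℝ} {κ cw cw' α : ℝ} {X Y : Option O3 → ℂ → ℂ}

/-- **The line of `w'` is moved: the class with `w'` on its final line and the class in which `w'`
is bound to a string of species X.** `cw'` = own charge of `w'` (the spectators `c.S'` in own
orientation are `Sp.flip c.S'`). -/
theorem CD.moveY (hκ : 0 < κ) (hok : OkS lo hi) (hlo : lo none ≤ α) (hhi : α ≤ hi none)
    (hF : FmD lo hi κ 0 (XB X Y)) {c : CD} (hb : c.b = 31 / 50 * l)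
    (m : MvH lo hi κ cw' (31 / 50 * l) (5 / 4 * l) (-(11 / 8) * l) (Sp.flip c.S') c.K' rD)
    (v : FxH lo hi κ cw c.a c.S c.K) (hgm : Measurable c.gw)
    (hg : PB (-(2 * (cw * cw'))) (Set.Icc (c.a - 5 / 4 * l) (c.a - 31 / 50 * l)) c.gw) {n n' : ℕ}
    (hQ : c.dX ≤ n → c.dY ≤ n' →
      cw - cw' + (((n - c.dX : ℕ) : ℝ) - ((n' - c.dY : ℕ) : ℝ)) = 0)
    {lnX : ∀ p p' : ℕ, (Fin p → O3) → (Fin p' → O3) → Fin p → ℝ}
    {lnY : ∀ p p' : ℕ, (Fin p → O3) → (Fin p' → O3) → Fin p' → ℝ}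
    (hl : LnA lo hi (swL' lnY) (swL lnX)) :
    c.val X Y α n n' lnX lnY =
      c.mY.val X Y α n n' lnX lnY + (c.hY X).val X Y α n n' lnX lnY := by
  have hg' : PB (2 * (cw' * -cw)) (Set.Icc (31 / 50 * l - c.a) (5 / 4 * l - c.a))
      fun x => c.gw (-x) := by
    refine PB.neg (K := Set.Icc (31 / 50 * l - c.a) (5 / 4 * l - c.a)) ?_
    rw [show 2 * (cw' * -cw) = -(2 * (cw * cw')) by ring]
    refine hg.mono ?_
    rintro _ ⟨x, hx, rfl⟩
    exact ⟨by simp only []; linarith [hx.2], by simp only []; linarith [hx.1]⟩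
  have h := CD.moveX (c := c.flip) (n := n') (n' := n) hκ hok hlo hhi hF.flip hb m v.flip
    (hgm.comp measurable_neg) hg' (fun h1 h2 => by
      have := hQ h2 h1
      show cw' + -cw + (((n' - c.dY : ℕ) : ℝ) - ((n - c.dX : ℕ) : ℝ)) = 0
      linarith) hl
  rw [CD.flip_val, h, CD.flip_mX, CD.flip_hX, CD.flip_val c.mY, CD.flip_val (c.hY X)]

end NURow

end
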