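import Pool.Agent.NURow.Fin
import Pool.Agent.NURow.PinY
import Pool.Agent.NURow.Pref

/-!
# From the start classes to the final classes: the moves

`cS_cF`: `sum_cS_cF` from the data of the two movable half quanta and of the fixed ones.
-/

set_option autoImplicit false
set_option linter.unusedSectionVars false

noncomputable section

open Complex MeasureTheory
open scoped Classical

namespace NURow

open NUP1 NUP1S NUP1.Bd NUP1.Leg

/-! ## pair functions -/

theorem gT_eq : gT .W .W = gFF ∧ gT .W .F = gFF ∧ gT .W .P = gFP ∧ gT .F .W = gFF ∧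
    gT .P .W = gPF ∧ gT .H .W = gFF := ⟨rfl, rfl, rfl, rfl, rfl, rfl⟩

theorem measurable_gT (t t' : HT) : Measurable (gT t t') := by
  have h1 := measurable_Dk
  have h2 : Measurable fun x : ℂ => Ck (-x - 3 * l) := measurable_Ck.comp (by fun_prop)
  have h3 : Measurable fun x : ℂ => Ck (x - 3 * l) := measurable_Ck.comp (by fun_prop)
  have h4 := measurable_qg
  cases t <;> cases t' <;> unfold gT <;>
    first
      | exact h1
      | exact h1.mul h2
      | exact h1.mul h3
      | exact ((h1.mul h2).mul h3).mul h4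

/-- the pair function of the move of `w` -/
theorem gw_X : PB (2 * (1 / 2 * (-(1 / 2))))
      (Set.Icc (31 / 50 * l - 31 / 50 * l) (5 / 4 * l - 31 / 50 * l)) (gT .W .W) ∧
    PB (2 * (1 / 2 * (-(1 / 2))))
      (Set.Icc (31 / 50 * l - -(11 / 4) * l) (5 / 4 * l - -(11 / 4) * l)) (gT .W .F) ∧
    PB (2 * (1 / 2 * (-(-1 / 2))))
      (Set.Icc (31 / 50 * l - -(11 / 4) * l) (5 / 4 * l - -(11 / 4) * l)) (gT .W .P) := by
  have hl := Bd.l_pos
  refine ⟨?_, ?_, ?_⟩
  · refine (PB.mono_rate gFF_AA (by norm_num)).mono ?_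
    exact Set.Icc_subset_Icc (by linarith) (by linarith)
  · exact PB.mono_rate g_AB.1 (by norm_num)
  · exact PB.mono_rate g_AB.2 (by norm_num)

/-- the pair function of the move of `w'` -/
theorem gw_Y : PB (-(2 * (1 / 2 * (1 / 2))))
      (Set.Icc (5 / 4 * l - 5 / 4 * l) (5 / 4 * l - 31 / 50 * l)) (gT .W .W) ∧
    PB (-(2 * (1 / 2 * (1 / 2))))
      (Set.Icc (-(11 / 4) * l - 5 / 4 * l) (-(11 / 4) * l - 31 / 50 * l)) (gT .F .W) ∧
    PB (-(2 * (-1 / 2 * (1 / 2))))
      (Set.Icc (-(11 / 4) * l - 5 / 4 * l) (-(11 / 4) * l - 31 / 50 * l)) (gT .P .W) ∧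
    PB (-(2 * ((1 / 2 + sc4 false (some .S)) * (1 / 2))))
      (Set.Icc (5 / 8 * l - 5 / 4 * l) (5 / 8 * l - 31 / 50 * l))
      (fun x => gT .W .W x * fl SF false (some .S) (2 * l - x)) := by
  have hl := Bd.l_pos
  refine ⟨?_, ?_, ?_, ?_⟩
  · refine (PB.mono_rate gFF_AA (by norm_num)).mono ?_
    exact Set.Icc_subset_Icc (by linarith) (by linarith)
  · exact PB.mono_rate g_BA.1 (by norm_num)
  · exact PB.mono_rate g_BA.2 (by norm_num)
  · have h1 : PB (-1) (Set.Icc (5 / 8 * l - 5 / 4 * l) (5 / 8 * l - 31 / 50 * l)) gFF :=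
      gFF_AA.mono (Set.Icc_subset_Icc (by linarith) (by linarith))
    have h2 : PB 2 (Set.Icc (5 / 8 * l - 5 / 4 * l) (5 / 8 * l - 31 / 50 * l))
        fun x => CC (2 * l - x) := by
      have := (PB_CC Set.univ).refl (-(2 * l))
        (K := Set.Icc (5 / 8 * l - 5 / 4 * l) (5 / 8 * l - 31 / 50 * l)) fun x _ => Set.mem_univ _
      refine this.congr' fun z => ?_
      congr 1
      push_cast
      ring
    refine PB.mono_rate ((h1.mul h2).congr' fun z => rfl) ?_
    have : sc4 false (some .S) = -2 := by simp [sc4, sc, chg, ob4, ob3]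
    rw [this]
    norm_num

section inst

variable {lo hi : Option O3 → ℝ} {κ α : ℝ} {X Y : Option O3 → ℂ → ℂ} {kF kP kF' kP' : ℂ → ℂ}
  {n : ℕ} {lnX : ∀ p p' : ℕ, (Fin p → O3) → (Fin p' → O3) → Fin p → ℝ}
  {lnY : ∀ p p' : ℕ, (Fin p → O3) → (Fin p' → O3) → Fin p' → ℝ}

/-- **The start classes as the final classes**, from the data of the half quanta. -/
theorem cS_cF (hκ : 0 < κ) (hok : OkS lo hi) (hlo : lo none ≤ α) (hhi : α ≤ hi none)
    (hF : FmD lo hi κ 0 (XB X Y))
    (mX : MvH lo hi κ (1 / 2) (31 / 50 * l) (5 / 4 * l) (-(11 / 8) * l) SF kF rD)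
    (mY : MvH lo hi κ (1 / 2) (31 / 50 * l) (5 / 4 * l) (-(11 / 8) * l) SF kF' rD)
    (fF : FxH lo hi κ (1 / 2) (-(11 / 4) * l) SF kF)
    (fP : FxH lo hi κ (-1 / 2) (-(11 / 4) * l) SP kP)
    (fF' : FxH lo hi κ (1 / 2) (-(11 / 4) * l) SF kF')
    (fP' : FxH lo hi κ (-1 / 2) (-(11 / 4) * l) SP kP')
    (hl : LnA lo hi lnX lnY) (hl' : LnA lo hi (swL' lnY) (swL lnX)) :
    ∑ t ∈ T3, ∑ t' ∈ T3, t.sg * t'.sg * (cS kF kP kF' kP' t t').val X Y α n n lnX lnY =
      ∑ t, ∑ t', t.sg * t'.sg * (cF X Y kF kP kF' kP' t t').val X Y α n n lnX lnY := by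
  have hflS : Sp.flip (fl SF) = SF := by
    funext c k x
    simp [Sp.flip, fl]
  refine sum_cS_cF ?_ ?_
  · intro t' ht'
    have ht3 : t' = .W ∨ t' = .F ∨ t' = .P := by
      unfold T3 at ht'
      simpa using ht'
    rcases ht3 with rfl | rfl | rfl
    · exact CD.moveX hκ hok hlo hhi hF (c := cS kF kP kF' kP' .W .W) rfl mX
        ((mY.fx (Or.inl rfl)).flip) (measurable_gT .W .W) gw_X.1 (fun _ _ => by
          simp [cS, HT.nq]) hl
    · exact CD.moveX hκ hok hlo hhi hF (c := cS kF kP kF' kP' .W .F) rfl mX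
        fF'.flip (measurable_gT .W .F) gw_X.2.1 (fun _ _ => by
          simp [cS, HT.nq]) hl
    · exact CD.moveX hκ hok hlo hhi hF (c := cS kF kP kF' kP' .W .P) rfl mX
        fP'.flip (measurable_gT .W .P) gw_X.2.2 (fun h1 _ => by
          have h2 : 1 ≤ n := h1
          simp only [cS, HT.nq, Nat.sub_zero]
          push_cast [Nat.cast_sub h2]
          ring) hl
  · intro t
    cases t
    · exact CD.moveY hκ hok hlo hhi hF (c := (cS kF kP kF' kP' .W .W).mX) rfl
        (by show MvH lo hi κ (1 / 2) _ _ _ (Sp.flip (fl SF)) kF' rD; rw [hflS]; exact mY)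
        (mX.fx (Or.inr rfl)) (measurable_gT .W .W) gw_Y.1 (fun _ _ => by
          simp [CD.mX, cS, HT.nq]) hl'
    · exact CD.moveY hκ hok hlo hhi hF (c := cS kF kP kF' kP' .F .W) rfl
        (by show MvH lo hi κ (1 / 2) _ _ _ (Sp.flip (fl SF)) kF' rD; rw [hflS]; exact mY)
        fF (measurable_gT .F .W) gw_Y.2.1 (fun _ _ => by
          simp [cS, HT.nq]) hl'
    · exact CD.moveY hκ hok hlo hhi hF (c := cS kF kP kF' kP' .P .W) rfl
        (by show MvH lo hi κ (1 / 2) _ _ _ (Sp.flip (fl SF)) kF' rD; rw [hflS]; exact mY)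
        fP (measurable_gT .P .W) gw_Y.2.2.1 (fun _ h1 => by
          have h2 : 1 ≤ n := h1
          simp only [cS, HT.nq, Nat.sub_zero]
          push_cast [Nat.cast_sub h2]
          ring) hl'
    · have hh := MvH.host hκ hF mX (-(2 * Real.pi * rD (2 * l) * wt .S))
      rw [pinned_line] at hh
      have hK : ((cS kF kP kF' kP' .H .W).hX Y).K = fun w =>
          -(2 * Real.pi * rD (2 * l) * wt .S) * Y (some .S) (w - 2 * l) * kF w := by
        funext w
        show -(2 * Real.pi * rD (2 * l) * wt .S * Y (some .S) (w - 2 * l)) * kF w = _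
        ring
      have hh' : FxH lo hi κ (1 / 2 + sc4 false (some .S)) ((cS kF kP kF' kP' .H .W).hX Y).a
          ((cS kF kP kF' kP' .H .W).hX Y).S ((cS kF kP kF' kP' .H .W).hX Y).K := by
        rw [hK]
        exact hh
      refine CD.moveY hκ hok hlo hhi hF (c := (cS kF kP kF' kP' .H .W).hX Y) rfl
        (by show MvH lo hi κ (1 / 2) _ _ _ (Sp.flip (fl SF)) kF' rD; rw [hflS]; exact mY)
        hh' ?_ gw_Y.2.2.2 (fun _ h1 => ?_) hl'
      · exact (measurable_gT .W .W).mul (measurable_CC.comp (by fun_prop))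
      · have h2 : 2 ≤ n := h1
        have h3 : sc4 false (some .S) = -2 := by simp [sc4, sc, chg, ob4, ob3]
        have h4 : ((cS kF kP kF' kP' .H .W).hX Y).dX = 0 := rfl
        have h5 : ((cS kF kP kF' kP' .H .W).hX Y).dY = 2 := rfl
        rw [h3, h4, h5, Nat.cast_sub h2, Nat.sub_zero]
        push_cast
        ring

end inst

end NURow

end
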