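import Pool.Agent.NUP1S.Stage2

/-!
# Families of objects with arbitrary pair functions, real charges and nonzero total charge

`FA g h z` = product of the one body functions and of the pair functions `g a b (z a - z b)`.
If `g a b` is of order `exp (2 c a c b |im|)` and the total charge is `Q`, one body functions of
order `exp (-(κ + 2 Q c a) |im|)` give an integrable function on vertical lines (`integrable_FA`),
and lines can be moved in strips without poles (`shiftA_one`, `shiftA_all`).
-/

set_option autoImplicit false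
set_option linter.unusedSectionVars false

noncomputable section

open Complex MeasureTheory
open scoped Classical

namespace NURow

open NUP1 NUP1S NUP1.Bd

variable {ι ι' : Type*} [Fintype ι] [Fintype ι']

/-- energy inequality with a charge at the origin -/
theorem energy_originA (c : ι → ℝ) (y : ι → ℝ) :
    ∑ i, ∑ j, c i * c j * |y i - y j| ≤ 2 * (∑ i, c i) * ∑ i, c i * |y i| := by
  obtain ⟨T, hT⟩ : ∃ T, T = ∑ i, c i := ⟨_, rfl⟩
  have := energy_nonpos (Finset.univ : Finset (Option ι))
    (fun o => o.elim (-T) c) (fun o => o.elim 0 y) (by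
      rw [Fintype.sum_option]
      simp [hT])
  rw [Fintype.sum_option] at this
  simp only [Fintype.sum_option, Option.elim_none, Option.elim_some, sub_zero, zero_sub, abs_neg,
    Finset.sum_add_distrib, abs_zero, mul_zero, zero_add] at this
  have e1 : ∑ i, -T * c i * |y i| = -(T * ∑ i, c i * |y i|) := by
    rw [Finset.mul_sum, ← Finset.sum_neg_distrib]
    exact Finset.sum_congr rfl fun i _ => by ring
  have e2 : ∑ i, c i * -T * |y i| = -(T * ∑ i, c i * |y i|) := by
    rw [Finset.mul_sum, ← Finset.sum_neg_distrib]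
    exact Finset.sum_congr rfl fun i _ => by ring
  rw [e1, e2] at this
  rw [← hT]
  linarith

/-- the weight of a family with pair functions `g` -/
def FA (g : ι → ι → ℂ → ℂ) (h : ι → ℂ → ℂ) (z : ι → ℂ) : ℂ :=
  (∏ i, h i (z i)) * PU fun a b => g a b (z a - z b)

theorem Fg_eq_FA (o : ι → CO) (h : ι → ℂ → ℂ) (z : ι → ℂ) :
    Fg o h z = FA (fun a b => gz (o a) (o b)) h z := rfl

/-- bound at arbitrary positions -/
theorem FA_norm_le {g : ι → ι → ℂ → ℂ} {c : ι → ℝ} {Q : ℝ} (hn : ∑ i, c i = Q) {h : ι → ℂ → ℂ}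
    {z : ι → ℂ} {C D κ : ℝ} (hC : 1 ≤ C)
    (hh : ∀ i, ‖h i (z i)‖ ≤ D * Real.exp (-((κ + 2 * Q * c i) * |(z i).im|)))
    (hg : ∀ a b, a ≠ b →
      ‖g a b (z a - z b)‖ ≤ C * Real.exp (2 * (c a * c b) * |(z a - z b).im|)) :
    ‖FA g h z‖ ≤ D ^ Fintype.card ι * C ^ (Fintype.card ι * Fintype.card ι) *
      ∏ i, Real.exp (-(κ * |(z i).im|)) := by
  unfold FA
  rw [norm_mul, norm_prod]
  have e1 : ∏ i, ‖h i (z i)‖ ≤ D ^ Fintype.card ι *
      ((∏ i, Real.exp (-(κ * |(z i).im|))) * Real.exp (-(2 * Q * ∑ i, c i * |(z i).im|))) := by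
    refine (Finset.prod_le_prod (fun i _ => norm_nonneg _) fun i _ => hh i).trans (le_of_eq ?_)
    rw [Finset.prod_mul_distrib, Finset.prod_const, Finset.card_univ, Finset.mul_sum,
      ← Finset.sum_neg_distrib, Real.exp_sum, ← Finset.prod_mul_distrib]
    congr 1
    refine Finset.prod_congr rfl fun i _ => ?_
    rw [← Real.exp_add]
    congr 1
    ring
  have e2 := PU_norm_le (fun a b => g a b (z a - z b))
    (fun a b => c a * c b * |(z a).im - (z b).im|)
    (fun a b => by rw [abs_sub_comm]; ring) (fun a => by simp) hC (fun a b hab => by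
      refine (hg a b hab).trans (le_of_eq ?_)
      rw [sub_im]
      ring_nf)
  have e3 := energy_originA c (fun i => (z i).im)
  rw [hn] at e3
  have hC0 : 0 ≤ C := zero_le_one.trans hC
  have hP : 0 ≤ ∏ i, Real.exp (-(κ * |(z i).im|)) :=
    Finset.prod_nonneg fun i _ => (Real.exp_pos _).le
  have hD0 : 0 ≤ D ^ Fintype.card ι := by
    rcases isEmpty_or_nonempty ι with hι | ⟨⟨i⟩⟩
    · simp
    · have h0 := (norm_nonneg _).trans (hh i)
      exact pow_nonneg (nonneg_of_mul_nonneg_left h0 (Real.exp_pos _)) _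
  calc _ ≤ (D ^ Fintype.card ι *
        ((∏ i, Real.exp (-(κ * |(z i).im|))) * Real.exp (-(2 * Q * ∑ i, c i * |(z i).im|)))) *
        (C ^ (Fintype.card ι * Fintype.card ι) *
          Real.exp (∑ a, ∑ b, c a * c b * |(z a).im - (z b).im|)) :=
        mul_le_mul e1 e2 (norm_nonneg _)
          ((Finset.prod_nonneg fun i _ => norm_nonneg _).trans e1)
    _ = (D ^ Fintype.card ι * C ^ (Fintype.card ι * Fintype.card ι) *
        ∏ i, Real.exp (-(κ * |(z i).im|))) *
          Real.exp (∑ a, ∑ b, c a * c b * |(z a).im - (z b).im| -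
            2 * Q * ∑ i, c i * |(z i).im|) := by
        rw [sub_eq_add_neg, Real.exp_add]
        ring
    _ ≤ _ := by
        refine mul_le_of_le_one_right ?_ (Real.exp_le_one_iff.2 (by linarith))
        exact mul_nonneg (mul_nonneg hD0 (pow_nonneg hC0 _)) hP

theorem measurable_FA_pos {g : ι → ι → ℂ → ℂ} (hgm : ∀ a b, Measurable (g a b)) {h : ι → ℂ → ℂ}
    (hm : ∀ i, Measurable (h i)) (x : ι → ℝ) : Measurable fun t => FA g h (pos x t) := by
  unfold FA
  refine Measurable.mul ?_ ?_
  · exact Finset.measurable_prod _ fun i _ => (hm i).comp (measurable_pos x i)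
  · exact measurable_PU (fun a b (t : ι → ℝ) => g a b (pos x t a - pos x t b))
      fun a b => (hgm a b).comp ((measurable_pos x a).sub (measurable_pos x b))

/-- one constant for all pairs -/
theorem pair_const (g : ι → ι → ℂ → ℂ) (c : ι → ℝ) (K : ι → ι → Set ℝ)
    (h : ∀ a b, a ≠ b → Bdd (K a b) (2 * (c a * c b)) (g a b)) :
    ∃ C : ℝ, 1 ≤ C ∧ ∀ a b, a ≠ b → ∀ z : ℂ, z.re ∈ K a b →
      ‖g a b z‖ ≤ C * Real.exp (2 * (c a * c b) * |z.im|) := by
  have h1 : ∀ a b, ∃ C : ℝ, 0 ≤ C ∧ (a ≠ b → ∀ z : ℂ, z.re ∈ K a b →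
      ‖g a b z‖ ≤ C * Real.exp (2 * (c a * c b) * |z.im|)) := by
    intro a b
    by_cases hab : a = b
    · exact ⟨0, le_rfl, fun h => absurd hab h⟩
    · obtain ⟨C, hC, h2⟩ := h a b hab
      exact ⟨C, hC, fun _ => h2⟩
  choose C hC h1 using h1
  have s0 : ∀ a, 0 ≤ ∑ b, C a b := fun a => Finset.sum_nonneg fun b _ => hC a b
  have s1 : ∀ a b, C a b ≤ 1 + ∑ a, ∑ b, C a b := by
    intro a b
    have a1 : C a b ≤ ∑ b, C a b :=
      Finset.single_le_sum (f := fun b => C a b) (fun b _ => hC a b) (Finset.mem_univ b)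
    have a2 : ∑ b, C a b ≤ ∑ a, ∑ b, C a b :=
      Finset.single_le_sum (f := fun a => ∑ b, C a b) (fun a _ => s0 a) (Finset.mem_univ a)
    linarith
  refine ⟨1 + ∑ a, ∑ b, C a b, ?_, fun a b hab z hz => ?_⟩
  · have := Finset.sum_nonneg fun a (_ : a ∈ Finset.univ) => s0 a
    linarith
  · exact (h1 a b hab z hz).trans (mul_le_mul_of_nonneg_right (s1 a b) (Real.exp_pos _).le)

/-- one constant for all one body functions, rates depending on the object -/
theorem dec_const {κ : ι → ℝ} (h : ι → ℂ → ℂ) (K : ι → Set ℝ)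
    (hd : ∀ i, DecOn (κ i) (K i) (h i)) :
    ∃ D : ℝ, 0 ≤ D ∧ ∀ i, ∀ z : ℂ, z.re ∈ K i → ‖h i z‖ ≤ D * Real.exp (-(κ i * |z.im|)) := by
  choose D hD using hd
  refine ⟨∑ i, |D i|, Finset.sum_nonneg fun i _ => abs_nonneg _, fun i z hz => ?_⟩
  refine (hD i z hz).trans (mul_le_mul_of_nonneg_right ?_ (Real.exp_pos _).le)
  exact (le_abs_self _).trans (Finset.single_le_sum (f := fun i => |D i|)
    (fun i _ => abs_nonneg _) (Finset.mem_univ i))

/-- **Integrability on lines, total charge `Q`.** -/
theorem integrable_FA {g : ι → ι → ℂ → ℂ} {c : ι → ℝ} {Q : ℝ} (hn : ∑ i, c i = Q)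
    {h : ι → ℂ → ℂ} {x : ι → ℝ} {κ : ℝ} (hκ : 0 < κ) (hgm : ∀ a b, Measurable (g a b))
    (hm : ∀ i, Measurable (h i)) (hh : ∀ i, DecOn (κ + 2 * Q * c i) {x i} (h i))
    (hg : ∀ a b, a ≠ b → Bdd {x a - x b} (2 * (c a * c b)) (g a b)) :
    Integrable (fun t : ι → ℝ => FA g h (pos x t)) (Measure.pi fun _ => volume) := by
  obtain ⟨D, hD, hh⟩ := dec_const h _ hh
  obtain ⟨C, hC, hg⟩ := pair_const g c (fun a b => {x a - x b}) hg
  refine ((integrable_prod_exp' (ι := ι) hκ).const_mul
    (D ^ Fintype.card ι * C ^ (Fintype.card ι * Fintype.card ι))).mono'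
    (measurable_FA_pos hgm hm x).aestronglyMeasurable (Filter.Eventually.of_forall fun t => ?_)
  have := FA_norm_le hn (h := h) (z := pos x t) (D := D) (κ := κ) hC
    (fun i => hh i _ (by simp)) (fun a b hab => hg a b hab _ (by simp))
  simpa using this

/-- the integral over vertical lines -/
def IA (g : ι → ι → ℂ → ℂ) (h : ι → ℂ → ℂ) (x : ι → ℝ) : ℂ :=
  ∫ t : ι → ℝ, FA g h (pos x t) ∂(Measure.pi fun _ => volume)

/-- a pair function without poles over a set of real parts -/
def PB (s : ℝ) (K : Set ℝ) (g : ℂ → ℂ) : Prop :=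
  Bdd K s g ∧ ∀ z : ℂ, z.re ∈ K → DifferentiableAt ℂ g z

theorem PB.mono {s : ℝ} {K K' : Set ℝ} {g : ℂ → ℂ} (h : PB s K' g) (hK : K ⊆ K') : PB s K g := by
  obtain ⟨⟨C, hC, h1⟩, h2⟩ := h
  exact ⟨⟨C, hC, fun z hz => h1 z (hK hz)⟩, fun z hz => h2 z (hK hz)⟩

theorem PB.neg {s : ℝ} {K : Set ℝ} {g : ℂ → ℂ} (h : PB s ((fun x => -x) '' K) g) :
    PB s K fun z => g (-z) := by
  obtain ⟨⟨C, hC, h1⟩, h2⟩ := h
  refine ⟨⟨C, hC, fun z hz => ?_⟩, fun z hz => ?_⟩
  · have := h1 (-z) ⟨z.re, hz, by simp⟩
    rwa [neg_im, abs_neg] at this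
  · have := h2 (-z) ⟨z.re, hz, by simp⟩
    exact this.comp z (differentiableAt_id.neg)

/-- **Moving one line.** -/
theorem shiftA_one {g : ι → ι → ℂ → ℂ} {c : ι → ℝ} {Q : ℝ} (hn : ∑ i, c i = Q)
    (hsym : ∀ a b z, g a b z = g b a (-z)) (hgm : ∀ a b, Measurable (g a b)) {h : ι → ℂ → ℂ}
    {x : ι → ℝ} (i₀ : ι)
    {x₁ x₂ κ : ℝ} (hx : x₁ ≤ x₂) (hκ : 0 < κ) (hm : ∀ i, Measurable (h i))
    (hh : ∀ i, i ≠ i₀ → DecOn (κ + 2 * Q * c i) {x i} (h i))
    (hh0 : DecOn (κ + 2 * Q * c i₀) (Set.Icc x₁ x₂) (h i₀))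
    (hc : ContinuousOn (h i₀) (CS x₁ x₂)) (hd : DifferentiableOn ℂ (h i₀) (OS x₁ x₂))
    (hg : ∀ a b, a ≠ b → a ≠ i₀ → b ≠ i₀ → Bdd {x a - x b} (2 * (c a * c b)) (g a b))
    (hg0 : ∀ b, b ≠ i₀ → PB (2 * (c i₀ * c b)) (Set.Icc (x₁ - x b) (x₂ - x b)) (g i₀ b)) :
    IA g h (Function.update x i₀ x₁) = IA g h (Function.update x i₀ x₂) := by
  -- the transposed pair functions
  have hg0' : ∀ a, a ≠ i₀ → PB (2 * (c a * c i₀)) (Set.Icc (x a - x₂) (x a - x₁)) (g a i₀) := by
    intro a ha
    have h1 : PB (2 * (c i₀ * c a)) (Set.Icc (x a - x₂) (x a - x₁)) fun z => g i₀ a (-z) := by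
      refine PB.neg ((hg0 a ha).mono ?_)
      rintro _ ⟨y, hy, rfl⟩
      exact ⟨by simp only []; linarith [hy.2], by simp only []; linarith [hy.1]⟩
    have e : (fun z => g i₀ a (-z)) = g a i₀ := by
      funext z
      rw [hsym a i₀]
    rw [e, show 2 * (c i₀ * c a) = 2 * (c a * c i₀) by ring] at h1
    exact h1
  set KK : ι → ι → Set ℝ := fun a b => if a = i₀ then Set.Icc (x₁ - x b) (x₂ - x b) else
    if b = i₀ then Set.Icc (x a - x₂) (x a - x₁) else {x a - x b} with hKK
  have hBK : ∀ a b, a ≠ b → Bdd (KK a b) (2 * (c a * c b)) (g a b) := by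
    intro a b hab
    by_cases ha : a = i₀
    · subst ha
      have hb : b ≠ a := fun h => hab h.symm
      simpa [hKK] using (hg0 b hb).1
    · by_cases hb : b = i₀
      · subst hb
        simpa [hKK, ha] using (hg0' a ha).1
      · simpa [hKK, ha, hb] using hg a b hab ha hb
  -- integrability on the lines
  have hint : ∀ s ∈ Set.Icc x₁ x₂, Integrable (fun t : ι → ℝ =>
      FA g h (pos (Function.update x i₀ s) t)) (Measure.pi fun _ => volume) := by
    intro s hs
    refine integrable_FA hn hκ hgm hm (fun i => ?_) (fun a b hab => ?_)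
    · by_cases hi : i = i₀
      · subst hi
        obtain ⟨D, hD⟩ := hh0
        refine ⟨D, fun z hz => hD z ?_⟩
        simp only [Function.update_self, Set.mem_singleton_iff] at hz
        rw [hz]
        exact hs
      · simpa [hi] using hh i hi
    · obtain ⟨C, hC, h1⟩ := hBK a b hab
      refine ⟨C, hC, fun z hz => h1 z ?_⟩
      rw [Set.mem_singleton_iff] at hz
      rw [hz]
      by_cases ha : a = i₀
      · subst ha
        have hb : b ≠ a := fun h => hab h.symm
        simp only [hKK, if_true, Function.update_self, Function.update_of_ne hb, Set.mem_Icc]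
        exact ⟨by linarith [hs.1], by linarith [hs.2]⟩
      · by_cases hb : b = i₀
        · subst hb
          simp only [hKK, ha, if_false, if_true, Function.update_self, Function.update_of_ne ha,
            Set.mem_Icc]
          exact ⟨by linarith [hs.2], by linarith [hs.1]⟩
        · simp [hKK, ha, hb]
  -- constants
  set K : ι → Set ℝ := fun i => if i = i₀ then Set.Icc x₁ x₂ else {x i} with hK
  have hhK : ∀ i, DecOn (κ + 2 * Q * c i) (K i) (h i) := by
    intro i
    by_cases hi : i = i₀
    · subst hi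
      simpa [hK] using hh0
    · simpa [hK, hi] using hh i hi
  obtain ⟨D, hD, hhD⟩ := dec_const h K hhK
  obtain ⟨C, hC, hgC⟩ := pair_const g c KK hBK
  refine integral_update i₀ (hint x₁ ⟨le_rfl, hx⟩) (hint x₂ ⟨hx, le_rfl⟩) fun t => ?_
  simp_rw [update_pos]
  -- the real parts of the differences
  have hre : ∀ u : ℂ, u.re ∈ Set.Icc x₁ x₂ → ∀ a b, a ≠ b →
      (Function.update (pos x t) i₀ u a - Function.update (pos x t) i₀ u b).re ∈ KK a b := by
    intro u hu a b hab
    by_cases ha : a = i₀
    · subst ha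
      have hb : b ≠ a := fun h => hab h.symm
      simp only [hKK, if_true, Function.update_self, Function.update_of_ne hb, sub_re, pos_re,
        Set.mem_Icc]
      exact ⟨by linarith [hu.1], by linarith [hu.2]⟩
    · by_cases hb : b = i₀
      · subst hb
        simp only [hKK, ha, if_false, if_true, Function.update_self, Function.update_of_ne ha,
          sub_re, pos_re, Set.mem_Icc]
        exact ⟨by linarith [hu.2], by linarith [hu.1]⟩
      · simp [hKK, ha, hb]
  have hcomp : ∀ i, Differentiable ℂ fun u => Function.update (pos x t) i₀ u i := by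
    intro i
    by_cases hi : i = i₀
    · subst hi
      simpa using differentiable_id
    · simp only [Function.update_of_ne hi]
      exact differentiable_const _
  -- the pair functions as functions of one variable
  have hpd : ∀ u : ℂ, u.re ∈ Set.Icc x₁ x₂ → ∀ a b, a ≠ b → DifferentiableAt ℂ (fun u =>
      g a b (Function.update (pos x t) i₀ u a - Function.update (pos x t) i₀ u b)) u := by
    intro u hu a b hab
    have hr := hre u hu a b hab
    by_cases ha : a = i₀
    · subst ha
      have hb : b ≠ a := fun h => hab h.symm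
      have h1 := (hg0 b hb).2 (Function.update (pos x t) a u a - Function.update (pos x t) a u b)
        (by simpa [hKK] using hr)
      exact DifferentiableAt.comp (g := g a b) u h1 ((hcomp a u).sub (hcomp b u))
    · by_cases hb : b = i₀
      · subst hb
        have h1 := (hg0' a ha).2 (Function.update (pos x t) b u a - Function.update (pos x t) b u b)
          (by simpa [hKK, ha] using hr)
        exact DifferentiableAt.comp (g := g a b) u h1 ((hcomp a u).sub (hcomp b u))
      · simp only [Function.update_of_ne ha, Function.update_of_ne hb]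
        exact differentiableAt_const _
  -- the function of one variable
  have hcont : ContinuousOn (fun u => FA g h (Function.update (pos x t) i₀ u)) (CS x₁ x₂) := by
    unfold FA PU PR
    refine ContinuousOn.mul ?_ ?_
    · refine continuousOn_finsetProd _ fun i _ => ?_
      by_cases hi : i = i₀
      · subst hi
        simpa using hc
      · simpa [hi] using continuousOn_const
    · refine continuousOn_finsetProd _ fun a _ => continuousOn_finsetProd _ fun b _ => ?_
      by_cases hab : er ι a b
      · simp only [if_pos hab]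
        have hab' : a ≠ b := by
          rintro rfl
          exact (tour_er ι).irr a hab
        intro u hu
        exact (hpd u hu a b hab').continuousAt.continuousWithinAt
      · simp only [if_neg hab]
        exact continuousOn_const
  have hdiff : DifferentiableOn ℂ (fun u => FA g h (Function.update (pos x t) i₀ u))
      (OS x₁ x₂) := by
    unfold FA PU PR
    refine DifferentiableOn.mul ?_ ?_
    · refine DifferentiableOn.fun_finsetProd fun i _ => ?_
      by_cases hi : i = i₀
      · subst hi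
        simpa using hd
      · simp only [Function.update_of_ne hi]
        exact differentiableOn_const _
    · refine DifferentiableOn.fun_finsetProd fun a _ =>
        DifferentiableOn.fun_finsetProd fun b _ => ?_
      by_cases hab : er ι a b
      · simp only [if_pos hab]
        have hab' : a ≠ b := by
          rintro rfl
          exact (tour_er ι).irr a hab
        intro u hu
        exact (hpd u ⟨hu.1.le, hu.2.le⟩ a b hab').differentiableWithinAt
      · simp only [if_neg hab]
        exact differentiableOn_const _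
  have hbound : ∀ s t' : ℝ, x₁ ≤ s → s ≤ x₂ → (0 : ℝ) ≤ |t'| →
      ‖(fun u => FA g h (Function.update (pos x t) i₀ u)) (s + t' * I)‖ ≤
      (D ^ Fintype.card ι * C ^ (Fintype.card ι * Fintype.card ι)) *
        Real.exp (-κ * |t'|) := by
    intro s t' h1 h2 _
    have hu : ((s : ℂ) + t' * I).re ∈ Set.Icc x₁ x₂ := by
      rw [vl_re]
      exact ⟨h1, h2⟩
    set z := Function.update (pos x t) i₀ ((s : ℂ) + t' * I) with hz
    have hb := FA_norm_le hn (g := g) (h := h) (z := z) (D := D) (κ := κ) hC (fun i => by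
      refine hhD i _ ?_
      by_cases hi : i = i₀
      · subst hi
        simpa [hz, hK] using hu
      · simp [hz, hK, hi]) (fun a b hab => hgC a b hab _ (hre _ hu a b hab))
    refine hb.trans ?_
    have hC0 : 0 ≤ C := zero_le_one.trans hC
    refine mul_le_mul_of_nonneg_left ?_ (by positivity)
    have e1 : (z i₀).im = t' := by simp [hz]
    calc ∏ i, Real.exp (-(κ * |(z i).im|)) ≤ Real.exp (-(κ * |(z i₀).im|)) := by
          rw [← Finset.mul_prod_erase Finset.univ _ (Finset.mem_univ i₀)]
          refine mul_le_of_le_one_right (Real.exp_pos _).le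
            (Finset.prod_le_one (fun i _ => (Real.exp_pos _).le) fun i _ => ?_)
          rw [Real.exp_le_one_iff]
          have := mul_nonneg hκ.le (abs_nonneg (z i).im)
          linarith
      _ = Real.exp (-κ * |t'|) := by rw [e1, neg_mul]
  have := line_shift0 (G := fun u => FA g h (Function.update (pos x t) i₀ u)) hx hcont hdiff hκ
    hbound
  exact this.symm

/-- **Moving all lines.** -/
theorem shiftA_all {g : ι → ι → ℂ → ℂ} {c : ι → ℝ} {Q : ℝ} (hn : ∑ i, c i = Q)
    (hsym : ∀ a b z, g a b z = g b a (-z)) (hgm : ∀ a b, Measurable (g a b)) {h : ι → ℂ → ℂ}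
    {lo hi x x' : ι → ℝ} {κ : ℝ} (hκ : 0 < κ) (hm : ∀ i, Measurable (h i))
    (hx : ∀ i, x i ∈ Set.Icc (lo i) (hi i)) (hx' : ∀ i, x' i ∈ Set.Icc (lo i) (hi i))
    (hh : ∀ i, DecOn (κ + 2 * Q * c i) (Set.Icc (lo i) (hi i)) (h i))
    (hc : ∀ i, lo i < hi i → ContinuousOn (h i) (CS (lo i) (hi i)))
    (hd : ∀ i, lo i < hi i → DifferentiableOn ℂ (h i) (OS (lo i) (hi i)))
    (hg : ∀ a b, a ≠ b → PB (2 * (c a * c b)) (Set.Icc (lo a - hi b) (hi a - lo b)) (g a b)) :
    IA g h x = IA g h x' := by
  have key : ∀ s : Finset ι, IA g h x = IA g h (fun i => if i ∈ s then x' i else x i) := by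
    intro s
    induction s using Finset.induction_on with
    | empty => simp
    | insert i₀ s hi₀ ih =>
      rw [ih]
      set y : ι → ℝ := fun i => if i ∈ s then x' i else x i with hy
      have hyK : ∀ i, y i ∈ Set.Icc (lo i) (hi i) := by
        intro i
        simp only [hy]
        split_ifs
        · exact hx' i
        · exact hx i
      have e1 : y = Function.update y i₀ (x i₀) := by
        funext i
        by_cases h : i = i₀
        · subst h
          simp [hy, hi₀]
        · simp [h]
      have e2 : (fun i => if i ∈ insert i₀ s then x' i else x i) =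
          Function.update y i₀ (x' i₀) := by
        funext i
        by_cases h : i = i₀
        · subst h
          simp
        · simp [hy, h, Finset.mem_insert]
      rw [e2]
      rw [show IA g h y = IA g h (Function.update y i₀ (x i₀)) by rw [← e1]]
      have mv : ∀ a₁ b₁ : ℝ, a₁ ∈ Set.Icc (lo i₀) (hi i₀) → b₁ ∈ Set.Icc (lo i₀) (hi i₀) →
          a₁ < b₁ → IA g h (Function.update y i₀ a₁) = IA g h (Function.update y i₀ b₁) := by
        intro a₁ b₁ ha hb hab
        have hb' := hb
        have hlt : lo i₀ < hi i₀ := lt_of_le_of_lt ha.1 (lt_of_lt_of_le hab hb.2)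
        have hsub : Set.Icc a₁ b₁ ⊆ Set.Icc (lo i₀) (hi i₀) := Set.Icc_subset_Icc ha.1 hb.2
        refine shiftA_one hn hsym hgm i₀ hab.le hκ hm (fun i _ => (hh i).mono ?_)
          ((hh i₀).mono hsub)
          ((hc i₀ hlt).mono fun u hu => hsub hu) ((hd i₀ hlt).mono fun u hu =>
            ⟨lt_of_le_of_lt ha.1 hu.1, lt_of_lt_of_le hu.2 hb.2⟩)
          (fun a b hab _ _ => ((hg a b hab).mono ?_).1)
          (fun b hb => (hg i₀ b (fun h => hb h.symm)).mono ?_)
        · intro z hz
          rw [Set.mem_singleton_iff] at hz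
          rw [hz]
          exact hyK i
        · intro z hz
          rw [Set.mem_singleton_iff] at hz
          rw [hz]
          exact ⟨by linarith [(hyK a).1, (hyK b).2], by linarith [(hyK a).2, (hyK b).1]⟩
        · intro z hz
          exact ⟨by linarith [hz.1, (hyK b).2, ha.1], by linarith [hz.2, (hyK b).1, hb'.2]⟩
      rcases lt_trichotomy (x i₀) (x' i₀) with h | h | h
      · exact mv _ _ (hx i₀) (hx' i₀) h
      · rw [h]
      · exact (mv _ _ (hx' i₀) (hx i₀) h).symm
  rw [key Finset.univ]
  simp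

end NURow

end
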