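import Pool.Agent.NURow.GenQ

/-!
# Moving the line of one object across simple poles

A family of objects on `Option ι`; the object `none` sits on the line `a₀` and is moved to the line
`a`. Pair functions `g none (some i)` with `i ∉ S` have no poles in between, those with `i ∈ S` have
one simple pole `w = z i + q i`, and these poles are on distinct lines. The difference of the two
integrals is `2 π ∑ i ∈ S` (integral of the residue family on `ι`), where the residue family has the
pair functions `gR` and the one body functions `hR` (`moveA`).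
-/

set_option autoImplicit false
set_option linter.unusedSectionVars false

noncomputable section

open Complex MeasureTheory
open scoped Classical

namespace NURow

open NUP1 NUP1S NUP1.Bd

variable {ι ι' : Type*} [Fintype ι] [Fintype ι']

/-! ## reindexing -/

theorem FA_equiv (e : ι ≃ ι') {g : ι' → ι' → ℂ → ℂ} (hsym : ∀ a b z, g a b z = g b a (-z))
    (h : ι' → ℂ → ℂ) (z : ι' → ℂ) :
    FA (fun a b => g (e a) (e b)) (fun i => h (e i)) (fun i => z (e i)) = FA g h z := by
  unfold FA
  rw [e.prod_comp (fun i => h i (z i)),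
    PU_equiv e (f := fun a b => g a b (z a - z b)) (fun a b => by rw [hsym, neg_sub])]

theorem IA_equiv (e : ι ≃ ι') {g : ι' → ι' → ℂ → ℂ} (hsym : ∀ a b z, g a b z = g b a (-z))
    (h : ι' → ℂ → ℂ) (x : ι' → ℝ) :
    IA (fun a b => g (e a) (e b)) (fun i => h (e i)) (fun i => x (e i)) = IA g h x := by
  unfold IA
  have mp := measurePreserving_piCongrLeft (fun _ : ι' => (volume : Measure ℝ)) e
  rw [← mp.integral_comp']
  refine integral_congr_ae (Filter.Eventually.of_forall fun t => ?_)
  simp only []
  rw [← FA_equiv e hsym h]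
  congr 1
  funext i
  unfold pos
  congr 1
  exact (MeasurableEquiv.piCongrLeft_apply_apply (β := fun _ => ℝ) e t i).symm

/-! ## one distinguished object -/

/-- comparison on `Option ι`: `none` first -/
def optr (ι : Type*) [Fintype ι] : Option ι → Option ι → Prop
  | none, none => False
  | none, some _ => True
  | some _, none => False
  | some a, some b => er ι a b

theorem tour_optr (ι : Type*) [Fintype ι] : Tour (optr ι) where
  irr a := by
    cases a with
    | none => exact fun h => h
    | some a => exact (tour_er ι).irr a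
  tot a b hab := by
    cases a with
    | none =>
      cases b with
      | none => exact absurd rfl hab
      | some b => simp [optr]
    | some a =>
      cases b with
      | none => simp [optr]
      | some b => exact (tour_er ι).tot a b fun h => hab (h ▸ rfl)

theorem PU_option {f : Option ι → Option ι → ℂ} (hf : ∀ a b, f a b = f b a) :
    PU f = (∏ i, f none (some i)) * PU fun a b => f (some a) (some b) := by
  rw [PU_eq (tour_optr ι) hf]
  unfold PU PR
  rw [Fintype.prod_option]
  simp_rw [Fintype.prod_option]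
  have h1 : (if optr ι none none then f none none else 1) = 1 := if_neg fun h => h
  have h2 : ∀ i, (if optr ι none (some i) then f none (some i) else 1) = f none (some i) :=
    fun i => if_pos trivial
  have h3 : ∀ i, (if optr ι (some i) none then f (some i) none else 1) = 1 :=
    fun i => if_neg fun h => h
  have h4 : ∀ a b, (if optr ι (some a) (some b) then f (some a) (some b) else 1) =
      if er ι a b then f (some a) (some b) else 1 := fun a b => rfl
  simp only [h1, h2, h3, h4, one_mul]

/-- only the pairs of one object contribute -/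
theorem PU_single (i : ι) {f : ι → ι → ℂ} (hf : ∀ a b, f a b = f b a)
    (h1 : ∀ a b, a ≠ i → b ≠ i → f a b = 1) : PU f = ∏ j ∈ Finset.univ.erase i, f i j := by
  have hT : Tour (fun a b : ι => b ≠ i ∧ (a = i ∨ er ι a b)) :=
    { irr := fun a h => by
        rcases h.2 with h2 | h2
        · exact h.1 h2
        · exact (tour_er ι).irr a h2
      tot := fun a b hab => by
        have := (tour_er ι).tot a b hab
        by_cases ha : a = i
        · have hb : b ≠ i := fun h => hab (ha.trans h.symm)
          simp [ha, hb]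
        · by_cases hb : b = i
          · simp [ha, hb]
          · simp only [ne_eq, hb, not_false_eq_true, ha, false_or, true_and]
            exact this }
  rw [PU_eq hT hf]
  unfold PR
  rw [Finset.prod_eq_single i]
  · rw [← Finset.mul_prod_erase Finset.univ _ (Finset.mem_univ i)]
    simp only [ne_eq, not_true_eq_false, true_or, and_true, if_false, one_mul]
    exact Finset.prod_congr rfl fun j hj => if_pos (Finset.ne_of_mem_erase hj)
  · intro a _ ha
    refine Finset.prod_eq_one fun b _ => ?_
    split_ifs with h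
    · exact h1 a b ha h.1
    · rfl
  · intro h
    exact absurd (Finset.mem_univ i) h

theorem PU_mul (f f' : ι → ι → ℂ) :
    PU (fun a b => f a b * f' a b) = PU f * PU f' := by
  unfold PU PR
  rw [← Finset.prod_mul_distrib]
  refine Finset.prod_congr rfl fun a _ => ?_
  rw [← Finset.prod_mul_distrib]
  refine Finset.prod_congr rfl fun b _ => ?_
  split_ifs <;> simp

/-- the distinguished object factors out -/
theorem FA_option {g : Option ι → Option ι → ℂ → ℂ} (hsym : ∀ a b z, g a b z = g b a (-z))
    (h : Option ι → ℂ → ℂ) (z : Option ι → ℂ) :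
    FA g h z = h none (z none) * (∏ i, g none (some i) (z none - z (some i))) *
      FA (fun a b => g (some a) (some b)) (fun i => h (some i)) (fun i => z (some i)) := by
  unfold FA
  rw [Fintype.prod_option, PU_option (fun a b => by rw [hsym, neg_sub])]
  ring

/-- `w` together with the positions of the other objects -/
def oc {α : Type*} (w : α) (z : ι → α) : Option ι → α := fun o => o.elim w z

@[simp] theorem oc_none {α : Type*} (w : α) (z : ι → α) : oc w z none = w := rfl

@[simp] theorem oc_some {α : Type*} (w : α) (z : ι → α) (i : ι) : oc w z (some i) = z i := rfl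

theorem pos_oc (a : ℝ) (x : ι → ℝ) (s : ℝ) (t : ι → ℝ) :
    pos (oc a x) (oc s t) = oc (vl a s) (pos x t) := by
  funext o
  cases o <;> rfl

/-- `Option ι → ℝ` as a product -/
def optE (ι : Type*) : (ι → ℝ) × ℝ ≃ᵐ (Option ι → ℝ) where
  toFun p o := o.elim p.2 p.1
  invFun t := (fun i => t (some i), t none)
  left_inv p := rfl
  right_inv t := by
    funext o
    cases o <;> rfl
  measurable_toFun := by
    refine measurable_pi_lambda _ fun o => ?_
    cases o with
    | none => exact measurable_snd
    | some i => exact (measurable_pi_apply i).comp measurable_fst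
  measurable_invFun :=
    (measurable_pi_lambda _ fun i => measurable_pi_apply _).prodMk (measurable_pi_apply _)

theorem mp_optE : MeasurePreserving (optE ι)
    ((Measure.pi fun _ => volume).prod volume) (Measure.pi fun _ => volume) := by
  refine ⟨(optE ι).measurable, ?_⟩
  refine (Measure.pi_eq fun s hs => ?_).symm
  rw [MeasurableEquiv.map_apply]
  have e : (optE ι) ⁻¹' Set.univ.pi s = (Set.univ.pi fun i => s (some i)) ×ˢ s none := by
    ext p
    simp only [Set.mem_preimage, Set.mem_pi, Set.mem_univ, true_implies, Set.mem_prod, Option.forall]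
    exact and_comm
  rw [e, Measure.prod_prod, Measure.pi_pi, Fintype.prod_option, mul_comm]

theorem integral_option {f : (Option ι → ℝ) → ℂ}
    (hf : Integrable f (Measure.pi fun _ => volume)) :
    ∫ t, f t ∂(Measure.pi fun _ => volume) =
      ∫ t : ι → ℝ, (∫ s : ℝ, f (oc s t)) ∂(Measure.pi fun _ => volume) := by
  have h1 := (mp_optE (ι := ι)).integral_comp' f
  have h2 := ((mp_optE (ι := ι)).integrable_comp_emb (MeasurableEquiv.measurableEmbedding _)).2 hf
  rw [← h1]
  exact integral_prod _ h2

theorem integrable_option {f : (Option ι → ℝ) → ℂ}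
    (hf : Integrable f (Measure.pi fun _ => volume)) :
    Integrable (fun t : ι → ℝ => ∫ s : ℝ, f (oc s t)) (Measure.pi fun _ => volume) := by
  have h2 := ((mp_optE (ι := ι)).integrable_comp_emb (MeasurableEquiv.measurableEmbedding _)).2 hf
  exact h2.integral_prod_left

/-- the integral over the distinguished line last -/
theorem IA_option {g : Option ι → Option ι → ℂ → ℂ} (h : Option ι → ℂ → ℂ) (a : ℝ) (x : ι → ℝ)
    (hI : Integrable (fun t : Option ι → ℝ => FA g h (pos (oc a x) t))
      (Measure.pi fun _ => volume)) :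
    IA g h (oc a x) =
      ∫ t : ι → ℝ, (∫ s : ℝ, FA g h (oc (vl a s) (pos x t))) ∂(Measure.pi fun _ => volume) := by
  unfold IA
  rw [integral_option hI]
  simp_rw [pos_oc]

/-! ## algebra of pair functions -/

theorem PB.mulW {s s' : ℝ} {K : Set ℝ} {g g' : ℂ → ℂ} (h : PB s K g) (h' : PB s' K g') :
    PB (s + s') K fun z => g z * g' z :=
  ⟨h.1.mul h'.1, fun z hz => (h.2 z hz).mul (h'.2 z hz)⟩

theorem PB.rateW {s s' : ℝ} {K : Set ℝ} {g : ℂ → ℂ} (h : PB s K g) (e : s = s') : PB s' K g :=
  e ▸ h

theorem PB.shiftW {s : ℝ} {K : Set ℝ} {g : ℂ → ℂ} (q : ℝ) (h : PB s ((fun x => x + q) '' K) g) :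
    PB s K fun z => g (z + q) := by
  refine ⟨h.1.shift q, fun z hz => ?_⟩
  have := h.2 (z + q) ⟨z.re, hz, by simp⟩
  exact this.comp z (by fun_prop)

theorem PB.oneW (K : Set ℝ) : PB 0 K fun _ => 1 :=
  ⟨⟨1, zero_le_one, fun z _ => by simp⟩, fun z _ => differentiableAt_const _⟩

theorem Bdd.mono' {s : ℝ} {K K' : Set ℝ} {g : ℂ → ℂ} (h : Bdd K s g) (hK : K' ⊆ K) :
    Bdd K' s g := by
  obtain ⟨C, hC, h⟩ := h
  exact ⟨C, hC, fun z hz => h z (hK hz)⟩

theorem Bdd.neg' {s : ℝ} {K : Set ℝ} {g : ℂ → ℂ} (h : Bdd ((fun x => -x) '' K) s g) :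
    Bdd K s fun z => g (-z) := by
  obtain ⟨C, hC, h1⟩ := h
  refine ⟨C, hC, fun z hz => ?_⟩
  have := h1 (-z) ⟨z.re, hz, by simp⟩
  rwa [neg_im, abs_neg] at this

/-- the kernel of a simple pole away from the pole -/
theorem PB_inv_sinW {K : Set ℝ} (hK : IsCompact K) (q : ℝ)
    (h : ∀ d ∈ K, Real.sin (d - q) ≠ 0) : PB (-1) K fun z => (sin (z - q))⁻¹ := by
  obtain ⟨δ, hδ, h1⟩ := exists_deltaK hK (-q) (by simpa [sub_eq_add_neg] using h)
  refine ⟨⟨2 * δ⁻¹, by positivity, fun z hz => ?_⟩, fun z hz => ?_⟩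
  · have h2 := le_norm_sin_add z (-q)
    have h3 := exp_le_cosh z.im
    have h4 := h1 _ hz
    have h5 : δ * (Real.exp |z.im| / 2) ≤ ‖sin (z - q)‖ := by
      have e : z + ((-q : ℝ) : ℂ) = z - q := by push_cast; ring
      rw [e] at h2
      refine le_trans (mul_le_mul h4 ?_ (by positivity) (abs_nonneg _)) h2
      linarith
    rw [norm_inv, inv_le_comm₀ (lt_of_lt_of_le (by positivity) h5) (by positivity)]
    refine le_trans (le_of_eq ?_) h5
    rw [neg_one_mul, Real.exp_neg]
    field_simp
  · have h2 : sin (z - q) ≠ 0 := by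
      have := sin_ne_of_re (z := z) (a := -q) (by simpa [sub_eq_add_neg] using h _ hz)
      have e : z + ((-q : ℝ) : ℂ) = z - q := by push_cast; ring
      rwa [e] at this
    exact DifferentiableAt.inv (by fun_prop) h2

/-! ## the residue family -/

/-- pair functions of the residue family: the object `i` carries the distinguished object at
`z i + q` -/
def gR (g : Option ι → Option ι → ℂ → ℂ) (i : ι) (q : ℝ) (a b : ι) (z : ℂ) : ℂ :=
  g (some a) (some b) z *
    if a = i then (if b = i then 1 else g none (some b) (z + q))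
    else if b = i then g none (some a) (-z + q) else 1

/-- one body functions of the residue family, `ρ` = residue of the pair function -/
def hR (h : Option ι → ℂ → ℂ) (i : ι) (q : ℝ) (ρ : ℂ) (j : ι) (z : ℂ) : ℂ :=
  h (some j) z * if j = i then h none (z + q) * ρ else 1

/-- charges of the residue family -/
def cR (c : Option ι → ℝ) (i j : ι) : ℝ := c (some j) + if j = i then c none else 0

theorem sum_cR {c : Option ι → ℝ} {Q : ℝ} (hn : ∑ o, c o = Q) (i : ι) : ∑ j, cR c i j = Q := by
  unfold cR
  rw [Finset.sum_add_distrib, Finset.sum_ite_eq' Finset.univ i, if_pos (Finset.mem_univ i), ← hn,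
    Fintype.sum_option, add_comm]

theorem gR_symm {g : Option ι → Option ι → ℂ → ℂ} (hsym : ∀ a b z, g a b z = g b a (-z)) (i : ι)
    (q : ℝ) (a b : ι) (z : ℂ) : gR g i q a b z = gR g i q b a (-z) := by
  unfold gR
  rw [hsym (some a) (some b)]
  congr 1
  by_cases ha : a = i
  · by_cases hb : b = i
    · simp [ha, hb]
    · simp [ha, hb]
  · by_cases hb : b = i
    · simp [ha, hb]
    · simp [ha, hb]

theorem measurable_gR {g : Option ι → Option ι → ℂ → ℂ} (hgm : ∀ a b, Measurable (g a b)) (i : ι)
    (q : ℝ) (a b : ι) : Measurable (gR g i q a b) := by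
  unfold gR
  refine (hgm _ _).mul ?_
  split_ifs
  · exact measurable_const
  · exact (hgm _ _).comp (measurable_id.add_const _)
  · exact (hgm _ _).comp (measurable_neg.add_const _)
  · exact measurable_const

theorem measurable_hR {h : Option ι → ℂ → ℂ} (hm : ∀ o, Measurable (h o)) (i : ι) (q : ℝ) (ρ : ℂ)
    (j : ι) : Measurable (hR h i q ρ j) := by
  unfold hR
  refine (hm _).mul ?_
  split_ifs
  · exact ((hm _).comp (measurable_id.add_const _)).mul measurable_const
  · exact measurable_const

theorem hR_self (h : Option ι → ℂ → ℂ) (i : ι) (q : ℝ) (ρ : ℂ) (z : ℂ) :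
    hR h i q ρ i z = h (some i) z * (h none (z + q) * ρ) := by
  unfold hR
  rw [if_pos rfl]

theorem hR_of_ne (h : Option ι → ℂ → ℂ) {i j : ι} (hj : j ≠ i) (q : ℝ) (ρ : ℂ) (z : ℂ) :
    hR h i q ρ j z = h (some j) z := by
  unfold hR
  rw [if_neg hj, mul_one]

theorem gR_left (g : Option ι → Option ι → ℂ → ℂ) {i b : ι} (hb : b ≠ i) (q : ℝ) (z : ℂ) :
    gR g i q i b z = g (some i) (some b) z * g none (some b) (z + q) := by
  unfold gR
  rw [if_pos rfl, if_neg hb]

theorem gR_right (g : Option ι → Option ι → ℂ → ℂ) {i a : ι} (ha : a ≠ i) (q : ℝ) (z : ℂ) :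
    gR g i q a i z = g (some a) (some i) z * g none (some a) (-z + q) := by
  unfold gR
  rw [if_neg ha, if_pos rfl]

theorem gR_of_ne (g : Option ι → Option ι → ℂ → ℂ) {i a b : ι} (ha : a ≠ i) (hb : b ≠ i) (q : ℝ)
    (z : ℂ) : gR g i q a b z = g (some a) (some b) z := by
  unfold gR
  rw [if_neg ha, if_neg hb, mul_one]

/-- the weight of the residue family -/
theorem FA_R (g : Option ι → Option ι → ℂ → ℂ) (h : Option ι → ℂ → ℂ) (i : ι) (q : ℝ) (ρ : ℂ)
    (z : ι → ℂ) :
    FA (gR g i q) (hR h i q ρ) z =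
      h none (z i + q) * ρ * (∏ j ∈ Finset.univ.erase i, g none (some j) (z i + q - z j)) *
        FA (fun a b => g (some a) (some b)) (fun j => h (some j)) z := by
  unfold FA
  have e1 : ∏ j, hR h i q ρ j (z j) = (∏ j, h (some j) (z j)) * (h none (z i + q) * ρ) := by
    unfold hR
    rw [Finset.prod_mul_distrib]
    congr 1
    rw [Finset.prod_eq_single i]
    · rw [if_pos rfl]
    · intro j _ hj
      rw [if_neg hj]
    · intro hi
      exact absurd (Finset.mem_univ i) hi
  have e2 : (PU fun a b => gR g i q a b (z a - z b)) =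
      (PU fun a b => g (some a) (some b) (z a - z b)) *
        ∏ j ∈ Finset.univ.erase i, g none (some j) (z i + q - z j) := by
    unfold gR
    rw [PU_mul]
    congr 1
    rw [PU_single i]
    · refine Finset.prod_congr rfl fun j hj => ?_
      rw [if_pos rfl, if_neg (Finset.ne_of_mem_erase hj)]
      congr 1
      ring
    · intro a b
      by_cases ha : a = i
      · by_cases hb : b = i
        · simp [ha, hb]
        · simp [ha, hb]
      · by_cases hb : b = i
        · simp [ha, hb]
        · simp [ha, hb]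
    · intro a b ha hb
      rw [if_neg ha, if_neg hb]
  rw [e1, e2]
  ring

/-! ## the data of a move -/

/-- Data of a move of the line of the object `none` from `a₀` to `a`: `c` charges with sum `Q`,
`x` lines of the other objects, `S` the objects with a pole `w = z i + q i` in the strip,
`g none (some i) z = r i z / sin (z - q i)` for `i ∈ S`. -/
structure Mv (g : Option ι → Option ι → ℂ → ℂ) (h : Option ι → ℂ → ℂ) (c : Option ι → ℝ)
    (Q κ : ℝ) (x : ι → ℝ) (a₀ a : ℝ) (S : Finset ι) (q : ι → ℝ) (r : ι → ℂ → ℂ) : Prop where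
  hn : ∑ o, c o = Q
  hκ : 0 < κ
  sym : ∀ a b z, g a b z = g b a (-z)
  gm : ∀ a b, Measurable (g a b)
  hm : ∀ o, Measurable (h o)
  lt : a₀ < a
  pi : a - a₀ < Real.pi
  dec : ∀ i, DecOn (κ + 2 * Q * c (some i)) {x i} (h (some i))
  dec0 : DecOn (κ + 2 * Q * c none) (Set.Icc a₀ a) (h none)
  cont : ContinuousOn (h none) (CS a₀ a)
  diff : DifferentiableOn ℂ (h none) (OS a₀ a)
  bdd : ∀ i j, i ≠ j → Bdd {x i - x j} (2 * (c (some i) * c (some j))) (g (some i) (some j))
  reg : ∀ i, i ∉ S → PB (2 * (c none * c (some i))) (Set.Icc (a₀ - x i) (a - x i)) (g none (some i))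
  pol : ∀ i ∈ S, ∀ z : ℂ, z.re ∈ Set.Icc (a₀ - x i) (a - x i) → z ≠ q i →
    g none (some i) z = r i z / sin (z - q i)
  num : ∀ i ∈ S, PB (2 * (c none * c (some i)) + 1) (Set.Icc (a₀ - x i) (a - x i)) (r i)
  mem : ∀ i ∈ S, a₀ < x i + q i ∧ x i + q i < a
  inj : ∀ i ∈ S, ∀ j ∈ S, x i + q i = x j + q j → i = j

variable {g : Option ι → Option ι → ℂ → ℂ} {h : Option ι → ℂ → ℂ} {c : Option ι → ℝ}
  {Q κ : ℝ} {x : ι → ℝ} {a₀ a : ℝ} {S : Finset ι} {q : ι → ℝ} {r : ι → ℂ → ℂ}

theorem sin_ne_real {y : ℝ} (h1 : -Real.pi < y) (h2 : y < Real.pi) (h0 : y ≠ 0) :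
    Real.sin y ≠ 0 := by
  intro h3
  rcases Real.sin_eq_zero_iff_of_lt_of_lt h1 h2 with ⟨h4, -⟩
  exact h0 (h4 h3)

/-- the pair function of a pole on the other lines -/
theorem Mv.bdd_pol (m : Mv g h c Q κ x a₀ a S q r) {i : ι} (hi : i ∈ S) {s : ℝ}
    (hs : s ∈ Set.Icc a₀ a) (hne : s ≠ x i + q i) :
    Bdd {s - x i} (2 * (c none * c (some i))) (g none (some i)) := by
  have h1 := (m.num i hi).1
  have hmem : s - x i ∈ Set.Icc (a₀ - x i) (a - x i) := ⟨by linarith [hs.1], by linarith [hs.2]⟩
  have h2 : PB (-1) {s - x i} fun z => (sin (z - q i))⁻¹ := by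
    refine PB_inv_sinW isCompact_singleton (q i) fun d hd => ?_
    rw [Set.mem_singleton_iff] at hd
    subst hd
    have h3 := m.mem i hi
    have h4 := m.pi
    refine sin_ne_real (by linarith [hs.1, h3.2]) (by linarith [hs.2, h3.1]) fun h5 => hne ?_
    linarith
  have h3 : Bdd {s - x i} (2 * (c none * c (some i)) + 1) (r i) :=
    Bdd.mono' h1 (by
      intro d hd
      rw [Set.mem_singleton_iff] at hd
      rw [hd]
      exact hmem)
  obtain ⟨C, hC, h4⟩ := (h3.mul h2.1).rate (s' := 2 * (c none * c (some i))) (by ring)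
  refine ⟨C, hC, fun z hz => ?_⟩
  have hz' : z.re = s - x i := hz
  rw [m.pol i hi z (by rw [hz']; exact hmem), div_eq_mul_inv]
  · exact h4 z hz
  · intro h5
    apply hne
    rw [h5, ofReal_re] at hz'
    linarith

/-- all pair functions of the distinguished object on a line -/
theorem Mv.bdd_none (m : Mv g h c Q κ x a₀ a S q r) (i : ι) {s : ℝ}
    (hs : s ∈ Set.Icc a₀ a) (hne : i ∈ S → s ≠ x i + q i) :
    Bdd {s - x i} (2 * (c none * c (some i))) (g none (some i)) := by
  by_cases hi : i ∈ S
  · exact m.bdd_pol hi hs (hne hi)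
  · refine Bdd.mono' (m.reg i hi).1 ?_
    intro d hd
    rw [Set.mem_singleton_iff] at hd
    rw [hd]
    exact ⟨by linarith [hs.1], by linarith [hs.2]⟩

theorem Bdd.transp {g : ι → ι → ℂ → ℂ} (hsym : ∀ a b z, g a b z = g b a (-z)) {a b : ι} {d s : ℝ}
    (hb : Bdd {-d} s (g a b)) : Bdd {d} s (g b a) := by
  have : Bdd {d} s fun z => g a b (-z) := Bdd.neg' (by simpa using hb)
  have e : (fun z => g a b (-z)) = g b a := by
    funext z
    rw [hsym b a]
  rwa [e] at this

/-- **Integrability on the lines of a move.** -/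
theorem Mv.integrable (m : Mv g h c Q κ x a₀ a S q r) {s : ℝ} (hs : s ∈ Set.Icc a₀ a)
    (hne : ∀ i ∈ S, s ≠ x i + q i) :
    Integrable (fun t : Option ι → ℝ => FA g h (pos (oc s x) t)) (Measure.pi fun _ => volume) := by
  refine integrable_FA m.hn m.hκ m.gm m.hm (fun o => ?_) fun o o' hoo => ?_
  · cases o with
    | none =>
      obtain ⟨D, hD⟩ := m.dec0
      refine ⟨D, fun z hz => hD z ?_⟩
      have : z.re = s := hz
      rw [this]
      exact hs
    | some i => exact m.dec i
  · cases o with
    | none =>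
      cases o' with
      | none => exact absurd rfl hoo
      | some i => exact m.bdd_none i hs (hne i)
    | some i =>
      cases o' with
      | none =>
        have h1 := m.bdd_none i hs (hne i)
        have h2 : Bdd {x i - s} (2 * (c none * c (some i))) (g (some i) none) := by
          refine Bdd.transp m.sym ?_
          rwa [neg_sub]
        rw [show 2 * (c none * c (some i)) = 2 * (c (some i) * c none) by ring] at h2
        exact h2
      | some j => exact m.bdd i j fun h => hoo (h ▸ rfl)

theorem Mv.integrable_left (m : Mv g h c Q κ x a₀ a S q r) :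
    Integrable (fun t : Option ι → ℝ => FA g h (pos (oc a₀ x) t)) (Measure.pi fun _ => volume) :=
  m.integrable ⟨le_rfl, m.lt.le⟩ fun i hi => (m.mem i hi).1.ne

theorem Mv.integrable_right (m : Mv g h c Q κ x a₀ a S q r) :
    Integrable (fun t : Option ι → ℝ => FA g h (pos (oc a x) t)) (Measure.pi fun _ => volume) :=
  m.integrable ⟨m.lt.le, le_rfl⟩ fun i hi => (m.mem i hi).2.ne'

/-! ## the residue families of a move -/

/-- one body functions of the residue family: decay -/
theorem Mv.dec_hR (m : Mv g h c Q κ x a₀ a S q r) {i : ι} (hi : i ∈ S) (ρ : ℂ) (j : ι) :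
    DecOn (κ + 2 * Q * cR c i j) {x j} (hR h i (q i) ρ j) := by
  by_cases hj : j = i
  · subst hj
    obtain ⟨D, hD⟩ := m.dec j
    obtain ⟨D', hD'⟩ := m.dec0
    have h3 := m.mem j hi
    refine ⟨|D| * |D'| * ‖ρ‖, fun z hz => ?_⟩
    have hz' : z.re = x j := hz
    have e1 := hD z hz
    have e2 := hD' (z + q j) (by
      rw [add_re, ofReal_re, hz']
      exact ⟨h3.1.le, h3.2.le⟩)
    rw [add_im, ofReal_im, add_zero] at e2
    rw [hR_self, norm_mul, norm_mul]
    have hc : cR c j j = c (some j) + c none := by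
      unfold cR
      rw [if_pos rfl]
    rw [hc]
    calc ‖h (some j) z‖ * (‖h none (z + q j)‖ * ‖ρ‖)
        ≤ (|D| * Real.exp (-((κ + 2 * Q * c (some j)) * |z.im|))) *
          ((|D'| * Real.exp (-((κ + 2 * Q * c none) * |z.im|))) * ‖ρ‖) := by
          refine mul_le_mul (e1.trans ?_) (mul_le_mul_of_nonneg_right (e2.trans ?_) (norm_nonneg _))
            (by positivity) (by positivity)
          · exact mul_le_mul_of_nonneg_right (le_abs_self _) (Real.exp_pos _).le
          · exact mul_le_mul_of_nonneg_right (le_abs_self _) (Real.exp_pos _).le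
      _ = (|D| * |D'| * ‖ρ‖) * Real.exp (-((2 * κ + 2 * Q * (c (some j) + c none)) * |z.im|)) := by
          rw [show -((2 * κ + 2 * Q * (c (some j) + c none)) * |z.im|) =
            -((κ + 2 * Q * c (some j)) * |z.im|) + -((κ + 2 * Q * c none) * |z.im|) by ring,
            Real.exp_add]
          ring
      _ ≤ _ := by
          refine mul_le_mul_of_nonneg_left (Real.exp_le_exp.2 ?_) (by positivity)
          have := mul_nonneg m.hκ.le (abs_nonneg z.im)
          nlinarith
  · have h1 : cR c i j = c (some j) := by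
      unfold cR
      rw [if_neg hj, add_zero]
    rw [h1]
    obtain ⟨D, hD⟩ := m.dec j
    exact ⟨D, fun z hz => by rw [hR_of_ne h hj]; exact hD z hz⟩

/-- pair functions of the residue family: bounds -/
theorem Mv.bdd_gR (m : Mv g h c Q κ x a₀ a S q r) {i : ι} (hi : i ∈ S) {j k : ι} (hjk : j ≠ k) :
    Bdd {x j - x k} (2 * (cR c i j * cR c i k)) (gR g i (q i) j k) := by
  have h3 := m.mem i hi
  -- the pairs of the object `i`
  have key : ∀ b : ι, b ≠ i → Bdd {x i - x b} (2 * (cR c i i * cR c i b)) (gR g i (q i) i b) := by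
    intro b hb
    have h1 := m.bdd i b (fun h => hb h.symm)
    have h2 : Bdd {x i - x b} (2 * (c none * c (some b))) fun z => g none (some b) (z + q i) := by
      refine Bdd.shift (q i) ?_
      rw [Set.image_singleton]
      have := m.bdd_none b (s := x i + q i) ⟨h3.1.le, h3.2.le⟩ fun hb' he =>
        hb (m.inj i hi b hb' he).symm
      rwa [show x i - x b + q i = x i + q i - x b by ring]
    have e : cR c i i = c (some i) + c none := by
      unfold cR
      rw [if_pos rfl]
    have e' : cR c i b = c (some b) := by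
      unfold cR
      rw [if_neg hb, add_zero]
    rw [e, e']
    have h4 := (h1.mul h2).rate (s' := 2 * ((c (some i) + c none) * c (some b))) (by ring)
    have e2 : (fun z => g (some i) (some b) z * g none (some b) (z + q i)) =
        gR g i (q i) i b := by
      funext z
      rw [gR_left g hb]
    rwa [e2] at h4
  by_cases hj : j = i
  · subst hj
    exact key k fun h => hjk h.symm
  · by_cases hk : k = i
    · subst hk
      have h1 := key j hj
      rw [show 2 * (cR c k k * cR c k j) = 2 * (cR c k j * cR c k k) by ring] at h1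
      refine Bdd.transp (gR_symm m.sym k (q k)) ?_
      rwa [neg_sub]
    · have e : cR c i j = c (some j) := by
        unfold cR
        rw [if_neg hj, add_zero]
      have e' : cR c i k = c (some k) := by
        unfold cR
        rw [if_neg hk, add_zero]
      rw [e, e']
      have e2 : gR g i (q i) j k = g (some j) (some k) := by
        funext z
        rw [gR_of_ne g hj hk]
      rw [e2]
      exact m.bdd j k hjk

/-- **Integrability of the residue family.** -/
theorem Mv.integrable_R (m : Mv g h c Q κ x a₀ a S q r) {i : ι} (hi : i ∈ S) (ρ : ℂ) :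
    Integrable (fun t : ι → ℝ => FA (gR g i (q i)) (hR h i (q i) ρ) (pos x t))
      (Measure.pi fun _ => volume) :=
  integrable_FA (sum_cR m.hn i) m.hκ (measurable_gR m.gm i (q i)) (measurable_hR m.hm i (q i) ρ)
    (m.dec_hR hi ρ) fun _ _ hjk => m.bdd_gR hi hjk

/-! ## the residue theorem -/

/-- the numerator on fixed positions of the other objects -/
def numW (g : Option ι → Option ι → ℂ → ℂ) (h : Option ι → ℂ → ℂ) (S : Finset ι)
    (r : ι → ℂ → ℂ) (z : ι → ℂ) (u : ℂ) : ℂ :=
  h none u * (∏ i, if i ∈ S then r i (u - z i) else g none (some i) (u - z i)) *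
    FA (fun a b => g (some a) (some b)) (fun j => h (some j)) z

theorem prod_poles (S T : Finset ι) (X Y s : ι → ℂ) :
    ∏ j ∈ T, (if j ∈ S then X j / s j else Y j) =
      (∏ j ∈ T, if j ∈ S then X j else Y j) / ∏ j ∈ T with j ∈ S, s j := by
  rw [Finset.prod_filter, ← Finset.prod_div_distrib]
  refine Finset.prod_congr rfl fun j _ => ?_
  split_ifs
  · rfl
  · rw [_root_.div_one]

theorem exists_const {α : Type*} [Fintype α] {P : α → ℝ → Prop} (h : ∀ a, ∃ C, P a C)
    (hm : ∀ a C C', C ≤ C' → P a C → P a C') : ∃ C, 1 ≤ C ∧ ∀ a, P a C := by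
  choose C hC using h
  refine ⟨1 + ∑ a, |C a|, ?_, fun a => hm a _ _ ?_ (hC a)⟩
  · have := Finset.sum_nonneg fun a (_ : a ∈ Finset.univ) => abs_nonneg (C a)
    linarith
  · have := Finset.single_le_sum (f := fun a => |C a|) (fun _ _ => abs_nonneg _)
      (Finset.mem_univ a)
    have := le_abs_self (C a)
    linarith

theorem Mv.prod_eq (m : Mv g h c Q κ x a₀ a S q r) (t : ι → ℝ) (T : Finset ι) {u : ℂ}
    (hu : u ∈ CS a₀ a) (hne : ∀ j ∈ T, j ∈ S → u ≠ pos x t j + q j) :
    ∏ j ∈ T, g none (some j) (u - pos x t j) =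
      (∏ j ∈ T, if j ∈ S then r j (u - pos x t j) else g none (some j) (u - pos x t j)) /
        ∏ j ∈ T with j ∈ S, sin (u - (pos x t j + q j)) := by
  rw [← prod_poles]
  refine Finset.prod_congr rfl fun j hj => ?_
  split_ifs with hjS
  · rw [m.pol j hjS]
    · rw [sub_sub]
    · rw [sub_re, pos_re]
      exact ⟨by linarith [hu.1], by linarith [hu.2]⟩
    · intro h1
      exact hne j hj hjS (by rw [← h1]; ring)
  · rfl

theorem Mv.pole_inj (m : Mv g h c Q κ x a₀ a S q r) (t : ι → ℝ) {i j : ι} (hi : i ∈ S)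
    (hj : j ∈ S) (he : pos x t i + q i = pos x t j + q j) : i = j := by
  refine m.inj i hi j hj ?_
  have := congrArg Complex.re he
  simpa using this

theorem Mv.pole_mem (m : Mv g h c Q κ x a₀ a S q r) (t : ι → ℝ) {i : ι} (hi : i ∈ S) :
    pos x t i + q i ∈ OS a₀ a := by
  have := m.mem i hi
  show a₀ < (pos x t i + q i).re ∧ (pos x t i + q i).re < a
  rw [add_re, pos_re, ofReal_re]
  exact this

theorem Mv.factor_diff (m : Mv g h c Q κ x a₀ a S q r) (t : ι → ℝ) (i : ι) {u : ℂ}
    (hu : u ∈ CS a₀ a) : DifferentiableAt ℂ (fun u => if i ∈ S then r i (u - pos x t i)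
      else g none (some i) (u - pos x t i)) u := by
  have hre : (u - pos x t i).re ∈ Set.Icc (a₀ - x i) (a - x i) := by
    rw [sub_re, pos_re]
    exact ⟨by linarith [hu.1], by linarith [hu.2]⟩
  by_cases hi : i ∈ S
  · simp only [if_pos hi]
    exact ((m.num i hi).2 _ hre).comp u (by fun_prop)
  · simp only [if_neg hi]
    exact ((m.reg i hi).2 _ hre).comp u (by fun_prop)

theorem Mv.num_cont (m : Mv g h c Q κ x a₀ a S q r) (t : ι → ℝ) :
    ContinuousOn (numW g h S r (pos x t)) (CS a₀ a) := by
  unfold numW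
  refine (m.cont.mul (continuousOn_finsetProd _ fun i _ => fun u hu => ?_)).mul continuousOn_const
  exact (m.factor_diff t i hu).continuousAt.continuousWithinAt

theorem Mv.num_diff (m : Mv g h c Q κ x a₀ a S q r) (t : ι → ℝ) :
    DifferentiableOn ℂ (numW g h S r (pos x t)) (OS a₀ a) := by
  unfold numW
  refine (m.diff.mul (DifferentiableOn.fun_finsetProd fun i _ => fun u hu => ?_)).mul
    (differentiableOn_const _)
  exact (m.factor_diff t i (OS_sub_CS _ _ hu)).differentiableWithinAt

/-- decay in the strip, uniformly away from the poles -/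
theorem Mv.decay (m : Mv g h c Q κ x a₀ a S q r) (t : ι → ℝ) :
    ∃ C : ℝ, ∀ u : ℂ, u ∈ CS a₀ a → 1 + ∑ i, |t i| ≤ |u.im| →
      ‖FA g h (oc u (pos x t))‖ ≤ C * Real.exp (-κ * |u.im|) := by
  -- pair functions
  have hC : ∃ C : ℝ, 1 ≤ C ∧ ∀ p : Option ι × Option ι, p.1 ≠ p.2 → ∀ u : ℂ, u ∈ CS a₀ a →
      1 + ∑ i, |t i| ≤ |u.im| →
      ‖g p.1 p.2 (oc u (pos x t) p.1 - oc u (pos x t) p.2)‖ ≤
        C * Real.exp (2 * (c p.1 * c p.2) *
          |(oc u (pos x t) p.1 - oc u (pos x t) p.2).im|) := by
    refine exists_const (P := fun (p : Option ι × Option ι) C => p.1 ≠ p.2 → ∀ u : ℂ, u ∈ CS a₀ a →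
      1 + ∑ i, |t i| ≤ |u.im| →
      ‖g p.1 p.2 (oc u (pos x t) p.1 - oc u (pos x t) p.2)‖ ≤
        C * Real.exp (2 * (c p.1 * c p.2) *
          |(oc u (pos x t) p.1 - oc u (pos x t) p.2).im|)) ?_ ?_
    swap
    · intro p C C' hCC hP hp u hu hu'
      exact (hP hp u hu hu').trans (mul_le_mul_of_nonneg_right hCC (Real.exp_pos _).le)
    -- the pairs of the distinguished object
    have key : ∀ i : ι, ∃ C : ℝ, ∀ u : ℂ, u ∈ CS a₀ a → 1 + ∑ i, |t i| ≤ |u.im| →
        ‖g none (some i) (u - pos x t i)‖ ≤
          C * Real.exp (2 * (c none * c (some i)) * |(u - pos x t i).im|) := by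
      intro i
      by_cases hi : i ∈ S
      · obtain ⟨C, hC, h1⟩ := (m.num i hi).1
        refine ⟨C * 4, fun u hu hu' => ?_⟩
        have hre : (u - pos x t i).re ∈ Set.Icc (a₀ - x i) (a - x i) := by
          rw [sub_re, pos_re]
          exact ⟨by linarith [hu.1], by linarith [hu.2]⟩
        have him : 1 ≤ |(u - pos x t i).im| := by
          rw [sub_im, pos_im]
          have h2 := Finset.single_le_sum (f := fun i => |t i|) (fun _ _ => abs_nonneg _)
            (Finset.mem_univ i)
          have h3 := abs_sub_abs_le_abs_sub u.im (t i)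
          linarith
        have hne : u - pos x t i ≠ q i := by
          intro h2
          rw [h2, ofReal_im, abs_zero] at him
          exact absurd him (by norm_num)
        have h2 := h1 _ hre
        have h3 := norm_inv_sin_le (z := u - pos x t i - q i) (by
          rw [sub_im (u - pos x t i), ofReal_im, sub_zero]
          exact him)
        rw [sub_im (u - pos x t i), ofReal_im, sub_zero] at h3
        rw [m.pol i hi _ hre hne, div_eq_mul_inv, norm_mul]
        refine (mul_le_mul h2 h3 (norm_nonneg _) (by positivity)).trans (le_of_eq ?_)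
        rw [show C * Real.exp ((2 * (c none * c (some i)) + 1) * |(u - pos x t i).im|) *
          (4 * Real.exp (-1 * |(u - pos x t i).im|)) = C * 4 *
          (Real.exp ((2 * (c none * c (some i)) + 1) * |(u - pos x t i).im|) *
          Real.exp (-1 * |(u - pos x t i).im|)) by ring, ← Real.exp_add]
        congr 2
        ring
      · obtain ⟨C, hC, h1⟩ := (m.reg i hi).1
        refine ⟨C, fun u hu _ => h1 _ ?_⟩
        rw [sub_re, pos_re]
        exact ⟨by linarith [hu.1], by linarith [hu.2]⟩
    rintro ⟨o, o'⟩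
    cases o with
    | none =>
      cases o' with
      | none => exact ⟨0, fun h => absurd rfl h⟩
      | some i =>
        obtain ⟨C, hC⟩ := key i
        exact ⟨C, fun _ u hu hu' => hC u hu hu'⟩
    | some i =>
      cases o' with
      | none =>
        obtain ⟨C, hC⟩ := key i
        refine ⟨C, fun _ u hu hu' => ?_⟩
        simp only [oc_some, oc_none]
        rw [m.sym (some i) none, neg_sub, ← neg_sub u, neg_im, abs_neg, mul_comm (c (some i))]
        exact hC u hu hu'
      | some j =>
        by_cases hij : i = j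
        · exact ⟨0, fun h => absurd (congrArg some hij) h⟩
        · obtain ⟨C, hC, h1⟩ := m.bdd i j hij
          refine ⟨C, fun _ u hu hu' => h1 _ ?_⟩
          simp only [oc_some, sub_re, pos_re, Set.mem_singleton_iff]
  obtain ⟨C, hC, hg⟩ := hC
  -- one body functions
  have hD : ∃ D : ℝ, 1 ≤ D ∧ ∀ o : Option ι, ∀ u : ℂ, u ∈ CS a₀ a →
      ‖h o (oc u (pos x t) o)‖ ≤
        D * Real.exp (-((κ + 2 * Q * c o) * |(oc u (pos x t) o).im|)) := by
    refine exists_const (P := fun o D => ∀ u : ℂ, u ∈ CS a₀ a → ‖h o (oc u (pos x t) o)‖ ≤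
        D * Real.exp (-((κ + 2 * Q * c o) * |(oc u (pos x t) o).im|))) ?_ ?_
    swap
    · intro o C C' hCC hP u hu
      exact (hP u hu).trans (mul_le_mul_of_nonneg_right hCC (Real.exp_pos _).le)
    intro o
    cases o with
    | none =>
      obtain ⟨D, hD⟩ := m.dec0
      exact ⟨D, fun u hu => hD u hu⟩
    | some i =>
      obtain ⟨D, hD⟩ := m.dec i
      refine ⟨D, fun u hu => hD _ ?_⟩
      simp
  obtain ⟨D, hD1, hD⟩ := hD
  refine ⟨D ^ Fintype.card (Option ι) *
    C ^ (Fintype.card (Option ι) * Fintype.card (Option ι)), fun u hu hu' => ?_⟩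
  refine (FA_norm_le m.hn (g := g) (h := h) (z := oc u (pos x t)) (D := D) (κ := κ) hC
    (fun o => hD o u hu) (fun o o' hoo => hg (o, o') hoo u hu hu')).trans ?_
  have hC0 : 0 ≤ C := zero_le_one.trans hC
  have hD0 : 0 ≤ D := zero_le_one.trans hD1
  refine mul_le_mul_of_nonneg_left ?_ (by positivity)
  rw [Fintype.prod_option, oc_none, neg_mul]
  refine mul_le_of_le_one_right (Real.exp_pos _).le
    (Finset.prod_le_one (fun i _ => (Real.exp_pos _).le) fun i _ => ?_)
  rw [Real.exp_le_one_iff]
  have := mul_nonneg m.hκ.le (abs_nonneg (oc u (pos x t) (some i)).im)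
  linarith

/-- the residue at the pole of the object `i` -/
theorem Mv.res_eq (m : Mv g h c Q κ x a₀ a S q r) (t : ι → ℝ) {i : ι} (hi : i ∈ S) :
    res (S.image fun j => pos x t j + q j) (numW g h S r (pos x t)) (pos x t i + q i) =
      FA (gR g i (q i)) (hR h i (q i) (r i (q i))) (pos x t) := by
  have e1 : (S.image fun j => pos x t j + (q j : ℂ)).erase (pos x t i + q i) =
      (S.erase i).image fun j => pos x t j + (q j : ℂ) := by
    ext p
    simp only [Finset.mem_erase, Finset.mem_image]
    constructor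
    · rintro ⟨h1, j, hj, rfl⟩
      exact ⟨j, ⟨fun h2 => h1 (by rw [h2]), hj⟩, rfl⟩
    · rintro ⟨j, ⟨h1, hj⟩, rfl⟩
      exact ⟨fun h2 => h1 (m.pole_inj t hj hi h2), j, hj, rfl⟩
  unfold res
  rw [e1, Finset.prod_image (fun j hj k hk hjk => m.pole_inj t (Finset.mem_of_mem_erase hj)
    (Finset.mem_of_mem_erase hk) hjk), FA_R]
  have e2 := m.prod_eq t (Finset.univ.erase i) (u := pos x t i + q i)
    (OS_sub_CS _ _ (m.pole_mem t hi)) fun j hj hjS h1 =>
      Finset.ne_of_mem_erase hj (m.pole_inj t hi hjS h1).symm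
  have e3 : (Finset.univ.erase i).filter (fun j => j ∈ S) = S.erase i := by
    ext j
    simp [Finset.mem_erase]
  rw [e2, e3]
  unfold numW
  rw [← Finset.mul_prod_erase Finset.univ _ (Finset.mem_univ i), if_pos hi,
    show pos x t i + (q i : ℂ) - pos x t i = q i by ring]
  ring

/-- **The residue theorem for fixed positions of the other objects.** -/
theorem Mv.line (m : Mv g h c Q κ x a₀ a S q r) (t : ι → ℝ) :
    (∫ s : ℝ, FA g h (oc (vl a s) (pos x t))) - (∫ s : ℝ, FA g h (oc (vl a₀ s) (pos x t))) =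
      2 * Real.pi * ∑ i ∈ S, FA (gR g i (q i)) (hR h i (q i) (r i (q i))) (pos x t) := by
  obtain ⟨C, hC⟩ := m.decay t
  have key := (line_shift (f := fun u => FA g h (oc u (pos x t))) (H := numW g h S r (pos x t))
    m.lt.le m.pi (S.image fun j => pos x t j + (q j : ℂ)) (fun p hp => by
      obtain ⟨j, hj, rfl⟩ := Finset.mem_image.1 hp
      exact m.pole_mem t hj) (m.num_cont t) (m.num_diff t) (fun u hu huB => ?_) m.hκ (C := C)
    (t₀ := 1 + ∑ i, |t i|) (fun s t' h1 h2 h3 => by
      have := hC ((s : ℂ) + t' * I) ⟨by rw [vl_re]; exact h1, by rw [vl_re]; exact h2⟩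
        (by rw [vl_im]; exact h3)
      rwa [vl_im] at this)).2.2
  · simp only [vl_eq]
    rw [key, Finset.sum_image fun j hj k hk hjk => m.pole_inj t hj hk hjk]
    congr 1
    exact Finset.sum_congr rfl fun i hi => m.res_eq t hi
  · rw [FA_option m.sym]
    simp only [oc_none, oc_some]
    rw [m.prod_eq t Finset.univ hu fun j _ hj h1 => huB (by
      rw [Finset.mem_image]
      exact ⟨j, hj, h1.symm⟩), Finset.prod_image fun j hj k hk hjk => m.pole_inj t hj hk hjk]
    have e3 : Finset.univ.filter (fun j => j ∈ S) = S := by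
      ext j
      simp
    rw [e3]
    unfold numW
    ring

/-- **Moving the line of the distinguished object across simple poles.** -/
theorem Mv.move (m : Mv g h c Q κ x a₀ a S q r) :
    IA g h (oc a x) - IA g h (oc a₀ x) =
      2 * Real.pi * ∑ i ∈ S, IA (gR g i (q i)) (hR h i (q i) (r i (q i))) x := by
  have i1 := m.integrable_left
  have i2 := m.integrable_right
  have j1 := integrable_option i1
  have j2 := integrable_option i2
  simp_rw [pos_oc] at j1 j2
  rw [IA_option h a x i2, IA_option h a₀ x i1, ← integral_sub j2 j1]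
  simp_rw [m.line]
  rw [integral_const_mul, integral_finsetSum _ fun i hi => m.integrable_R hi _]
  rfl

/-! ## a family with one more object -/

/-- pair functions: `s i (w - z i)` between the new object and the others -/
def gO (g : ι → ι → ℂ → ℂ) (s : ι → ℂ → ℂ) : Option ι → Option ι → ℂ → ℂ
  | none, none => fun _ => 1
  | none, some i => s i
  | some i, none => fun z => s i (-z)
  | some i, some j => g i j

/-- one body functions -/
def hO (K : ℂ → ℂ) (h : ι → ℂ → ℂ) : Option ι → ℂ → ℂ
  | none => K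
  | some i => h i

theorem gO_symm {g : ι → ι → ℂ → ℂ} (hsym : ∀ a b z, g a b z = g b a (-z)) (s : ι → ℂ → ℂ)
    (a b : Option ι) (z : ℂ) : gO g s a b z = gO g s b a (-z) := by
  cases a <;> cases b
  · rfl
  · simp [gO]
  · rfl
  · exact hsym _ _ z

theorem measurable_gO {g : ι → ι → ℂ → ℂ} (hgm : ∀ a b, Measurable (g a b)) {s : ι → ℂ → ℂ}
    (hs : ∀ i, Measurable (s i)) (a b : Option ι) : Measurable (gO g s a b) := by
  cases a <;> cases b
  · exact measurable_const
  · exact hs _
  · exact (hs _).comp measurable_neg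
  · exact hgm _ _

theorem measurable_hO {K : ℂ → ℂ} (hK : Measurable K) {h : ι → ℂ → ℂ} (hm : ∀ i, Measurable (h i))
    (a : Option ι) : Measurable (hO K h a) := by
  cases a
  · exact hK
  · exact hm _

theorem sum_oc {c : ι → ℝ} {cw Q : ℝ} (hn : cw + ∑ i, c i = Q) : ∑ o, oc cw c o = Q := by
  rw [Fintype.sum_option]
  exact hn

/-- the integrand with one more object -/
theorem FA_gO {g : ι → ι → ℂ → ℂ} (hsym : ∀ a b z, g a b z = g b a (-z)) (s : ι → ℂ → ℂ)
    (K : ℂ → ℂ) (h : ι → ℂ → ℂ) (w : ℂ) (z : ι → ℂ) :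
    FA (gO g s) (hO K h) (oc w z) = K w * (∏ i, s i (w - z i)) * FA g h z :=
  FA_option (gO_symm hsym s) _ _

/-- **Integrability with one more object.** -/
theorem integrable_FW {g : ι → ι → ℂ → ℂ} {c : ι → ℝ} {cw Q : ℝ} (hn : cw + ∑ i, c i = Q)
    (hsym : ∀ a b z, g a b z = g b a (-z)) {h : ι → ℂ → ℂ} {K : ℂ → ℂ} {s : ι → ℂ → ℂ}
    {x : ι → ℝ} {a κ : ℝ} (hκ : 0 < κ) (hgm : ∀ a b, Measurable (g a b))
    (hsm : ∀ i, Measurable (s i)) (hm : ∀ i, Measurable (h i)) (hK : Measurable K)
    (hh : ∀ i, DecOn (κ + 2 * Q * c i) {x i} (h i)) (hKd : DecOn (κ + 2 * Q * cw) {a} K)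
    (hg : ∀ a b, a ≠ b → Bdd {x a - x b} (2 * (c a * c b)) (g a b))
    (hs : ∀ i, Bdd {a - x i} (2 * (cw * c i)) (s i)) :
    Integrable (fun t : Option ι → ℝ => FA (gO g s) (hO K h) (pos (oc a x) t))
      (Measure.pi fun _ => volume) ∧
    Integrable (fun p : (ι → ℝ) × ℝ => K (vl a p.2) * (∏ i, s i (vl a p.2 - pos x p.1 i)) *
      FA g h (pos x p.1)) ((Measure.pi fun _ => volume).prod volume) := by
  have h1 : Integrable (fun t : Option ι → ℝ => FA (gO g s) (hO K h) (pos (oc a x) t))
      (Measure.pi fun _ => volume) := by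
    refine integrable_FA (c := oc cw c) (sum_oc hn) hκ (measurable_gO hgm hsm)
      (measurable_hO hK hm) (fun o => ?_) fun o o' hoo => ?_
    · cases o with
      | none => exact hKd
      | some i => exact hh i
    · cases o with
      | none =>
        cases o' with
        | none => exact absurd rfl hoo
        | some i => exact hs i
      | some i =>
        cases o' with
        | none =>
          have h2 : Bdd {x i - a} (2 * (cw * c i)) fun z => s i (-z) :=
            Bdd.neg' (by simpa using hs i)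
          rw [show 2 * (cw * c i) = 2 * (c i * cw) by ring] at h2
          exact h2
        | some j => exact hg i j fun h => hoo (h ▸ rfl)
  refine ⟨h1, ?_⟩
  have h2 := ((mp_optE (ι := ι)).integrable_comp_emb (MeasurableEquiv.measurableEmbedding _)).2 h1
  refine h2.congr (Filter.Eventually.of_forall fun p => ?_)
  simp only [Function.comp]
  have e : (optE ι) p = oc p.2 p.1 := rfl
  rw [e, pos_oc, FA_gO hsym]

/-- the data of a move from the data of the other objects -/
theorem Mv.ofW {g : ι → ι → ℂ → ℂ} {c : ι → ℝ} {cw Q : ℝ} (hn : cw + ∑ i, c i = Q)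
    (hsym : ∀ a b z, g a b z = g b a (-z)) {h : ι → ℂ → ℂ} {K : ℂ → ℂ} {s r : ι → ℂ → ℂ}
    {x : ι → ℝ} {a₀ a κ : ℝ} {S : Finset ι} {q : ι → ℝ} (hκ : 0 < κ)
    (hgm : ∀ a b, Measurable (g a b)) (hsm : ∀ i, Measurable (s i)) (hm : ∀ i, Measurable (h i))
    (hK : Measurable K) (hlt : a₀ < a) (hpi : a - a₀ < Real.pi)
    (hh : ∀ i, DecOn (κ + 2 * Q * c i) {x i} (h i))
    (hKd : DecOn (κ + 2 * Q * cw) (Set.Icc a₀ a) K)
    (hKc : ContinuousOn K (CS a₀ a)) (hKa : DifferentiableOn ℂ K (OS a₀ a))
    (hg : ∀ a b, a ≠ b → Bdd {x a - x b} (2 * (c a * c b)) (g a b))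
    (hreg : ∀ i, i ∉ S → PB (2 * (cw * c i)) (Set.Icc (a₀ - x i) (a - x i)) (s i))
    (hpol : ∀ i ∈ S, ∀ z : ℂ, z.re ∈ Set.Icc (a₀ - x i) (a - x i) → z ≠ q i →
      s i z = r i z / sin (z - q i))
    (hnum : ∀ i ∈ S, PB (2 * (cw * c i) + 1) (Set.Icc (a₀ - x i) (a - x i)) (r i))
    (hmem : ∀ i ∈ S, a₀ < x i + q i ∧ x i + q i < a)
    (hinj : ∀ i ∈ S, ∀ j ∈ S, x i + q i = x j + q j → i = j) :
    Mv (gO g s) (hO K h) (oc cw c) Q κ x a₀ a S q r where
  hn := sum_oc hn
  hκ := hκ
  sym := gO_symm hsym s
  gm := measurable_gO hgm hsm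
  hm := measurable_hO hK hm
  lt := hlt
  pi := hpi
  dec := hh
  dec0 := hKd
  cont := hKc
  diff := hKa
  bdd := hg
  reg := hreg
  pol := hpol
  num := hnum
  mem := hmem
  inj := hinj

/-- the residue family of a family with one more object -/
theorem FA_RO (g : ι → ι → ℂ → ℂ) (s : ι → ℂ → ℂ) (K : ℂ → ℂ) (h : ι → ℂ → ℂ) (i : ι) (q : ℝ)
    (ρ : ℂ) (z : ι → ℂ) :
    FA (gR (gO g s) i q) (hR (hO K h) i q ρ) z =
      K (z i + q) * ρ * (∏ j ∈ Finset.univ.erase i, s j (z i + q - z j)) * FA g h z :=
  FA_R _ _ _ _ _ _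

end NURow

end
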