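import Pool.Agent.NURow.Fub

/-!
# Moving one half quantum in the sum over the words

`XS1` = one body functions with the spectator of one half quantum `w`.  `HMv` = data of a half quantum
which is moved from the line `a₀` to the line `a`; the strings Y of kind S have the pole
`w = z + q`.  `HMv.move`: the difference of the two integrals is the sum over the words and over the
strings Y of the integrals of the residue families.
-/

set_option autoImplicit false
set_option linter.unusedSectionVars false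

noncomputable section

open Complex MeasureTheory
open scoped Classical

namespace NURow

open NUP1 NUP1S NUP1.Bd

/-- one body functions of a species with the spectator of a half quantum -/
def XS1 (c : Bool) (X : Option O3 → ℂ → ℂ) (S : Sp) (w : ℂ) (k : Option O3) (z : ℂ) : ℂ :=
  X k z * S c k (w - z)

/-- no spectator -/
def S0 : Sp := fun _ _ _ => 1

theorem XS_one (c : Bool) (X : Option O3 → ℂ → ℂ) (S : Sp) (w w' : ℂ) :
    XS c X S S0 w w' = XS1 c X S w := by
  funext k z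
  unfold XS XS1 S0
  rw [mul_one]

/-- the second half quantum as a part of the one body functions -/
theorem XS_XS1 (c : Bool) (X : Option O3 → ℂ → ℂ) (S S' : Sp) (w w' : ℂ) :
    XS c X S S' w w' = XS1 c (XS1 c X S' w') S w := by
  funext k z
  unfold XS XS1
  ring

/-! ## one word -/

section word
variable {p p' : ℕ} (X Y : Option O3 → ℂ → ℂ) (S : Sp) (K : ℂ → ℂ) (α : ℝ) (n n' : ℕ)
  (k : Fin p → O3) (k' : Fin p' → O3)

/-- pair functions of a word and a half quantum -/
abbrev G1 : Option ((Fin (nA n k) ⊕ Fin (nA n' k')) ⊕ (Fin p ⊕ Fin p')) →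
    Option ((Fin (nA n k) ⊕ Fin (nA n' k')) ⊕ (Fin p ⊕ Fin p')) → ℂ → ℂ :=
  gO (gAB (nA n k) (nA n' k') k k') (sAB S (nA n k) (nA n' k') k k')

/-- one body functions of a word and a half quantum -/
abbrev H1 : Option ((Fin (nA n k) ⊕ Fin (nA n' k')) ⊕ (Fin p ⊕ Fin p')) → ℂ → ℂ :=
  hO K (hAB X Y (nA n k) (nA n' k') k k')

variable {xB : Fin p ⊕ Fin p' → ℝ} {a : ℝ}

theorem prod_S0 (zB : Fin p ⊕ Fin p' → ℂ) (w : ℂ) :
    ∏ j, spV S0 0 k k' w none j (zB j) = 1 := by
  refine Finset.prod_eq_one fun j _ => ?_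
  rw [spV_none]
  rcases j with j | j <;> rfl

theorem prod_S0A (q q' : ℕ) (f : Fin q ⊕ Fin q' → ℂ) :
    ∏ i, spA S0 q q' i (f i) = 1 := by
  refine Finset.prod_eq_one fun j _ => ?_
  rcases j with j | j <;> rfl

/-- **the half quantum free** -/
theorem I0 (hI : Integrable (fun t => FA (G1 S n n' k k') (H1 X Y K n n' k k')
      (pos (oc a (Sum.elim (fun _ => α) xB)) t)) (Measure.pi fun _ => volume)) :
    Integrable (fun y : ℝ × (Fin p ⊕ Fin p' → ℝ) => K (vl a y.1) *
      TTw X Y S S0 0 0 α n n' k k' (vl a y.1) 0 none none (pos xB y.2))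
      (volume.prod (Measure.pi fun _ => volume)) ∧
    cW n n' k k' * IA (G1 S n n' k k') (H1 X Y K n n' k k')
      (oc a (Sum.elim (fun _ => α) xB)) =
    ∫ y : ℝ × (Fin p ⊕ Fin p' → ℝ), K (vl a y.1) *
      TTw X Y S S0 0 0 α n n' k k' (vl a y.1) 0 none none (pos xB y.2)
      ∂(volume.prod (Measure.pi fun _ => volume)) := by
  obtain ⟨h1, h2⟩ := fub (e1 _ _) (mp_e1 _ _) hI
  have key : ∀ y : ℝ × (Fin p ⊕ Fin p' → ℝ),
      cW n n' k k' * ∫ t, FA (G1 S n n' k k') (H1 X Y K n n' k k')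
        (pos (oc a (Sum.elim (fun _ => α) xB)) (e1 _ _ (y, t)))
        ∂(Measure.pi fun _ => volume) =
      K (vl a y.1) *
        TTw X Y S S0 0 0 α n n' k k' (vl a y.1) 0 none none (pos xB y.2) := by
    intro y
    rw [TTw_eq, ← mul_assoc, mul_comm (K _) (cW n n' k k'), mul_assoc,
      ← integral_const_mul (K (vl a y.1))]
    congr 1
    refine integral_congr_ae (Filter.Eventually.of_forall fun t => ?_)
    simp only []
    rw [e1_apply, pos_ocS, FA_gO (gAB_symm _ _ _ _), prod_none n n' k k' S 0, prod_S0, prod_S0A]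
    ring
  constructor
  · refine (h1.const_mul (cW n n' k k')).congr (Filter.Eventually.of_forall fun y => ?_)
    exact key y
  · unfold IA
    rw [h2, ← integral_const_mul]
    exact integral_congr_ae (Filter.Eventually.of_forall key)

theorem I0w {x : Fin p → ℝ} {x' : Fin p' → ℝ}
    (hI : Integrable (fun t => FA (G1 S n n' k k') (H1 X Y K n n' k k')
      (pos (oc a (Sum.elim (fun _ => α) (Sum.elim x x'))) t)) (Measure.pi fun _ => volume)) :
    Integrable (fun y : ℝ => K (vl a y) *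
      termQ (XS1 true X S (vl a y)) (XS1 false Y S (vl a y)) α n n' k k' x x') ∧
    cW n n' k k' * IA (G1 S n n' k k') (H1 X Y K n n' k k')
      (oc a (Sum.elim (fun _ => α) (Sum.elim x x'))) =
    ∫ y : ℝ, K (vl a y) *
      termQ (XS1 true X S (vl a y)) (XS1 false Y S (vl a y)) α n n' k k' x x' := by
  obtain ⟨h1, h2⟩ := I0 X Y S K α n n' k k' hI
  have e : ∀ y : ℝ, K (vl a y) *
      termQ (XS1 true X S (vl a y)) (XS1 false Y S (vl a y)) α n n' k k' x x' =
      ∫ t, K (vl a y) * TTw X Y S S0 0 0 α n n' k k' (vl a y) 0 none none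
        (pos (Sum.elim x x') t) ∂(Measure.pi fun _ => volume) := by
    intro y
    rw [← XS_one true X S (vl a y) 0, ← XS_one false Y S (vl a y) 0, termQ_TTw X Y S S0 0 0,
      integral_const_mul]
  simp_rw [e]
  exact ⟨h1.integral_prod_left, h2.trans (integral_prod _ h1)⟩

end word

/-! ## the sum over the words -/

section main
variable (X Y : Option O3 → ℂ → ℂ) (S : Sp) (K : ℂ → ℂ) (α : ℝ) (n n' : ℕ)
  (lnX : ∀ p p' : ℕ, (Fin p → O3) → (Fin p' → O3) → Fin p → ℝ)
  (lnY : ∀ p p' : ℕ, (Fin p → O3) → (Fin p' → O3) → Fin p' → ℝ)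

/-- the integrand over the half quantum -/
def J1 (a y : ℝ) : ℂ := K (vl a y) *
  ZobjQ (XS1 true X S (vl a y)) (XS1 false Y S (vl a y)) α n n' lnX lnY

theorem J1_of {a : ℝ} (h : ∀ (p p' : ℕ) (k : Fin p → O3) (k' : Fin p' → O3), Wok n n' k k' →
      Integrable (fun t => FA (G1 S n n' k k') (H1 X Y K n n' k k')
        (pos (oc a (lns α n n' lnX lnY k k')) t)) (Measure.pi fun _ => volume)) :
    Integrable (J1 X Y S K α n n' lnX lnY a) ∧
    ∫ y, J1 X Y S K α n n' lnX lnY a y =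
      ZGs n n' fun p p' k k' => cW n n' k k' * IA (G1 S n n' k k')
        (H1 X Y K n n' k k') (oc a (lns α n n' lnX lnY k k')) := by
  have e : ∀ y : ℝ, J1 X Y S K α n n' lnX lnY a y =
      ZGs n n' fun p p' k k' => K (vl a y) *
        termQ (XS1 true X S (vl a y)) (XS1 false Y S (vl a y)) α n n' k k' (lnX p p' k k')
          (lnY p p' k k') := by
    intro y
    unfold J1
    rw [ZobjQ_ZGs, ZGs_mul]
  have h1 : ∀ (p p' : ℕ) (k : Fin p → O3) (k' : Fin p' → O3), Wok n n' k k' → _ :=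
    fun p p' k k' hc => I0w X Y S K α n n' k k' (x := lnX p p' k k')
      (x' := lnY p p' k k') (h p p' k k' hc)
  constructor
  · exact (integrable_ZGs fun p p' k k' hc => (h1 p p' k k' hc).1).congr
      (Filter.Eventually.of_forall fun y => (e y).symm)
  · simp_rw [e]
    rw [integral_ZGs fun p p' k k' hc => (h1 p p' k k' hc).1]
    exact ZGs_congr fun p p' k k' hc => ((h1 p p' k k' hc).2).symm

end main

/-! ## the data of a move -/

/-- data of a half quantum which is moved from `a₀` to `a`: charge `cw`, total charge `Q`,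
strips `[lo k, hi k]` of the kinds, pole `w = z + q` at the strings Y of kind S -/
structure HMv (lo hi : Option O3 → ℝ) (κ Q cw a₀ a q : ℝ) (S : Sp) (K r : ℂ → ℂ) : Prop where
  lt : a₀ < a
  pi : a - a₀ < Real.pi
  ms : ∀ c k, Measurable (S c k)
  km : Measurable K
  kd : DecOn (κ + 2 * Q * cw) (Set.Icc a₀ a) K
  kc : ContinuousOn K (CS a₀ a)
  ka : DifferentiableOn ℂ K (OS a₀ a)
  reg : ∀ c k, ¬ (c = false ∧ k = some .S) →
    PB (2 * (cw * sc4 c k)) (Set.Icc (a₀ - hi k) (a - lo k)) (S c k)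
  pol : ∀ z : ℂ, z.re ∈ Set.Icc (a₀ - hi (some .S)) (a - lo (some .S)) → z ≠ q →
    S false (some .S) z = r z / sin (z - q)
  num : PB (2 * (cw * sc4 false (some .S)) + 1)
    (Set.Icc (a₀ - hi (some .S)) (a - lo (some .S))) r

/-- conditions on the lines: the poles are between `a₀` and `a`, on distinct lines -/
structure HLi (lo hi : Option O3 → ℝ) (α a₀ a q : ℝ)
    (lnX : ∀ p p' : ℕ, (Fin p → O3) → (Fin p' → O3) → Fin p → ℝ)
    (lnY : ∀ p p' : ℕ, (Fin p → O3) → (Fin p' → O3) → Fin p' → ℝ) : Prop where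
  hα : α ∈ Set.Icc (lo none) (hi none)
  hX : ∀ p p' k k' i, lnX p p' k k' i ∈ Set.Icc (lo (some (k i))) (hi (some (k i)))
  hY : ∀ p p' k k' i, lnY p p' k k' i ∈ Set.Icc (lo (some (k' i))) (hi (some (k' i)))
  mem : ∀ p p' k k' i, k' i = .S → a₀ < lnY p p' k k' i + q ∧ lnY p p' k k' i + q < a
  inj : ∀ p p' k k' i j, k' i = .S → k' j = .S → lnY p p' k k' i = lnY p p' k k' j → i = j

section mv
variable {lo hi : Option O3 → ℝ} {κ Q cw a₀ a q : ℝ} {S : Sp} {K r : ℂ → ℂ}
  {X Y : Option O3 → ℂ → ℂ} {α : ℝ} {n n' : ℕ}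
  {lnX : ∀ p p' : ℕ, (Fin p → O3) → (Fin p' → O3) → Fin p → ℝ}
  {lnY : ∀ p p' : ℕ, (Fin p → O3) → (Fin p' → O3) → Fin p' → ℝ}

/-- the strings Y of kind S of a word -/
def mkSD {p' : ℕ} (k' : Fin p' → O3) : Finset (Fin p') := Finset.univ.filter fun i => k' i = .S

/-- the strings Y of kind S among quanta and objects -/
def mkE {p p' : ℕ} (q q' : ℕ) (k' : Fin p' → O3) :
    Finset ((Fin q ⊕ Fin q') ⊕ (Fin p ⊕ Fin p')) :=
  (mkSD k').map (Function.Embedding.inr.trans Function.Embedding.inr)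

theorem mem_mkE {p p' : ℕ} (q q' : ℕ) (k : Fin p → O3) (k' : Fin p' → O3)
    (u : (Fin q ⊕ Fin q') ⊕ (Fin p ⊕ Fin p')) :
    u ∈ mkE q q' k' ↔ bAB q q' k k' u = false ∧ kAB q q' k k' u = some .S := by
  unfold mkE mkSD
  rcases u with (u | u) | (u | u)
  · simp [bAB, kAB]
  · simp [bAB, kAB]
  · simp [bAB, kAB]
  · simp [bAB, kAB]

/-- **The data of the move for one word.** -/
theorem HMv.mv (m : HMv lo hi κ Q cw a₀ a q S K r) (hli : HLi lo hi α a₀ a q lnX lnY)
    (hL : LOk fun k => Set.Icc (lo k) (hi k)) (hκ : 0 < κ) (hQ : cw + ((n : ℝ) - n') = Q)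
    (hX : FamL true (fun k => Set.Icc (lo k) (hi k)) κ Q X)
    (hY : FamL false (fun k => Set.Icc (lo k) (hi k)) κ Q Y)
    {p p' : ℕ} {k : Fin p → O3} {k' : Fin p' → O3} (hc : Wok n n' k k') :
    Mv (G1 S n n' k k') (H1 X Y K n n' k k')
      (oc cw fun u => sc (oAB (nA n k) (nA n' k') k k' u)) Q κ (lns α n n' lnX lnY k k')
      a₀ a (mkE (nA n k) (nA n' k') k') (fun _ => q) (fun _ => r) := by
  have hln : ∀ u, lns α n n' lnX lnY k k' u ∈ Set.Icc (lo (kAB (nA n k) (nA n' k') k k' u))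
      (hi (kAB (nA n k) (nA n' k') k k' u)) := by
    intro u
    rcases u with (u | u) | (u | u)
    · exact hli.hα
    · exact hli.hα
    · exact hli.hX _ _ _ _ u
    · exact hli.hY _ _ _ _ u
  have hsub : ∀ u, Set.Icc (a₀ - lns α n n' lnX lnY k k' u) (a - lns α n n' lnX lnY k k' u) ⊆
      Set.Icc (a₀ - hi (kAB (nA n k) (nA n' k') k k' u))
        (a - lo (kAB (nA n k) (nA n' k') k k' u)) := by
    intro u
    have := hln u
    exact Set.Icc_subset_Icc (by linarith [this.2]) (by linarith [this.1])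
  have hS : ∀ u ∈ mkE (nA n k) (nA n' k') k', bAB (nA n k) (nA n' k') k k' u = false ∧
      kAB (nA n k) (nA n' k') k k' u = some .S := fun u hu => (mem_mkE _ _ k k' u).1 hu
  refine Mv.ofW ?_ (gAB_symm _ _ _ _) hκ (fun u v => measurable_gz _ _) (fun u => ?_)
    (fun u => ?_) m.km m.lt m.pi (fun u => ?_) m.kd m.kc m.ka (fun u v huv => ?_)
    (fun u hu => ?_) (fun u hu z hz hne => ?_) (fun u hu => ?_) (fun u hu => ?_)
    (fun u hu v hv he => ?_)
  · rw [sum_oAB hc]
    exact hQ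
  · rw [sAB_eq]
    exact m.ms _ _
  · rw [hAB_eq]
    split_ifs
    · exact hX.ms _
    · exact hY.ms _
  · rw [oAB_eq, hAB_eq]
    have hs : {lns α n n' lnX lnY k k' u} ⊆ Set.Icc (lo (kAB (nA n k) (nA n' k') k k' u))
      (hi (kAB (nA n k) (nA n' k') k k' u)) := Set.singleton_subset_iff.2 (hln u)
    by_cases hb : bAB (nA n k) (nA n' k') k k' u = true
    · rw [if_pos hb, hb]
      exact (hX.dec _).mono hs
    · rw [if_neg hb, Bool.eq_false_iff.2 hb]
      exact (hY.dec _).mono hs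
  · unfold gAB
    rw [oAB_eq, oAB_eq]
    refine bdd_gz isCompact_singleton _ _ fun d hd => ?_
    rw [Set.mem_singleton_iff] at hd
    rw [hd]
    exact hL _ _ _ _ _ (hln u) _ (hln v)
  · rw [oAB_eq, sAB_eq]
    exact (m.reg _ _ fun h => hu ((mem_mkE _ _ k k' u).2 h)).mono (hsub u)
  · have h1 := hsub u hz
    rw [(hS u hu).2] at h1
    rw [sAB_eq, (hS u hu).1, (hS u hu).2]
    exact m.pol z h1 hne
  · have h1 := hsub u
    rw [(hS u hu).2] at h1
    rw [oAB_eq, (hS u hu).1, (hS u hu).2]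
    exact m.num.mono h1
  · obtain ⟨i, hi1, rfl⟩ := Finset.mem_map.1 hu
    have hk : k' i = .S := by
      simpa [mkSD] using hi1
    exact hli.mem _ _ _ _ i hk
  · obtain ⟨i, hi1, rfl⟩ := Finset.mem_map.1 hu
    obtain ⟨j, hj1, rfl⟩ := Finset.mem_map.1 hv
    have hk : k' i = .S := by
      simpa [mkSD] using hi1
    have hk' : k' j = .S := by
      simpa [mkSD] using hj1
    have he' : lnY p p' k k' i + q = lnY p p' k k' j + q := he
    rw [hli.inj _ _ _ _ i j hk hk' (by linarith)]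

/-- **Moving one half quantum in front of `ZobjQ`.** -/
theorem HMv.move (m : HMv lo hi κ Q cw a₀ a q S K r) (hli : HLi lo hi α a₀ a q lnX lnY)
    (hL : LOk fun k => Set.Icc (lo k) (hi k)) (hκ : 0 < κ) (hQ : cw + ((n : ℝ) - n') = Q)
    (hX : FamL true (fun k => Set.Icc (lo k) (hi k)) κ Q X)
    (hY : FamL false (fun k => Set.Icc (lo k) (hi k)) κ Q Y) :
    Integrable (J1 X Y S K α n n' lnX lnY a₀) ∧ Integrable (J1 X Y S K α n n' lnX lnY a) ∧
    (∫ y, J1 X Y S K α n n' lnX lnY a y) - ∫ y, J1 X Y S K α n n' lnX lnY a₀ y =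
      2 * Real.pi * ZGs n n' fun p p' k k' => ∑ i ∈ mkSD k', cW n n' k k' *
        IA (gR (G1 S n n' k k') (Sum.inr (Sum.inr i)) q)
          (hR (H1 X Y K n n' k k') (Sum.inr (Sum.inr i)) q (r q))
          (lns α n n' lnX lnY k k') := by
  obtain ⟨h1, h2⟩ := J1_of X Y S K α n n' lnX lnY (a := a₀) fun p p' k k' hc =>
    (m.mv hli hL hκ hQ hX hY hc).integrable_left
  obtain ⟨h3, h4⟩ := J1_of X Y S K α n n' lnX lnY (a := a) fun p p' k k' hc =>
    (m.mv hli hL hκ hQ hX hY hc).integrable_right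
  refine ⟨h1, h3, ?_⟩
  rw [h2, h4, ← ZGs_sub, ← ZGs_mul]
  refine ZGs_congr fun p p' k k' hc => ?_
  have h5 := (m.mv hli hL hκ hQ hX hY hc).move
  unfold mkE at h5
  rw [Finset.sum_map] at h5
  rw [← mul_sub, h5, ← Finset.mul_sum]
  simp only [Function.Embedding.trans_apply, Function.Embedding.inr_apply]
  ring

end mv

end NURow

end
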