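import Pool.Agent.NURow.PinC

/-!
# The move of one half quantum in front of `ZobjQ`, the host string pinned
-/

set_option autoImplicit false
set_option linter.unusedSectionVars false

noncomputable section

open Complex MeasureTheory
open scoped Classical

namespace NURow

open NUP1 NUP1S NUP1.Bd

section res

variable {A p A' q : ℕ}

/-- the host and the other objects -/
def fC (i₀ : Fin (q + 1)) (o : Option (CF A p A' q)) : CF A p A' (q + 1) :=
  o.elim (Sum.inr (Sum.inr i₀)) (Sum.map id (Sum.map id i₀.succAbove))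

theorem fC_bij (i₀ : Fin (q + 1)) : Function.Bijective (fC (A := A) (p := p) (A' := A') i₀) := by
  constructor
  · rintro (_ | i) (_ | j) h
    · rfl
    · rcases j with j | (j | j)
      · exact absurd h (by simp [fC])
      · exact absurd h (by simp [fC])
      · have h1 : i₀ = i₀.succAbove j := Sum.inr_injective (Sum.inr_injective h)
        exact absurd h1.symm (Fin.succAbove_ne i₀ j)
    · rcases i with j | (j | j)
      · exact absurd h (by simp [fC])
      · exact absurd h (by simp [fC])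
      · have h1 : i₀.succAbove j = i₀ := Sum.inr_injective (Sum.inr_injective h)
        exact absurd h1 (Fin.succAbove_ne i₀ j)
    · congr 1
      have hinj : Function.Injective (Sum.map (id : Fin A ⊕ Fin p → _)
          (Sum.map (id : Fin A' → _) i₀.succAbove)) :=
        Function.Injective.sumMap Function.injective_id
          (Function.Injective.sumMap Function.injective_id Fin.succAbove_right_injective)
      exact hinj h
  · rintro (i | (i | i))
    · exact ⟨some (Sum.inl i), rfl⟩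
    · exact ⟨some (Sum.inr (Sum.inl i)), rfl⟩
    · by_cases h : i = i₀
      · subst h
        exact ⟨none, rfl⟩
      · obtain ⟨j, rfl⟩ := Fin.exists_succAbove_eq h
        exact ⟨some (Sum.inr (Sum.inr j)), rfl⟩

/-- the host and the other objects -/
def eC (i₀ : Fin (q + 1)) : Option (CF A p A' q) ≃ CF A p A' (q + 1) :=
  Equiv.ofBijective (fC i₀) (fC_bij i₀)

theorem eC_none (i₀ : Fin (q + 1)) :
    eC (A := A) (p := p) (A' := A') i₀ none = Sum.inr (Sum.inr i₀) := rfl

theorem kb_eC (i₀ : Fin (q + 1)) (i : CF A p A' q) : kb (eC i₀ (some i)) = kb i := by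
  rcases i with i | (i | i) <;> rfl

theorem kk_eC (k : Fin p → O3) (k' : Fin (q + 1) → O3) (i₀ : Fin (q + 1)) (i : CF A p A' q) :
    kk k k' (eC i₀ (some i)) = kk k (fun j => k' (i₀.succAbove j)) i := by
  rcases i with i | (i | i) <;> rfl

theorem oc4_eC (k : Fin p → O3) (k' : Fin (q + 1) → O3) (i₀ : Fin (q + 1)) (i : CF A p A' q) :
    oc4 k k' (eC i₀ (some i)) = oc4 k (fun j => k' (i₀.succAbove j)) i := by
  rw [oc4_eq, oc4_eq, kb_eC, kk_eC]

theorem eC_ne (i₀ : Fin (q + 1)) (i : CF A p A' q) : eC i₀ (some i) ≠ Sum.inr (Sum.inr i₀) := by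
  rw [← eC_none i₀]
  intro h
  have := (eC i₀).injective h
  exact absurd this (by simp)

theorem xc_eC (α : ℝ) (x : Fin p → ℝ) (x' : Fin (q + 1) → ℝ) (i₀ : Fin (q + 1)) (i : CF A p A' q) :
    xc α x x' (eC i₀ (some i)) = xc α x (fun j => x' (i₀.succAbove j)) i := by
  rcases i with (i | i) | (i | i) <;> rfl

theorem c3_S : c3 .S = 2 := rfl

theorem sum_c3_succAbove {k' : Fin (q + 1) → O3} {i₀ : Fin (q + 1)} (h0 : k' i₀ = .S) :
    ∑ i, c3 (k' i) = 2 + ∑ j, c3 (k' (i₀.succAbove j)) := by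
  rw [Fin.sum_univ_succAbove _ i₀, h0, c3_S]

theorem nA_succAbove {n' : ℕ} {k' : Fin (q + 1) → O3} {i₀ : Fin (q + 1)} (h0 : k' i₀ = .S) :
    nA (n' - 2) (fun j => k' (i₀.succAbove j)) = nA n' k' := by
  unfold nA
  rw [sum_c3_succAbove h0, Nat.sub_sub]

theorem cz_succAbove {n n' : ℕ} (k : Fin p → O3) {k' : Fin (q + 1) → O3} {i₀ : Fin (q + 1)}
    (h0 : k' i₀ = .S) :
    cz n n' k k' = wt .S * cz n (n' - 2) k (fun j => k' (i₀.succAbove j)) := by
  unfold cz
  rw [nA_succAbove h0, Fin.prod_univ_succAbove _ i₀, h0]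
  simp only [ob3]
  ring

variable {α : ℝ} {lo hi : Option O3 → ℝ} {κ Q cw a₀ a y : ℝ} {X s : Sp} {K r : ℂ → ℂ}

/-- the one body function of the pinned string -/
theorem PinD.dec_host (D : PinD α lo hi κ Q cw a₀ a y X s K r) (ρ : ℂ) :
    DecOn (κ + 2 * Q * (sc4 false (some .S) + cw)) (Set.Icc (lo (some .S)) (hi (some .S)))
      fun z => X false (some .S) z * (K (z + ((2 * l : ℝ) : ℂ)) * ρ) := by
  obtain ⟨D1, hD1⟩ := D.fam.dec false (some .S)
  obtain ⟨D2, hD2⟩ := D.dK
  refine ⟨|D1| * |D2| * ‖ρ‖, fun z hz => ?_⟩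
  have e1 := hD1 z hz
  have e2 := hD2 (z + ((2 * l : ℝ) : ℂ)) (by
    rw [add_re, ofReal_re]
    exact ⟨by linarith [D.mem1, hz.1], by linarith [D.mem2, hz.2]⟩)
  rw [add_im, ofReal_im, add_zero] at e2
  rw [norm_mul, norm_mul]
  calc ‖X false (some .S) z‖ * (‖K (z + ((2 * l : ℝ) : ℂ))‖ * ‖ρ‖)
      ≤ (|D1| * Real.exp (-((κ + 2 * Q * sc4 false (some .S)) * |z.im|))) *
        ((|D2| * Real.exp (-((κ + 2 * Q * cw) * |z.im|))) * ‖ρ‖) := by
        refine mul_le_mul (e1.trans ?_) (mul_le_mul_of_nonneg_right (e2.trans ?_) (norm_nonneg _))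
          (by positivity) (by positivity)
        · exact mul_le_mul_of_nonneg_right (le_abs_self _) (Real.exp_pos _).le
        · exact mul_le_mul_of_nonneg_right (le_abs_self _) (Real.exp_pos _).le
    _ = (|D1| * |D2| * ‖ρ‖) *
        Real.exp (-((2 * κ + 2 * Q * (sc4 false (some .S) + cw)) * |z.im|)) := by
        rw [show -((2 * κ + 2 * Q * (sc4 false (some .S) + cw)) * |z.im|) =
          -((κ + 2 * Q * sc4 false (some .S)) * |z.im|) + -((κ + 2 * Q * cw) * |z.im|) by ring,
          Real.exp_add]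
        ring
    _ ≤ _ := by
        refine mul_le_mul_of_nonneg_left (Real.exp_le_exp.2 ?_) (by positivity)
        have := mul_nonneg D.κ0.le (abs_nonneg z.im)
        nlinarith

/-- **The residue of one string, pinned.** -/
theorem PinD.res (D : PinD α lo hi κ Q cw a₀ a y X s K r) {n n' : ℕ}
    (hQ : Q = cw + ((n : ℝ) - n')) {k : Fin p → O3} {k' : Fin (q + 1) → O3}
    (hk : ∑ i, c3 (k i) ≤ n) (hk' : ∑ i, c3 (k' i) ≤ n') (hA : nA n k = A) (hA' : nA n' k' = A')
    {x : Fin p → ℝ} {x' : Fin (q + 1) → ℝ}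
    (hx : LnOk lo hi k k' (xc α x x' : CF A p A' (q + 1) → ℝ))
    (hinj : ∀ i j, k' i = .S → k' j = .S → x' i = x' j → i = j) {i₀ : Fin (q + 1)}
    (h0 : k' i₀ = .S) {x1 : Fin p → ℝ} {x1' : Fin q → ℝ}
    (hx1 : LnOk lo hi k (fun j => k' (i₀.succAbove j)) (xc α x1 x1' : CF A p A' q → ℝ)) :
    cz n n' k k' * IA (gR (gO (gk k k') (sk s k k')) (Sum.inr (Sum.inr i₀)) (2 * l))
      (hR (hO K (hc (X true) (X false) k k')) (Sum.inr (Sum.inr i₀)) (2 * l) (r ((2 * l : ℝ) : ℂ)))
      (xc α x x' : CF A p A' (q + 1) → ℝ) =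
    (∫ t : ℝ, wt .S * r ((2 * l : ℝ) : ℂ) *
      (K (vl y t + ((2 * l : ℝ) : ℂ)) * X false (some .S) (vl y t)) *
      termQ (X1 X (sH false s) (vl y t) true) (X1 X (sH false s) (vl y t) false) α n (n' - 2) k
        (fun j => k' (i₀.succAbove j)) x1 x1') ∧
    Integrable (fun t : ℝ => wt .S * r ((2 * l : ℝ) : ℂ) *
      (K (vl y t + ((2 * l : ℝ) : ℂ)) * X false (some .S) (vl y t)) *
      termQ (X1 X (sH false s) (vl y t) true) (X1 X (sH false s) (vl y t) false) α n (n' - 2) k
        (fun j => k' (i₀.succAbove j)) x1 x1') volume := by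
  set k'' : Fin q → O3 := fun j => k' (i₀.succAbove j) with hk''
  have hn : cw + ∑ i : CF A p A' (q + 1), sc (oc4 k k' i) = Q := by
    subst hA hA'
    rw [sum_sc_oc4 (sum_chg_kA n k hk) (sum_chg_kA n' k' hk'), hQ]
  have hinj' : ∀ i ∈ Sf k k', ∀ j ∈ Sf k k', (xc α x x' : CF A p A' (q + 1) → ℝ) i = xc α x x' j →
      i = j := by
    intro i hi j hj he
    obtain ⟨h1, h2⟩ := mem_Sf.1 hi
    obtain ⟨h3, h4⟩ := mem_Sf.1 hj
    rcases i with i | (i | i)
    · exact absurd h1 (by simp [kb])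
    · exact absurd h2 (by simp [kk, kA])
    rcases j with j | (j | j)
    · exact absurd h3 (by simp [kb])
    · exact absurd h4 (by simp [kk, kA])
    have h5 : k' i = .S := by simpa [kk, kA] using h2
    have h6 : k' j = .S := by simpa [kk, kA] using h4
    rw [hinj i j h5 h6 he]
  have m := D.mv hn hx hinj'
  have hi₀ : (Sum.inr (Sum.inr i₀) : CF A p A' (q + 1)) ∈ Sf k k' := by
    rw [mem_Sf]
    exact ⟨rfl, by simp [kk, kA, h0]⟩
  have oc0 : oc4 k k' (Sum.inr (Sum.inr i₀) : CF A p A' (q + 1)) = (false, Ob.S) := by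
    rw [oc4_eq]
    simp [kk, kA, kb, h0, ob4, ob3]
  have kk0 : kk k k' (Sum.inr (Sum.inr i₀) : CF A p A' (q + 1)) = some .S := by
    simp [kk, kA, h0]
  have cR0 : cR (ck cw k k') (Sum.inr (Sum.inr i₀) : CF A p A' (q + 1)) (Sum.inr (Sum.inr i₀)) =
      sc4 false (some .S) + cw := by
    unfold cR
    rw [if_pos rfl]
    simp only [ck, oc_some, oc_none, oc0]
    rfl
  have hxi := hx (Sum.inr (Sum.inr i₀))
  rw [kk0] at hxi
  have hRs : hR (hO K (hc (X true) (X false) k k')) (Sum.inr (Sum.inr i₀)) (2 * l)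
      (r ((2 * l : ℝ) : ℂ)) (Sum.inr (Sum.inr i₀) : CF A p A' (q + 1)) = fun z =>
      X false (some .S) z * (K (z + ((2 * l : ℝ) : ℂ)) * r ((2 * l : ℝ) : ℂ)) := by
    funext z
    rw [hR_self]
    simp only [hO, hc_eq, kk0]
    rfl
  have gRs : ∀ b : CF A p A' (q + 1), b ≠ Sum.inr (Sum.inr i₀) →
      gR (gO (gk k k') (sk s k k')) (Sum.inr (Sum.inr i₀)) (2 * l) (Sum.inr (Sum.inr i₀)) b =
        sH false s (kb b) (kk k k' b) := by
    intro b hb
    funext z
    rw [gR_left _ hb]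
    simp only [gO, gk, sk, oc0, oc4_eq k k' b]
    rfl
  have P := pinA (x := (xc α x x' : CF A p A' (q + 1) → ℝ)) (sum_cR m.hn (Sum.inr (Sum.inr i₀)))
    (gR_symm m.sym (Sum.inr (Sum.inr i₀)) (2 * l))
    (measurable_gR m.gm (Sum.inr (Sum.inr i₀)) (2 * l)) (eC i₀) D.pin hxi D.κ0
    (measurable_hR m.hm (Sum.inr (Sum.inr i₀)) (2 * l) (r ((2 * l : ℝ) : ℂ)))
    (fun i _ => m.dec_hR hi₀ _ i) (by
      rw [eC_none, hRs, cR0]
      exact D.dec_host _) (fun hlt => by
      rw [eC_none, hRs]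
      refine (D.fam.cont _ _ hlt).mul (ContinuousOn.mul ?_ continuousOn_const)
      refine D.cK.comp (by fun_prop) fun u hu => ?_
      show _ ≤ (u + ((2 * l : ℝ) : ℂ)).re ∧ (u + ((2 * l : ℝ) : ℂ)).re ≤ _
      rw [add_re, ofReal_re]
      exact ⟨by linarith [hu.1, D.mem1], by linarith [hu.2, D.mem2]⟩) (fun hlt => by
      rw [eC_none, hRs]
      refine (D.fam.diff _ _ hlt).mul (DifferentiableOn.mul ?_ (differentiableOn_const _))
      refine D.aK.comp (by fun_prop) fun u hu => ?_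
      show _ < (u + ((2 * l : ℝ) : ℂ)).re ∧ (u + ((2 * l : ℝ) : ℂ)).re < _
      rw [add_re, ofReal_re]
      exact ⟨by linarith [hu.1, D.mem1], by linarith [hu.2, D.mem2]⟩)
    (fun i j hij _ _ => m.bdd_gR hi₀ hij) (fun b hb => by
      rw [eC_none] at hb ⊢
      rw [cR0, gRs b hb]
      have c1 : cR (ck cw k k') (Sum.inr (Sum.inr i₀) : CF A p A' (q + 1)) b =
          sc4 (kb b) (kk k k' b) := by
        unfold cR
        rw [if_neg hb, add_zero]
        simp only [ck, oc_some, oc4_eq k k' b]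
      rw [c1, add_comm (sc4 false (some .S)) cw]
      exact (D.comp _ _).mono (Set.Icc_subset_Icc (by linarith [(hx b).2])
        (by linarith [(hx b).1])))
  -- the family of the other objects
  have F : ∀ t : ℝ, IA (fun i j => gR (gO (gk k k') (sk s k k')) (Sum.inr (Sum.inr i₀)) (2 * l)
        (eC i₀ (some i)) (eC i₀ (some j)))
      (fun i u => hR (hO K (hc (X true) (X false) k k')) (Sum.inr (Sum.inr i₀)) (2 * l)
        (r ((2 * l : ℝ) : ℂ)) (eC i₀ (some i)) u *
        gR (gO (gk k k') (sk s k k')) (Sum.inr (Sum.inr i₀)) (2 * l) (eC i₀ none)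
          (eC i₀ (some i)) (vl y t - u))
      (fun i => (xc α x x' : CF A p A' (q + 1) → ℝ) (eC i₀ (some i))) =
      IA (gk k k'') (hc (X1 X (sH false s) (vl y t) true) (X1 X (sH false s) (vl y t) false) k k'')
        (xc α x (fun j => x' (i₀.succAbove j)) : CF A p A' q → ℝ) := by
    intro t
    congr 1
    · funext i j z
      rw [gR_of_ne _ (eC_ne i₀ i) (eC_ne i₀ j)]
      simp only [gO, gk, oc4_eC]
      rfl
    · funext i u
      rw [hR_of_ne _ (eC_ne i₀ i), eC_none, gRs _ (eC_ne i₀ i), hc_X1, hc_eq (sH false s), kb_eC,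
        kk_eC]
      simp only [hO, hc_eq X, kb_eC, kk_eC]
      rfl
    · funext i
      rw [xc_eC]
  rw [eC_none] at P
  simp only [eC_none] at F
  simp only [F, hRs] at P
  -- the terms
  have hQ2 : (n : ℝ) - ((n' - 2 : ℕ) : ℝ) = Q - (cw + sc4 false (some .S)) := by
    have h2 : 2 ≤ n' := by
      have := sum_c3_succAbove h0
      omega
    rw [Nat.cast_sub h2, hQ]
    have : sc4 false (some .S) = -2 := by
      simp [sc, ob4, ob3, chg]
    rw [this]
    push_cast
    ring
  have hk2 : ∑ j, c3 (k'' j) ≤ n' - 2 := by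
    have := sum_c3_succAbove h0
    simp only [hk'']
    omega
  have hx2 : LnOk lo hi k k'' (xc α x (fun j => x' (i₀.succAbove j)) : CF A p A' q → ℝ) := by
    intro i
    have := hx (eC i₀ (some i))
    rwa [kk_eC, xc_eC] at this
  have T : ∀ t : ℝ, termQ (X1 X (sH false s) (vl y t) true) (X1 X (sH false s) (vl y t) false)
      α n (n' - 2) k k'' x1 x1' = cz n (n' - 2) k k'' * IA (gk k k'')
        (hc (X1 X (sH false s) (vl y t) true) (X1 X (sH false s) (vl y t) false) k k'')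
        (xc α x (fun j => x' (i₀.succAbove j)) : CF A p A' q → ℝ) := by
    intro t
    have hA2 : nA (n' - 2) k'' = A' := by rw [← hA']; exact nA_succAbove h0
    rw [termQ_IA D.κ0 D.ok (D.fam_pin t) hQ2 hk hk2 hA hA2 hx1]
    congr 1
    refine shift_gk D.κ0 D.ok (D.fam_pin t) ?_ hx1 hx2
    subst hA hA2
    rw [sum_sc_oc4 (sum_chg_kA n k hk) (sum_chg_kA (n' - 2) k'' hk2), hQ2]
  constructor
  · rw [P.1, ← integral_const_mul]
    refine integral_congr_ae (Filter.Eventually.of_forall fun t => ?_)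
    simp only [T, cz_succAbove k h0]
    ring
  · refine (P.2.const_mul (cz n n' k k')).congr (Filter.Eventually.of_forall fun t => ?_)
    simp only [T, cz_succAbove k h0]
    ring

end res

end NURow

end
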