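import Pool.Agent.NURow.MoveZ

/-!
# Separating one object of a family

`sepA`: the integral over the line of the object `none` outside. `pinA`: the line of one object is
first moved.
-/

set_option autoImplicit false
set_option linter.unusedSectionVars false

noncomputable section

open Complex MeasureTheory
open scoped Classical

namespace NURow

open NUP1 NUP1S NUP1.Bd

variable {ι ι' : Type*} [Fintype ι] [Fintype ι']

theorem FA_mul (g : ι → ι → ℂ → ℂ) (h f : ι → ℂ → ℂ) (z : ι → ℂ) :
    FA g (fun i u => h i u * f i u) z = (∏ i, f i (z i)) * FA g h z := by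
  unfold FA
  rw [Finset.prod_mul_distrib]
  ring

theorem integral_option' {f : (Option ι → ℝ) → ℂ}
    (hf : Integrable f (Measure.pi fun _ => volume)) :
    ∫ t, f t ∂(Measure.pi fun _ => volume) =
      ∫ s : ℝ, (∫ t : ι → ℝ, f (oc s t) ∂(Measure.pi fun _ => volume)) := by
  have h1 := (mp_optE (ι := ι)).integral_comp' f
  have h2 := ((mp_optE (ι := ι)).integrable_comp_emb (MeasurableEquiv.measurableEmbedding _)).2 hf
  rw [← h1]
  exact integral_prod_symm _ h2

theorem integrable_option' {f : (Option ι → ℝ) → ℂ}
    (hf : Integrable f (Measure.pi fun _ => volume)) :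
    Integrable (fun s : ℝ => ∫ t : ι → ℝ, f (oc s t) ∂(Measure.pi fun _ => volume)) volume := by
  have h2 := ((mp_optE (ι := ι)).integrable_comp_emb (MeasurableEquiv.measurableEmbedding _)).2 hf
  exact h2.integral_prod_right

/-- the integrand with the distinguished object at a fixed position -/
theorem FA_sep {g : Option ι → Option ι → ℂ → ℂ} (hsym : ∀ a b z, g a b z = g b a (-z))
    (h : Option ι → ℂ → ℂ) (w : ℂ) (z : ι → ℂ) :
    FA g h (oc w z) = h none w * FA (fun a b => g (some a) (some b))
      (fun i u => h (some i) u * g none (some i) (w - u)) z := by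
  rw [FA_option hsym, FA_mul]
  simp only [oc_none, oc_some]
  ring

/-- **Separating the object `none`.** -/
theorem sepA {g : Option ι → Option ι → ℂ → ℂ} (hsym : ∀ a b z, g a b z = g b a (-z))
    (h : Option ι → ℂ → ℂ) (a : ℝ) (x : ι → ℝ)
    (hI : Integrable (fun t : Option ι → ℝ => FA g h (pos (oc a x) t))
      (Measure.pi fun _ => volume)) :
    IA g h (oc a x) = ∫ s : ℝ, h none (vl a s) * IA (fun a b => g (some a) (some b))
      (fun i u => h (some i) u * g none (some i) (vl a s - u)) x := by
  unfold IA
  rw [integral_option' hI]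
  refine integral_congr_ae (Filter.Eventually.of_forall fun s => ?_)
  simp only []
  rw [← integral_const_mul]
  refine integral_congr_ae (Filter.Eventually.of_forall fun t => ?_)
  simp only []
  rw [pos_oc, FA_sep hsym]

theorem integrable_sepA {g : Option ι → Option ι → ℂ → ℂ}
    (hsym : ∀ a b z, g a b z = g b a (-z))
    (h : Option ι → ℂ → ℂ) (a : ℝ) (x : ι → ℝ)
    (hI : Integrable (fun t : Option ι → ℝ => FA g h (pos (oc a x) t))
      (Measure.pi fun _ => volume)) :
    Integrable (fun s : ℝ => h none (vl a s) * IA (fun a b => g (some a) (some b))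
      (fun i u => h (some i) u * g none (some i) (vl a s - u)) x) volume := by
  refine (integrable_option' hI).congr (Filter.Eventually.of_forall fun s => ?_)
  simp only []
  unfold IA
  rw [← integral_const_mul]
  refine integral_congr_ae (Filter.Eventually.of_forall fun t => ?_)
  simp only []
  rw [pos_oc, FA_sep hsym]

/-- **The line of one object is moved, then the object is separated.** -/
theorem pinA {g : ι → ι → ℂ → ℂ} {c : ι → ℝ} {Q : ℝ} (hn : ∑ i, c i = Q)
    (hsym : ∀ a b z, g a b z = g b a (-z)) (hgm : ∀ a b, Measurable (g a b)) {h : ι → ℂ → ℂ}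
    {x : ι → ℝ} (e : Option ι' ≃ ι) {lo hi y κ : ℝ} (hy : y ∈ Set.Icc lo hi)
    (hx : x (e none) ∈ Set.Icc lo hi) (hκ : 0 < κ) (hm : ∀ i, Measurable (h i))
    (hh : ∀ i, i ≠ e none → DecOn (κ + 2 * Q * c i) {x i} (h i))
    (hh0 : DecOn (κ + 2 * Q * c (e none)) (Set.Icc lo hi) (h (e none)))
    (hc : lo < hi → ContinuousOn (h (e none)) (CS lo hi))
    (hd : lo < hi → DifferentiableOn ℂ (h (e none)) (OS lo hi))
    (hg : ∀ a b, a ≠ b → a ≠ e none → b ≠ e none → Bdd {x a - x b} (2 * (c a * c b)) (g a b))
    (hg0 : ∀ b, b ≠ e none →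
      PB (2 * (c (e none) * c b)) (Set.Icc (lo - x b) (hi - x b)) (g (e none) b)) :
    IA g h x = (∫ s : ℝ, h (e none) (vl y s) *
      IA (fun a b => g (e (some a)) (e (some b)))
        (fun i u => h (e (some i)) u * g (e none) (e (some i)) (vl y s - u))
        (fun i => x (e (some i)))) ∧
    Integrable (fun s : ℝ => h (e none) (vl y s) *
      IA (fun a b => g (e (some a)) (e (some b)))
        (fun i u => h (e (some i)) u * g (e none) (e (some i)) (vl y s - u))
        (fun i => x (e (some i)))) volume := by
  -- the family on `Option ι'`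
  set g1 : Option ι' → Option ι' → ℂ → ℂ := fun a b => g (e a) (e b) with hg1
  set h1 : Option ι' → ℂ → ℂ := fun i => h (e i) with hh1
  set x1 : Option ι' → ℝ := fun i => x (e i) with hx1
  have sym1 : ∀ a b z, g1 a b z = g1 b a (-z) := fun a b z => hsym _ _ z
  have n1 : ∑ i, c (e i) = Q := by rw [e.sum_comp, hn]
  have ne : ∀ {i : Option ι'}, i ≠ none → e i ≠ e none := fun hi h => hi (e.injective h)
  have E0 : IA g h x = IA g1 h1 x1 := (IA_equiv e hsym h x).symm
  have up : ∀ (inst : DecidableEq (Option ι')) (s : ℝ),
      @Function.update _ _ inst x1 none s = oc s (fun i => x (e (some i))) := by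
    intro inst s
    funext o
    cases o <;> simp [x1]
  have mv : ∀ a b : ℝ, a ∈ Set.Icc lo hi → b ∈ Set.Icc lo hi → a < b →
      IA g1 h1 (oc a (fun i => x (e (some i)))) = IA g1 h1 (oc b (fun i => x (e (some i)))) := by
    intro a b ha hb hab
    have hlt : lo < hi := lt_of_le_of_lt ha.1 (lt_of_lt_of_le hab hb.2)
    have hsub : Set.Icc a b ⊆ Set.Icc lo hi := Set.Icc_subset_Icc ha.1 hb.2
    have := shiftA_one (x := x1) n1 sym1 (fun a b => hgm _ _) none hab.le hκ (fun i => hm (e i))
      (fun i hi => hh _ (ne hi)) (hh0.mono hsub) ((hc hlt).mono fun u hu => hsub hu)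
      ((hd hlt).mono fun u hu => ⟨lt_of_le_of_lt ha.1 hu.1, lt_of_lt_of_le hu.2 hb.2⟩)
      (fun a b hab ha hb => hg _ _ (fun h => hab (e.injective h)) (ne ha) (ne hb))
      (fun b' hb' => (hg0 _ (ne hb')).mono (Set.Icc_subset_Icc
        (by simp only [x1]; linarith [ha.1]) (by simp only [x1]; linarith [hb.2])))
    rw [up, up] at this
    exact this
  have E1 : IA g1 h1 x1 = IA g1 h1 (oc y (fun i => x (e (some i)))) := by
    have e0 : x1 = oc (x (e none)) (fun i => x (e (some i))) := by
      funext o
      cases o <;> simp [x1]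
    rw [e0]
    rcases lt_trichotomy (x (e none)) y with h | h | h
    · exact mv _ _ hx hy h
    · rw [h]
    · exact (mv _ _ hy hx h).symm
  have hI : Integrable (fun t : Option ι' → ℝ =>
      FA g1 h1 (pos (oc y (fun i => x (e (some i)))) t)) (Measure.pi fun _ => volume) := by
    refine integrable_FA n1 hκ (fun a b => hgm _ _) (fun i => hm _) (fun i => ?_) fun a b hab => ?_
    · cases i with
      | none =>
        refine hh0.mono ?_
        intro z hz
        rw [Set.mem_singleton_iff] at hz
        rw [hz]
        exact hy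
      | some i => exact hh _ (ne (by simp))
    · have key : ∀ b : ι', Bdd {y - x (e (some b))} (2 * (c (e none) * c (e (some b))))
          (g (e none) (e (some b))) := fun b => by
        refine Bdd.mono' (hg0 _ (ne (by simp))).1 ?_
        intro z hz
        rw [Set.mem_singleton_iff] at hz
        rw [hz]
        exact ⟨by linarith [hy.1], by linarith [hy.2]⟩
      cases a with
      | none =>
        cases b with
        | none => exact absurd rfl hab
        | some b => exact key b
      | some a =>
        cases b with
        | none =>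
          have := key a
          rw [show 2 * (c (e none) * c (e (some a))) = 2 * (c (e (some a)) * c (e none)) by ring]
            at this
          refine Bdd.transp hsym ?_
          simpa using this
        | some b =>
          exact hg _ _ (fun h => hab (e.injective h)) (ne (by simp)) (ne (by simp))
  rw [E0, E1, sepA sym1 h1 y _ hI]
  exact ⟨rfl, integrable_sepA sym1 h1 y _ hI⟩

end NURow

end
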