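import Pool.Agent.NURow.PinA
import Pool.Agent.NURow.Bk3

/-!
# One half quantum in front of `ZobjQ`: the families of a word
-/

set_option autoImplicit false
set_option linter.unusedSectionVars false

noncomputable section

open Complex MeasureTheory
open scoped Classical

namespace NURow

open NUP1 NUP1S NUP1.Bd

/-- one body functions of both species with one more spectator at `w` -/
def X1 (X s : Sp) (w : ℂ) : Sp := fun c k z => X c k z * s c k (w - z)

/-- a string of kind S of species `b` with a half quantum at distance `2 l` -/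
def sH (b : Bool) (s : Sp) : Sp := fun c k x =>
  gz (b, .S) (c, ob4 k) x * s c k (x + ((2 * l : ℝ) : ℂ))

/-- families of one body functions on strips -/
structure FmD (lo hi : Option O3 → ℝ) (κ Q : ℝ) (X : Sp) : Prop where
  meas : ∀ c k, Measurable (X c k)
  dec : ∀ c k, DecOn (κ + 2 * Q * sc4 c k) (Set.Icc (lo k) (hi k)) (X c k)
  cont : ∀ c k, lo k < hi k → ContinuousOn (X c k) (CS (lo k) (hi k))
  diff : ∀ c k, lo k < hi k → DifferentiableOn ℂ (X c k) (OS (lo k) (hi k))

/-- the factor of a fixed spectator does not change the decay by more than its rate -/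
theorem DecOn.one {κ s : ℝ} {K K' : Set ℝ} {h g : ℂ → ℂ} (hh : DecOn κ K h) (hg : Bdd K' s g)
    (w : ℂ) (hK : ∀ x ∈ K, w.re - x ∈ K') : DecOn (κ - s) K fun z => h z * g (w - z) := by
  obtain ⟨D, hD⟩ := hh
  obtain ⟨C, hC, h1⟩ := hg
  refine ⟨|D| * (C * Real.exp (|s| * |w.im|)), fun z hz => ?_⟩
  have e1 : ‖g (w - z)‖ ≤ C * Real.exp (|s| * |w.im|) * Real.exp (s * |z.im|) := by
    refine (h1 (w - z) (by rw [sub_re]; exact hK _ hz)).trans ?_
    rw [mul_assoc, ← Real.exp_add]
    refine mul_le_mul_of_nonneg_left (Real.exp_le_exp.2 ?_) hC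
    rw [sub_im]
    have e1 : s * |w.im - z.im| - s * |z.im| ≤ |s| * |w.im| := by
      rw [← mul_sub]
      refine (le_abs_self _).trans ?_
      rw [abs_mul]
      refine mul_le_mul_of_nonneg_left ?_ (abs_nonneg s)
      have := abs_abs_sub_abs_le_abs_sub (w.im - z.im) (-z.im)
      rw [abs_neg] at this
      refine this.trans (le_of_eq ?_)
      congr 1
      ring
    linarith
  have e2 : ‖h z‖ ≤ |D| * Real.exp (-(κ * |z.im|)) :=
    (hD z hz).trans (mul_le_mul_of_nonneg_right (le_abs_self _) (Real.exp_pos _).le)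
  rw [norm_mul]
  calc _ ≤ (|D| * Real.exp (-(κ * |z.im|))) *
        (C * Real.exp (|s| * |w.im|) * Real.exp (s * |z.im|)) :=
        mul_le_mul e2 e1 (norm_nonneg _) (by positivity)
    _ = |D| * (C * Real.exp (|s| * |w.im|)) *
        (Real.exp (-(κ * |z.im|)) * Real.exp (s * |z.im|)) := by ring
    _ = _ := by
        rw [← Real.exp_add]
        congr 2
        ring

theorem FmD.x1 {lo hi : Option O3 → ℝ} {κ Q cw : ℝ} {X s : Sp} (h : FmD lo hi κ Q X)
    (hm : ∀ c k, Measurable (s c k)) (w : ℂ)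
    (hs : ∀ c k, PB (2 * (cw * sc4 c k)) (Set.Icc (w.re - hi k) (w.re - lo k)) (s c k)) :
    FmD lo hi κ (Q - cw) (X1 X s w) where
  meas c k := (h.meas c k).mul ((hm c k).comp (measurable_const.sub measurable_id))
  dec c k := by
    have h1 := DecOn.one (h.dec c k) (hs c k).1 w fun x hx =>
      ⟨by linarith [hx.2], by linarith [hx.1]⟩
    rw [show κ + 2 * (Q - cw) * sc4 c k = κ + 2 * Q * sc4 c k - 2 * (cw * sc4 c k) by ring]
    exact h1
  cont c k hlt := by
    refine (h.cont c k hlt).mul fun u hu => ?_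
    have h1 := (hs c k).2 (w - u) (by
      rw [sub_re]
      exact ⟨by linarith [hu.2], by linarith [hu.1]⟩)
    exact (DifferentiableAt.comp u h1 ((differentiableAt_const w).sub
      differentiableAt_id)).continuousAt.continuousWithinAt
  diff c k hlt := by
    refine (h.diff c k hlt).mul fun u hu => ?_
    have h1 := (hs c k).2 (w - u) (by
      rw [sub_re]
      exact ⟨by linarith [hu.2], by linarith [hu.1]⟩)
    exact (DifferentiableAt.comp u h1 ((differentiableAt_const w).sub
      differentiableAt_id)).differentiableWithinAt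

/-! ## kinds of a canonical family -/

section kd

variable {a p a' p' : ℕ}

/-- species of the objects of a canonical family -/
def kb : CF a p a' p' → Bool := Sum.elim (fun _ => true) (fun _ => false)

/-- kinds of the objects of a canonical family -/
def kk (k : Fin p → O3) (k' : Fin p' → O3) : CF a p a' p' → Option O3 :=
  Sum.elim (kA a k) (kA a' k')

theorem oc4_eq (k : Fin p → O3) (k' : Fin p' → O3) (i : CF a p a' p') :
    oc4 k k' i = (kb i, ob4 (kk k k' i)) := by
  rcases i with i | i <;> rfl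

theorem hc_eq (X : Sp) (k : Fin p → O3) (k' : Fin p' → O3) (i : CF a p a' p') :
    hc (X true) (X false) k k' i = X (kb i) (kk k k' i) := by
  rcases i with i | i <;> rfl

theorem hc_X1 (X s : Sp) (w : ℂ) (k : Fin p → O3) (k' : Fin p' → O3) (i : CF a p a' p') (z : ℂ) :
    hc (X1 X s w true) (X1 X s w false) k k' i z =
      hc (X true) (X false) k k' i z * hc (s true) (s false) k k' i (w - z) := by
  rcases i with i | i <;> rfl

/-- the pair functions of a word -/
abbrev gk (k : Fin p → O3) (k' : Fin p' → O3) (i j : CF a p a' p') : ℂ → ℂ :=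
  gz (oc4 k k' i) (oc4 k k' j)

theorem Fg_gk (k : Fin p → O3) (k' : Fin p' → O3) (h : CF a p a' p' → ℂ → ℂ)
    (z : CF a p a' p' → ℂ) : Fg (oc4 k k') h z = FA (gk k k') h z := rfl

theorem gk_symm (k : Fin p → O3) (k' : Fin p' → O3) (i j : CF a p a' p') (z : ℂ) :
    gk k k' i j z = gk k k' j i (-z) := gz_symm _ _ _

theorem measurable_gk (k : Fin p → O3) (k' : Fin p' → O3) (i j : CF a p a' p') :
    Measurable (gk k k' i j) := measurable_gz _ _

/-- the lines of the objects are in the strips -/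
def LnOk (lo hi : Option O3 → ℝ) (k : Fin p → O3) (k' : Fin p' → O3) (x : CF a p a' p' → ℝ) :
    Prop := ∀ i, x i ∈ Set.Icc (lo (kk k k' i)) (hi (kk k k' i))

theorem lnOk_xc {lo hi : Option O3 → ℝ} {α : ℝ} (h1 : lo none ≤ α) (h2 : α ≤ hi none)
    {k : Fin p → O3} {k' : Fin p' → O3} {x : Fin p → ℝ} {x' : Fin p' → ℝ}
    (hx : ∀ i, x i ∈ Set.Icc (lo (some (k i))) (hi (some (k i))))
    (hx' : ∀ i, x' i ∈ Set.Icc (lo (some (k' i))) (hi (some (k' i)))) :
    LnOk lo hi k k' (xc α x x' : CF a p a' p' → ℝ) := by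
  rintro ((i | i) | (i | i))
  · exact ⟨h1, h2⟩
  · exact hx i
  · exact ⟨h1, h2⟩
  · exact hx' i

/-- strips without poles of the pair functions -/
def OkS (lo hi : Option O3 → ℝ) : Prop := ∀ (c c' : Bool) (k k' : Option O3),
  ∀ u ∈ Set.Icc (lo k) (hi k), ∀ v ∈ Set.Icc (lo k') (hi k'), Ok (c, ob4 k) (c', ob4 k') (u - v)

theorem bdd_gk {lo hi : Option O3 → ℝ} (hok : OkS lo hi) {k : Fin p → O3} {k' : Fin p' → O3}
    {x : CF a p a' p' → ℝ} (hx : LnOk lo hi k k' x) (i j : CF a p a' p') :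
    Bdd {x i - x j} (2 * (sc (oc4 k k' i) * sc (oc4 k k' j))) (gk k k' i j) := by
  refine bdd_gz isCompact_singleton _ _ fun d hd => ?_
  rw [Set.mem_singleton_iff] at hd
  rw [hd, oc4_eq, oc4_eq]
  exact hok _ _ _ _ _ (hx i) _ (hx j)

theorem sum_sc_oc4 {n n' : ℕ} {k : Fin p → O3} {k' : Fin p' → O3}
    (hk : ∑ i, chg (ob4 (kA a k i)) = n) (hk' : ∑ i, chg (ob4 (kA a' k' i)) = n') :
    ∑ i : CF a p a' p', sc (oc4 k k' i) = (n : ℝ) - n' := by
  have := sum_scQ (k := fun i => ob4 (kA a k i)) (k' := fun i => ob4 (kA a' k' i)) hk hk'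
  exact this

/-- **Integrability of the family of a word.** -/
theorem int_gk {lo hi : Option O3 → ℝ} {κ Q : ℝ} {X : Sp} (hκ : 0 < κ) (hok : OkS lo hi)
    (hX : FmD lo hi κ Q X) {k : Fin p → O3} {k' : Fin p' → O3}
    (hn : ∑ i : CF a p a' p', sc (oc4 k k' i) = Q) {x : CF a p a' p' → ℝ} (hx : LnOk lo hi k k' x) :
    Integrable (fun t : CF a p a' p' → ℝ => FA (gk k k') (hc (X true) (X false) k k') (pos x t))
      (Measure.pi fun _ => volume) := by
  refine integrable_FA (c := fun i => sc (oc4 k k' i)) hn hκ (measurable_gk k k') (fun i => ?_)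
    (fun i => ?_) fun i j _ => bdd_gk hok hx i j
  · rw [hc_eq]
    exact hX.meas _ _
  · rw [hc_eq, oc4_eq]
    refine (hX.dec _ _).mono ?_
    intro y hy
    rw [Set.mem_singleton_iff] at hy
    rw [hy]
    exact hx i

/-- **Moving the lines of a word.** -/
theorem shift_gk {lo hi : Option O3 → ℝ} {κ Q : ℝ} {X : Sp} (hκ : 0 < κ) (hok : OkS lo hi)
    (hX : FmD lo hi κ Q X) {k : Fin p → O3} {k' : Fin p' → O3}
    (hn : ∑ i : CF a p a' p', sc (oc4 k k' i) = Q) {x x' : CF a p a' p' → ℝ} (hx : LnOk lo hi k k' x)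
    (hx' : LnOk lo hi k k' x') :
    IA (gk k k') (hc (X true) (X false) k k') x = IA (gk k k') (hc (X true) (X false) k k') x' := by
  refine shiftA_all (c := fun i => sc (oc4 k k' i)) hn (gk_symm k k') (measurable_gk k k') hκ
    (lo := fun i => lo (kk k k' i)) (hi := fun i => hi (kk k k' i)) (fun i => ?_) hx hx'
    (fun i => ?_) (fun i => ?_) (fun i => ?_) fun i j _ => ?_
  · rw [hc_eq]
    exact hX.meas _ _
  · rw [hc_eq, oc4_eq]
    exact hX.dec _ _
  · rw [hc_eq]
    exact hX.cont _ _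
  · rw [hc_eq]
    exact hX.diff _ _
  · refine PB_gz fun d hd => ?_
    rw [oc4_eq, oc4_eq]
    have li : lo (kk k k' i) ≤ hi (kk k k' i) := (hx i).1.trans (hx i).2
    have lj : lo (kk k k' j) ≤ hi (kk k k' j) := (hx j).1.trans (hx j).2
    rcases le_total d (hi (kk k k' i) - hi (kk k k' j)) with h1 | h1
    · have := hok (kb i) (kb j) (kk k k' i) (kk k k' j) (d + hi (kk k k' j))
        ⟨by linarith [hd.1], by linarith⟩ (hi (kk k k' j)) ⟨lj, le_rfl⟩
      simpa using this
    · have := hok (kb i) (kb j) (kk k k' i) (kk k k' j) (hi (kk k k' i)) ⟨li, le_rfl⟩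
        (hi (kk k k' i) - d) ⟨by linarith [hd.2], by linarith⟩
      simpa using this

/-- **A term of `ZobjQ` as the integral of a family.** -/
theorem termQ_IA {lo hi : Option O3 → ℝ} {κ Q α : ℝ} {X : Sp} (hκ : 0 < κ) (hok : OkS lo hi)
    (hX : FmD lo hi κ Q X) {n n' : ℕ} (hQ : (n : ℝ) - n' = Q) {k : Fin p → O3} {k' : Fin p' → O3}
    (hk : ∑ i, c3 (k i) ≤ n) (hk' : ∑ i, c3 (k' i) ≤ n') (ha : nA n k = a) (ha' : nA n' k' = a')
    {x : Fin p → ℝ} {x' : Fin p' → ℝ}
    (hx : LnOk lo hi k k' (xc α x x' : CF a p a' p' → ℝ)) :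
    termQ (X true) (X false) α n n' k k' x x' = cz n n' k k' *
      IA (gk k k') (hc (X true) (X false) k k') (xc α x x' : CF a p a' p' → ℝ) := by
  subst ha ha'
  have hn : ∑ i : CF (nA n k) p (nA n' k') p', sc (oc4 k k' i) = Q := by
    rw [← hQ]
    exact sum_sc_oc4 (sum_chg_kA n k hk) (sum_chg_kA n' k' hk')
  have hI := int_gk hκ hok hX hn hx
  rw [← termG_const, termG_eq]
  · simp only [one_mul]
    rfl
  · simp only [one_mul]
    exact hI

end kd

end NURow

end
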