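import Pool.Agent.NURow.PinB

/-!
# The move of one half quantum in front of `ZobjQ`: one word
-/

set_option autoImplicit false
set_option linter.unusedSectionVars false

noncomputable section

open Complex MeasureTheory
open scoped Classical

namespace NURow

open NUP1 NUP1S NUP1.Bd

/-- Data of the move of a half quantum of charge `cw` from the line `a₀` to the line `a`: the factor
at the strings of kind S of species Y has the pole `2 l`; `y` = the line of the pinned string. -/
structure PinD (α : ℝ) (lo hi : Option O3 → ℝ) (κ Q cw a₀ a y : ℝ) (X s : Sp) (K r : ℂ → ℂ) :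
    Prop where
  κ0 : 0 < κ
  lt : a₀ < a
  pi : a - a₀ < Real.pi
  loA : lo none ≤ α
  hiA : α ≤ hi none
  ok : OkS lo hi
  fam : FmD lo hi κ Q X
  mK : Measurable K
  ms : ∀ c k, Measurable (s c k)
  dK : DecOn (κ + 2 * Q * cw) (Set.Icc a₀ a) K
  cK : ContinuousOn K (CS a₀ a)
  aK : DifferentiableOn ℂ K (OS a₀ a)
  reg : ∀ c k, (c = true ∨ k ≠ some .S) →
    PB (2 * (cw * sc4 c k)) (Set.Icc (a₀ - hi k) (a - lo k)) (s c k)
  pol : ∀ z : ℂ, s false (some .S) z = r z / sin (z - ((2 * l : ℝ) : ℂ))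
  num : PB (2 * (cw * sc4 false (some .S)) + 1)
    (Set.Icc (a₀ - hi (some .S)) (a - lo (some .S))) r
  mem1 : a₀ < lo (some .S) + 2 * l
  mem2 : hi (some .S) + 2 * l < a
  pin : y ∈ Set.Icc (lo (some .S)) (hi (some .S))
  comp : ∀ c k, PB (2 * ((cw + sc4 false (some .S)) * sc4 c k))
    (Set.Icc (lo (some .S) - hi k) (hi (some .S) - lo k)) (sH false s c k)

variable {α : ℝ} {lo hi : Option O3 → ℝ} {κ Q cw a₀ a y : ℝ} {X s : Sp} {K r : ℂ → ℂ}

/-- the spectator factors on the two lines -/
theorem PinD.pb_line (D : PinD α lo hi κ Q cw a₀ a y X s K r) {b : ℝ} (hb : b = a₀ ∨ b = a)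
    (c : Bool) (k : Option O3) :
    PB (2 * (cw * sc4 c k)) (Set.Icc (b - hi k) (b - lo k)) (s c k) := by
  have hlt := D.lt
  have hsub : b ∈ Set.Icc a₀ a := by
    rcases hb with rfl | rfl
    · exact ⟨le_rfl, hlt.le⟩
    · exact ⟨hlt.le, le_rfl⟩
  by_cases hck : c = true ∨ k ≠ some .S
  · exact (D.reg c k hck).mono (Set.Icc_subset_Icc (by linarith [hsub.1]) (by linarith [hsub.2]))
  · push Not at hck
    obtain ⟨hc, rfl⟩ := hck
    have hc' : c = false := by simpa using hc
    subst hc'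
    have h1 := D.num.mono (K := Set.Icc (b - hi (some .S)) (b - lo (some .S)))
      (Set.Icc_subset_Icc (by linarith [hsub.1]) (by linarith [hsub.2]))
    have h2 : PB (-1) (Set.Icc (b - hi (some .S)) (b - lo (some .S)))
        fun z => (sin (z - ((2 * l : ℝ) : ℂ)))⁻¹ := by
      refine PB_inv_sinW isCompact_Icc (2 * l) fun d hd => ?_
      have h3 := D.mem1
      have h4 := D.mem2
      have h5 := D.pi
      have h6 := D.pin
      have h7 := h6.1.trans h6.2
      rcases hb with rfl | rfl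
      · refine sin_ne_real (by linarith [hd.1]) (by linarith [hd.2]) (ne_of_lt ?_)
        linarith [hd.2]
      · refine sin_ne_real (by linarith [hd.1]) (by linarith [hd.2]) (ne_of_gt ?_)
        linarith [hd.1]
    have h3 := PB.rateW (PB.mulW h1 h2) (s' := 2 * (cw * sc4 false (some .S))) (by ring)
    have e : (fun z => r z * (sin (z - ((2 * l : ℝ) : ℂ)))⁻¹) = s false (some .S) := by
      funext z
      rw [D.pol, div_eq_mul_inv]
    rwa [e] at h3

/-- the families with the half quantum on one of the two lines -/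
theorem PinD.fam_line (D : PinD α lo hi κ Q cw a₀ a y X s K r) {b : ℝ} (hb : b = a₀ ∨ b = a)
    (t : ℝ) : FmD lo hi κ (Q - cw) (X1 X s (vl b t)) :=
  D.fam.x1 D.ms _ fun c k => by
    rw [re_vl]
    exact D.pb_line hb c k

/-- the families with the pinned string -/
theorem PinD.fam_pin (D : PinD α lo hi κ Q cw a₀ a y X s K r) (t : ℝ) :
    FmD lo hi κ (Q - (cw + sc4 false (some .S))) (X1 X (sH false s) (vl y t)) :=
  D.fam.x1 (fun c k => (measurable_gz _ _).mul ((D.ms c k).comp (measurable_id.add_const _))) _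
    fun c k => (D.comp c k).mono (by
      rw [re_vl]
      exact Set.Icc_subset_Icc (by linarith [D.pin.1]) (by linarith [D.pin.2]))

section word

variable {A p A' p' : ℕ} {k : Fin p → O3} {k' : Fin p' → O3} {x : CF A p A' p' → ℝ}

/-- strings of kind S of species Y -/
def Sf (k : Fin p → O3) (k' : Fin p' → O3) : Finset (CF A p A' p') :=
  Finset.univ.filter fun i => kb i = false ∧ kk k k' i = some .S

theorem mem_Sf {i : CF A p A' p'} : i ∈ Sf k k' ↔ kb i = false ∧ kk k k' i = some .S := by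
  unfold Sf
  rw [Finset.mem_filter]
  exact ⟨fun h => h.2, fun h => ⟨Finset.mem_univ _, h⟩⟩

/-- spectator factors of a word -/
abbrev sk (s : Sp) (k : Fin p → O3) (k' : Fin p' → O3) (i : CF A p A' p') : ℂ → ℂ :=
  s (kb i) (kk k k' i)

/-- charges of a word with a half quantum -/
abbrev ck (cw : ℝ) (k : Fin p → O3) (k' : Fin p' → O3) : Option (CF A p A' p') → ℝ :=
  oc cw fun i => sc (oc4 k k' i)

/-- **The move of the half quantum for one word.** -/
theorem PinD.mv (D : PinD α lo hi κ Q cw a₀ a y X s K r)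
    (hn : cw + ∑ i : CF A p A' p', sc (oc4 k k' i) = Q) (hx : LnOk lo hi k k' x)
    (hinj : ∀ i ∈ Sf k k', ∀ j ∈ Sf k k', x i = x j → i = j) :
    Mv (gO (gk k k') (sk s k k')) (hO K (hc (X true) (X false) k k')) (ck cw k k') Q κ x a₀ a
      (Sf k k') (fun _ => 2 * l) (fun _ => r) := by
  have hsub : ∀ i, Set.Icc (a₀ - x i) (a - x i) ⊆
      Set.Icc (a₀ - hi (kk k k' i)) (a - lo (kk k k' i)) := fun i =>
    Set.Icc_subset_Icc (by linarith [(hx i).2]) (by linarith [(hx i).1])
  refine Mv.ofW hn (gk_symm k k') D.κ0 (measurable_gk k k') (fun i => D.ms _ _) (fun i => ?_) D.mK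
    D.lt D.pi (fun i => ?_) D.dK D.cK D.aK (fun i j _ => bdd_gk D.ok hx i j) (fun i hi => ?_)
    (fun i hi z _ _ => ?_) (fun i hi => ?_) (fun i hi => ?_) fun i hi j hj he => ?_
  · rw [hc_eq]
    exact D.fam.meas _ _
  · rw [hc_eq, oc4_eq]
    refine (D.fam.dec _ _).mono ?_
    intro u hu
    rw [Set.mem_singleton_iff] at hu
    rw [hu]
    exact hx i
  · rw [oc4_eq]
    refine (D.reg (kb i) (kk k k' i) ?_).mono (hsub i)
    rw [mem_Sf] at hi
    by_contra h
    push Not at h
    exact hi ⟨by simpa using h.1, h.2⟩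
  · obtain ⟨h1, h2⟩ := mem_Sf.1 hi
    simp only [sk, h1, h2]
    exact D.pol z
  · obtain ⟨h1, h2⟩ := mem_Sf.1 hi
    rw [oc4_eq, h1, h2]
    have := hsub i
    rw [h2] at this
    exact D.num.mono this
  · obtain ⟨h1, h2⟩ := mem_Sf.1 hi
    have := hx i
    rw [h2] at this
    exact ⟨by linarith [D.mem1, this.1], by linarith [D.mem2, this.2]⟩
  · exact hinj i hi j hj (by linarith)

theorem IA_X1 (X s : Sp) (w : ℂ) (x : CF A p A' p' → ℝ) (K : ℂ → ℂ) :
    IA (fun i j => gO (gk k k') (sk s k k') (some i) (some j))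
      (fun i u => hO K (hc (X true) (X false) k k') (some i) u *
        gO (gk k k') (sk s k k') none (some i) (w - u)) x =
    IA (gk k k') (hc (X1 X s w true) (X1 X s w false) k k') x := by
  have e : (fun (i : CF A p A' p') (u : ℂ) => hO K (hc (X true) (X false) k k') (some i) u *
        gO (gk k k') (sk s k k') none (some i) (w - u)) =
      hc (X1 X s w true) (X1 X s w false) k k' := by
    funext i u
    rw [hc_X1, hc_eq s]
    rfl
  rw [e]
  rfl

/-- the integral over the half quantum for one word -/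
theorem PinD.line (D : PinD α lo hi κ Q cw a₀ a y X s K r) {n n' : ℕ}
    (hQ : Q = cw + ((n : ℝ) - n')) (hk : ∑ i, c3 (k i) ≤ n) (hk' : ∑ i, c3 (k' i) ≤ n')
    (hA : nA n k = A) (hA' : nA n' k' = A') {x : Fin p → ℝ} {x' : Fin p' → ℝ}
    (hx : LnOk lo hi k k' (xc α x x' : CF A p A' p' → ℝ)) {b : ℝ} (hb : b = a₀ ∨ b = a)
    (hI : Integrable (fun t : Option (CF A p A' p') → ℝ => FA (gO (gk k k') (sk s k k'))
      (hO K (hc (X true) (X false) k k')) (pos (oc b (xc α x x')) t))
      (Measure.pi fun _ => volume)) :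
    (∫ t : ℝ, K (vl b t) * termQ (X1 X s (vl b t) true) (X1 X s (vl b t) false) α n n' k k' x x') =
      cz n n' k k' * IA (gO (gk k k') (sk s k k')) (hO K (hc (X true) (X false) k k'))
        (oc b (xc α x x' : CF A p A' p' → ℝ)) ∧
    Integrable (fun t : ℝ =>
      K (vl b t) * termQ (X1 X s (vl b t) true) (X1 X s (vl b t) false) α n n' k k' x x')
      volume := by
  have sym := gO_symm (gk_symm k k') (sk s k k' : CF A p A' p' → ℂ → ℂ)
  have h1 := sepA sym (hO K (hc (X true) (X false) k k')) b (xc α x x') hI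
  have h2 := integrable_sepA sym (hO K (hc (X true) (X false) k k')) b (xc α x x') hI
  simp only [IA_X1] at h1 h2
  have e : ∀ t : ℝ, termQ (X1 X s (vl b t) true) (X1 X s (vl b t) false) α n n' k k' x x' =
      cz n n' k k' * IA (gk k k') (hc (X1 X s (vl b t) true) (X1 X s (vl b t) false) k k')
        (xc α x x' : CF A p A' p' → ℝ) := fun t =>
    termQ_IA D.κ0 D.ok (D.fam_line hb t) (by rw [hQ]; ring) hk hk' hA hA' hx
  constructor
  · rw [h1, ← integral_const_mul]
    refine integral_congr_ae (Filter.Eventually.of_forall fun t => ?_)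
    simp only [e]
    unfold hO
    ring
  · refine (h2.const_mul (cz n n' k k')).congr (Filter.Eventually.of_forall fun t => ?_)
    simp only [e]
    unfold hO
    ring

/-- **One word**: the difference of the two lines. -/
theorem PinD.word (D : PinD α lo hi κ Q cw a₀ a y X s K r) {n n' : ℕ}
    (hQ : Q = cw + ((n : ℝ) - n')) (hk : ∑ i, c3 (k i) ≤ n) (hk' : ∑ i, c3 (k' i) ≤ n')
    (hA : nA n k = A) (hA' : nA n' k' = A') {x : Fin p → ℝ} {x' : Fin p' → ℝ}
    (hx : LnOk lo hi k k' (xc α x x' : CF A p A' p' → ℝ))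
    (hinj : ∀ i j, k' i = .S → k' j = .S → x' i = x' j → i = j) :
    (∫ t : ℝ, K (vl a t) * termQ (X1 X s (vl a t) true) (X1 X s (vl a t) false) α n n' k k' x x') -
      (∫ t : ℝ,
        K (vl a₀ t) * termQ (X1 X s (vl a₀ t) true) (X1 X s (vl a₀ t) false) α n n' k k' x x') =
      2 * Real.pi * ∑ i ∈ Sf k k', cz n n' k k' *
        IA (gR (gO (gk k k') (sk s k k')) i (2 * l))
          (hR (hO K (hc (X true) (X false) k k')) i (2 * l) (r ((2 * l : ℝ) : ℂ)))
          (xc α x x' : CF A p A' p' → ℝ) ∧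
    Integrable (fun t : ℝ =>
      K (vl a t) * termQ (X1 X s (vl a t) true) (X1 X s (vl a t) false) α n n' k k' x x')
      volume ∧
    Integrable (fun t : ℝ =>
      K (vl a₀ t) * termQ (X1 X s (vl a₀ t) true) (X1 X s (vl a₀ t) false) α n n' k k' x x')
      volume := by
  have hn : cw + ∑ i : CF A p A' p', sc (oc4 k k' i) = Q := by
    subst hA hA'
    rw [sum_sc_oc4 (sum_chg_kA n k hk) (sum_chg_kA n' k' hk'), hQ]
  have hinj' : ∀ i ∈ Sf k k', ∀ j ∈ Sf k k', (xc α x x' : CF A p A' p' → ℝ) i = xc α x x' j →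
      i = j := by
    intro i hi j hj he
    obtain ⟨h1, h2⟩ := mem_Sf.1 hi
    obtain ⟨h3, h4⟩ := mem_Sf.1 hj
    rcases i with i | (i | i)
    · exact absurd h1 (by simp [kb])
    · exact absurd h2 (by simp [kk, kA])
    rcases j with j | (j | j)
    · exact absurd h3 (by simp [kb])
    · exact absurd h4 (by simp [kk, kA])
    have h5 : k' i = .S := by simpa [kk, kA] using h2
    have h6 : k' j = .S := by simpa [kk, kA] using h4
    rw [hinj i j h5 h6 he]
  have m := D.mv hn hx hinj'
  have l1 := D.line hQ hk hk' hA hA' hx (Or.inr rfl) m.integrable_right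
  have l2 := D.line hQ hk hk' hA hA' hx (Or.inl rfl) m.integrable_left
  refine ⟨?_, l1.2, l2.2⟩
  rw [l1.1, l2.1, ← mul_sub, m.move, ← Finset.mul_sum]
  ring

end word

end NURow

end
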