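import Pool.Agent.NURow.PinXY

/-!
# Strips and lines of the final stage

E `3 l / 5`, L `- 5 l / 4`, S in `[- 11 l / 8, - 5 l / 4]`, T `- l / 2`.
-/

set_option autoImplicit false
set_option linter.unusedSectionVars false

noncomputable section

open Complex MeasureTheory
open scoped Classical

namespace NURow

open NUP1 NUP1S NUP1.Bd

/-- left ends of the strips of the final stage -/
def loP : Option O3 → ℝ
  | none => 3 / 5 * l
  | some .L => -(5 / 4) * l
  | some .S => -(11 / 8) * l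
  | some .T => -(1 / 2) * l

/-- right ends of the strips of the final stage -/
def hiP : Option O3 → ℝ
  | none => 3 / 5 * l
  | some .L => -(5 / 4) * l
  | some .S => -(5 / 4) * l
  | some .T => -(1 / 2) * l

theorem stripsP : StripsQ (3 / 5 * l) (-(5 / 4) * l) (-(5 / 4) * l) (-(11 / 8) * l)
    (-(5 / 4) * l) (-(1 / 2) * l) (-(1 / 2) * l) (-(11 / 8) * l) (-(1 / 2) * l) := by
  have hl := Bd.l_pos
  constructor <;> linarith

theorem lo4_P (k : Option O3) :
    lo4 (3 / 5 * l) (-(5 / 4) * l) (-(11 / 8) * l) (-(1 / 2) * l) k = loP k := by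
  rcases k with _ | (_ | _ | _) <;> rfl

theorem hi4_P (k : Option O3) :
    lo4 (3 / 5 * l) (-(5 / 4) * l) (-(5 / 4) * l) (-(1 / 2) * l) k = hiP k := by
  rcases k with _ | (_ | _ | _) <;> rfl

theorem okS_P : OkS loP hiP := by
  intro c c' k k' u hu v hv
  have := RO_stripsQ stripsP c c' k k' (u := u) (v := v) (by rwa [lo4_P, hi4_P])
    (by rwa [lo4_P, hi4_P])
  exact Ok_of_RO this

theorem mem_P {u : ℝ} {k : Option O3} (h : u ∈ Set.Icc (loP k) (hiP k)) :
    -(11 / 8) * l ≤ u ∧ u ≤ 3 / 5 * l := by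
  have hl := Bd.l_pos
  obtain ⟨h1, h2⟩ := h
  rcases k with _ | (_ | _ | _) <;> simp only [loP, hiP] at h1 h2 <;> constructor <;> linarith

/-- conditions on the parameters of the lines -/
structure ParP (P : NUO.Par) : Prop where
  jL : P.jL = 9 / 4
  e1 : 1 / 4 ≤ P.e
  d0 : ∀ r, 0 < P.d r
  e2 : ∀ r, P.e + P.d r ≤ 3 / 8

theorem lnO_P {P : NUO.Par} (h : ParP P) {r i : ℕ} (hi : i < r) (k : O3) :
    lnO P r i k ∈ Set.Icc (loP (some k)) (hiP (some k)) := by
  have hl := Bd.l_pos
  cases k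
  · show (1 - P.jL) * l ∈ Set.Icc (-(5 / 4) * l) (-(5 / 4) * l)
    rw [h.jL]
    constructor <;> linarith
  · have hr : (0 : ℝ) < r := by exact_mod_cast (Nat.zero_le i).trans_lt hi
    have h1 : (i : ℝ) / r ≤ 1 := (div_le_one hr).2 (by exact_mod_cast hi.le)
    have h2 : 0 ≤ (i : ℝ) / r := by positivity
    have h3 := h.d0 r
    have h4 := h.e1
    have h5 := h.e2 r
    have h6 := mul_nonneg h3.le h2
    have h7 := mul_le_mul_of_nonneg_left h1 h3.le
    show -((1 + (P.e + P.d r * ((i : ℝ) / r))) * l) ∈ Set.Icc (-(11 / 8) * l) (-(5 / 4) * l)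
    constructor
    · nlinarith
    · nlinarith
  · show -(1 / 2 * l) ∈ Set.Icc (-(1 / 2) * l) (-(1 / 2) * l)
    constructor <;> linarith

theorem lnO_inj {P : NUO.Par} (h : ParP P) {r i j : ℕ} (hi : i < r)
    (he : lnO P r i .S = lnO P r j .S) : i = j := by
  have hl := Bd.l_pos
  have hr : (0 : ℝ) < r := by exact_mod_cast (Nat.zero_le i).trans_lt hi
  have h3 := h.d0 r
  have e1 : -((1 + (P.e + P.d r * ((i : ℝ) / r))) * l) =
      -((1 + (P.e + P.d r * ((j : ℝ) / r))) * l) := he
  have e2 : (1 + (P.e + P.d r * ((i : ℝ) / r))) = (1 + (P.e + P.d r * ((j : ℝ) / r))) :=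
    mul_right_cancel₀ hl.ne' (neg_injective e1)
  have e3 : (i : ℝ) / r = (j : ℝ) / r := mul_left_cancel₀ h3.ne' (by linarith)
  have e4 : (i : ℝ) = j := by
    rw [div_eq_div_iff hr.ne' hr.ne'] at e3
    exact mul_right_cancel₀ hr.ne' e3
  exact_mod_cast e4

/-- **The lines of `NUO.Par` are admissible.** -/
theorem lnA_P {P : NUO.Par} (h : ParP P) : LnA loP hiP (lX P) (lY P) where
  hX p p' k k' i := lnO_P h (i.2.trans_le (Nat.le_add_right _ _)) (k i)
  hY p p' k k' i := lnO_P h (i.2.trans_le (Nat.le_add_left _ _)) (k' i)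
  inj p p' k k' i j hi hj he := by
    have e1 : lnO P (p + p') i .S = lnO P (p + p') j .S := by
      have e2 : lY P p p' k k' i = lnO P (p + p') i (k' i) := rfl
      have e3 : lY P p p' k k' j = lnO P (p + p') j (k' j) := rfl
      rw [hi] at e2
      rw [hj] at e3
      rw [← e2, ← e3, he]
    exact Fin.ext (lnO_inj h (i.2.trans_le (Nat.le_add_left _ _)) e1)

theorem swL_P (P : NUO.Par) : swL (lX P) = lY P := by
  funext p p' k k' i
  unfold swL lX lY
  rw [add_comm]

theorem swL'_P (P : NUO.Par) : swL' (lY P) = lX P := by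
  funext p p' k k' i
  unfold swL' lX lY
  rw [add_comm]

/-- **The same with the species exchanged.** -/
theorem lnA_P' {P : NUO.Par} (h : ParP P) : LnA loP hiP (swL' (lY P)) (swL (lX P)) := by
  rw [swL_P, swL'_P]
  exact lnA_P h

end NURow

end
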