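import Pool.Agent.NURow.PinW
import Pool.Agent.NURow.Cls
import Pool.Agent.NURow.Fub

/-!
# The move of the line of `w` in a class

`CD.moveX`: a class with `w` on its start line = the class with `w` on its final line + the class in
which `w` is bound to a string of species Y.
-/

set_option autoImplicit false
set_option linter.unusedSectionVars false

noncomputable section

open Complex MeasureTheory
open scoped Classical

namespace NURow

open NUP1 NUP1S NUP1.Bd

/-- both species -/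
def XB (X Y : Option O3 → ℂ → ℂ) : Sp := fun c => cond c X Y

theorem XS_X1t (X Y : Option O3 → ℂ → ℂ) (S S' : Sp) (w w' : ℂ) :
    XS true X S S' w w' = X1 (X1 (XB X Y) S' w') S w true := by
  funext k z
  show X k z * (S true k (w - z) * S' true k (w' - z)) =
    X k z * S' true k (w' - z) * S true k (w - z)
  ring

theorem XS_X1f (X Y : Option O3 → ℂ → ℂ) (S S' : Sp) (w w' : ℂ) :
    XS false Y S S' w w' = X1 (X1 (XB X Y) S' w') S w false := by
  funext k z
  show Y k z * (S false k (w - z) * S' false k (w' - z)) =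
    Y k z * S' false k (w' - z) * S false k (w - z)
  ring

/-- the half quantum which is moved, total charge 0: charge `cw`, spectators `S`, kernel `K`,
`S false (some .S)` has the pole `2 l` -/
structure MvH (lo hi : Option O3 → ℝ) (κ cw a₀ a y : ℝ) (S : Sp) (K r : ℂ → ℂ) : Prop where
  lt : a₀ < a
  pi : a - a₀ < Real.pi
  mK : Measurable K
  ms : ∀ c k, Measurable (S c k)
  dK : DecOn κ (Set.Icc a₀ a) K
  cK : ContinuousOn K (CS a₀ a)
  aK : DifferentiableOn ℂ K (OS a₀ a)
  reg : ∀ c k, (c = true ∨ k ≠ some .S) →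
    PB (2 * (cw * sc4 c k)) (Set.Icc (a₀ - hi k) (a - lo k)) (S c k)
  pol : ∀ z : ℂ, S false (some .S) z = r z / sin (z - ((2 * l : ℝ) : ℂ))
  num : PB (2 * (cw * sc4 false (some .S)) + 1)
    (Set.Icc (a₀ - hi (some .S)) (a - lo (some .S))) r
  mem1 : a₀ < lo (some .S) + 2 * l
  mem2 : hi (some .S) + 2 * l < a
  pin : y ∈ Set.Icc (lo (some .S)) (hi (some .S))
  comp : ∀ c k, PB (2 * ((cw + sc4 false (some .S)) * sc4 c k))
    (Set.Icc (lo (some .S) - hi k) (hi (some .S) - lo k)) (sH false S c k)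

/-- a half quantum on the line `b` -/
structure FxH (lo hi : Option O3 → ℝ) (κ cw b : ℝ) (S : Sp) (K : ℂ → ℂ) : Prop where
  ms : ∀ c k, Measurable (S c k)
  pb : ∀ c k, PB (2 * (cw * sc4 c k)) (Set.Icc (b - hi k) (b - lo k)) (S c k)
  mK : Measurable K
  dK : DecOn κ {b} K

variable {lo hi : Option O3 → ℝ} {κ cw cw' a₀ a y b α : ℝ} {S S' : Sp} {K K' r gw : ℂ → ℂ}
  {X Y : Option O3 → ℂ → ℂ}

/-- the other side of `DecOn.one` -/
theorem DecOn.one' {κ s : ℝ} {K K' : Set ℝ} {h g : ℂ → ℂ} (hh : DecOn κ K h) (hg : Bdd K' s g)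
    (w : ℂ) (hK : ∀ x ∈ K, x - w.re ∈ K') : DecOn (κ - s) K fun z => h z * g (z - w) := by
  have h2 : Bdd ((fun x => -x) '' K') s fun z => g (-z) := by
    refine Bdd.neg' (Bdd.mono' hg ?_)
    rintro _ ⟨_, ⟨x, hx, rfl⟩, rfl⟩
    simpa using hx
  have h3 := DecOn.one hh h2 w fun x hx => ⟨x - w.re, hK x hx, by ring⟩
  have e : (fun z => h z * g (-(w - z))) = fun z => h z * g (z - w) := by
    funext z
    rw [neg_sub]
  rwa [e] at h3

/-- the data of a move at a fixed second half quantum -/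
theorem MvH.pinD (hκ : 0 < κ) (hok : OkS lo hi) (hlo : lo none ≤ α) (hhi : α ≤ hi none)
    (hF : FmD lo hi κ 0 (XB X Y)) (m : MvH lo hi κ cw a₀ a y S K r)
    (v : FxH lo hi κ cw' b S' K') (hgm : Measurable gw)
    (hg : PB (2 * (cw * cw')) (Set.Icc (a₀ - b) (a - b)) gw) (t' : ℝ) :
    PinD α lo hi κ (0 - cw') cw a₀ a y (X1 (XB X Y) S' (vl b t')) S
      (fun w => K w * (K' (vl b t') * gw (w - vl b t'))) r where
  κ0 := hκ
  lt := m.lt
  pi := m.pi
  loA := hlo
  hiA := hhi
  ok := hok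
  fam := hF.x1 v.ms _ fun c k => by
    rw [re_vl]
    exact v.pb c k
  mK := m.mK.mul (measurable_const.mul (hgm.comp (measurable_id.sub_const _)))
  ms := m.ms
  dK := by
    have h1 := DecOn.one' m.dK hg.1 (vl b t') fun x hx => by
      rw [re_vl]
      exact ⟨by linarith [hx.1], by linarith [hx.2]⟩
    obtain ⟨D, hD⟩ := h1
    refine ⟨D * ‖K' (vl b t')‖, fun z hz => ?_⟩
    have h2 := hD z hz
    rw [norm_mul] at h2
    rw [norm_mul, norm_mul]
    calc ‖K z‖ * (‖K' (vl b t')‖ * ‖gw (z - vl b t')‖)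
        = (‖K z‖ * ‖gw (z - vl b t')‖) * ‖K' (vl b t')‖ := by ring
      _ ≤ _ := mul_le_mul_of_nonneg_right h2 (norm_nonneg _)
      _ = _ := by
        rw [show κ + 2 * (0 - cw') * cw = κ - 2 * (cw * cw') by ring]
        ring
  cK := by
    refine m.cK.mul (continuousOn_const.mul fun u hu => ?_)
    have h1 := hg.2 (u - vl b t') (by
      rw [sub_re, re_vl]
      exact ⟨by linarith [hu.1], by linarith [hu.2]⟩)
    exact (DifferentiableAt.comp u h1
      (differentiableAt_id.sub_const _)).continuousAt.continuousWithinAt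
  aK := by
    refine m.aK.mul ((differentiableOn_const _).mul fun u hu => ?_)
    have h1 := hg.2 (u - vl b t') (by
      rw [sub_re, re_vl]
      exact ⟨by linarith [hu.1], by linarith [hu.2]⟩)
    exact (DifferentiableAt.comp u h1 (differentiableAt_id.sub_const _)).differentiableWithinAt
  reg := m.reg
  pol := m.pol
  num := m.num
  mem1 := m.mem1
  mem2 := m.mem2
  pin := m.pin
  comp := m.comp

theorem FmD.toX (hF : FmD lo hi κ 0 (XB X Y)) :
    FamL true (fun k => Set.Icc (lo k) (hi k)) κ 0 X ∧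
      FamL false (fun k => Set.Icc (lo k) (hi k)) κ 0 Y :=
  ⟨⟨fun k => hF.meas true k, fun k => hF.dec true k⟩,
    ⟨fun k => hF.meas false k, fun k => hF.dec false k⟩⟩

theorem FxH.toH (v : FxH lo hi κ cw b S K) :
    HLn (fun k => Set.Icc (lo k) (hi k)) κ 0 cw b S K where
  ms := v.ms
  bd c k x hx := by
    refine Bdd.mono' (v.pb c k).1 ?_
    intro d hd
    rw [Set.mem_singleton_iff] at hd
    rw [hd]
    exact ⟨by linarith [hx.2], by linarith [hx.1]⟩
  km := v.mK
  kd := by
    rw [show κ + 2 * 0 * cw = κ by ring]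
    exact v.dK

/-- the moved half quantum on one of its two lines -/
theorem MvH.fx (m : MvH lo hi κ cw a₀ a y S K r) {b : ℝ} (hb : b = a₀ ∨ b = a) :
    FxH lo hi κ cw b S K where
  ms := m.ms
  pb c k := by
    have hlt := m.lt
    have hsub : b ∈ Set.Icc a₀ a := by
      rcases hb with rfl | rfl
      · exact ⟨le_rfl, hlt.le⟩
      · exact ⟨hlt.le, le_rfl⟩
    by_cases hck : c = true ∨ k ≠ some .S
    · exact (m.reg c k hck).mono (Set.Icc_subset_Icc (by linarith [hsub.1]) (by linarith [hsub.2]))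
    · push Not at hck
      obtain ⟨hc, rfl⟩ := hck
      have hc' : c = false := by simpa using hc
      subst hc'
      have h1 := m.num.mono (K := Set.Icc (b - hi (some .S)) (b - lo (some .S)))
        (Set.Icc_subset_Icc (by linarith [hsub.1]) (by linarith [hsub.2]))
      have h2 : PB (-1) (Set.Icc (b - hi (some .S)) (b - lo (some .S)))
          fun z => (sin (z - ((2 * l : ℝ) : ℂ)))⁻¹ := by
        refine PB_inv_sinW isCompact_Icc (2 * l) fun d hd => ?_
        have h3 := m.mem1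
        have h4 := m.mem2
        have h5 := m.pi
        have h6 := m.pin
        have h7 := h6.1.trans h6.2
        rcases hb with rfl | rfl
        · refine sin_ne_real (by linarith [hd.1]) (by linarith [hd.2]) (ne_of_lt ?_)
          linarith [hd.2]
        · refine sin_ne_real (by linarith [hd.1]) (by linarith [hd.2]) (ne_of_gt ?_)
          linarith [hd.1]
      have h3 := PB.rateW (PB.mulW h1 h2) (s' := 2 * (cw * sc4 false (some .S))) (by ring)
      have e : (fun z => r z * (sin (z - ((2 * l : ℝ) : ℂ)))⁻¹) = S false (some .S) := by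
        funext z
        rw [m.pol, div_eq_mul_inv]
      rwa [e] at h3
  mK := m.mK
  dK := m.dK.mono (Set.singleton_subset_iff.2 (by
    rcases hb with rfl | rfl
    · exact ⟨le_rfl, m.lt.le⟩
    · exact ⟨m.lt.le, le_rfl⟩))

theorem DecOn.mulD {κ κ' : ℝ} {K : Set ℝ} {h g : ℂ → ℂ} (hh : DecOn κ K h) (hg : DecOn κ' K g) :
    DecOn (κ + κ') K fun z => h z * g z := by
  obtain ⟨D, hD⟩ := hh
  obtain ⟨C, hC⟩ := hg
  refine ⟨|D| * |C|, fun z hz => ?_⟩
  have e1 : ‖h z‖ ≤ |D| * Real.exp (-(κ * |z.im|)) :=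
    (hD z hz).trans (mul_le_mul_of_nonneg_right (le_abs_self _) (Real.exp_pos _).le)
  have e2 : ‖g z‖ ≤ |C| * Real.exp (-(κ' * |z.im|)) :=
    (hC z hz).trans (mul_le_mul_of_nonneg_right (le_abs_self _) (Real.exp_pos _).le)
  rw [norm_mul]
  calc _ ≤ (|D| * Real.exp (-(κ * |z.im|))) * (|C| * Real.exp (-(κ' * |z.im|))) :=
        mul_le_mul e1 e2 (norm_nonneg _) (by positivity)
    _ = |D| * |C| * (Real.exp (-(κ * |z.im|)) * Real.exp (-(κ' * |z.im|))) := by ring
    _ = _ := by
        rw [← Real.exp_add]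
        congr 2
        ring

theorem DecOn.monoR {κ κ' : ℝ} {K : Set ℝ} {h : ℂ → ℂ} (hh : DecOn κ K h) (hκ : κ' ≤ κ) :
    DecOn κ' K h := by
  obtain ⟨D, hD⟩ := hh
  refine ⟨|D|, fun z hz => (hD z hz).trans ?_⟩
  refine mul_le_mul (le_abs_self _) (Real.exp_le_exp.2 ?_) (Real.exp_pos _).le (abs_nonneg _)
  have := mul_le_mul_of_nonneg_right hκ (abs_nonneg z.im)
  linarith

theorem DecOn.constMul {κ : ℝ} {K : Set ℝ} {h : ℂ → ℂ} (c : ℂ) (hh : DecOn κ K h) :
    DecOn κ K fun z => c * h z := by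
  obtain ⟨D, hD⟩ := hh
  refine ⟨‖c‖ * D, fun z hz => ?_⟩
  rw [norm_mul, mul_assoc]
  exact mul_le_mul_of_nonneg_left (hD z hz) (norm_nonneg _)

theorem DecOn.shiftL {κ : ℝ} {K : Set ℝ} {h : ℂ → ℂ} (q : ℝ) (hh : DecOn κ K h) :
    DecOn κ ((fun x => x + q) '' K) fun z => h (z - (q : ℂ)) := by
  obtain ⟨D, hD⟩ := hh
  refine ⟨D, fun z hz => ?_⟩
  obtain ⟨x, hx, hxz⟩ := hz
  have := hD (z - (q : ℂ)) (by
    rw [sub_re, ofReal_re, ← hxz]
    simpa using hx)
  rwa [sub_im, ofReal_im, sub_zero] at this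

/-- **the half quantum bound to its host** -/
theorem MvH.host (hκ : 0 < κ) (hF : FmD lo hi κ 0 (XB X Y)) (m : MvH lo hi κ cw a₀ a y S K r)
    (C : ℂ) : FxH lo hi κ (cw + sc4 false (some .S)) (y + 2 * l) (hostS false S)
      (fun w => C * Y (some .S) (w - 2 * l) * K w) where
  ms c k := by
    unfold hostS
    exact ((measurable_gz _ _).comp (measurable_id.sub_const _)).mul (m.ms c k)
  pb c k := by
    have h1 := (m.comp c k).mono (K := Set.Icc (y - hi k) (y - lo k))
      (Set.Icc_subset_Icc (by linarith [m.pin.1]) (by linarith [m.pin.2]))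
    have h2 : PB (2 * ((cw + sc4 false (some .S)) * sc4 c k))
        (Set.Icc (y + 2 * l - hi k) (y + 2 * l - lo k))
        fun z => sH false S c k (z + ((-(2 * l) : ℝ) : ℂ)) := by
      refine PB.shiftW (-(2 * l)) (h1.mono ?_)
      rintro _ ⟨x, hx, rfl⟩
      exact ⟨by simp only []; linarith [hx.1], by simp only []; linarith [hx.2]⟩
    have e : (fun z => sH false S c k (z + ((-(2 * l) : ℝ) : ℂ))) = hostS false S c k := by
      funext z
      unfold sH hostS
      push_cast
      rw [show z + -(2 * (l : ℂ)) + 2 * l = z by ring, ← sub_eq_add_neg]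
    rwa [e] at h2
  mK := by
    have h1 := hF.meas false (some .S)
    exact (measurable_const.mul (h1.comp (measurable_id.sub_const _))).mul m.mK
  dK := by
    have h0 : y + 2 * l ∈ Set.Icc a₀ a :=
      ⟨by linarith [m.mem1, m.pin.1], by linarith [m.mem2, m.pin.2]⟩
    have h1 := (m.dK.mono (Set.singleton_subset_iff.2 h0))
    have h2 := hF.dec false (some .S)
    rw [show κ + 2 * 0 * sc4 false (some .S) = κ by ring] at h2
    have h3 : DecOn κ {y + 2 * l}
        fun z => XB X Y false (some .S) (z - ((2 * l : ℝ) : ℂ)) :=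
      (DecOn.shiftL (2 * l) h2).mono (Set.singleton_subset_iff.2 ⟨y, m.pin, rfl⟩)
    have h4 := DecOn.mulD (DecOn.constMul C h3) h1
    refine DecOn.monoR (κ := κ + κ) ?_ (by linarith)
    obtain ⟨D, hD⟩ := h4
    refine ⟨D, fun z hz => ?_⟩
    have := hD z hz
    push_cast at this
    exact this

/-! ## the move in a class -/

theorem vl_pin (t : ℝ) : vl (-(11 / 8) * l) t + ((2 * l : ℝ) : ℂ) = vl (5 / 8 * l) t := by
  unfold vl
  push_cast
  ring

theorem pinned_line : -(11 / 8) * l + 2 * l = 5 / 8 * l := by ring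

/-- the pinned class from the integrand of `PinD.move` -/
theorem pinI_JJ (S S' : Sp) (K K' gw : ℂ → ℂ) (n n' : ℕ)
    (lnX : ∀ p p' : ℕ, (Fin p → O3) → (Fin p' → O3) → Fin p → ℝ)
    (lnY : ∀ p p' : ℕ, (Fin p → O3) → (Fin p' → O3) → Fin p' → ℝ) (b t t' : ℝ) :
    2 * Real.pi * pinI α (-(11 / 8) * l) (X1 (XB X Y) S' (vl b t')) S
      (fun w => K w * (K' (vl b t') * gw (w - vl b t'))) rD n n' lnX lnY t =
    -JJ X Y (hostS false S) S' (fun x => gw x * S' false (some .S) (2 * l - x))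
      (fun w => -(2 * Real.pi * rD (2 * l) * wt .S * Y (some .S) (w - 2 * l)) * K w) K' α n n'
      lnX lnY (5 / 8 * l) b (t, t') := by
  set z0 : ℂ := vl (-(11 / 8) * l) t with hz0
  set w' : ℂ := vl b t' with hw'
  have hw : vl (5 / 8 * l) t = z0 + ((2 * l : ℝ) : ℂ) := (vl_pin t).symm
  have eX : XS true X (hostS false S) S' (z0 + ((2 * l : ℝ) : ℂ)) w' =
      X1 (X1 (XB X Y) S' w') (sH false S) z0 true := by
    rw [XS_X1t X Y]
    funext k z
    unfold X1 hostS sH
    congr 1
    congr 1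
    · congr 1
      push_cast
      ring
    · congr 1
      push_cast
      ring
  have eY : XS false Y (hostS false S) S' (z0 + ((2 * l : ℝ) : ℂ)) w' =
      X1 (X1 (XB X Y) S' w') (sH false S) z0 false := by
    rw [XS_X1f X Y]
    funext k z
    unfold X1 hostS sH
    congr 1
    congr 1
    · congr 1
      push_cast
      ring
    · congr 1
      push_cast
      ring
  unfold pinI JJ Pre
  simp only []
  rw [hw, eX, eY, ← hz0]
  have e1 : z0 + ((2 * l : ℝ) : ℂ) - 2 * l = z0 := by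
    push_cast
    ring
  have e2 : (2 * l : ℂ) - (z0 + ((2 * l : ℝ) : ℂ) - w') = w' - z0 := by
    push_cast
    ring
  rw [e1, e2]
  have e3 : X1 (XB X Y) S' w' false (some .S) z0 = Y (some .S) z0 * S' false (some .S) (w' - z0) :=
    rfl
  have e4 : rD ((2 * l : ℝ) : ℂ) = rD (2 * l) := by
    push_cast
    rfl
  rw [e3, e4]
  ring

/-- **The line of `w` is moved: the class with `w` on its final line and the class in which `w` is
bound to a string of species Y.** -/
theorem CD.moveX (hκ : 0 < κ) (hok : OkS lo hi) (hlo : lo none ≤ α) (hhi : α ≤ hi none)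
    (hF : FmD lo hi κ 0 (XB X Y)) {c : CD} (ha : c.a = 31 / 50 * l)
    (m : MvH lo hi κ cw (31 / 50 * l) (5 / 4 * l) (-(11 / 8) * l) c.S c.K rD)
    (v : FxH lo hi κ cw' c.b c.S' c.K') (hgm : Measurable c.gw)
    (hg : PB (2 * (cw * cw')) (Set.Icc (31 / 50 * l - c.b) (5 / 4 * l - c.b)) c.gw) {n n' : ℕ}
    (hQ : c.dX ≤ n → c.dY ≤ n' →
      cw + cw' + (((n - c.dX : ℕ) : ℝ) - ((n' - c.dY : ℕ) : ℝ)) = 0)
    {lnX : ∀ p p' : ℕ, (Fin p → O3) → (Fin p' → O3) → Fin p → ℝ}
    {lnY : ∀ p p' : ℕ, (Fin p → O3) → (Fin p' → O3) → Fin p' → ℝ} (hl : LnA lo hi lnX lnY) :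
    c.val X Y α n n' lnX lnY =
      c.mX.val X Y α n n' lnX lnY + (c.hX Y).val X Y α n n' lnX lnY := by
  rw [CD.val_JJ, CD.val_JJ, CD.val_JJ]
  by_cases h : c.dX ≤ n ∧ c.dY ≤ n'
  swap
  · have h1 : ¬ (c.mX.dX ≤ n ∧ c.mX.dY ≤ n') := h
    have h2 : ¬ ((c.hX Y).dX ≤ n ∧ (c.hX Y).dY ≤ n') := fun h3 =>
      h ⟨h3.1, (Nat.le_add_right _ 2).trans h3.2⟩
    rw [if_neg h, if_neg h1, if_neg h2, add_zero]
  have h1 : c.mX.dX ≤ n ∧ c.mX.dY ≤ n' := h
  rw [if_pos h, if_pos h1]
  have hQ' := hQ h.1 h.2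
  -- integrability
  have hL : LOk fun k => Set.Icc (lo k) (hi k) := hok
  obtain ⟨fX, fY⟩ := hF.toX
  have hα : α ∈ Set.Icc (lo none) (hi none) := ⟨hlo, hhi⟩
  have hl31 : (31 / 50 * l : ℝ) ∈ Set.Icc (31 / 50 * l) (5 / 4 * l) := ⟨le_rfl, m.lt.le⟩
  have hl54 : (5 / 4 * l : ℝ) ∈ Set.Icc (31 / 50 * l) (5 / 4 * l) := ⟨m.lt.le, le_rfl⟩
  have hgb : ∀ u : ℝ, u ∈ Set.Icc (31 / 50 * l) (5 / 4 * l) →
      Bdd {u - c.b} (2 * (cw * cw')) c.gw := fun u hu => Bdd.mono' hg.1 (by
    intro d hd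
    rw [Set.mem_singleton_iff] at hd
    rw [hd]
    exact ⟨by linarith [hu.1], by linarith [hu.2]⟩)
  have i0 : Integrable (JJ X Y c.S c.S' c.gw c.K c.K' α (n - c.dX) (n' - c.dY) lnX lnY
      (31 / 50 * l) c.b) (volume.prod volume) :=
    integrable_JJ hL hκ hQ' fX fY (m.fx (Or.inl rfl)).toH v.toH hgm (hgb _ hl31) hα
      (fun p p' k k' i => hl.hX p p' k k' i) (fun p p' k k' i => hl.hY p p' k k' i)
  have i1 : Integrable (JJ X Y c.S c.S' c.gw c.K c.K' α (n - c.dX) (n' - c.dY) lnX lnY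
      (5 / 4 * l) c.b) (volume.prod volume) :=
    integrable_JJ hL hκ hQ' fX fY (m.fx (Or.inr rfl)).toH v.toH hgm (hgb _ hl54) hα
      (fun p p' k k' i => hl.hX p p' k k' i) (fun p p' k k' i => hl.hY p p' k k' i)
  -- the move at fixed `w'`
  have mv := fun t' : ℝ => (MvH.pinD hκ hok hlo hhi hF m v hgm hg t').move
    (n := n - c.dX) (n' := n' - c.dY) (by linarith) hl
  have eJ : ∀ (u t' : ℝ), (∫ t : ℝ, JJ X Y c.S c.S' c.gw c.K c.K' α (n - c.dX) (n' - c.dY) lnX lnY
      u c.b (t, t')) = ∫ t : ℝ, (fun w => c.K w * (c.K' (vl c.b t') * c.gw (w - vl c.b t')))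
        (vl u t) * ZobjQ (X1 (X1 (XB X Y) c.S' (vl c.b t')) c.S (vl u t) true)
          (X1 (X1 (XB X Y) c.S' (vl c.b t')) c.S (vl u t) false) α (n - c.dX) (n' - c.dY)
          lnX lnY := by
    intro u t'
    refine integral_congr_ae (Filter.Eventually.of_forall fun t => ?_)
    simp only [JJ, Pre]
    rw [XS_X1t X Y, XS_X1f X Y]
    ring
  have f0 := fub2 i0
  have f1 := fub2 i1
  rw [ha]
  show (∫ y, JJ X Y c.S c.S' c.gw c.K c.K' α (n - c.dX) (n' - c.dY) lnX lnY (31 / 50 * l) c.b y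
      ∂(volume.prod volume)) = (∫ y, JJ X Y c.S c.S' c.gw c.K c.K' α (n - c.dX) (n' - c.dY)
      lnX lnY (5 / 4 * l) c.b y ∂(volume.prod volume)) + _
  by_cases h2 : 2 ≤ n' - c.dY
  · have h3 : (c.hX Y).dX ≤ n ∧ (c.hX Y).dY ≤ n' := ⟨h.1, by
      show c.dY + 2 ≤ n'
      omega⟩
    rw [if_pos h3]
    have e1 : n' - (c.hX Y).dY = n' - c.dY - 2 := by
      show n' - (c.dY + 2) = _
      omega
    rw [e1]
    show _ = _ + ∫ y, JJ X Y (hostS false c.S) c.S'
      (fun x => c.gw x * c.S' false (some .S) (2 * l - x))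
      (fun w => -(2 * Real.pi * rD (2 * l) * wt .S * Y (some .S) (w - 2 * l)) * c.K w) c.K' α
      (n - c.dX) (n' - c.dY - 2) lnX lnY (5 / 8 * l) c.b y ∂(volume.prod volume)
    have hS : sc4 false (some .S) = -2 := by
      simp [sc, ob4, ob3, chg]
    have iH : Integrable (JJ X Y (hostS false c.S) c.S'
      (fun x => c.gw x * c.S' false (some .S) (2 * l - x))
      (fun w => -(2 * Real.pi * rD (2 * l) * wt .S * Y (some .S) (w - 2 * l)) * c.K w) c.K' α
      (n - c.dX) (n' - c.dY - 2) lnX lnY (5 / 8 * l) c.b) (volume.prod volume) := by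
      have hH := (MvH.host hκ hF m (-(2 * Real.pi * rD (2 * l) * wt .S))).toH
      rw [pinned_line] at hH
      have eK : (fun w => -(2 * Real.pi * rD (2 * l) * wt .S) * Y (some .S) (w - 2 * l) * c.K w) =
          fun w => -(2 * Real.pi * rD (2 * l) * wt .S * Y (some .S) (w - 2 * l)) * c.K w := by
        funext w
        ring
      rw [eK] at hH
      refine integrable_JJ hL hκ ?_ fX fY hH v.toH
        (hgm.mul ((v.ms _ _).comp (measurable_const.sub measurable_id))) ?_ hα
        (fun p p' k k' i => hl.hX p p' k k' i) (fun p p' k k' i => hl.hY p p' k k' i)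
      · rw [Nat.cast_sub h2, hS]
        push_cast
        linarith
      · have b1 := hgb (5 / 8 * l) ⟨by
          have := m.mem1
          have := m.pin.1
          linarith [pinned_line], by
          have := m.mem2
          have := m.pin.2
          linarith [pinned_line]⟩
        obtain ⟨C, hC, b2⟩ := (v.pb false (some .S)).1
        have b3 : Bdd {5 / 8 * l - c.b} (2 * (cw' * sc4 false (some .S)))
            fun x => c.S' false (some .S) (2 * l - x) := by
          refine ⟨C, hC, fun z hz => ?_⟩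
          have hz' : z.re = 5 / 8 * l - c.b := hz
          have := b2 (2 * l - z) (by
            rw [sub_re, hz']
            simp only [mul_re, re_ofNat, ofReal_re, im_ofNat, ofReal_im, mul_zero, sub_zero]
            have := pinned_line
            exact ⟨by linarith [m.pin.2], by linarith [m.pin.1]⟩)
          have e : (2 * (l : ℂ) - z).im = -z.im := by simp
          rwa [e, abs_neg] at this
        exact (b1.mul b3).rate (by ring)
    have fH := fub2 iH
    rw [f0.2, f1.2, fH.2, ← integral_add f1.1 fH.1]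
    refine integral_congr_ae (Filter.Eventually.of_forall fun t' => ?_)
    simp only []
    have h4 := (mv t').1
    rw [if_pos h2, ← eJ, ← eJ, ← integral_const_mul] at h4
    have h5 : (∫ t : ℝ, 2 * Real.pi * pinI α (-(11 / 8) * l) (X1 (XB X Y) c.S' (vl c.b t')) c.S
        (fun w => c.K w * (c.K' (vl c.b t') * c.gw (w - vl c.b t'))) rD (n - c.dX)
        (n' - c.dY - 2) lnX lnY t) = -∫ t : ℝ, JJ X Y (hostS false c.S) c.S'
      (fun x => c.gw x * c.S' false (some .S) (2 * l - x))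
      (fun w => -(2 * Real.pi * rD (2 * l) * wt .S * Y (some .S) (w - 2 * l)) * c.K w) c.K' α
      (n - c.dX) (n' - c.dY - 2) lnX lnY (5 / 8 * l) c.b (t, t') := by
      rw [← integral_neg]
      exact integral_congr_ae (Filter.Eventually.of_forall fun t =>
        pinI_JJ c.S c.S' c.K c.K' c.gw _ _ lnX lnY c.b t t')
    rw [h5] at h4
    linear_combination -h4
  · have h3 : ¬ ((c.hX Y).dX ≤ n ∧ (c.hX Y).dY ≤ n') := by
      rintro ⟨-, h3⟩
      have h4 : c.dY + 2 ≤ n' := h3
      omega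
    rw [if_neg h3, add_zero, f0.2, f1.2]
    refine integral_congr_ae (Filter.Eventually.of_forall fun t' => ?_)
    simp only []
    have h4 := (mv t').1
    rw [if_neg h2, ← eJ, ← eJ, mul_zero] at h4
    linear_combination -h4

end NURow

end
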