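import Pool.Agent.NURow.Pin

/-!
# The move of one half quantum in front of `ZobjQ`: sum over the words
-/

set_option autoImplicit false
set_option linter.unusedSectionVars false

noncomputable section

open Complex MeasureTheory
open scoped Classical

namespace NURow

open NUP1 NUP1S NUP1.Bd

/-! ## words with a marked string -/

/-- sum over the marked strings of kind S of the second species: the mark is removed -/
def mkS (G : ∀ p q : ℕ, (Fin p → O3) → (Fin q → O3) → ℂ) :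
    ∀ p p' : ℕ, (Fin p → O3) → (Fin p' → O3) → ℂ
  | _, 0, _, _ => 0
  | p, q + 1, k, k' =>
    ∑ i : Fin (q + 1), if k' i = .S then G p q k (fun j => k' (i.succAbove j)) else 0

/-- one species -/
def mk1 (F : ∀ q : ℕ, (Fin q → O3) → ℂ) : ∀ p' : ℕ, (Fin p' → O3) → ℂ
  | 0, _ => 0
  | q + 1, k' => ∑ i : Fin (q + 1), if k' i = .S then F q (fun j => k' (i.succAbove j)) else 0

theorem sum_mark_one (F : ∀ q : ℕ, (Fin q → O3) → ℂ) (n' q : ℕ) :
    (((q + 1).factorial : ℕ) : ℂ)⁻¹ * (∑ k' : Fin (q + 1) → O3,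
      if ∑ i, c3 (k' i) ≤ n' then mk1 F (q + 1) k' else 0) =
    ((q.factorial : ℕ) : ℂ)⁻¹ * ∑ k'' : Fin q → O3,
      if 2 + ∑ i, c3 (k'' i) ≤ n' then F q k'' else 0 := by
  have key : ∀ i : Fin (q + 1), (∑ k' : Fin (q + 1) → O3, if ∑ i, c3 (k' i) ≤ n' then
      (if k' i = .S then F q (fun j => k' (i.succAbove j)) else 0) else 0) =
      ∑ k'' : Fin q → O3, if 2 + ∑ i, c3 (k'' i) ≤ n' then F q k'' else 0 := by
    intro i
    rw [← (Fin.insertNthEquiv (fun _ => O3) i).sum_comp, Fintype.sum_prod_type,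
      Finset.sum_comm]
    refine Finset.sum_congr rfl fun k'' _ => ?_
    rw [Finset.sum_eq_single O3.S]
    · simp only [Fin.insertNthEquiv_apply, Fin.insertNth_apply_same, if_true,
        Fin.insertNth_apply_succAbove, Fin.sum_univ_succAbove _ i, c3_S]
    · intro x _ hx
      simp only [Fin.insertNthEquiv_apply, Fin.insertNth_apply_same, if_neg hx, ite_self]
    · intro h
      exact absurd (Finset.mem_univ _) h
  have e1 : (∑ k' : Fin (q + 1) → O3, if ∑ i, c3 (k' i) ≤ n' then mk1 F (q + 1) k' else 0) =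
      ∑ i : Fin (q + 1), ∑ k' : Fin (q + 1) → O3, if ∑ i, c3 (k' i) ≤ n' then
      (if k' i = .S then F q (fun j => k' (i.succAbove j)) else 0) else 0 := by
    rw [Finset.sum_comm]
    refine Finset.sum_congr rfl fun k' _ => ?_
    by_cases h : ∑ i, c3 (k' i) ≤ n'
    · simp only [if_pos h]
      rfl
    · simp only [if_neg h, Finset.sum_const_zero]
  rw [e1, Finset.sum_congr rfl fun i _ => key i, Finset.sum_const, Finset.card_univ,
    Fintype.card_fin, nsmul_eq_mul, ← mul_assoc, Nat.factorial_succ]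
  congr 1
  have h1 : ((q + 1 : ℕ) : ℂ) ≠ 0 := Nat.cast_ne_zero.2 (Nat.succ_ne_zero q)
  rw [Nat.cast_mul, mul_inv, mul_comm (((q + 1 : ℕ) : ℂ)⁻¹), mul_assoc, inv_mul_cancel₀ h1, mul_one]

theorem sum_mark (F : ∀ q : ℕ, (Fin q → O3) → ℂ) (n' : ℕ) :
    (∑ p' ∈ Finset.range (n' + 1), ((p'.factorial : ℕ) : ℂ)⁻¹ * ∑ k' : Fin p' → O3,
      if ∑ i, c3 (k' i) ≤ n' then mk1 F p' k' else 0) =
    if 2 ≤ n' then ∑ q ∈ Finset.range (n' - 2 + 1), ((q.factorial : ℕ) : ℂ)⁻¹ *
      ∑ k'' : Fin q → O3, if ∑ i, c3 (k'' i) ≤ n' - 2 then F q k'' else 0 else 0 := by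
  rw [Finset.sum_range_succ', Finset.sum_congr rfl fun q _ => sum_mark_one F n' q]
  have e0 : (((0 : ℕ).factorial : ℕ) : ℂ)⁻¹ * (∑ k' : Fin 0 → O3,
      if ∑ i, c3 (k' i) ≤ n' then mk1 F 0 k' else 0) = 0 := by
    simp [mk1]
  rw [e0, add_zero]
  by_cases h2 : 2 ≤ n'
  · rw [if_pos h2]
    have e1 : ∀ (q : ℕ) (k'' : Fin q → O3), (2 + ∑ i, c3 (k'' i) ≤ n') ↔
        (∑ i, c3 (k'' i) ≤ n' - 2) := fun q k'' => by omega
    simp only [e1]
    symm
    refine Finset.sum_subset (fun q hq => ?_) fun q _ hq => ?_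
    · rw [Finset.mem_range] at hq ⊢
      omega
    · rw [Finset.mem_range] at hq
      refine mul_eq_zero_of_right _ (Finset.sum_eq_zero fun k'' _ => if_neg fun h => ?_)
      have h3 : q ≤ ∑ i, c3 (k'' i) := by
        calc q = ∑ _i : Fin q, 1 := by simp
          _ ≤ _ := Finset.sum_le_sum fun i _ => c3_pos _
      omega
  · rw [if_neg h2]
    refine Finset.sum_eq_zero fun q _ => mul_eq_zero_of_right _
      (Finset.sum_eq_zero fun k'' _ => if_neg ?_)
    omega

theorem mkS_eq (G : ∀ p q : ℕ, (Fin p → O3) → (Fin q → O3) → ℂ) (p p' : ℕ) (k : Fin p → O3)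
    (k' : Fin p' → O3) : mkS G p p' k k' = mk1 (fun q k'' => G p q k k'') p' k' := by
  cases p' <;> rfl

/-- the sum over the words, first species outside -/
theorem ZGs_comm (n n' : ℕ) (Φ : ∀ p p' : ℕ, (Fin p → O3) → (Fin p' → O3) → ℂ) :
    ZGs n n' Φ = ∑ p ∈ Finset.range (n + 1), ((p.factorial : ℕ) : ℂ)⁻¹ *
      ∑ k : Fin p → O3, if ∑ i, c3 (k i) ≤ n then
        ∑ p' ∈ Finset.range (n' + 1), ((p'.factorial : ℕ) : ℂ)⁻¹ * ∑ k' : Fin p' → O3,
          if ∑ i, c3 (k' i) ≤ n' then Φ p p' k k' else 0 else 0 := by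
  unfold ZGs
  rw [Finset.sum_comm]
  refine Finset.sum_congr rfl fun p _ => ?_
  have e1 : ∀ p' : ℕ, ((p'.factorial : ℕ) : ℂ)⁻¹ * ((p.factorial : ℕ) : ℂ)⁻¹ *
      (∑ k' : Fin p' → O3, ∑ k : Fin p → O3,
        if ∑ i, c3 (k' i) ≤ n' ∧ ∑ i, c3 (k i) ≤ n then Φ p p' k k' else 0) =
      ((p.factorial : ℕ) : ℂ)⁻¹ * ∑ k : Fin p → O3, ((p'.factorial : ℕ) : ℂ)⁻¹ *
        ∑ k' : Fin p' → O3,
          if ∑ i, c3 (k' i) ≤ n' ∧ ∑ i, c3 (k i) ≤ n then Φ p p' k k' else 0 := by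
    intro p'
    rw [Finset.sum_comm, ← Finset.mul_sum]
    ring
  rw [Finset.sum_congr rfl fun p' _ => e1 p', ← Finset.mul_sum, Finset.sum_comm]
  congr 1
  refine Finset.sum_congr rfl fun k _ => ?_
  by_cases h : ∑ i, c3 (k i) ≤ n
  · simp only [h, and_true, if_true]
  · simp only [h, and_false, if_false, Finset.sum_const_zero, mul_zero]

/-- **The sum over the words with a marked string.** -/
theorem ZGs_mkS (n n' : ℕ) (G : ∀ p q : ℕ, (Fin p → O3) → (Fin q → O3) → ℂ) :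
    ZGs n n' (mkS G) = if 2 ≤ n' then ZGs n (n' - 2) G else 0 := by
  rw [ZGs_comm, ZGs_comm]
  simp only [mkS_eq, sum_mark]
  by_cases h : 2 ≤ n'
  · simp only [if_pos h]
  · simp only [if_neg h, ite_self, Finset.sum_const_zero, mul_zero]

/-! ## the move -/

variable {α : ℝ} {lo hi : Option O3 → ℝ} {κ Q cw a₀ a y : ℝ} {X s : Sp} {K r : ℂ → ℂ}

theorem sum_Sf {A p A' q : ℕ} (k : Fin p → O3) (k' : Fin (q + 1) → O3)
    (f : CF A p A' (q + 1) → ℂ) : ∑ i ∈ Sf k k', f i =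
      ∑ i : Fin (q + 1), if k' i = .S then f (Sum.inr (Sum.inr i)) else 0 := by
  unfold Sf
  rw [Finset.sum_filter, Fintype.sum_sum_type, Fintype.sum_sum_type]
  simp only [kb, kk, kA, Sum.elim_inl, Sum.elim_inr, reduceCtorEq, false_and, if_false,
    Finset.sum_const_zero, true_and, Option.some.injEq, zero_add, and_false]
  rw [Fintype.sum_sum_type]
  simp

/-- admissible lines of a final system -/
structure LnA (lo hi : Option O3 → ℝ)
    (lnX : ∀ p p' : ℕ, (Fin p → O3) → (Fin p' → O3) → Fin p → ℝ)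
    (lnY : ∀ p p' : ℕ, (Fin p → O3) → (Fin p' → O3) → Fin p' → ℝ) : Prop where
  hX : ∀ p p' k k' i, lnX p p' k k' i ∈ Set.Icc (lo (some (k i))) (hi (some (k i)))
  hY : ∀ p p' k k' i, lnY p p' k k' i ∈ Set.Icc (lo (some (k' i))) (hi (some (k' i)))
  inj : ∀ p p' (k : Fin p → O3) (k' : Fin p' → O3) i j, k' i = .S → k' j = .S →
    lnY p p' k k' i = lnY p p' k k' j → i = j

/-- the pinned integrand -/
def pinI (α : ℝ) (y : ℝ) (X s : Sp) (K r : ℂ → ℂ) (n n' : ℕ)
    (lnX : ∀ p p' : ℕ, (Fin p → O3) → (Fin p' → O3) → Fin p → ℝ)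
    (lnY : ∀ p p' : ℕ, (Fin p → O3) → (Fin p' → O3) → Fin p' → ℝ) (t : ℝ) : ℂ :=
  wt .S * r ((2 * l : ℝ) : ℂ) * (K (vl y t + ((2 * l : ℝ) : ℂ)) * X false (some .S) (vl y t)) *
    ZobjQ (X1 X (sH false s) (vl y t) true) (X1 X (sH false s) (vl y t) false) α n n' lnX lnY

/-- the integrand with the pinned string is integrable, one word -/
theorem PinD.int_pin (D : PinD α lo hi κ Q cw a₀ a y X s K r) {n n' : ℕ}
    (hQ : Q = cw + ((n : ℝ) - n')) (h2 : 2 ≤ n')
    {lnX : ∀ p p' : ℕ, (Fin p → O3) → (Fin p' → O3) → Fin p → ℝ}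
    {lnY : ∀ p p' : ℕ, (Fin p → O3) → (Fin p' → O3) → Fin p' → ℝ} (hl : LnA lo hi lnX lnY)
    {p q : ℕ} (k : Fin p → O3) (k'' : Fin q → O3) (h : Wok n (n' - 2) k k'') :
    Integrable (fun t : ℝ => wt .S * r ((2 * l : ℝ) : ℂ) *
      (K (vl y t + ((2 * l : ℝ) : ℂ)) * X false (some .S) (vl y t)) *
      termQ (X1 X (sH false s) (vl y t) true) (X1 X (sH false s) (vl y t) false) α n (n' - 2) k
        k'' (lnX p q k k'') (lnY p q k k'')) volume := by
  set k' : Fin (q + 1) → O3 := Fin.cons .S k'' with hk'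
  have e3 : (fun j => k' ((0 : Fin (q + 1)).succAbove j)) = k'' := by
    funext j
    simp [hk']
  have h0 : k' 0 = .S := by simp [hk']
  have hs : ∑ i, c3 (k' i) ≤ n' := by
    rw [sum_c3_succAbove h0]
    have h3 := h.1
    have : ∑ j, c3 (k' ((0 : Fin (q + 1)).succAbove j)) = ∑ j, c3 (k'' j) :=
      Finset.sum_congr rfl fun j _ => by rw [← congrFun e3 j]
    omega
  have := (D.res hQ h.2 hs rfl rfl
    (lnOk_xc D.loA D.hiA (hl.hX p (q + 1) k k') (hl.hY p (q + 1) k k'))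
    (hl.inj p (q + 1) k k') h0 (x1 := lnX p q k k'') (x1' := lnY p q k k'') (by
      rw [e3]
      exact lnOk_xc D.loA D.hiA (hl.hX p q k _) (hl.hY p q k _))).2
  rwa [e3] at this

/-- the integrand with the pinned string is integrable -/
theorem PinD.integrable_pinI (D : PinD α lo hi κ Q cw a₀ a y X s K r) {n n' : ℕ}
    (hQ : Q = cw + ((n : ℝ) - n')) (h2 : 2 ≤ n')
    {lnX : ∀ p p' : ℕ, (Fin p → O3) → (Fin p' → O3) → Fin p → ℝ}
    {lnY : ∀ p p' : ℕ, (Fin p → O3) → (Fin p' → O3) → Fin p' → ℝ} (hl : LnA lo hi lnX lnY) :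
    Integrable (pinI α y X s K r n (n' - 2) lnX lnY) volume := by
  have e2 : pinI α y X s K r n (n' - 2) lnX lnY = fun t => ZGs n (n' - 2) fun p q k k'' =>
      wt .S * r ((2 * l : ℝ) : ℂ) *
      (K (vl y t + ((2 * l : ℝ) : ℂ)) * X false (some .S) (vl y t)) *
      termQ (X1 X (sH false s) (vl y t) true) (X1 X (sH false s) (vl y t) false) α n (n' - 2) k
        k'' (lnX p q k k'') (lnY p q k k'') := by
    funext t
    unfold pinI
    rw [ZobjQ_ZGs, ← ZGs_mul]
  rw [e2]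
  exact integrable_ZGs fun p q k k'' h => D.int_pin hQ h2 hl k k'' h

/-- **The move of a half quantum in front of `ZobjQ`; the residues are the class with the pinned
string.** -/
theorem PinD.move (D : PinD α lo hi κ Q cw a₀ a y X s K r) {n n' : ℕ}
    (hQ : Q = cw + ((n : ℝ) - n'))
    {lnX : ∀ p p' : ℕ, (Fin p → O3) → (Fin p' → O3) → Fin p → ℝ}
    {lnY : ∀ p p' : ℕ, (Fin p → O3) → (Fin p' → O3) → Fin p' → ℝ} (hl : LnA lo hi lnX lnY) :
    (∫ t : ℝ, K (vl a t) * ZobjQ (X1 X s (vl a t) true) (X1 X s (vl a t) false) α n n' lnX lnY) -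
      (∫ t : ℝ, K (vl a₀ t) *
        ZobjQ (X1 X s (vl a₀ t) true) (X1 X s (vl a₀ t) false) α n n' lnX lnY) =
      2 * Real.pi * (if 2 ≤ n' then ∫ t : ℝ, pinI α y X s K r n (n' - 2) lnX lnY t else 0) ∧
    Integrable (fun t : ℝ =>
      K (vl a t) * ZobjQ (X1 X s (vl a t) true) (X1 X s (vl a t) false) α n n' lnX lnY) volume ∧
    Integrable (fun t : ℝ =>
      K (vl a₀ t) * ZobjQ (X1 X s (vl a₀ t) true) (X1 X s (vl a₀ t) false) α n n' lnX lnY)
      volume := by
  -- the words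
  have hW : ∀ {p p' : ℕ} (k : Fin p → O3) (k' : Fin p' → O3), Wok n n' k k' → _ :=
    fun {p p'} k k' h => D.word hQ h.2 h.1 rfl rfl
      (lnOk_xc D.loA D.hiA (hl.hX p p' k k') (hl.hY p p' k k')) (hl.inj p p' k k')
  have E : ∀ b : ℝ, (fun t : ℝ =>
      K (vl b t) * ZobjQ (X1 X s (vl b t) true) (X1 X s (vl b t) false) α n n' lnX lnY) =
      fun t => ZGs n n' fun p p' k k' => K (vl b t) *
        termQ (X1 X s (vl b t) true) (X1 X s (vl b t) false) α n n' k k' (lnX p p' k k')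
          (lnY p p' k k') := by
    intro b
    funext t
    rw [ZobjQ_ZGs, ← ZGs_mul]
  refine ⟨?_, ?_, ?_⟩
  · rw [E a, E a₀, integral_ZGs fun p p' k k' h => (hW k k' h).2.1,
      integral_ZGs fun p p' k k' h => (hW k k' h).2.2, ← ZGs_sub]
    set G : ∀ p q : ℕ, (Fin p → O3) → (Fin q → O3) → ℂ := fun p q k k'' =>
      ∫ t : ℝ, wt .S * r ((2 * l : ℝ) : ℂ) *
      (K (vl y t + ((2 * l : ℝ) : ℂ)) * X false (some .S) (vl y t)) *
      termQ (X1 X (sH false s) (vl y t) true) (X1 X (sH false s) (vl y t) false) α n (n' - 2) k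
        k'' (lnX p q k k'') (lnY p q k k'') with hG
    have hx1 : ∀ {p q : ℕ} (k : Fin p → O3) (k'' : Fin q → O3),
        LnOk lo hi k k'' (xc α (lnX p q k k'') (lnY p q k k'') : CF (nA n k) p
          (nA (n' - 2) k'') q → ℝ) := fun {p q} k k'' =>
      lnOk_xc D.loA D.hiA (hl.hX p q k k'') (hl.hY p q k k'')
    have e1 : ∀ (p p' : ℕ) (k : Fin p → O3) (k' : Fin p' → O3), Wok n n' k k' →
        (∫ t : ℝ, K (vl a t) * termQ (X1 X s (vl a t) true) (X1 X s (vl a t) false) α n n' k k'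
            (lnX p p' k k') (lnY p p' k k')) -
          (∫ t : ℝ, K (vl a₀ t) * termQ (X1 X s (vl a₀ t) true) (X1 X s (vl a₀ t) false) α n n'
            k k' (lnX p p' k k') (lnY p p' k k')) = 2 * Real.pi * mkS G p p' k k' := by
      intro p p' k k' h
      rw [(hW k k' h).1]
      congr 1
      rcases p' with _ | q
      · refine Finset.sum_eq_zero fun i hi => ?_
        obtain ⟨h1, h2⟩ := mem_Sf.1 hi
        rcases i with i | (i | i)
        · exact absurd h1 (by simp [kb])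
        · exact absurd h2 (by simp [kk, kA])
        · exact i.elim0
      · rw [sum_Sf]
        show _ = ∑ i : Fin (q + 1), if k' i = .S then G p q k (fun j => k' (i.succAbove j)) else 0
        refine Finset.sum_congr rfl fun i _ => ?_
        by_cases h0 : k' i = .S
        · rw [if_pos h0, if_pos h0]
          have hx2 := hx1 k (fun j => k' (i.succAbove j))
          exact (D.res hQ h.2 h.1 rfl rfl
            (lnOk_xc D.loA D.hiA (hl.hX p (q + 1) k k') (hl.hY p (q + 1) k k'))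
            (hl.inj p (q + 1) k k') h0 (lnOk_xc D.loA D.hiA (hl.hX p q k _) (hl.hY p q k _))).1
        · rw [if_neg h0, if_neg h0]
    rw [ZGs_congr e1, ZGs_mul, ZGs_mkS]
    congr 1
    by_cases h2 : 2 ≤ n'
    · rw [if_pos h2, if_pos h2]
      have e2 : pinI α y X s K r n (n' - 2) lnX lnY = fun t => ZGs n (n' - 2) fun p q k k'' =>
          wt .S * r ((2 * l : ℝ) : ℂ) *
          (K (vl y t + ((2 * l : ℝ) : ℂ)) * X false (some .S) (vl y t)) *
          termQ (X1 X (sH false s) (vl y t) true) (X1 X (sH false s) (vl y t) false) α n (n' - 2) k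
            k'' (lnX p q k k'') (lnY p q k k'') := by
        funext t
        unfold pinI
        rw [ZobjQ_ZGs, ← ZGs_mul]
      rw [e2, integral_ZGs]
      exact fun p q k k'' h => D.int_pin hQ h2 hl k k'' h
    · rw [if_neg h2, if_neg h2]
  · rw [E a]
    exact integrable_ZGs fun p p' k k' h => (hW k k' h).2.1
  · rw [E a₀]
    exact integrable_ZGs fun p p' k k' h => (hW k k' h).2.2

end NURow

end
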