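import Pool.Agent.NURow.PinY

/-!
# Both half quanta are moved

`CD.moveXY`: four final classes from a class with both half quanta on the start line `31/50 l`.
-/

set_option autoImplicit false
set_option linter.unusedSectionVars false

noncomputable section

open Complex MeasureTheory
open scoped Classical

namespace NURow

open NUP1 NUP1S NUP1.Bd

variable {lo hi : Option O3 → ℝ} {κ cw cw' α : ℝ} {X Y : Option O3 → ℂ → ℂ}

/-- **Both lines are moved**: `cw`, `cw'` = own charges of `w`, `w'`. -/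
theorem CD.moveXY (hκ : 0 < κ) (hok : OkS lo hi) (hlo : lo none ≤ α) (hhi : α ≤ hi none)
    (hF : FmD lo hi κ 0 (XB X Y)) {c : CD} (ha : c.a = 31 / 50 * l) (hb : c.b = 31 / 50 * l)
    (m : MvH lo hi κ cw (31 / 50 * l) (5 / 4 * l) (-(11 / 8) * l) c.S c.K rD)
    (m' : MvH lo hi κ cw' (31 / 50 * l) (5 / 4 * l) (-(11 / 8) * l) (Sp.flip c.S') c.K' rD)
    (hgm : Measurable c.gw)
    (hg : PB (-(2 * (cw * cw'))) (Set.Icc (31 / 50 * l - 31 / 50 * l) (5 / 4 * l - 31 / 50 * l))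
      c.gw)
    (hg1 : PB (-(2 * (cw * cw'))) (Set.Icc (5 / 4 * l - 5 / 4 * l) (5 / 4 * l - 31 / 50 * l)) c.gw)
    (hg2 : PB (-(2 * ((cw - 2) * cw'))) (Set.Icc (5 / 8 * l - 5 / 4 * l) (5 / 8 * l - 31 / 50 * l))
      fun x => c.gw x * c.S' false (some .S) (2 * l - x)) {n n' : ℕ}
    (hQ : c.dX ≤ n → c.dY ≤ n' →
      cw - cw' + (((n - c.dX : ℕ) : ℝ) - ((n' - c.dY : ℕ) : ℝ)) = 0)
    {lnX : ∀ p p' : ℕ, (Fin p → O3) → (Fin p' → O3) → Fin p → ℝ}
    {lnY : ∀ p p' : ℕ, (Fin p → O3) → (Fin p' → O3) → Fin p' → ℝ}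
    (hl : LnA lo hi lnX lnY) (hl' : LnA lo hi (swL' lnY) (swL lnX)) :
    c.val X Y α n n' lnX lnY =
      (c.mX.mY.val X Y α n n' lnX lnY + (c.mX.hY X).val X Y α n n' lnX lnY) +
      ((c.hX Y).mY.val X Y α n n' lnX lnY + ((c.hX Y).hY X).val X Y α n n' lnX lnY) := by
  have hS : sc4 false (some .S) = -2 := by
    simp [sc, ob4, ob3, chg]
  have v' : FxH lo hi κ (-cw') c.b c.S' c.K' := by
    have h1 := (m'.fx (Or.inl rfl)).flip
    rw [← hb] at h1
    have e : Sp.flip (Sp.flip c.S') = c.S' := by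
      funext b k
      unfold Sp.flip
      rw [Bool.not_not]
    rwa [e] at h1
  have hX := CD.moveX (cw' := -cw') hκ hok hlo hhi hF ha m v' hgm (by
    rw [hb, show 2 * (cw * -cw') = -(2 * (cw * cw')) by ring]
    exact hg) (n := n) (n' := n') (fun h1 h2 => by linarith [hQ h1 h2]) hl
  have hY1 := CD.moveY (c := c.mX) hκ hok hlo hhi hF hb m' (m.fx (Or.inr rfl)) hgm hg1
    (n := n) (n' := n') hQ hl'
  have vH : FxH lo hi κ (cw - 2) (5 / 8 * l) (hostS false c.S) (c.hX Y).K := by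
    have h1 := MvH.host hκ hF m (-(2 * Real.pi * rD (2 * l) * wt .S))
    rw [pinned_line, hS, ← sub_eq_add_neg] at h1
    have eK : (fun w => -(2 * Real.pi * rD (2 * l) * wt .S) * Y (some .S) (w - 2 * l) * c.K w) =
        (c.hX Y).K := by
      funext w
      show _ = -(2 * Real.pi * rD (2 * l) * wt .S * Y (some .S) (w - 2 * l)) * c.K w
      ring
    rwa [eK] at h1
  have hgm2 : Measurable (c.hX Y).gw := by
    refine hgm.mul ?_
    have h1 := m'.ms true (some .S)
    exact h1.comp (measurable_const.sub measurable_id)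
  have hY2 := CD.moveY (c := c.hX Y) hκ hok hlo hhi hF hb m' vH hgm2 hg2
    (n := n) (n' := n') (fun h1 h2 => by
      have h3 : c.dY + 2 ≤ n' := h2
      have h4 := hQ h1 (by omega)
      show cw - 2 - cw' + (((n - c.dX : ℕ) : ℝ) - ((n' - (c.dY + 2) : ℕ) : ℝ)) = 0
      rw [Nat.cast_sub h3]
      rw [Nat.cast_sub (show c.dY ≤ n' by omega)] at h4
      push_cast at h4 ⊢
      linarith) hl'
  rw [hX, hY1, hY2]

end NURow

end
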