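import Pool.Agent.NURow.Data3
import Pool.Agent.NUP1L.LegDefs

/-!
# Spectators: bounds and analyticity on strips (helper30, board/GAM U4 (R))

The factor of a half quantum `w` on an object at `u` is a function of `z = w - u`:
quantum of its own species `Ck z`, of the other one `Dk z`; string (quanta at `u`, `u - l`)
`Ck z Ck (z + l) = CC z`, `Dk z Dk (z + l) = DD z`.
`PB s K g` = bound `C exp (s |im|)` and analyticity over the real parts in `K`.
-/

set_option autoImplicit false

noncomputable section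

open Complex MeasureTheory

namespace NURow

open NUP1 NUP1S NUP1.Bd NUP1.Leg

/-! ## calculus of `PB` -/

section pb

variable {s s' : ℝ} {K K' : Set ℝ} {g g' : ℂ → ℂ}

theorem PB.mul (h : PB s K g) (h' : PB s' K g') : PB (s + s') K fun z => g z * g' z :=
  ⟨h.1.mul h'.1, fun z hz => (h.2 z hz).mul (h'.2 z hz)⟩

theorem PB.rate (h : PB s K g) (e : s = s') : PB s' K g := e ▸ h

theorem PB.congr' (h : PB s K g) (e : ∀ z, g z = g' z) : PB s K g' := by
  rw [show g' = g from (funext e).symm]
  exact h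

theorem PB.const (K : Set ℝ) (c : ℂ) : PB 0 K fun _ => c :=
  ⟨NUP1S.Bdd.const K c, fun _ _ => differentiableAt_const c⟩

theorem PB.fneg (h : PB s K g) : PB s K fun z => -g z := by
  obtain ⟨⟨C, hC, h1⟩, h2⟩ := h
  exact ⟨⟨C, hC, fun z hz => by rw [norm_neg]; exact h1 z hz⟩, fun z hz => (h2 z hz).neg⟩

theorem PB.shift (a : ℝ) (h : PB s K' g) (hK : ∀ x ∈ K, x + a ∈ K') : PB s K fun z => g (z + a) := by
  obtain ⟨⟨C, hC, h1⟩, h2⟩ := h
  refine ⟨⟨C, hC, fun z hz => ?_⟩, fun z hz => ?_⟩
  · have := h1 (z + a) (by rw [add_re, ofReal_re]; exact hK _ hz)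
    rwa [add_im, ofReal_im, add_zero] at this
  · have := h2 (z + a) (by rw [add_re, ofReal_re]; exact hK _ hz)
    exact DifferentiableAt.comp z this (differentiableAt_id.add_const _)

theorem PB_sin (K : Set ℝ) (a : ℝ) : PB 1 K fun z => sin (z + a) := by
  refine ⟨⟨1, zero_le_one, fun z _ => ?_⟩, fun z _ => by fun_prop⟩
  rw [one_mul, one_mul]
  exact (norm_sin_add_le z a).trans (Bd.cosh_le_exp _)

theorem PB_inv_sin (hK : IsCompact K) (a : ℝ) (h : ∀ d ∈ K, Real.sin (d + a) ≠ 0) :
    PB (-1) K fun z => 1 / sin (z + a) := by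
  obtain ⟨δ, hδ, h1⟩ := exists_deltaK hK a h
  refine ⟨⟨2 / δ, by positivity, fun z hz => ?_⟩, fun z hz => ?_⟩
  · have h2 := le_norm_sin_add z a
    have h3 := exp_le_cosh z.im
    have h4 : δ * (Real.exp |z.im| / 2) ≤ ‖sin (z + a)‖ :=
      (mul_le_mul (h1 _ hz) (by linarith) (by positivity) (abs_nonneg _)).trans h2
    rw [norm_div, norm_one]
    have h6 : 0 < δ * (Real.exp |z.im| / 2) := by positivity
    calc 1 / ‖sin (z + a)‖ ≤ 1 / (δ * (Real.exp |z.im| / 2)) := one_div_le_one_div_of_le h6 h4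
      _ = 2 / δ * Real.exp (-1 * |z.im|) := by
        rw [neg_one_mul, Real.exp_neg]
        field_simp
  · have h0 : sin (z + a) ≠ 0 := Bd.sin_ne_zero_of_re (by
      rw [add_re, ofReal_re]
      exact h _ hz)
    exact (differentiableAt_const 1).div (by fun_prop) h0

/-- the one body function of a fixed spectator: `u ↦ g (w - u)` -/
theorem PB.one (h : PB s K' g) (w : ℂ) (hK : ∀ x ∈ K, w.re - x ∈ K') : PB s K fun u => g (w - u) := by
  obtain ⟨⟨C, hC, h1⟩, h2⟩ := h
  refine ⟨⟨C * Real.exp (|s| * |w.im|), by positivity, fun u hu => ?_⟩, fun u hu => ?_⟩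
  · refine (h1 (w - u) (by rw [sub_re]; exact hK _ hu)).trans ?_
    rw [mul_assoc, ← Real.exp_add]
    refine mul_le_mul_of_nonneg_left (Real.exp_le_exp.2 ?_) hC
    rw [sub_im]
    have e1 : s * |w.im - u.im| - s * |u.im| ≤ |s| * |w.im| := by
      rw [← mul_sub]
      refine (le_abs_self _).trans ?_
      rw [abs_mul]
      refine mul_le_mul_of_nonneg_left ?_ (abs_nonneg s)
      have := abs_abs_sub_abs_le_abs_sub (w.im - u.im) (-u.im)
      rw [abs_neg] at this
      refine this.trans (le_of_eq ?_)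
      congr 1
      ring
    linarith
  · exact DifferentiableAt.comp u (h2 (w - u) (by rw [sub_re]; exact hK _ hu))
      ((differentiableAt_const w).sub differentiableAt_id)

/-- the same on the other side: `u ↦ g (u - w)` -/
theorem PB.one' (h : PB s K' g) (w : ℂ) (hK : ∀ x ∈ K, x - w.re ∈ K') : PB s K fun u => g (u - w) := by
  obtain ⟨⟨C, hC, h1⟩, h2⟩ := h
  refine ⟨⟨C * Real.exp (|s| * |w.im|), by positivity, fun u hu => ?_⟩, fun u hu => ?_⟩
  · refine (h1 (u - w) (by rw [sub_re]; exact hK _ hu)).trans ?_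
    rw [mul_assoc, ← Real.exp_add]
    refine mul_le_mul_of_nonneg_left (Real.exp_le_exp.2 ?_) hC
    rw [sub_im]
    have e1 : s * |u.im - w.im| - s * |u.im| ≤ |s| * |w.im| := by
      rw [← mul_sub]
      refine (le_abs_self _).trans ?_
      rw [abs_mul]
      refine mul_le_mul_of_nonneg_left ?_ (abs_nonneg s)
      have := abs_abs_sub_abs_le_abs_sub (u.im - w.im) u.im
      refine this.trans (le_of_eq ?_)
      rw [show u.im - w.im - u.im = -w.im by ring, abs_neg]
    linarith
  · exact DifferentiableAt.comp u (h2 (u - w) (by rw [sub_re]; exact hK _ hu))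
      (differentiableAt_id.sub_const w)

theorem PB.dec (h : PB s K g) : DecOn (-s) K g := by
  obtain ⟨⟨C, -, h1⟩, -⟩ := h
  refine ⟨C, fun z hz => ?_⟩
  have := h1 z hz
  rwa [neg_mul, neg_neg]

end pb

/-! ## the factors of a half quantum -/

/-- half quantum - string, same species (quanta at `u`, `u - l`), `z = w - u` -/
def CC (z : ℂ) : ℂ := sin z * sin (z + 3 * l)

/-- half quantum - string, different species -/
def DD (z : ℂ) : ℂ := 1 / (sin (3 * l + z) * sin (2 * l - z))

/-- `DD` without its pole at `z = 2 l` -/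
def rD (z : ℂ) : ℂ := -(1 / sin (z + 3 * l))

/-- two half quanta at distance `3 l` (class D1) -/
def Tk (z : ℂ) : ℂ := sin (z - l) * sin (z + 2 * l) / (sin (2 * l - z) * sin (z + l))

theorem l8 : (8 : ℂ) * l = Real.pi := by
  unfold l
  push_cast
  ring

theorem l8r : 8 * l = Real.pi := by
  unfold l
  ring

theorem sin_4l (z : ℂ) : sin (4 * l + z) = cos z := by
  rw [show (4 : ℂ) * l + z = Real.pi / 2 + z by rw [← l8]; ring, add_comm, Complex.sin_add_pi_div_two]

theorem cos_l (z : ℂ) : cos (z + l) = sin (3 * l - z) := by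
  rw [← Complex.sin_pi_div_two_sub]
  congr 1
  rw [← l8]
  ring

theorem CC_eq {z : ℂ} (h1 : sin (z + l) ≠ 0) (h2 : sin (z + 2 * l) ≠ 0) :
    Ck z * Ck (z + l) = CC z := by
  unfold Ck CC
  rw [show z + l + 2 * l = z + 3 * l by ring, show z + l + l = z + 2 * l by ring]
  field_simp

theorem DD_eq {z : ℂ} (h1 : cos z ≠ 0) (h2 : sin (3 * l - z) ≠ 0) : Dk z * Dk (z + l) = DD z := by
  unfold Dk DD
  rw [cos_l, show 3 * l - (z + l) = 2 * l - z by ring, show 3 * l + (z + l) = 4 * l + z by ring, sin_4l]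
  by_cases h3 : sin (3 * l + z) = 0
  · simp [h3]
  by_cases h4 : sin (2 * l - z) = 0
  · simp [h4]
  field_simp

theorem DD_pole (z : ℂ) : DD z = rD z / sin (z - 2 * l) := by
  unfold DD rD
  rw [show 2 * l - z = -(z - 2 * l) by ring, Complex.sin_neg, add_comm (3 * l : ℂ) z, mul_neg, div_neg,
    neg_div, div_div]

theorem Tk_eq {z : ℂ} (h : sin z ≠ 0) : Dk (z + 3 * l) * Ck z = Tk z := by
  have e1 : cos (z + 3 * l) = -sin (z - l) := by
    rw [show z + 3 * l = (z + 2 * l) + l by ring, cos_l, ← Complex.sin_neg]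
    congr 1
    ring
  have e2 : sin (3 * l + (z + 3 * l)) = sin (2 * l - z) := by
    rw [show 3 * l + (z + 3 * l) = Real.pi - (2 * l - z) by rw [← l8]; ring, Complex.sin_pi_sub]
  have e3 : sin (3 * l - (z + 3 * l)) = -sin z := by
    rw [show 3 * l - (z + 3 * l) = -z by ring, Complex.sin_neg]
  unfold Dk Ck Tk
  rw [e1, e2, e3]
  by_cases h3 : sin (2 * l - z) = 0
  · simp [h3]
  by_cases h4 : sin (z + l) = 0
  · simp [h4]
  field_simp

section bounds

variable {K : Set ℝ}

theorem PB_Ck (hK : IsCompact K) (h : ∀ d ∈ K, Real.sin (d + l) ≠ 0) : PB 1 K Ck := by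
  have := (((PB_sin K 0).mul (PB_sin K (2 * l))).mul (PB_inv_sin hK l h)).rate
    (show (1 : ℝ) + 1 + -1 = 1 by norm_num)
  refine ⟨?_, ?_⟩
  · obtain ⟨⟨C, hC, h1⟩, -⟩ := this
    refine ⟨C, hC, fun z hz => ?_⟩
    have := h1 z hz
    unfold Ck
    rw [div_eq_mul_one_div]
    simpa using this
  · intro z hz
    have h0 : sin (z + l) ≠ 0 := Bd.sin_ne_zero_of_re (by
      rw [add_re, ofReal_re]
      exact h _ hz)
    unfold Ck
    exact DifferentiableAt.div (by fun_prop) (by fun_prop) h0

theorem PB_Dk (hK : IsCompact K) (h1 : ∀ d ∈ K, Real.sin (d + 3 * l) ≠ 0)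
    (h2 : ∀ d ∈ K, Real.sin (d - 3 * l) ≠ 0) : PB (-1) K Dk := by
  have e : ∀ z : ℂ, Dk z = -(sin (z + ((4 * l : ℝ) : ℂ)) * (1 / sin (z + ((3 * l : ℝ) : ℂ))) *
      (1 / sin (z + ((-(3 * l) : ℝ) : ℂ)))) := by
    intro z
    unfold Dk
    push_cast
    rw [add_comm z (4 * l), sin_4l, show 3 * l - z = -(z + -(3 * l)) by ring, Complex.sin_neg,
      add_comm (3 * l : ℂ) z]
    by_cases h3 : sin (z + 3 * l) = 0
    · simp [h3]
    by_cases h4 : sin (z + -(3 * l)) = 0
    · simp [h4]
    field_simp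
  have := ((((PB_sin K (4 * l)).mul (PB_inv_sin hK (3 * l) h1)).mul (PB_inv_sin hK (-(3 * l))
    (fun d hd => by rw [← sub_eq_add_neg]; exact h2 d hd))).fneg).rate
    (show (1 : ℝ) + -1 + -1 = -1 by norm_num)
  rw [show Dk = fun z => -(sin (z + ((4 * l : ℝ) : ℂ)) * (1 / sin (z + ((3 * l : ℝ) : ℂ))) *
      (1 / sin (z + ((-(3 * l) : ℝ) : ℂ)))) from funext e]
  exact this

theorem PB_CC (K : Set ℝ) : PB 2 K CC := by
  have := ((PB_sin K 0).mul (PB_sin K (3 * l))).rate (show (1 : ℝ) + 1 = 2 by norm_num)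
  unfold CC
  simpa using this

theorem PB_rD (hK : IsCompact K) (h1 : ∀ d ∈ K, Real.sin (d + 3 * l) ≠ 0) : PB (-1) K rD := by
  have := (PB_inv_sin hK (3 * l) h1).fneg
  unfold rD
  simpa using this

theorem PB_DD (hK : IsCompact K) (h1 : ∀ d ∈ K, Real.sin (d + 3 * l) ≠ 0)
    (h2 : ∀ d ∈ K, Real.sin (d - 2 * l) ≠ 0) : PB (-2) K DD := by
  have := ((PB_rD hK h1).mul (PB_inv_sin hK (-(2 * l))
    (fun d hd => by rw [← sub_eq_add_neg]; exact h2 d hd))).rate (show (-1 : ℝ) + -1 = -2 by norm_num)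
  rw [show DD = fun z => rD z * (1 / sin (z + ((-(2 * l) : ℝ) : ℂ))) from funext fun z => by
    rw [DD_pole]
    push_cast
    rw [← sub_eq_add_neg, div_eq_mul_one_div]]
  exact this

theorem PB_Tk (hK : IsCompact K) (h1 : ∀ d ∈ K, Real.sin (d + l) ≠ 0)
    (h2 : ∀ d ∈ K, Real.sin (d - 2 * l) ≠ 0) : PB 0 K Tk := by
  have := ((((PB_sin K (-l)).mul (PB_sin K (2 * l))).mul ((PB_inv_sin hK (-(2 * l))
    (fun d hd => by rw [← sub_eq_add_neg]; exact h2 d hd)).mul (PB_inv_sin hK l h1))).fneg).rate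
    (show (1 : ℝ) + 1 + (-1 + -1) = 0 by norm_num)
  rw [show Tk = fun z => -(sin (z + ((-l : ℝ) : ℂ)) * sin (z + ((2 * l : ℝ) : ℂ)) *
      (1 / sin (z + ((-(2 * l) : ℝ) : ℂ)) * (1 / sin (z + (l : ℂ))))) from funext fun z => by
    unfold Tk
    push_cast
    rw [← sub_eq_add_neg, ← sub_eq_add_neg, show 2 * l - z = -(z - 2 * l) by ring, Complex.sin_neg]
    by_cases h3 : sin (z - 2 * l) = 0
    · simp [h3]
    by_cases h4 : sin (z + l) = 0
    · simp [h4]
    field_simp]
  exact this

/-- `q` -/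
theorem PB_q (hK : IsCompact K) (h1 : ∀ d ∈ K, Real.sin (d + l) ≠ 0)
    (h2 : ∀ d ∈ K, Real.sin (d + -l) ≠ 0) : PB 2 K q :=
  ⟨bdd_q hK h1 h2, fun z hz => by
    have e1 : sin (z + l) ≠ 0 := Bd.sin_ne_zero_of_re (by
      rw [add_re, ofReal_re]
      exact h1 _ hz)
    have e2 : sin (z - l) ≠ 0 := Bd.sin_ne_zero_of_re (by
      rw [sub_re, ofReal_re, sub_eq_add_neg]
      exact h2 _ hz)
    unfold q
    exact DifferentiableAt.div (by fun_prop) (by fun_prop) (mul_ne_zero e1 e2)⟩

end bounds


theorem measurable_CC : Measurable CC := by unfold CC; fun_prop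

theorem measurable_DD : Measurable DD := by unfold DD; fun_prop

theorem measurable_rD : Measurable rD := by unfold rD; fun_prop

theorem measurable_Tk : Measurable Tk := by unfold Tk; fun_prop

theorem measurable_Ck : Measurable Ck := by unfold Ck; fun_prop

theorem measurable_Dk : Measurable Dk := by unfold Dk; fun_prop

theorem measurable_qg : Measurable qg := by unfold qg; fun_prop

/-! ## captured quanta -/

/-- string and a captured quantum of the other species, `y = u - c` -/
def QQ (y : ℂ) : ℂ := 1 / (sin (y - 3 * l) ^ 2 * sin (y + 2 * l) ^ 2)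

/-- string and the half quantum `y ↦ Ck y`, `y = v - c` -/
def C2 (y : ℂ) : ℂ := sin (y + 2 * l) * sin (y - l)

/-- class D1, string, `z = w - v` -/
def TTk (z : ℂ) : ℂ := sin z * sin (z + 3 * l) / (sin (z - 2 * l) * sin (z + l))

theorem cos_ml (y : ℂ) : cos (y - l) = sin (3 * l + y) := by
  have := cos_l (-y)
  rw [show -y + l = -(y - l) by ring, Complex.cos_neg] at this
  rw [this]
  congr 1
  ring

theorem QQ_eq {y : ℂ} (h1 : cos y ≠ 0) (h2 : sin (3 * l + y) ≠ 0) : qg y * qg (y - l) = QQ y := by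
  unfold qg QQ
  rw [cos_ml, show y - l + 3 * l = y + 2 * l by ring, show y - l - 3 * l = -(4 * l - y) by ring,
    Complex.sin_neg, show (4 : ℂ) * l - y = 4 * l + (-y) by ring, sin_4l, Complex.cos_neg, neg_sq,
    add_comm y (3 * l)]
  by_cases h3 : sin (y - 3 * l) = 0
  · simp [h3]
  by_cases h4 : sin (y + 2 * l) = 0
  · simp [h4]
  field_simp

theorem C2_eq {y : ℂ} (h1 : sin (y + l) ≠ 0) (h2 : sin y ≠ 0) : Ck y * Ck (y - l) = C2 y := by
  unfold Ck C2
  rw [show y - l + 2 * l = y + l by ring, show y - l + l = y by ring]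
  field_simp

theorem TTk_eq {z : ℂ} (h1 : sin (z - l) ≠ 0) (h2 : sin (z + 2 * l) ≠ 0) : Tk z * Tk (z + l) = TTk z := by
  unfold Tk TTk
  rw [show z + l - l = z by ring, show z + l + 2 * l = z + 3 * l by ring,
    show 2 * l - (z + l) = -(z - l) by ring, show z + l + l = z + 2 * l by ring,
    show 2 * l - z = -(z - 2 * l) by ring, Complex.sin_neg, Complex.sin_neg]
  by_cases h3 : sin (z - 2 * l) = 0
  · simp [h3]
  by_cases h4 : sin (z + l) = 0
  · simp [h4]
  rw [div_mul_div_comm, div_eq_div_iff (mul_ne_zero (mul_ne_zero (neg_ne_zero.2 h3) h4)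
    (mul_ne_zero (neg_ne_zero.2 h1) h2)) (mul_ne_zero h3 h4)]
  ring

/-- one body functions of `x = w - u` for the kinds: `f` for quanta, `g` for strings -/
def pick (f g : ℂ → ℂ) : Option O3 → ℂ → ℂ
  | none => f
  | some .L => f
  | some .S => g
  | some .T => g

/-- own species, `w` with a captured quantum at `w + 3 l` of the other species -/
def CP (x : ℂ) : ℂ := Ck x * qg (x + 3 * l)

/-- the same for strings -/
def CCP (x : ℂ) : ℂ := CC x * QQ (-x - 3 * l)

/-- other species, `w` with the captured quantum -/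
def DP (x : ℂ) : ℂ := Ck (-x - 3 * l)

/-- the same for strings -/
def DDP (x : ℂ) : ℂ := C2 (-x - 3 * l)

/-- **half quantum alone**: `c` = the objects are of its own species -/
def SF (c : Bool) : Option O3 → ℂ → ℂ := if c then pick Ck CC else pick Dk DD

/-- **half quantum with a captured quantum** at `w + 3 l` -/
def SP (c : Bool) : Option O3 → ℂ → ℂ := if c then pick CP CCP else pick DP DDP

/-- **two half quanta at distance `3 l`** -/
def SD (c : Bool) : Option O3 → ℂ → ℂ := if c then pick (fun _ => 1) (fun _ => 1) else pick Tk TTk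

/-- left ends of the strips of the kinds -/
def loK : Option O3 → ℝ
  | none => 3 / 5 * l
  | some .L => -(17 / 10 * l)
  | some .S => -(13 / 10 * l)
  | some .T => -(7 / 10 * l)

/-- right ends of the strips of the kinds -/
def hiK : Option O3 → ℝ
  | none => 21 / 20 * l
  | some .L => -(5 / 4 * l)
  | some .S => -(7 / 10 * l)
  | some .T => -(l / 2)

theorem PB_QQ {K : Set ℝ} (hK : IsCompact K) (h1 : ∀ d ∈ K, Real.sin (d - 3 * l) ≠ 0)
    (h2 : ∀ d ∈ K, Real.sin (d + 2 * l) ≠ 0) : PB (-4) K QQ := by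
  have a1 := PB_inv_sin hK (-(3 * l)) fun d hd => by rw [← sub_eq_add_neg]; exact h1 d hd
  have a2 := PB_inv_sin hK (2 * l) h2
  have := ((a1.mul a1).mul (a2.mul a2)).rate (show (-1 : ℝ) + -1 + (-1 + -1) = -4 by norm_num)
  rw [show QQ = fun y => 1 / sin (y + ((-(3 * l) : ℝ) : ℂ)) * (1 / sin (y + ((-(3 * l) : ℝ) : ℂ))) *
      (1 / sin (y + ((2 * l : ℝ) : ℂ)) * (1 / sin (y + ((2 * l : ℝ) : ℂ)))) from funext fun y => by
    unfold QQ
    push_cast
    rw [← sub_eq_add_neg]
    by_cases h3 : sin (y - 3 * l) = 0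
    · simp [h3]
    by_cases h4 : sin (y + 2 * l) = 0
    · simp [h4]
    field_simp]
  exact this

theorem PB_C2 (K : Set ℝ) : PB 2 K C2 := by
  have := ((PB_sin K (2 * l)).mul (PB_sin K (-l))).rate (show (1 : ℝ) + 1 = 2 by norm_num)
  unfold C2
  push_cast at this
  simpa only [sub_eq_add_neg] using this

theorem PB_TTk {K : Set ℝ} (hK : IsCompact K) (h1 : ∀ d ∈ K, Real.sin (d + l) ≠ 0)
    (h2 : ∀ d ∈ K, Real.sin (d - 2 * l) ≠ 0) : PB 0 K TTk := by
  have := ((PB_CC K).mul ((PB_inv_sin hK (-(2 * l))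
    (fun d hd => by rw [← sub_eq_add_neg]; exact h2 d hd)).mul (PB_inv_sin hK l h1))).rate
    (show (2 : ℝ) + (-1 + -1) = 0 by norm_num)
  rw [show TTk = fun z => CC z * (1 / sin (z + ((-(2 * l) : ℝ) : ℂ)) * (1 / sin (z + (l : ℂ)))) from
    funext fun z => by
    unfold TTk CC
    push_cast
    rw [← sub_eq_add_neg]
    by_cases h3 : sin (z - 2 * l) = 0
    · simp [h3]
    by_cases h4 : sin (z + l) = 0
    · simp [h4]
    field_simp]
  exact this

theorem PB_qg {K : Set ℝ} (hK : IsCompact K) (h1 : ∀ d ∈ K, Real.sin (d + 3 * l) ≠ 0)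
    (h2 : ∀ d ∈ K, Real.sin (d + -(3 * l)) ≠ 0) : PB (-2) K qg :=
  ⟨bdd_qg hK rfl rfl h1 h2, fun z hz => by
    have e1 : sin (z + 3 * l) ≠ 0 := Bd.sin_ne_zero_of_re (by
      have := h1 _ hz
      simpa using this)
    have e2 : sin (z - 3 * l) ≠ 0 := Bd.sin_ne_zero_of_re (by
      have := h2 _ hz
      simpa [sub_eq_add_neg] using this)
    unfold qg
    exact DifferentiableAt.div (by fun_prop) (by fun_prop)
      (mul_ne_zero (pow_ne_zero 2 e1) (pow_ne_zero 2 e2))⟩

/-- reflection of the argument and a shift -/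
theorem PB.refl {s : ℝ} {K K' : Set ℝ} {g : ℂ → ℂ} (h : PB s K' g) (a : ℝ)
    (hK : ∀ x ∈ K, -x - a ∈ K') : PB s K fun z => g (-z - a) := by
  obtain ⟨⟨C, hC, h1⟩, h2⟩ := h
  refine ⟨⟨C, hC, fun z hz => ?_⟩, fun z hz => ?_⟩
  · have := h1 (-z - a) (by rw [sub_re, neg_re, ofReal_re]; exact hK _ hz)
    rwa [sub_im, neg_im, ofReal_im, sub_zero, abs_neg] at this
  · exact DifferentiableAt.comp z (h2 (-z - a) (by rw [sub_re, neg_re, ofReal_re]; exact hK _ hz))
      (differentiableAt_id.neg.sub_const _)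

/-- multiples of `l` -/
theorem sin_ne_mul {x a : ℝ} (h : (0 < x + a ∧ x + a < 8 * l) ∨ (x + a < 0 ∧ -(8 * l) < x + a)) :
    Real.sin (x + a) ≠ 0 := by
  rcases h with ⟨h1, h2⟩ | ⟨h1, h2⟩
  · exact sin_ne_pos h1 h2
  · exact sin_ne_neg h1 h2



section ranges

/-- the hypotheses at a position `p` of the half quantum, for the kind `k` -/
theorem PB_SF_of {K : Set ℝ} (hK : IsCompact K) (c : Bool) (k : Option O3)
    (h1 : c = true → k = none ∨ k = some .L → ∀ d ∈ K, Real.sin (d + l) ≠ 0)
    (h2 : c = false → k = none ∨ k = some .L → ∀ d ∈ K, Real.sin (d + 3 * l) ≠ 0 ∧ Real.sin (d - 3 * l) ≠ 0)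
    (h3 : c = false → k = some .S ∨ k = some .T → ∀ d ∈ K, Real.sin (d + 3 * l) ≠ 0 ∧
      Real.sin (d - 2 * l) ≠ 0) : PB (sc (c, ob4 k)) K (SF c k) := by
  rcases c with _ | _
  · rcases k with _ | (_ | _ | _)
    · exact (PB_Dk hK (fun d hd => (h2 rfl (Or.inl rfl) d hd).1)
        fun d hd => (h2 rfl (Or.inl rfl) d hd).2).rate (by simp [sc, chg, ob4])
    · exact (PB_Dk hK (fun d hd => (h2 rfl (Or.inr rfl) d hd).1)
        fun d hd => (h2 rfl (Or.inr rfl) d hd).2).rate (by simp [sc, chg, ob4, ob3])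
    · exact (PB_DD hK (fun d hd => (h3 rfl (Or.inl rfl) d hd).1)
        fun d hd => (h3 rfl (Or.inl rfl) d hd).2).rate (by simp [sc, chg, ob4, ob3])
    · exact (PB_DD hK (fun d hd => (h3 rfl (Or.inr rfl) d hd).1)
        fun d hd => (h3 rfl (Or.inr rfl) d hd).2).rate (by simp [sc, chg, ob4, ob3])
  · rcases k with _ | (_ | _ | _)
    · exact (PB_Ck hK fun d hd => h1 rfl (Or.inl rfl) d hd).rate (by simp [sc, chg, ob4])
    · exact (PB_Ck hK fun d hd => h1 rfl (Or.inr rfl) d hd).rate (by simp [sc, chg, ob4, ob3])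
    · exact (PB_CC K).rate (by simp [sc, chg, ob4, ob3])
    · exact (PB_CC K).rate (by simp [sc, chg, ob4, ob3])

/-- **The half quantum between `31/50 l` and `5/4 l`**; excepted: strings `S` of the other species
(pole `x = 2 l`). -/
theorem PB_SF_A (c : Bool) (k : Option O3) (h : c = true ∨ k ≠ some .S) :
    PB (sc (c, ob4 k)) (Set.Icc (31 / 50 * l - hiK k) (5 / 4 * l - loK k)) (SF c k) := by
  have hl := Bd.l_pos
  refine PB_SF_of isCompact_Icc c k (fun _ hk d hd => ?_) (fun _ hk d hd => ?_)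
    (fun hc hk d hd => ?_)
  · rcases hk with rfl | rfl <;> obtain ⟨h1, h2⟩ := hd <;> simp only [hiK, loK] at h1 h2
    · (first | exact sin_ne_mul (Or.inl ⟨by linarith, by linarith⟩) | exact sin_ne_mul (Or.inr ⟨by linarith, by linarith⟩) | exact sin_ne_pos (by linarith) (by linarith) | exact sin_ne_neg (by linarith) (by linarith))
    · (first | exact sin_ne_mul (Or.inl ⟨by linarith, by linarith⟩) | exact sin_ne_mul (Or.inr ⟨by linarith, by linarith⟩) | exact sin_ne_pos (by linarith) (by linarith) | exact sin_ne_neg (by linarith) (by linarith))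
  · rcases hk with rfl | rfl <;> obtain ⟨h1, h2⟩ := hd <;> simp only [hiK, loK] at h1 h2 <;>
      constructor <;> (first | exact sin_ne_mul (Or.inl ⟨by linarith, by linarith⟩) | exact sin_ne_mul (Or.inr ⟨by linarith, by linarith⟩) | exact sin_ne_pos (by linarith) (by linarith) | exact sin_ne_neg (by linarith) (by linarith))
  · rcases hk with rfl | rfl
    · rcases h with h | h
      · rw [hc] at h
        exact absurd h (by decide)
      · exact absurd rfl h
    · obtain ⟨h1, h2⟩ := hd
      simp only [hiK, loK] at h1 h2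
      constructor <;> (first | exact sin_ne_mul (Or.inl ⟨by linarith, by linarith⟩) | exact sin_ne_mul (Or.inr ⟨by linarith, by linarith⟩) | exact sin_ne_pos (by linarith) (by linarith) | exact sin_ne_neg (by linarith) (by linarith))

/-- **The half quantum at `31/50 l`.** -/
theorem PB_SF_a0 (c : Bool) (k : Option O3) :
    PB (sc (c, ob4 k)) (Set.Icc (31 / 50 * l - hiK k) (31 / 50 * l - loK k)) (SF c k) := by
  have hl := Bd.l_pos
  refine PB_SF_of isCompact_Icc c k (fun _ hk d hd => ?_) (fun _ hk d hd => ?_)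
    (fun hc hk d hd => ?_)
  all_goals
    rcases hk with rfl | rfl <;> obtain ⟨h1, h2⟩ := hd <;> simp only [hiK, loK] at h1 h2
  · (first | exact sin_ne_mul (Or.inl ⟨by linarith, by linarith⟩) | exact sin_ne_mul (Or.inr ⟨by linarith, by linarith⟩) | exact sin_ne_pos (by linarith) (by linarith) | exact sin_ne_neg (by linarith) (by linarith))
  · (first | exact sin_ne_mul (Or.inl ⟨by linarith, by linarith⟩) | exact sin_ne_mul (Or.inr ⟨by linarith, by linarith⟩) | exact sin_ne_pos (by linarith) (by linarith) | exact sin_ne_neg (by linarith) (by linarith))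
  all_goals
    constructor <;> (first | exact sin_ne_mul (Or.inl ⟨by linarith, by linarith⟩) | exact sin_ne_mul (Or.inr ⟨by linarith, by linarith⟩) | exact sin_ne_pos (by linarith) (by linarith) | exact sin_ne_neg (by linarith) (by linarith))

/-- **The half quantum at `-11/4 l`.** -/
theorem PB_SF_B (c : Bool) (k : Option O3) :
    PB (sc (c, ob4 k)) (Set.Icc (-(11 / 4) * l - hiK k) (-(11 / 4) * l - loK k)) (SF c k) := by
  have hl := Bd.l_pos
  refine PB_SF_of isCompact_Icc c k (fun _ hk d hd => ?_) (fun _ hk d hd => ?_)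
    (fun hc hk d hd => ?_)
  all_goals
    rcases hk with rfl | rfl <;> obtain ⟨h1, h2⟩ := hd <;> simp only [hiK, loK] at h1 h2
  · (first | exact sin_ne_mul (Or.inl ⟨by linarith, by linarith⟩) | exact sin_ne_mul (Or.inr ⟨by linarith, by linarith⟩) | exact sin_ne_pos (by linarith) (by linarith) | exact sin_ne_neg (by linarith) (by linarith))
  · (first | exact sin_ne_mul (Or.inl ⟨by linarith, by linarith⟩) | exact sin_ne_mul (Or.inr ⟨by linarith, by linarith⟩) | exact sin_ne_pos (by linarith) (by linarith) | exact sin_ne_neg (by linarith) (by linarith))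
  all_goals
    constructor <;> (first | exact sin_ne_mul (Or.inl ⟨by linarith, by linarith⟩) | exact sin_ne_mul (Or.inr ⟨by linarith, by linarith⟩) | exact sin_ne_pos (by linarith) (by linarith) | exact sin_ne_neg (by linarith) (by linarith))

/-- the regular part at the strings `S` of the other species between `31/50 l` and `5/4 l`:
`DD x = rD x / sin (x - 2 l)` -/
theorem PB_rD_S : PB (-1) (Set.Icc (31 / 50 * l - hiK (some .S)) (5 / 4 * l - loK (some .S))) rD := by
  have hl := Bd.l_pos
  refine PB_rD isCompact_Icc fun d hd => ?_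
  obtain ⟨h1, h2⟩ := hd
  simp only [hiK, loK] at h1 h2
  (first | exact sin_ne_mul (Or.inl ⟨by linarith, by linarith⟩) | exact sin_ne_mul (Or.inr ⟨by linarith, by linarith⟩) | exact sin_ne_pos (by linarith) (by linarith) | exact sin_ne_neg (by linarith) (by linarith))

/-- **The half quantum at `-11/4 l` with its captured quantum.** -/
theorem PB_SP_B (c : Bool) (k : Option O3) :
    PB (-sc (c, ob4 k)) (Set.Icc (-(11 / 4) * l - hiK k) (-(11 / 4) * l - loK k)) (SP c k) := by
  have hl := Bd.l_pos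
  have key : ∀ k : Option O3, k = none ∨ k = some .L →
      PB (-1) (Set.Icc (-(11 / 4) * l - hiK k) (-(11 / 4) * l - loK k)) CP ∧
      PB 1 (Set.Icc (-(11 / 4) * l - hiK k) (-(11 / 4) * l - loK k)) DP := by
    intro k hk
    constructor
    · have a1 : PB 1 (Set.Icc (-(11 / 4) * l - hiK k) (-(11 / 4) * l - loK k)) Ck := by
        refine PB_Ck isCompact_Icc fun d hd => ?_
        rcases hk with rfl | rfl <;> obtain ⟨h1, h2⟩ := hd <;> simp only [hiK, loK] at h1 h2 <;> (first | exact sin_ne_mul (Or.inl ⟨by linarith, by linarith⟩) | exact sin_ne_mul (Or.inr ⟨by linarith, by linarith⟩) | exact sin_ne_pos (by linarith) (by linarith) | exact sin_ne_neg (by linarith) (by linarith))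
      have a2 : PB (-2) (Set.Icc (-(11 / 4) * l - hiK k + 3 * l) (-(11 / 4) * l - loK k + 3 * l)) qg := by
        refine PB_qg isCompact_Icc (fun d hd => ?_) fun d hd => ?_
        all_goals
          rcases hk with rfl | rfl <;> obtain ⟨h1, h2⟩ := hd <;> simp only [hiK, loK] at h1 h2 <;> (first | exact sin_ne_mul (Or.inl ⟨by linarith, by linarith⟩) | exact sin_ne_mul (Or.inr ⟨by linarith, by linarith⟩) | exact sin_ne_pos (by linarith) (by linarith) | exact sin_ne_neg (by linarith) (by linarith))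
      have a3 := a2.shift (K := Set.Icc (-(11 / 4) * l - hiK k) (-(11 / 4) * l - loK k)) (3 * l)
        fun x hx => ⟨by linarith [hx.1], by linarith [hx.2]⟩
      refine ((a1.mul a3).rate (by norm_num)).congr' fun z => ?_
      unfold CP
      push_cast
      rfl
    · have a2 : PB 1 (Set.Icc (-(-(11 / 4) * l - loK k) - 3 * l) (-(-(11 / 4) * l - hiK k) - 3 * l)) Ck := by
        refine PB_Ck isCompact_Icc fun d hd => ?_
        rcases hk with rfl | rfl <;> obtain ⟨h1, h2⟩ := hd <;> simp only [hiK, loK] at h1 h2 <;> (first | exact sin_ne_mul (Or.inl ⟨by linarith, by linarith⟩) | exact sin_ne_mul (Or.inr ⟨by linarith, by linarith⟩) | exact sin_ne_pos (by linarith) (by linarith) | exact sin_ne_neg (by linarith) (by linarith))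
      refine (a2.refl (3 * l) fun x hx => ⟨by linarith [hx.2], by linarith [hx.1]⟩).congr' fun z => ?_
      unfold DP
      push_cast
      rfl
  have key2 : ∀ k : Option O3, k = some .S ∨ k = some .T →
      PB (-2) (Set.Icc (-(11 / 4) * l - hiK k) (-(11 / 4) * l - loK k)) CCP ∧
      PB 2 (Set.Icc (-(11 / 4) * l - hiK k) (-(11 / 4) * l - loK k)) DDP := by
    intro k hk
    constructor
    · have a2 : PB (-4) (Set.Icc (-(-(11 / 4) * l - loK k) - 3 * l) (-(-(11 / 4) * l - hiK k) - 3 * l))
          QQ := by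
        refine PB_QQ isCompact_Icc (fun d hd => ?_) fun d hd => ?_
        all_goals
          rcases hk with rfl | rfl <;> obtain ⟨h1, h2⟩ := hd <;> simp only [hiK, loK] at h1 h2 <;> (first | exact sin_ne_mul (Or.inl ⟨by linarith, by linarith⟩) | exact sin_ne_mul (Or.inr ⟨by linarith, by linarith⟩) | exact sin_ne_pos (by linarith) (by linarith) | exact sin_ne_neg (by linarith) (by linarith))
      have a3 := a2.refl (K := Set.Icc (-(11 / 4) * l - hiK k) (-(11 / 4) * l - loK k)) (3 * l)
        fun x hx => ⟨by linarith [hx.2], by linarith [hx.1]⟩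
      refine (((PB_CC _).mul a3).rate (by norm_num)).congr' fun z => ?_
      unfold CCP
      push_cast
      rfl
    · refine ((PB_C2 (Set.Icc (-(-(11 / 4) * l - loK k) - 3 * l)
        (-(-(11 / 4) * l - hiK k) - 3 * l))).refl (3 * l) fun x hx =>
        ⟨by linarith [hx.2], by linarith [hx.1]⟩).congr' fun z => ?_
      unfold DDP
      push_cast
      rfl
  rcases c with _ | _
  · rcases k with _ | (_ | _ | _)
    · exact (key none (Or.inl rfl)).2.rate (by simp [sc, chg, ob4])
    · exact (key _ (Or.inr rfl)).2.rate (by simp [sc, chg, ob4, ob3])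
    · exact (key2 _ (Or.inl rfl)).2.rate (by simp [sc, chg, ob4, ob3])
    · exact (key2 _ (Or.inr rfl)).2.rate (by simp [sc, chg, ob4, ob3])
  · rcases k with _ | (_ | _ | _)
    · exact (key none (Or.inl rfl)).1.rate (by simp [sc, chg, ob4])
    · exact (key _ (Or.inr rfl)).1.rate (by simp [sc, chg, ob4, ob3])
    · exact (key2 _ (Or.inl rfl)).1.rate (by simp [sc, chg, ob4, ob3])
    · exact (key2 _ (Or.inr rfl)).1.rate (by simp [sc, chg, ob4, ob3])

/-- **Class D1**, the half quantum at `-11/4 l`. -/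
theorem PB_SD_B (c : Bool) (k : Option O3) :
    PB 0 (Set.Icc (-(11 / 4) * l - hiK k) (-(11 / 4) * l - loK k)) (SD c k) := by
  have hl := Bd.l_pos
  rcases c with _ | _
  · rcases k with _ | (_ | _ | _)
    · refine PB_Tk isCompact_Icc (fun d hd => ?_) fun d hd => ?_ <;>
        obtain ⟨h1, h2⟩ := hd <;> simp only [hiK, loK] at h1 h2 <;> (first | exact sin_ne_mul (Or.inl ⟨by linarith, by linarith⟩) | exact sin_ne_mul (Or.inr ⟨by linarith, by linarith⟩) | exact sin_ne_pos (by linarith) (by linarith) | exact sin_ne_neg (by linarith) (by linarith))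
    · refine PB_Tk isCompact_Icc (fun d hd => ?_) fun d hd => ?_ <;>
        obtain ⟨h1, h2⟩ := hd <;> simp only [hiK, loK] at h1 h2 <;> (first | exact sin_ne_mul (Or.inl ⟨by linarith, by linarith⟩) | exact sin_ne_mul (Or.inr ⟨by linarith, by linarith⟩) | exact sin_ne_pos (by linarith) (by linarith) | exact sin_ne_neg (by linarith) (by linarith))
    · refine PB_TTk isCompact_Icc (fun d hd => ?_) fun d hd => ?_ <;>
        obtain ⟨h1, h2⟩ := hd <;> simp only [hiK, loK] at h1 h2 <;> (first | exact sin_ne_mul (Or.inl ⟨by linarith, by linarith⟩) | exact sin_ne_mul (Or.inr ⟨by linarith, by linarith⟩) | exact sin_ne_pos (by linarith) (by linarith) | exact sin_ne_neg (by linarith) (by linarith))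
    · refine PB_TTk isCompact_Icc (fun d hd => ?_) fun d hd => ?_ <;>
        obtain ⟨h1, h2⟩ := hd <;> simp only [hiK, loK] at h1 h2 <;> (first | exact sin_ne_mul (Or.inl ⟨by linarith, by linarith⟩) | exact sin_ne_mul (Or.inr ⟨by linarith, by linarith⟩) | exact sin_ne_pos (by linarith) (by linarith) | exact sin_ne_neg (by linarith) (by linarith))
  · rcases k with _ | (_ | _ | _) <;> exact PB.const _ 1

end ranges

theorem measurable_SF (c : Bool) (k : Option O3) : Measurable (SF c k) := by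
  rcases c with _ | _
  · rcases k with _ | (_ | _ | _)
    · exact measurable_Dk
    · exact measurable_Dk
    · exact measurable_DD
    · exact measurable_DD
  · rcases k with _ | (_ | _ | _)
    · exact measurable_Ck
    · exact measurable_Ck
    · exact measurable_CC
    · exact measurable_CC

theorem measurable_QQ : Measurable QQ := by unfold QQ; fun_prop

theorem measurable_C2 : Measurable C2 := by unfold C2; fun_prop

theorem measurable_TTk : Measurable TTk := by unfold TTk; fun_prop

theorem measurable_SP (c : Bool) (k : Option O3) : Measurable (SP c k) := by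
  have h1 : Measurable CP := measurable_Ck.mul (measurable_qg.comp (by fun_prop))
  have h2 : Measurable CCP := measurable_CC.mul (measurable_QQ.comp (by fun_prop))
  have h3 : Measurable DP := measurable_Ck.comp (by fun_prop)
  have h4 : Measurable DDP := measurable_C2.comp (by fun_prop)
  rcases c with _ | _
  · rcases k with _ | (_ | _ | _)
    · exact h3
    · exact h3
    · exact h4
    · exact h4
  · rcases k with _ | (_ | _ | _)
    · exact h1
    · exact h1
    · exact h2
    · exact h2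

theorem measurable_SD (c : Bool) (k : Option O3) : Measurable (SD c k) := by
  rcases c with _ | _
  · rcases k with _ | (_ | _ | _)
    · exact measurable_Tk
    · exact measurable_Tk
    · exact measurable_TTk
    · exact measurable_TTk
  · rcases k with _ | (_ | _ | _) <;> exact measurable_const


/-! ## strings are pairs of quanta -/

section strings

theorem SF_mul (c : Bool) {x : ℂ} (h1 : sin (x + l) ≠ 0) (h2 : sin (x + 2 * l) ≠ 0) (h3 : cos x ≠ 0)
    (h4 : sin (3 * l - x) ≠ 0) : SF c (some .S) x = SF c none x * SF c none (x + l) := by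
  rcases c with _ | _
  · exact (DD_eq h3 h4).symm
  · exact (CC_eq h1 h2).symm

theorem qg_neg' (z : ℂ) : qg (-z) = qg z := qg_neg z

theorem SP_mul (c : Bool) {x : ℂ} (h1 : sin (x + l) ≠ 0) (h2 : sin (x + 2 * l) ≠ 0)
    (h3 : sin (x - l) ≠ 0) (h4 : sin x ≠ 0) (h5 : sin (x + 3 * l) ≠ 0) :
    SP c (some .S) x = SP c none x * SP c none (x + l) := by
  have e1 : sin (-x - 3 * l + l) ≠ 0 := by
    rw [show -x - 3 * l + l = -(x + 2 * l) by ring, Complex.sin_neg]
    exact neg_ne_zero.2 h2
  have e2 : sin (-x - 3 * l) ≠ 0 := by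
    rw [show -x - 3 * l = -(x + 3 * l) by ring, Complex.sin_neg]
    exact neg_ne_zero.2 h5
  have e3 : cos (-x - 3 * l) ≠ 0 := by
    rw [show (-x - 3 * l : ℂ) = -(x + 3 * l) by ring, Complex.cos_neg,
      show x + 3 * l = (x + 2 * l) + l by ring, cos_l, show 3 * l - (x + 2 * l) = -(x - l) by ring,
      Complex.sin_neg]
    exact neg_ne_zero.2 h3
  have e4 : sin (3 * l + (-x - 3 * l)) ≠ 0 := by
    rw [show 3 * l + (-x - 3 * l) = -x by ring, Complex.sin_neg]
    exact neg_ne_zero.2 h4
  rcases c with _ | _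
  · show DDP x = DP x * DP (x + l)
    unfold DDP DP
    rw [← C2_eq e1 e2, show -(x + l) - 3 * l = -x - 3 * l - l by ring]
  · show CCP x = CP x * CP (x + l)
    unfold CCP CP
    rw [← CC_eq h1 h2, ← QQ_eq e3 e4, show x + l + 3 * l = -(-x - 3 * l - l) by ring, qg_neg',
      show x + 3 * l = -(-x - 3 * l) by ring, qg_neg']
    ring

theorem SD_mul (c : Bool) {x : ℂ} (h1 : sin (x - l) ≠ 0) (h2 : sin (x + 2 * l) ≠ 0) :
    SD c (some .S) x = SD c none x * SD c none (x + l) := by
  rcases c with _ | _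
  · exact (TTk_eq h1 h2).symm
  · show (1 : ℂ) = 1 * 1
    ring

end strings

/-! ## half quanta as spectators of both species -/

/-- factors of a half quantum of charge `cw` at the position `p` -/
structure HQ (cw p : ℝ) (S : Bool → Option O3 → ℂ → ℂ) : Prop where
  pb : ∀ c k, PB (2 * cw * sc (c, ob4 k)) (Set.Icc (p - hiK k) (p - loK k)) (S c k)
  ms : ∀ c k, Measurable (S c k)
  kL : ∀ c, S c (some .L) = S c none
  kT : ∀ c, S c (some .T) = S c (some .S)
  mul : ∀ c (x : ℂ), x.re = p + 7 / 10 * l → S c (some .S) x = S c none x * S c none (x + l)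

theorem HQ_SF_a0 : HQ (1 / 2) (31 / 50 * l) SF where
  pb c k := (PB_SF_a0 c k).rate (by ring)
  ms := measurable_SF
  kL c := by cases c <;> rfl
  kT c := by cases c <;> rfl
  mul c x hx := by
    have hl := Bd.l_pos
    refine SF_mul c ?_ ?_ ?_ ?_
    · exact Bd.sin_ne_zero_of_re (by rw [add_re, ofReal_re, hx]; (first | exact sin_ne_mul (Or.inl ⟨by linarith, by linarith⟩) | exact sin_ne_mul (Or.inr ⟨by linarith, by linarith⟩) | exact sin_ne_pos (by linarith) (by linarith) | exact sin_ne_neg (by linarith) (by linarith)))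
    · refine Bd.sin_ne_zero_of_re ?_
      have : (x + 2 * l).re = x.re + 2 * l := by simp
      rw [this, hx]
      (first | exact sin_ne_mul (Or.inl ⟨by linarith, by linarith⟩) | exact sin_ne_mul (Or.inr ⟨by linarith, by linarith⟩) | exact sin_ne_pos (by linarith) (by linarith) | exact sin_ne_neg (by linarith) (by linarith))
    · rw [← sin_4l]
      refine Bd.sin_ne_zero_of_re ?_
      have : (4 * l + x).re = x.re + 4 * l := by simp [add_comm]
      rw [this, hx]
      (first | exact sin_ne_mul (Or.inl ⟨by linarith, by linarith⟩) | exact sin_ne_mul (Or.inr ⟨by linarith, by linarith⟩) | exact sin_ne_pos (by linarith) (by linarith) | exact sin_ne_neg (by linarith) (by linarith))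
    · refine Bd.sin_ne_zero_of_re ?_
      have : (3 * l - x).re = 3 * l - x.re := by simp
      rw [this, hx]
      (first | exact sin_ne_mul (Or.inl ⟨by linarith, by linarith⟩) | exact sin_ne_mul (Or.inr ⟨by linarith, by linarith⟩) | exact sin_ne_pos (by linarith) (by linarith) | exact sin_ne_neg (by linarith) (by linarith))

theorem HQ_SF_B : HQ (1 / 2) (-(11 / 4) * l) SF where
  pb c k := (PB_SF_B c k).rate (by ring)
  ms := measurable_SF
  kL c := by cases c <;> rfl
  kT c := by cases c <;> rfl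
  mul c x hx := by
    have hl := Bd.l_pos
    refine SF_mul c ?_ ?_ ?_ ?_
    · exact Bd.sin_ne_zero_of_re (by rw [add_re, ofReal_re, hx]; (first | exact sin_ne_mul (Or.inl ⟨by linarith, by linarith⟩) | exact sin_ne_mul (Or.inr ⟨by linarith, by linarith⟩) | exact sin_ne_pos (by linarith) (by linarith) | exact sin_ne_neg (by linarith) (by linarith)))
    · refine Bd.sin_ne_zero_of_re ?_
      have : (x + 2 * l).re = x.re + 2 * l := by simp
      rw [this, hx]
      (first | exact sin_ne_mul (Or.inl ⟨by linarith, by linarith⟩) | exact sin_ne_mul (Or.inr ⟨by linarith, by linarith⟩) | exact sin_ne_pos (by linarith) (by linarith) | exact sin_ne_neg (by linarith) (by linarith))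
    · rw [← sin_4l]
      refine Bd.sin_ne_zero_of_re ?_
      have : (4 * l + x).re = x.re + 4 * l := by simp [add_comm]
      rw [this, hx]
      (first | exact sin_ne_mul (Or.inl ⟨by linarith, by linarith⟩) | exact sin_ne_mul (Or.inr ⟨by linarith, by linarith⟩) | exact sin_ne_pos (by linarith) (by linarith) | exact sin_ne_neg (by linarith) (by linarith))
    · refine Bd.sin_ne_zero_of_re ?_
      have : (3 * l - x).re = 3 * l - x.re := by simp
      rw [this, hx]
      (first | exact sin_ne_mul (Or.inl ⟨by linarith, by linarith⟩) | exact sin_ne_mul (Or.inr ⟨by linarith, by linarith⟩) | exact sin_ne_pos (by linarith) (by linarith) | exact sin_ne_neg (by linarith) (by linarith))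

theorem HQ_SP_B : HQ (-1 / 2) (-(11 / 4) * l) SP where
  pb c k := (PB_SP_B c k).rate (by ring)
  ms := measurable_SP
  kL c := by cases c <;> rfl
  kT c := by cases c <;> rfl
  mul c x hx := by
    have hl := Bd.l_pos
    refine SP_mul c ?_ ?_ ?_ ?_ ?_
    · exact Bd.sin_ne_zero_of_re (by rw [add_re, ofReal_re, hx]; (first | exact sin_ne_mul (Or.inl ⟨by linarith, by linarith⟩) | exact sin_ne_mul (Or.inr ⟨by linarith, by linarith⟩) | exact sin_ne_pos (by linarith) (by linarith) | exact sin_ne_neg (by linarith) (by linarith)))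
    · refine Bd.sin_ne_zero_of_re ?_
      have : (x + 2 * l).re = x.re + 2 * l := by simp
      rw [this, hx]
      (first | exact sin_ne_mul (Or.inl ⟨by linarith, by linarith⟩) | exact sin_ne_mul (Or.inr ⟨by linarith, by linarith⟩) | exact sin_ne_pos (by linarith) (by linarith) | exact sin_ne_neg (by linarith) (by linarith))
    · refine Bd.sin_ne_zero_of_re ?_
      rw [sub_re, ofReal_re, hx]
      (first | exact sin_ne_mul (Or.inl ⟨by linarith, by linarith⟩) | exact sin_ne_mul (Or.inr ⟨by linarith, by linarith⟩) | exact sin_ne_pos (by linarith) (by linarith) | exact sin_ne_neg (by linarith) (by linarith))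
    · refine Bd.sin_ne_zero_of_re ?_
      rw [hx]
      (first | exact sin_ne_mul (Or.inl ⟨by linarith, by linarith⟩) | exact sin_ne_mul (Or.inr ⟨by linarith, by linarith⟩) | exact sin_ne_pos (by linarith) (by linarith) | exact sin_ne_neg (by linarith) (by linarith))
    · refine Bd.sin_ne_zero_of_re ?_
      have : (x + 3 * l).re = x.re + 3 * l := by simp
      rw [this, hx]
      (first | exact sin_ne_mul (Or.inl ⟨by linarith, by linarith⟩) | exact sin_ne_mul (Or.inr ⟨by linarith, by linarith⟩) | exact sin_ne_pos (by linarith) (by linarith) | exact sin_ne_neg (by linarith) (by linarith))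

theorem HQ_SD_B : HQ 0 (-(11 / 4) * l) SD where
  pb c k := (PB_SD_B c k).rate (by ring)
  ms := measurable_SD
  kL c := by cases c <;> rfl
  kT c := by cases c <;> rfl
  mul c x hx := by
    have hl := Bd.l_pos
    refine SD_mul c ?_ ?_
    · refine Bd.sin_ne_zero_of_re ?_
      rw [sub_re, ofReal_re, hx]
      (first | exact sin_ne_mul (Or.inl ⟨by linarith, by linarith⟩) | exact sin_ne_mul (Or.inr ⟨by linarith, by linarith⟩) | exact sin_ne_pos (by linarith) (by linarith) | exact sin_ne_neg (by linarith) (by linarith))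
    · refine Bd.sin_ne_zero_of_re ?_
      have : (x + 2 * l).re = x.re + 2 * l := by simp
      rw [this, hx]
      (first | exact sin_ne_mul (Or.inl ⟨by linarith, by linarith⟩) | exact sin_ne_mul (Or.inr ⟨by linarith, by linarith⟩) | exact sin_ne_pos (by linarith) (by linarith) | exact sin_ne_neg (by linarith) (by linarith))

/-- no spectator -/
theorem HQ_one (p : ℝ) : HQ 0 p fun _ _ _ => 1 where
  pb c k := (PB.const _ 1).rate (by ring)
  ms _ _ := measurable_const
  kL _ := rfl
  kT _ := rfl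
  mul _ _ _ := by ring

theorem PB.union {s : ℝ} {K K' : Set ℝ} {g : ℂ → ℂ} (h : PB s K g) (h' : PB s K' g) :
    PB s (K ∪ K') g := by
  obtain ⟨⟨C, hC, h1⟩, h2⟩ := h
  obtain ⟨⟨D, hD, h3⟩, h4⟩ := h'
  refine ⟨⟨C + D, add_nonneg hC hD, fun z hz => ?_⟩, fun z hz => ?_⟩
  · rw [add_mul]
    rcases hz with hz | hz
    · exact (h1 z hz).trans (le_add_of_nonneg_right (mul_nonneg hD (Real.exp_pos _).le))
    · exact (h3 z hz).trans (le_add_of_nonneg_left (mul_nonneg hC (Real.exp_pos _).le))
  · rcases hz with hz | hz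
    · exact h2 z hz
    · exact h4 z hz

section two

variable {a b p q : ℝ} {F G : Bool → Option O3 → ℂ → ℂ} {w w' : ℂ}

theorem HQ.one1 (h : HQ a p F) (hw : w.re = p) (c : Bool) :
    PB (2 * a * sc (c, .A)) (Set.Icc (3 / 5 * l) (21 / 20 * l) ∪ Set.Icc (-(17 / 10 * l)) (-(5 / 4 * l)))
      fun u => F c none (w - u) := by
  refine PB.union ?_ ?_
  · refine (h.pb c none).one w fun x hx => ?_
    simp only [hiK, loK]
    rw [hw]
    exact ⟨by linarith [hx.2], by linarith [hx.1]⟩
  · have := h.pb c (some .L)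
    rw [h.kL] at this
    refine (this.rate (s' := 2 * a * sc (c, .A)) (by cases c <;> simp [sc, chg, ob4, ob3])).one w
      fun x hx => ?_
    simp only [hiK, loK]
    rw [hw]
    exact ⟨by linarith [hx.2], by linarith [hx.1]⟩

theorem HQ.one2 (h : HQ a p F) (hw : w.re = p) (c : Bool) :
    PB (2 * a * sc (c, .S)) (Set.Icc (-(13 / 10 * l)) (-(7 / 10 * l)) ∪
      Set.Icc (-(7 / 10 * l)) (-(l / 2))) fun u => F c (some .S) (w - u) := by
  refine PB.union ?_ ?_
  · refine (h.pb c (some .S)).one w fun x hx => ?_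
    simp only [hiK, loK]
    rw [hw]
    exact ⟨by linarith [hx.2], by linarith [hx.1]⟩
  · have := h.pb c (some .T)
    rw [h.kT] at this
    refine this.one w fun x hx => ?_
    simp only [hiK, loK]
    rw [hw]
    exact ⟨by linarith [hx.2], by linarith [hx.1]⟩

theorem K1_le : K1 ⊆ Set.Icc (3 / 5 * l) (21 / 20 * l) ∪ Set.Icc (-(17 / 10 * l)) (-(5 / 4 * l)) := by
  have hl := Bd.l_pos
  rintro x (⟨h1, h2⟩ | ⟨h1, h2⟩)
  · exact Or.inl ⟨h1, by linarith⟩
  · exact Or.inr ⟨h1, h2⟩

theorem K2_le : K2 ⊆ Set.Icc (-(13 / 10 * l)) (-(7 / 10 * l)) ∪ Set.Icc (-(7 / 10 * l)) (-(l / 2)) := by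
  rintro x ⟨h1, h2⟩
  rcases le_total x (-(7 / 10 * l)) with h | h
  · exact Or.inl ⟨h1, h⟩
  · exact Or.inr ⟨h, h2⟩

theorem specQ_of (c : Bool) {Q : ℝ} (hF : HQ a p F) (hG : HQ b q G) (hw : w.re = p)
    (hw' : w'.re = q) (hQ : b - a = Q) : SpecQ c Q
      (fun u => F c none (w - u) * G (!c) none (w' - u))
      (fun u => F c (some .S) (w - u) * G (!c) (some .S) (w' - u)) where
  m1 := ((hF.ms _ _).comp (measurable_const.sub measurable_id)).mul
    ((hG.ms _ _).comp (measurable_const.sub measurable_id))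
  m2 := ((hF.ms _ _).comp (measurable_const.sub measurable_id)).mul
    ((hG.ms _ _).comp (measurable_const.sub measurable_id))
  b1 := (((hF.one1 hw c).mul (hG.one1 hw' (!c))).mono K1_le).1.rate (by
    subst hQ
    cases c <;> simp [sc, chg] <;> ring)
  b2 := (((hF.one2 hw c).mul (hG.one2 hw' (!c))).mono K2_le).1.rate (by
    subst hQ
    cases c <;> simp [sc, chg] <;> ring)
  d1 := (((hF.one1 hw c).mul (hG.one1 hw' (!c))).mono K1_le).2
  d2 := (((hF.one2 hw c).mul (hG.one2 hw' (!c))).mono K2_le).2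
  mul z hz := by
    have e1 : (w - z).re = p + 7 / 10 * l := by rw [sub_re, hw, hz]; ring
    have e2 : (w' - z).re = q + 7 / 10 * l := by rw [sub_re, hw', hz]; ring
    rw [hF.mul _ _ e1, hG.mul _ _ e2, show w - (z - l) = w - z + l by ring,
      show w' - (z - l) = w' - z + l by ring]
    ring


/-- one constant for all kinds, uniform in the height of the half quantum -/
theorem HQ.uni (h : HQ a p F) : ∃ C : ℝ, 0 ≤ C ∧ ∀ (c : Bool) (k : Option O3) (w u : ℂ), w.re = p →
    u.re ∈ Set.Icc (loK k) (hiK k) →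
    ‖F c k (w - u)‖ ≤ C * Real.exp (2 * a * sc (c, ob4 k) * |w.im - u.im|) := by
  have h1 : ∀ c k, ∃ C : ℝ, 0 ≤ C ∧ ∀ z : ℂ, z.re ∈ Set.Icc (p - hiK k) (p - loK k) →
      ‖F c k z‖ ≤ C * Real.exp (2 * a * sc (c, ob4 k) * |z.im|) := fun c k => (h.pb c k).1
  choose C hC h1 using h1
  have s1 : ∀ c k, C c k ≤ ∑ c, ∑ k, C c k := by
    intro c k
    have a1 : C c k ≤ ∑ k, C c k :=
      Finset.single_le_sum (f := fun k => C c k) (fun k _ => hC c k) (Finset.mem_univ k)
    exact a1.trans (Finset.single_le_sum (f := fun c => ∑ k, C c k)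
      (fun c _ => Finset.sum_nonneg fun k _ => hC c k) (Finset.mem_univ c))
  refine ⟨∑ c, ∑ k, C c k, Finset.sum_nonneg fun c _ => Finset.sum_nonneg fun k _ => hC c k,
    fun c k w u hw hu => ?_⟩
  have h2 := h1 c k (w - u) (by rw [sub_re, hw]; exact ⟨by linarith [hu.2], by linarith [hu.1]⟩)
  rw [sub_im] at h2
  exact h2.trans (mul_le_mul_of_nonneg_right (s1 c k) (Real.exp_pos _).le)

/-- **The spectator factors, uniformly in the heights of both half quanta.** -/
theorem uni2 (hF : HQ a p F) (hG : HQ b q G) : ∃ C : ℝ, 0 ≤ C ∧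
    ∀ (c : Bool) (k : Option O3) (w w' u : ℂ), w.re = p → w'.re = q →
    u.re ∈ Set.Icc (loK k) (hiK k) → ‖F c k (w - u) * G (!c) k (w' - u)‖ ≤
      C * Real.exp (2 * a * sc (c, ob4 k) * |w.im - u.im| +
        2 * b * sc (!c, ob4 k) * |w'.im - u.im|) := by
  obtain ⟨C, hC, h1⟩ := hF.uni
  obtain ⟨D, hD, h2⟩ := hG.uni
  refine ⟨C * D, mul_nonneg hC hD, fun c k w w' u hw hw' hu => ?_⟩
  rw [norm_mul, Real.exp_add]
  calc _ ≤ (C * Real.exp (2 * a * sc (c, ob4 k) * |w.im - u.im|)) *
        (D * Real.exp (2 * b * sc (!c, ob4 k) * |w'.im - u.im|)) :=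
        mul_le_mul (h1 c k w u hw hu) (h2 (!c) k w' u hw' hu) (norm_nonneg _) (by positivity)
    _ = _ := by ring

theorem HQ.meas2 (h : HQ a p F) (c : Bool) (k : Option O3) :
    Measurable fun x : ℂ × ℂ => F c k (x.1 - x.2) :=
  (h.ms c k).comp (measurable_fst.sub measurable_snd)

theorem measurable_spec (hF : HQ a p F) (hG : HQ b q G) (c : Bool) (k : Option O3) :
    Measurable fun x : (ℂ × ℂ) × ℂ => F c k (x.1.1 - x.2) * G (!c) k (x.1.2 - x.2) :=
  ((hF.ms c k).comp ((measurable_fst.comp measurable_fst).sub measurable_snd)).mul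
    ((hG.ms (!c) k).comp ((measurable_snd.comp measurable_fst).sub measurable_snd))

end two


/-! ## the classes in the form of `NUP1L/Final` -/

section classes

variable {w w' : ℂ}

/-- the real part of a half quantum which is alone: `31/50 l` or `-11/4 l` -/
def Pos (w : ℂ) : Prop := w.re = 31 / 50 * l ∨ w.re = -(11 / 4) * l

theorem Pos.hq (h : Pos w) : HQ (1 / 2) w.re SF := by
  rcases h with h | h
  · rw [h]; exact HQ_SF_a0
  · rw [h]; exact HQ_SF_B

/-- both alone, species X -/
theorem specX_WW (h : Pos w) (h' : Pos w') : SpecQ true 0 (fun u => Ck (w - u) * Dk (w' - u))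
    (fun u => CC (w - u) * DD (w' - u)) :=
  specQ_of true h.hq h'.hq rfl rfl (by ring)

/-- both alone, species Y -/
theorem specY_WW (h : Pos w) (h' : Pos w') : SpecQ false 0 (fun v => Dk (w - v) * Ck (w' - v))
    (fun v => DD (w - v) * CC (w' - v)) :=
  specQ_of false h.hq h'.hq rfl rfl (by ring)

theorem qg_c (w u : ℂ) : qg (u - (w + 3 * l)) = qg (w - u + 3 * l) := by
  rw [← qg_neg']
  congr 1
  ring

theorem QQ_c (w u : ℂ) : QQ (u - (w + 3 * l)) = QQ (-(w - u) - 3 * l) := by
  congr 1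
  ring

theorem Ck_c (w u : ℂ) : Ck (u - (w + 3 * l)) = Ck (-(w - u) - 3 * l) := by
  congr 1
  ring

theorem C2_c (w u : ℂ) : C2 (u - (w + 3 * l)) = C2 (-(w - u) - 3 * l) := by
  congr 1
  ring

theorem SpecQ.congr {c : Bool} {Q : ℝ} {s1 s2 t1 t2 : ℂ → ℂ} (h : SpecQ c Q s1 s2)
    (e1 : ∀ u, t1 u = s1 u) (e2 : ∀ u, t2 u = s2 u) : SpecQ c Q t1 t2 := by
  rw [show t1 = s1 from funext e1, show t2 = s2 from funext e2]
  exact h

/-- `w` with a captured quantum Y, species X -/
theorem specX_P (h : w.re = -(11 / 4) * l) (h' : Pos w') : SpecQ true 1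
    (fun u => Ck (w - u) * Dk (w' - u) * qg (u - (w + 3 * l)))
    (fun u => CC (w - u) * DD (w' - u) * QQ (u - (w + 3 * l))) := by
  refine (specQ_of true HQ_SP_B h'.hq h rfl (Q := 1) (by norm_num)).congr (fun u => ?_) fun u => ?_
  · rw [qg_c]
    show _ = Ck (w - u) * qg (w - u + 3 * l) * Dk (w' - u)
    ring
  · rw [QQ_c]
    show _ = CC (w - u) * QQ (-(w - u) - 3 * l) * DD (w' - u)
    ring

/-- `w` with a captured quantum Y, species Y -/
theorem specY_P (h : w.re = -(11 / 4) * l) (h' : Pos w') : SpecQ false 1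
    (fun v => Ck (w' - v) * Ck (v - (w + 3 * l))) (fun v => CC (w' - v) * C2 (v - (w + 3 * l))) := by
  refine (specQ_of false HQ_SP_B h'.hq h rfl (Q := 1) (by norm_num)).congr (fun u => ?_) fun u => ?_
  · rw [Ck_c]
    show _ = Ck (-(w - u) - 3 * l) * Ck (w' - u)
    ring
  · rw [C2_c]
    show _ = C2 (-(w - u) - 3 * l) * CC (w' - u)
    ring

/-- `w'` with a captured quantum X, species X -/
theorem specX_P' (h : Pos w) (h' : w'.re = -(11 / 4) * l) : SpecQ true (-1)
    (fun u => Ck (w - u) * Ck (u - (w' + 3 * l))) (fun u => CC (w - u) * C2 (u - (w' + 3 * l))) := by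
  refine (specQ_of true h.hq HQ_SP_B rfl h' (Q := -1) (by norm_num)).congr (fun u => ?_) fun u => ?_
  · rw [Ck_c]
    rfl
  · rw [C2_c]
    rfl

/-- `w'` with a captured quantum X, species Y -/
theorem specY_P' (h : Pos w) (h' : w'.re = -(11 / 4) * l) : SpecQ false (-1)
    (fun v => Dk (w - v) * Ck (w' - v) * qg (v - (w' + 3 * l)))
    (fun v => DD (w - v) * CC (w' - v) * QQ (v - (w' + 3 * l))) := by
  refine (specQ_of false h.hq HQ_SP_B rfl h' (Q := -1) (by norm_num)).congr (fun u => ?_) fun u => ?_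
  · rw [qg_c]
    show _ = Dk (w - u) * (Ck (w' - u) * qg (w' - u + 3 * l))
    ring
  · rw [QQ_c]
    show _ = DD (w - u) * (CC (w' - u) * QQ (-(w' - u) - 3 * l))
    ring

/-- both with a captured quantum, species X -/
theorem specX_PP (h : w.re = -(11 / 4) * l) (h' : w'.re = -(11 / 4) * l) : SpecQ true 0
    (fun u => Ck (w - u) * qg (u - (w + 3 * l)) * Ck (u - (w' + 3 * l)))
    (fun u => CC (w - u) * QQ (u - (w + 3 * l)) * C2 (u - (w' + 3 * l))) := by
  refine (specQ_of true HQ_SP_B HQ_SP_B h h' (Q := 0) (by norm_num)).congr (fun u => ?_) fun u => ?_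
  · rw [qg_c, Ck_c]
    rfl
  · rw [QQ_c, C2_c]
    rfl

/-- both with a captured quantum, species Y -/
theorem specY_PP (h : w.re = -(11 / 4) * l) (h' : w'.re = -(11 / 4) * l) : SpecQ false 0
    (fun v => Ck (w' - v) * Ck (v - (w + 3 * l)) * qg (v - (w' + 3 * l)))
    (fun v => CC (w' - v) * C2 (v - (w + 3 * l)) * QQ (v - (w' + 3 * l))) := by
  refine (specQ_of false HQ_SP_B HQ_SP_B h h' (Q := 0) (by norm_num)).congr (fun u => ?_) fun u => ?_
  · rw [qg_c, Ck_c]
    show _ = Ck (-(w - u) - 3 * l) * (Ck (w' - u) * qg (w' - u + 3 * l))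
    ring
  · rw [QQ_c, C2_c]
    show _ = C2 (-(w - u) - 3 * l) * (CC (w' - u) * QQ (-(w' - u) - 3 * l))
    ring

/-- class D1: the species which sees both half quanta -/
theorem spec_D (c : Bool) (h : w.re = -(11 / 4) * l) : SpecQ c 0 (fun v => Tk (w - v))
    (fun v => TTk (w - v)) := by
  rcases c with _ | _
  · exact (specQ_of false HQ_SD_B (HQ_one 0) (w := w) (w' := 0) h rfl (Q := 0) (by norm_num)).congr
      (fun u => (mul_one _).symm) fun u => (mul_one _).symm
  · exact (specQ_of true (HQ_one 0) HQ_SD_B (w := 0) (w' := w) rfl h (Q := 0) (by norm_num)).congr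
      (fun u => (one_mul _).symm) fun u => (one_mul _).symm

/-- no spectator -/
theorem spec_one (c : Bool) : SpecQ c 0 (fun _ => 1) (fun _ => 1) :=
  (specQ_of c (HQ_one 0) (HQ_one 0) (w := 0) (w' := 0) rfl rfl (Q := 0) (by norm_num)).congr
    (fun _ => (one_mul 1).symm) fun _ => (one_mul 1).symm

end classes

end NURow

end
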